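import Pool.Agent.TH339.GR1

/-!
The functional `N f = sup ‖c‖` over the families `c` admissible for the coefficients of `f`: it is
a `1/3`-norm equivalent to the norm, and all greedy approximations with respect to it are best
approximations.
-/

set_option autoImplicit false

open Finset

namespace Pool.Agent.TH339.GR

variable {J 𝕜 V : Type*} [RCLike 𝕜] [NormedAddCommGroup V] [NormedSpace 𝕜 V]

/-- The data: synthesis, coefficients, and the two estimates. -/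
structure Sys (J 𝕜 V : Type*) [RCLike 𝕜] [NormedAddCommGroup V] [NormedSpace 𝕜 V] where
  /-- synthesis -/
  syn : (J →₀ 𝕜) →ₗ[𝕜] V
  /-- coefficients -/
  cf : V →ₗ[𝕜] (J → 𝕜)
  /-- bound -/
  K : ℝ
  bound : ∀ (f : V) (c : J →₀ 𝕜), Ad (cf f) c → ‖syn c‖ ≤ K * ‖f‖
  approx : ∀ (f : V) (ε : ℝ), 0 < ε → ∃ c : J →₀ 𝕜, Ad (cf f) c ∧ ‖f‖ ≤ ‖syn c‖ + ε

variable (S : Sys J 𝕜 V)

/-- The new quasi-norm. -/
noncomputable def Sys.N (f : V) : ℝ := sSup {r : ℝ | ∃ c : J →₀ 𝕜, Ad (S.cf f) c ∧ r = ‖S.syn c‖}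

lemma Sys.set_nonempty (f : V) : {r : ℝ | ∃ c : J →₀ 𝕜, Ad (S.cf f) c ∧ r = ‖S.syn c‖}.Nonempty :=
  ⟨_, 0, Ad_zero _, rfl⟩

lemma Sys.set_bdd (f : V) : BddAbove {r : ℝ | ∃ c : J →₀ 𝕜, Ad (S.cf f) c ∧ r = ‖S.syn c‖} := by
  refine ⟨S.K * ‖f‖, ?_⟩
  rintro r ⟨c, hc, rfl⟩
  exact S.bound f c hc

lemma Sys.le_N {f : V} {c : J →₀ 𝕜} (hc : Ad (S.cf f) c) : ‖S.syn c‖ ≤ S.N f :=
  le_csSup (S.set_bdd f) ⟨c, hc, rfl⟩

lemma Sys.N_le {f : V} {r : ℝ} (h : ∀ c, Ad (S.cf f) c → ‖S.syn c‖ ≤ r) : S.N f ≤ r := by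
  apply csSup_le (S.set_nonempty f)
  rintro _ ⟨c, hc, rfl⟩
  exact h c hc

lemma Sys.N_nonneg (f : V) : 0 ≤ S.N f := by
  have := S.le_N (Ad_zero (S.cf f))
  rwa [map_zero, norm_zero] at this

lemma Sys.N_le_norm (f : V) : S.N f ≤ S.K * ‖f‖ := S.N_le fun c hc => S.bound f c hc

lemma Sys.norm_le_N (f : V) : ‖f‖ ≤ S.N f := by
  apply le_of_forall_pos_le_add
  intro ε hε
  obtain ⟨c, hc, h⟩ := S.approx f ε hε
  exact h.trans (add_le_add_left (S.le_N hc) ε)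

lemma Sys.N_eq_zero (f : V) : S.N f = 0 ↔ f = 0 := by
  constructor
  · intro h
    have := S.norm_le_N f
    rw [h] at this
    exact norm_le_zero_iff.1 this
  · rintro rfl
    apply le_antisymm _ (S.N_nonneg _)
    have := S.N_le_norm 0
    rwa [norm_zero, mul_zero] at this

lemma Sys.N_smul_le (z : 𝕜) (f : V) : ‖z‖ * S.N f ≤ S.N (z • f) := by
  by_cases hz : z = 0
  · subst hz; rw [norm_zero, zero_mul]; exact S.N_nonneg _
  have hz' : 0 < ‖z‖ := norm_pos_iff.2 hz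
  rw [mul_comm, ← le_div_iff₀ hz']
  apply S.N_le
  intro c hc
  rw [le_div_iff₀ hz', mul_comm, ← norm_smul, ← map_smul]
  apply S.le_N
  have h1 := Ad_smul hc z
  have h2 : (fun j => z * S.cf f j) = S.cf (z • f) := by
    funext j
    rw [map_smul, Pi.smul_apply, smul_eq_mul]
  rwa [h2] at h1

lemma Sys.N_smul (z : 𝕜) (f : V) : S.N (z • f) = ‖z‖ * S.N f := by
  apply le_antisymm _ (S.N_smul_le z f)
  by_cases hz : z = 0
  · subst hz
    rw [norm_zero, zero_mul, zero_smul, (S.N_eq_zero 0).2 rfl]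
  have h1 := S.N_smul_le z⁻¹ (z • f)
  rw [smul_smul, inv_mul_cancel₀ hz, one_smul] at h1
  have hz' : 0 < ‖z‖ := norm_pos_iff.2 hz
  calc S.N (z • f) = ‖z‖ * (‖z⁻¹‖ * S.N (z • f)) := by
        rw [norm_inv, ← mul_assoc, mul_inv_cancel₀ hz'.ne', one_mul]
    _ ≤ ‖z‖ * S.N f := mul_le_mul_of_nonneg_left h1 hz'.le

/-- Quantitative triangle inequality. -/
lemma Sys.N_add_le {θ : ℝ} (hθ0 : 0 < θ) (hθ1 : θ < 1) (f g : V) :
    S.N (f + g) ≤ S.N f / (1 - θ) + S.N g + S.N g / θ := by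
  have hθ1' : 0 < 1 - θ := by linarith
  apply S.N_le
  intro c hc
  have h0 : S.cf (f + g) = fun j => S.cf f j + S.cf g j := by
    rw [map_add]; rfl
  rw [h0] at hc
  obtain ⟨c₁, c₂, c₃, rfl, h1, h2, h3⟩ := Ad_add hθ0 hθ1 hc
  have e1 : ‖S.syn c₁‖ ≤ S.N f / (1 - θ) := by
    have := S.le_N h1
    rw [map_smul, norm_smul, RCLike.norm_ofReal, abs_of_pos hθ1'] at this
    rw [le_div_iff₀ hθ1', mul_comm]; exact this
  have e2 : ‖S.syn c₂‖ ≤ S.N g := S.le_N h2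
  have e3 : ‖S.syn c₃‖ ≤ S.N g / θ := by
    have := S.le_N h3
    rw [map_smul, norm_smul, RCLike.norm_ofReal, abs_of_pos hθ0] at this
    rw [le_div_iff₀ hθ0, mul_comm]; exact this
  rw [map_add, map_add]
  calc ‖S.syn c₁ + S.syn c₂ + S.syn c₃‖ ≤ ‖S.syn c₁‖ + ‖S.syn c₂‖ + ‖S.syn c₃‖ := norm_add₃_le
    _ ≤ _ := by linarith

lemma Sys.N_add_aux {f g : V} (h : S.N g ≤ S.N f) :
    S.N (f + g) ^ (1 / 3 : ℝ) ≤ S.N f ^ (1 / 3 : ℝ) + S.N g ^ (1 / 3 : ℝ) := by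
  rcases (S.N_nonneg g).eq_or_lt with hg | hg
  · have hg0 : g = 0 := (S.N_eq_zero g).1 hg.symm
    subst hg0
    rw [add_zero]
    linarith [Real.rpow_nonneg (S.N_nonneg (0 : V)) (1 / 3 : ℝ)]
  have hf : 0 < S.N f := hg.trans_le h
  set x : ℝ := S.N f ^ (1 / 3 : ℝ) with hx
  set y : ℝ := S.N g ^ (1 / 3 : ℝ) with hy
  have hx0 : 0 < x := Real.rpow_pos_of_pos hf _
  have hy0 : 0 < y := Real.rpow_pos_of_pos hg _
  have hyx : y ≤ x := Real.rpow_le_rpow hg.le h (by norm_num)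
  have hx3 : S.N f = x ^ 3 := by
    rw [hx, ← Real.rpow_natCast, ← Real.rpow_mul hf.le]; norm_num
  have hy3 : S.N g = y ^ 3 := by
    rw [hy, ← Real.rpow_natCast, ← Real.rpow_mul hg.le]; norm_num
  have hθ0 : 0 < y / (2 * x) := by positivity
  have hθ2 : y / (2 * x) ≤ 1 / 2 := by
    rw [div_le_div_iff₀ (by positivity) (by norm_num)]; linarith
  have hmain := S.N_add_le hθ0 (by linarith) f g
  rw [hx3, hy3] at hmain
  have e1 : x ^ 3 / (1 - y / (2 * x)) ≤ x ^ 3 + x ^ 2 * y := by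
    have h1 : 0 < 1 - y / (2 * x) := by linarith
    rw [div_le_iff₀ h1]
    have h2 : (x ^ 3 + x ^ 2 * y) * (1 - y / (2 * x)) = x ^ 3 + x * y * (x - y) / 2 := by
      field_simp; ring
    rw [h2]
    have : 0 ≤ x * y * (x - y) := mul_nonneg (mul_nonneg hx0.le hy0.le) (by linarith)
    linarith
  have e2 : y ^ 3 / (y / (2 * x)) = 2 * x * y ^ 2 := by
    field_simp
  have e3 : S.N (f + g) ≤ (x + y) ^ 3 := by
    calc S.N (f + g) ≤ x ^ 3 + x ^ 2 * y + y ^ 3 + 2 * x * y ^ 2 := by linarith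
      _ ≤ (x + y) ^ 3 := by
          have p1 : 0 < x * x * y := mul_pos (mul_pos hx0 hx0) hy0
          have p2 : 0 < x * y * y := mul_pos (mul_pos hx0 hy0) hy0
          nlinarith
  calc S.N (f + g) ^ (1 / 3 : ℝ) ≤ ((x + y) ^ 3) ^ (1 / 3 : ℝ) :=
        Real.rpow_le_rpow (S.N_nonneg _) e3 (by norm_num)
    _ = x + y := by
        rw [← Real.rpow_natCast, ← Real.rpow_mul (by positivity)]; norm_num

/-- `N` is a `1/3`-norm. -/
lemma Sys.N_add (f g : V) :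
    S.N (f + g) ^ (1 / 3 : ℝ) ≤ S.N f ^ (1 / 3 : ℝ) + S.N g ^ (1 / 3 : ℝ) := by
  rcases le_total (S.N g) (S.N f) with h | h
  · exact S.N_add_aux h
  · rw [add_comm f g, add_comm (S.N f ^ (1 / 3 : ℝ))]
    exact S.N_add_aux h

/-- Greedy approximations are best approximations. -/
lemma Sys.N_greedy [DecidableEq J] {f u w : V} {A B : Finset J}
    (hA : ∀ i ∈ A, ∀ j, j ∉ A → ‖S.cf f j‖ ≤ ‖S.cf f i‖) (hBA : B.card ≤ A.card)
    (hu : ∀ j, S.cf u j = if j ∈ A then 0 else S.cf f j) (hw : ∀ j, j ∉ B → S.cf w j = S.cf f j) :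
    S.N u ≤ S.N w := by
  apply S.N_le
  intro c hc
  apply S.le_N
  have h1 : S.cf u = fun j => if j ∈ A then 0 else S.cf f j := funext hu
  rw [h1] at hc
  exact Ad_greedy hA hBA hw hc

end Pool.Agent.TH339.GR
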