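import Mathlib
import Pool.Agent.H66R3.PG.Dens

/-!
The Haar system on `[0,1)`, indexed by levels and positions, and its description by binary words.
-/

set_option autoImplicit false

open MeasureTheory Finset

namespace Pool.Agent.TH339.HR

open Pool.Agent.H66R3.PG

/-- Indices of the Haar system: `none` for the constant function, `some ⟨n, k⟩` for the dyadic
interval `[k 2^{-n}, (k+1) 2^{-n})`. -/
abbrev HaarIdx : Type := Option (Σ n : ℕ, Fin (2 ^ n))

/-- The Haar functions, normalized in `L_q`. -/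
noncomputable def haarFn (q : ℝ) : HaarIdx → ℝ → ℝ
  | none => (Set.Ico (0 : ℝ) 1).indicator (fun _ => 1)
  | some ⟨n, k⟩ => fun x => (2 : ℝ) ^ ((n : ℝ) / q) *
      ((Set.Ico ((k : ℝ) / 2 ^ n) (((k : ℝ) + 1 / 2) / 2 ^ n)).indicator (fun _ => 1) x -
        (Set.Ico (((k : ℝ) + 1 / 2) / 2 ^ n) (((k : ℝ) + 1) / 2 ^ n)).indicator (fun _ => 1) x)

/-! ### Words and numbers -/

/-- The number with given binary digits. -/
def val (l : List Bool) : ℕ := l.foldl (fun a b => 2 * a + b.toNat) 0

lemma val_append (l : List Bool) (b : Bool) : val (l ++ [b]) = 2 * val l + b.toNat := by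
  simp [val, List.foldl_append]

lemma val_lt (l : List Bool) : val l < 2 ^ l.length := by
  induction l using List.reverseRecOn with
  | nil => simp [val]
  | append_singleton l b ih =>
    rw [val_append, List.length_append, List.length_singleton, pow_succ]
    have : b.toNat ≤ 1 := Bool.toNat_le b
    omega

lemma val_inj (n : ℕ) : ∀ l l' : List Bool, l.length = n → l'.length = n → val l = val l' →
    l = l' := by
  induction n with
  | zero =>
    intro l l' h h' _
    rw [List.length_eq_zero_iff.1 h, List.length_eq_zero_iff.1 h']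
  | succ n ih =>
    intro l l' h h' hv
    rcases List.eq_nil_or_concat l with rfl | ⟨m, b, rfl⟩
    · simp at h
    rcases List.eq_nil_or_concat l' with rfl | ⟨m', b', rfl⟩
    · simp at h'
    rw [List.concat_eq_append] at h hv ⊢
    rw [List.concat_eq_append] at h' hv ⊢
    rw [List.length_append, List.length_singleton] at h h'
    rw [val_append, val_append] at hv
    have h1 : b.toNat ≤ 1 := Bool.toNat_le b
    have h2 : b'.toNat ≤ 1 := Bool.toNat_le b'
    have h3 : val m = val m' := by omega
    have h4 : b.toNat = b'.toNat := by omega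
    have h5 : m = m' := ih m m' (by omega) (by omega) h3
    have h6 : b = b' := by
      cases b <;> cases b' <;> simp_all
    rw [h5, h6]

lemma val_surj (n : ℕ) : ∀ k < 2 ^ n, ∃ l : List Bool, l.length = n ∧ val l = k := by
  induction n with
  | zero =>
    intro k hk
    refine ⟨[], rfl, ?_⟩
    simp at hk
    simp [val, hk]
  | succ n ih =>
    intro k hk
    rw [pow_succ] at hk
    obtain ⟨l, hl, hv⟩ := ih (k / 2) (by omega)
    refine ⟨l ++ [decide (k % 2 = 1)], by simp [hl], ?_⟩
    rw [val_append, hv]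
    rcases Nat.mod_two_eq_zero_or_one k with h | h
    · simp [h]; omega
    · simp [h]; omega

/-- Words are in bijection with pairs of a level and a position. -/
noncomputable def wordEquiv : List Bool ≃ Σ n : ℕ, Fin (2 ^ n) :=
  Equiv.ofBijective (fun l => ⟨l.length, ⟨val l, val_lt l⟩⟩) (by
    constructor
    · intro l l' h
      have h1 : l.length = l'.length := congrArg Sigma.fst h
      have h2 : val l = val l' := by
        have h3 : ∀ a b : (Σ n : ℕ, Fin (2 ^ n)), a = b → (a.2 : ℕ) = (b.2 : ℕ) := by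
          rintro a b rfl; rfl
        exact h3 _ _ h
      exact val_inj _ l l' rfl h1.symm h2
    · rintro ⟨n, k, hk⟩
      obtain ⟨l, hl, hv⟩ := val_surj n k hk
      subst hl
      subst hv
      exact ⟨l, rfl⟩)

/-- The index of the library corresponding to an index. -/
noncomputable def idxEquiv : IR ≃ HaarIdx :=
  ((Equiv.sumComm Unit (List Bool)).trans (Equiv.optionEquivSumPUnit (List Bool)).symm).trans
    (Equiv.optionCongr wordEquiv)

lemma idxEquiv_inl (u : Unit) : idxEquiv (Sum.inl u) = none := rfl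

lemma idxEquiv_inr (l : List Bool) :
    idxEquiv (Sum.inr l) = some ⟨l.length, ⟨val l, val_lt l⟩⟩ := rfl

/-! ### Digits and cells -/

lemma pre_succ (k : ℕ) (x : ℕ → Bool) : pre (k + 1) x = pre k x ++ [x k] := by
  simp [pre, List.range_succ]

lemma val_pre (n : ℕ) {x : ℝ} (hx : x ∈ Set.Ico (0 : ℝ) 1) :
    ((val (pre n (dig x)) : ℕ) : ℤ) = ⌊(2 : ℝ) ^ n * x⌋ := by
  induction n with
  | zero =>
    have : ⌊(2 : ℝ) ^ 0 * x⌋ = 0 := by
      rw [Int.floor_eq_iff]
      simpa using hx
    rw [this]
    simp [val, pre]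
  | succ n ih =>
    rw [pre_succ, val_append]
    have h1 : ⌊(2 : ℝ) ^ n * x⌋ = ⌊(2 : ℝ) ^ (n + 1) * x⌋ / 2 := by
      have h2 : (2 : ℝ) ^ n * x = ((2 : ℝ) ^ (n + 1) * x) / ((2 : ℕ) : ℝ) := by
        push_cast; rw [pow_succ]; ring
      rw [h2, Int.floor_div_natCast]
      rfl
    have h3 : ((dig x n).toNat : ℤ) = ⌊(2 : ℝ) ^ (n + 1) * x⌋ % 2 := by
      unfold dig
      rcases Int.emod_two_eq_zero_or_one ⌊(2 : ℝ) ^ (n + 1) * x⌋ with h | h <;> simp [h]
    push_cast
    rw [ih, h1, h3]
    omega

lemma pre_eq_iff_floor (l : List Bool) {x : ℝ} (hx : x ∈ Set.Ico (0 : ℝ) 1) :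
    pre l.length (dig x) = l ↔ ⌊(2 : ℝ) ^ l.length * x⌋ = (val l : ℤ) := by
  rw [← val_pre l.length hx]
  constructor
  · intro h; rw [h]
  · intro h
    exact val_inj l.length _ _ (pre_length _ _) rfl (by exact_mod_cast h)

lemma haarFn_eq_aux (q : ℝ) (l : List Bool) {x : ℝ} (hx : x ∈ Set.Ico (0 : ℝ) 1) :
    haarFn q (some ⟨l.length, ⟨val l, val_lt l⟩⟩) x = haar q l (dig x) := by
  set n := l.length with hn
  have h2n : (0 : ℝ) < 2 ^ n := by positivity
  have hw : (2 : ℝ) ^ ((n : ℝ) / q) = wt q n := by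
    unfold wt
    rw [← Real.rpow_natCast, ← Real.rpow_mul (by norm_num), mul_one_div]
  have hx1 : x = (2 ^ n * x) / 2 ^ n := by field_simp
  unfold haarFn haar
  simp only
  rw [hw, ← hn, mul_assoc]
  congr 1
  have hfl1 : ((⌊(2 : ℝ) ^ n * x⌋ : ℤ) : ℝ) ≤ 2 ^ n * x := Int.floor_le _
  have hfl2 : (2 : ℝ) ^ n * x < ⌊(2 : ℝ) ^ n * x⌋ + 1 := Int.lt_floor_add_one _
  unfold cellI
  rw [← hn]
  by_cases hc : pre n (dig x) = l
  · rw [if_pos hc, one_mul]
    have h1 := (pre_eq_iff_floor l hx).1 hc
    rw [← hn] at h1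
    rw [h1] at hfl1 hfl2
    push_cast at hfl1 hfl2
    have hd : ((dig x n).toNat : ℤ) = ⌊(2 : ℝ) ^ (n + 1) * x⌋ - 2 * val l := by
      have h2 := val_pre (n + 1) hx
      rw [pre_succ, val_append, hc] at h2
      push_cast at h2
      linarith
    unfold rd
    cases hdx : dig x n with
    | false =>
      rw [hdx] at hd
      simp only [Bool.toNat_false, Nat.cast_zero] at hd
      have h3 : ⌊(2 : ℝ) ^ (n + 1) * x⌋ = 2 * val l := by linarith
      have h4 : (2 : ℝ) ^ (n + 1) * x < 2 * val l + 1 := by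
        have := Int.lt_floor_add_one ((2 : ℝ) ^ (n + 1) * x)
        rw [h3] at this
        push_cast at this
        exact this
      rw [pow_succ] at h4
      rw [Set.indicator_of_mem, Set.indicator_of_notMem]
      · simp
      · rw [Set.mem_Ico, not_and_or]
        left
        rw [not_le, hx1]
        apply div_lt_div_of_pos_right _ h2n
        linarith
      · rw [Set.mem_Ico, hx1]
        constructor
        · exact div_le_div_of_nonneg_right hfl1 h2n.le
        · apply div_lt_div_of_pos_right _ h2n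
          linarith
    | true =>
      rw [hdx] at hd
      simp only [Bool.toNat_true, Nat.cast_one] at hd
      have h3 : ⌊(2 : ℝ) ^ (n + 1) * x⌋ = 2 * val l + 1 := by linarith
      have h4 : (2 : ℝ) * val l + 1 ≤ 2 ^ (n + 1) * x := by
        have := Int.floor_le ((2 : ℝ) ^ (n + 1) * x)
        rw [h3] at this
        push_cast at this
        exact this
      rw [pow_succ] at h4
      rw [Set.indicator_of_notMem, Set.indicator_of_mem]
      · simp
      · rw [Set.mem_Ico, hx1]
        constructor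
        · apply div_le_div_of_nonneg_right _ h2n.le
          linarith
        · exact div_lt_div_of_pos_right hfl2 h2n
      · rw [Set.mem_Ico, not_and_or]
        right
        rw [not_lt, hx1]
        apply div_le_div_of_nonneg_right _ h2n.le
        linarith
  · rw [if_neg hc, zero_mul]
    have h1 : ¬ ⌊(2 : ℝ) ^ n * x⌋ = (val l : ℤ) := fun h => hc ((pre_eq_iff_floor l hx).2 h)
    have h2 : ¬ ((val l : ℝ) ≤ 2 ^ n * x ∧ (2 : ℝ) ^ n * x < val l + 1) := by
      rintro ⟨h3, h4⟩
      apply h1
      rw [Int.floor_eq_iff]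
      push_cast
      exact ⟨h3, h4⟩
    rw [Set.indicator_of_notMem, Set.indicator_of_notMem, sub_zero]
    · rintro ⟨h3, h4⟩
      apply h2
      rw [hx1, div_le_div_iff_of_pos_right h2n] at h3
      rw [hx1, div_lt_div_iff_of_pos_right h2n] at h4
      exact ⟨by linarith, h4⟩
    · rintro ⟨h3, h4⟩
      apply h2
      rw [hx1, div_le_div_iff_of_pos_right h2n] at h3
      rw [hx1, div_lt_div_iff_of_pos_right h2n] at h4
      exact ⟨h3, by linarith⟩

/-- The Haar functions are the functions of the library. -/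
lemma haarFn_eq (q : ℝ) (i : IR) {x : ℝ} (hx : x ∈ Set.Ico (0 : ℝ) 1) :
    haarFn q (idxEquiv i) x = bR q i (dig x) := by
  rcases i with u | l
  · rw [idxEquiv_inl]
    unfold haarFn bR
    simp only
    rw [Set.indicator_of_mem hx]
  · rw [idxEquiv_inr]
    exact haarFn_eq_aux q l hx

lemma ae_Ico : ∀ᵐ x ∂mu, x ∈ Set.Ico (0 : ℝ) 1 := by
  unfold mu
  rw [← Measure.restrict_congr_set Ico_ae_eq_Icc]
  exact ae_restrict_mem measurableSet_Ico

lemma haarFn_ae (q : ℝ) (i : IR) : haarFn q (idxEquiv i) =ᵐ[mu] fun x => bR q i (dig x) := by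
  filter_upwards [ae_Ico] with x hx
  exact haarFn_eq q i hx

end Pool.Agent.TH339.HR
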