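import Mathlib
import Pool.Agent.TH339.HR1

/-!
Estimates for the Haar system: orthogonality, and the upper `ℓ_q` estimate for sums of moduli.
-/

set_option autoImplicit false

open MeasureTheory Finset

namespace Pool.Agent.TH339.HR

open Pool.Agent.H66R3.PG

/-! ### Sums of distinct powers -/

lemma sum_pow_le {r : ℝ} (hr : 1 < r) (M : Finset ℕ) (m : ℕ) (hM : ∀ n ∈ M, n ≤ m) :
    ∑ n ∈ M, r ^ n ≤ r / (r - 1) * r ^ m := by
  have hr0 : 0 < r := by linarith
  have hr1 : 0 < r - 1 := by linarith
  calc ∑ n ∈ M, r ^ n ≤ ∑ n ∈ range (m + 1), r ^ n := by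
        apply Finset.sum_le_sum_of_subset_of_nonneg
        · intro n hn
          exact mem_range.2 (Nat.lt_succ_of_le (hM n hn))
        · intro n _ _; positivity
    _ = (r ^ (m + 1) - 1) / (r - 1) := geom_sum_eq hr.ne' _
    _ ≤ r / (r - 1) * r ^ m := by
        rw [div_mul_eq_mul_div]
        apply div_le_div_of_nonneg_right _ hr1.le
        rw [pow_succ]; linarith

lemma geo {r q : ℝ} (hr : 1 < r) (hq : 0 < q) (M : Finset ℕ) {e : ℝ} (he : e = 0 ∨ e = 1) :
    (e + ∑ n ∈ M, r ^ n) ^ q ≤ (1 + r / (r - 1)) ^ q * (e ^ q + ∑ n ∈ M, (r ^ n) ^ q) := by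
  have hr0 : 0 < r := by linarith
  have hr1 : 0 < r - 1 := by linarith
  have hC : 1 ≤ 1 + r / (r - 1) := by
    have : 0 ≤ r / (r - 1) := by positivity
    linarith
  have hCq : 1 ≤ (1 + r / (r - 1)) ^ q := Real.one_le_rpow hC hq.le
  have he0 : 0 ≤ e := by rcases he with rfl | rfl <;> norm_num
  have he1 : e ≤ 1 := by rcases he with rfl | rfl <;> norm_num
  have heq : 0 ≤ e ^ q := Real.rpow_nonneg he0 _
  rcases M.eq_empty_or_nonempty with rfl | hM
  · simp only [sum_empty, add_zero]
    nlinarith
  · obtain ⟨m, hm, hmax⟩ := M.exists_max_image id hM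
    simp only [id] at hmax
    have h1 : e + ∑ n ∈ M, r ^ n ≤ (1 + r / (r - 1)) * r ^ m := by
      have h2 := sum_pow_le hr M m hmax
      have h3 : 1 ≤ r ^ m := one_le_pow₀ hr.le
      linarith
    have h4 : (r ^ m) ^ q ≤ ∑ n ∈ M, (r ^ n) ^ q :=
      Finset.single_le_sum (f := fun n => (r ^ n) ^ q) (fun n _ => by positivity) hm
    calc (e + ∑ n ∈ M, r ^ n) ^ q ≤ ((1 + r / (r - 1)) * r ^ m) ^ q := by
          apply Real.rpow_le_rpow _ h1 hq.le
          exact add_nonneg he0 (sum_nonneg fun n _ => by positivity)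
      _ = (1 + r / (r - 1)) ^ q * (r ^ m) ^ q := Real.mul_rpow (by positivity) (by positivity)
      _ ≤ (1 + r / (r - 1)) ^ q * (e ^ q + ∑ n ∈ M, (r ^ n) ^ q) := by
          apply mul_le_mul_of_nonneg_left _ (by positivity)
          linarith

/-! ### Sums of moduli of Haar functions -/

lemma abs_haar (q : ℝ) (l : List Bool) (x : ℕ → Bool) :
    |haar q l x| = if pre l.length x = l then ((2 : ℝ) ^ (1 / q)) ^ l.length else 0 := by
  unfold haar cellI
  rw [abs_mul, rd_abs, mul_one, abs_mul, abs_of_pos (wt_pos q _)]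
  split_ifs
  · rw [abs_one, mul_one]
    unfold wt
    rw [← Real.rpow_natCast, ← Real.rpow_natCast, ← Real.rpow_mul (by norm_num),
      ← Real.rpow_mul (by norm_num), mul_comm]
  · rw [abs_zero, mul_zero]

/-- Pointwise upper estimate. -/
lemma pointwise {q : ℝ} (hq : 0 < q) (A : Finset IR) (x : ℕ → Bool) :
    (∑ i ∈ A, |bR q i x|) ^ q ≤
      (1 + (2 : ℝ) ^ (1 / q) / ((2 : ℝ) ^ (1 / q) - 1)) ^ q * ∑ i ∈ A, |bR q i x| ^ q := by
  classical
  set r : ℝ := (2 : ℝ) ^ (1 / q) with hr
  have hr1 : 1 < r := Real.one_lt_rpow (by norm_num) (by positivity)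
  set L : Finset (List Bool) := A.toRight.filter (fun l => pre l.length x = l) with hL
  set M : Finset ℕ := L.image List.length with hM
  have hinj : Set.InjOn List.length (L : Set (List Bool)) := by
    intro l hl l' hl' h
    have h1 := (mem_filter.1 hl).2
    have h2 := (mem_filter.1 hl').2
    rw [← h1, ← h2, h]
  set e : ℝ := ∑ i ∈ A.toLeft, (1 : ℝ) with he
  have he01 : e = 0 ∨ e = 1 := by
    have h1 : A.toLeft.card ≤ 1 := by
      calc A.toLeft.card ≤ (univ : Finset Unit).card := card_le_univ _
        _ = 1 := rfl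
    have h2 : e = A.toLeft.card := by rw [he]; simp
    rw [h2]
    have h3 : A.toLeft.card = 0 ∨ A.toLeft.card = 1 := by omega
    rcases h3 with h3 | h3
    · left; rw [h3]; simp
    · right; rw [h3]; simp
  have hsum : ∀ φ : ℝ → ℝ, φ 0 = 0 → φ 1 = 1 → ∑ i ∈ A, φ |bR q i x| = e + ∑ n ∈ M, φ (r ^ n) := by
    intro φ h0 h1
    rw [sum_toLR A]
    congr 1
    · rw [he]
      apply sum_congr rfl
      intro i _
      change φ |(1 : ℝ)| = 1
      rw [abs_one, h1]
    · rw [hM, sum_image hinj, hL, sum_filter]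
      apply sum_congr rfl
      intro l _
      change φ |haar q l x| = _
      rw [abs_haar]
      split_ifs
      · rfl
      · exact h0
  have h1 := hsum id rfl rfl
  have h2 := hsum (fun y => y ^ q) (Real.zero_rpow hq.ne') (Real.one_rpow q)
  simp only [id] at h1
  rw [h1, h2]
  have h3 := geo hr1 hq M he01
  have h4 : e ^ q = e := by
    rcases he01 with h | h
    · rw [h, Real.zero_rpow hq.ne']
    · rw [h, Real.one_rpow]
  rw [h4] at h3
  exact h3

/-- Constant of the upper estimate. -/
noncomputable def cU (q : ℝ) : ℝ := 1 + (2 : ℝ) ^ (1 / q) / ((2 : ℝ) ^ (1 / q) - 1)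

lemma cU_pos {q : ℝ} (hq : 0 < q) : 0 < cU q := by
  have hr1 : 1 < (2 : ℝ) ^ (1 / q) := Real.one_lt_rpow (by norm_num) (by positivity)
  have : 0 ≤ (2 : ℝ) ^ (1 / q) / ((2 : ℝ) ^ (1 / q) - 1) := by
    apply div_nonneg <;> linarith
  unfold cU; linarith

/-- A bound for the number of digits on which the functions of `A` depend. -/
lemma dep_bR (q : ℝ) (i : IR) : Dep (dR i) (bR q i) := Pool.Agent.H66R3.PG.dep_bR q i

lemma E_bR_rpow {q : ℝ} (hq : 0 < q) (i : IR) : E (fun x => |bR q i x| ^ q) = 1 := by
  rcases i with _ | l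
  · change E (fun _ => |(1 : ℝ)| ^ q) = 1
    simp only [abs_one, Real.one_rpow, E_const]
  · exact haar_norm hq l

lemma exists_dep (q : ℝ) (A : Finset IR) : ∃ n, ∀ i ∈ A, Dep n (bR q i) := by
  obtain ⟨n, hn, _⟩ := exists_dep_fam A dR (bR q) (dep_bR q)
  exact ⟨n, hn⟩

/-- Upper estimate. -/
lemma nm_sum_abs {q : ℝ} (hq : 0 < q) (A : Finset IR) :
    nm q (fun x => ∑ i ∈ A, |bR q i x|) ≤ cU q * (A.card : ℝ) ^ (1 / q) := by
  obtain ⟨n, hn⟩ := exists_dep q A
  have hD : ∀ i ∈ A, Dep n (fun x => |bR q i x|) := fun i hi => (hn i hi).map _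
  have hDq : ∀ i ∈ A, Dep n (fun x => |bR q i x| ^ q) := fun i hi => (hn i hi).map (fun y => |y| ^ q)
  have h1 : E (fun x => |(∑ i ∈ A, |bR q i x|)| ^ q) ≤ cU q ^ q * A.card := by
    calc E (fun x => |(∑ i ∈ A, |bR q i x|)| ^ q) ≤
        E (fun x => cU q ^ q * ∑ i ∈ A, |bR q i x| ^ q) := by
          apply E_mono ((Dep.sum A hD).map (fun y => |y| ^ q))
            ((dep_const n _).mul (Dep.sum A hDq))
          intro x
          rw [abs_of_nonneg (sum_nonneg fun i _ => abs_nonneg _)]
          exact pointwise hq A x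
      _ = cU q ^ q * A.card := by
          rw [E_mul_left, E_sum A hDq, sum_congr rfl fun i _ => E_bR_rpow hq i]
          simp
  unfold nm
  calc _ ≤ (cU q ^ q * A.card) ^ (1 / q) := by
        apply Real.rpow_le_rpow (E_nonneg fun x => by positivity) h1 (by positivity)
    _ = cU q * (A.card : ℝ) ^ (1 / q) := by
        rw [Real.mul_rpow (Real.rpow_nonneg (cU_pos hq).le _) (by positivity),
          ← Real.rpow_mul (cU_pos hq).le, mul_one_div, div_self hq.ne', Real.rpow_one]

/-! ### Orthogonality -/

lemma haar_mul_self {p q : ℝ} (hpq : p.HolderConjugate q) (l : List Bool) :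
    E (fun x => haar p l x * haar q l x) = 1 := by
  have h1 : (fun x => haar p l x * haar q l x) =
      fun x => (wt p l.length * wt q l.length) * cellI l x := by
    funext x
    unfold haar
    have h2 : cellI l x * cellI l x = cellI l x := by
      unfold cellI; split_ifs <;> norm_num
    linear_combination (wt p l.length * wt q l.length * cellI l x * cellI l x) * rd_sq l.length x +
      (wt p l.length * wt q l.length) * h2
  rw [h1, E_mul_left, E_cellI]
  have h3 : wt p l.length * wt q l.length = 2 ^ l.length := by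
    unfold wt
    rw [← Real.rpow_add (by positivity), one_div, one_div, hpq.inv_add_inv_eq_one, Real.rpow_one]
  rw [h3, ← mul_pow]
  norm_num

lemma haar_mul_of_lt (p q : ℝ) {l l' : List Bool} (h : l.length < l'.length) :
    E (fun x => haar p l x * haar q l' x) = 0 := by
  have h1 : (fun x => haar p l x * haar q l' x) =
      fun x => (haar p l x * (wt q l'.length * cellI l' x)) * rd l'.length x := by
    funext x
    change haar p l x * (wt q l'.length * cellI l' x * rd l'.length x) = _
    ring
  have hD : Dep l'.length (fun x => haar p l x * (wt q l'.length * cellI l' x)) :=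
    ((dep_haar p l).mono h).mul ((dep_const _ _).mul (dep_cellI l'))
  rw [h1]
  exact E_rd_zero hD _ (flip_of_dep hD le_rfl)

lemma haar_mul_ne {p q : ℝ} {l l' : List Bool} (h : l ≠ l') :
    E (fun x => haar p l x * haar q l' x) = 0 := by
  rcases lt_trichotomy l.length l'.length with h1 | h1 | h1
  · exact haar_mul_of_lt p q h1
  · have h2 : (fun x => haar p l x * haar q l' x) = fun _ => 0 := by
      funext x
      unfold haar cellI
      by_cases h3 : pre l.length x = l
      · have h4 : pre l'.length x ≠ l' := by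
          rw [← h1, h3]; exact h
        rw [if_neg h4]; ring
      · rw [if_neg h3]; ring
    rw [h2, E_const]
  · have h2 : (fun x => haar p l x * haar q l' x) = fun x => haar q l' x * haar p l x := by
      funext x; ring
    rw [h2]; exact haar_mul_of_lt q p h1

lemma E_haar (q : ℝ) (l : List Bool) : E (fun x => haar q l x) = 0 := by
  have hD : Dep l.length (fun x => wt q l.length * cellI l x) :=
    (dep_const _ _).mul (dep_cellI l)
  exact E_rd_zero hD _ (flip_of_dep hD le_rfl)

/-- Biorthogonality. -/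
lemma E_bR_mul {p q : ℝ} (hpq : p.HolderConjugate q) (i j : IR) :
    E (fun x => bR p i x * bR q j x) = if i = j then 1 else 0 := by
  rcases i with u | l <;> rcases j with v | l'
  · have : (Sum.inl u : IR) = Sum.inl v := rfl
    rw [if_pos this]
    change E (fun _ => (1 : ℝ) * 1) = 1
    simp only [mul_one, E_const]
  · rw [if_neg (by simp)]
    change E (fun x => (1 : ℝ) * haar q l' x) = 0
    simp only [one_mul]
    exact E_haar q l'
  · rw [if_neg (by simp)]
    change E (fun x => haar p l x * (1 : ℝ)) = 0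
    simp only [mul_one]
    exact E_haar p l
  · change E (fun x => haar p l x * haar q l' x) = _
    by_cases h : l = l'
    · subst h
      rw [if_pos rfl]
      exact haar_mul_self hpq l
    · rw [if_neg (by simpa using h)]
      exact haar_mul_ne h

end Pool.Agent.TH339.HR
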