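import Mathlib
import Pool.Agent.TH339.HR2
import Pool.Agent.TH339.GR2

/-!
The Haar system in the real or complex space `L_p[0,1]`: unconditionality, density, coefficients.
-/

set_option autoImplicit false

open MeasureTheory Finset
open scoped ENNReal

namespace Pool.Agent.TH339.HR

open Pool.Agent.H66R3.PG Pool.Agent.TH339.GR

variable {P : ℝ≥0∞} [Fact (1 ≤ P)]

/-! ### Real scalars -/

/-- Haar functions in the real space. -/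
noncomputable def hr (P : ℝ≥0∞) (i : IR) : Lp ℝ P mu := cl P (bR P.toReal i)

omit [Fact (1 ≤ P)] in
lemma coe_hr (i : IR) : hr P i =ᵐ[mu] fun x => bR P.toReal i (dig x) :=
  coe_cl (dep_bR P.toReal i)

/-- Real synthesis. -/
noncomputable def synR (P : ℝ≥0∞) [Fact (1 ≤ P)] : (IR →₀ ℝ) →ₗ[ℝ] Lp ℝ P mu :=
  Finsupp.linearCombination ℝ (hr P)

lemma sum_hr (T : Finset IR) (a : IR → ℝ) :
    ∑ i ∈ T, a i • hr P i = cl P (fun x => ∑ i ∈ T, a i * bR P.toReal i x) := by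
  obtain ⟨n, hn⟩ := exists_dep P.toReal T
  exact (cl_sum T a hn).symm

lemma norm_sum_hr (hP : 1 < P.toReal) (T : Finset IR) (a : IR → ℝ) :
    ‖∑ i ∈ T, a i • hr P i‖ = nm P.toReal (fun x => ∑ i ∈ T, a i * bR P.toReal i x) := by
  obtain ⟨n, hn⟩ := exists_dep P.toReal T
  rw [sum_hr]
  exact norm_cl hP (Dep.sum T fun i hi => (dep_const n (a i)).mul (hn i hi))

lemma unc_hr (hP : 1 < P.toReal) : ∃ C : ℝ, 0 < C ∧ ∀ (T : Finset IR) (a θ : IR → ℝ),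
    (∀ i, |θ i| ≤ 1) → ‖∑ i ∈ T, (θ i * a i) • hr P i‖ ≤ C * ‖∑ i ∈ T, a i • hr P i‖ := by
  obtain ⟨C, hC, h⟩ := unc_bR hP
  refine ⟨C, hC, fun T a θ hθ => ?_⟩
  rw [norm_sum_hr hP, norm_sum_hr hP]
  exact h T a θ hθ

lemma synR_eq_sum (c : IR →₀ ℝ) {T : Finset IR} (hT : c.support ⊆ T) :
    synR P c = ∑ i ∈ T, c i • hr P i := by
  unfold synR
  rw [Finsupp.linearCombination_apply, Finsupp.sum_of_support_subset _ hT _ (by simp)]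

/-- Unconditionality with two dominating families. -/
lemma unc_synR (hP : 1 < P.toReal) : ∃ C : ℝ, 0 < C ∧ ∀ x u v : IR →₀ ℝ,
    (∀ i, |x i| ≤ |u i| + |v i|) → ‖synR P x‖ ≤ C * (‖synR P u‖ + ‖synR P v‖) := by
  classical
  obtain ⟨C, hC, h⟩ := unc_hr (P := P) hP
  refine ⟨C, hC, fun x u v hx => ?_⟩
  set T : Finset IR := x.support ∪ u.support ∪ v.support with hT
  have hxT : x.support ⊆ T := subset_union_left.trans subset_union_left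
  have huT : u.support ⊆ T := subset_union_right.trans subset_union_left
  have hvT : v.support ⊆ T := subset_union_right
  set φ : IR → ℝ := fun i => x i / (|u i| + |v i|) * SignType.sign (u i) with hφ
  set ψ : IR → ℝ := fun i => x i / (|u i| + |v i|) * SignType.sign (v i) with hψ
  have habs : ∀ i, |x i / (|u i| + |v i|)| ≤ 1 := by
    intro i
    rw [abs_div, abs_of_nonneg (add_nonneg (abs_nonneg (u i)) (abs_nonneg (v i)))]
    exact div_le_one_of_le₀ (hx i) (by positivity)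
  have hsign : ∀ y : ℝ, |((SignType.sign y : SignType) : ℝ)| ≤ 1 := by
    intro y
    rcases lt_trichotomy y 0 with h | h | h
    · rw [sign_neg h]; simp
    · rw [h, sign_zero]; simp
    · rw [sign_pos h]; simp
  have hφ1 : ∀ i, |φ i| ≤ 1 := fun i => by
    simp only [hφ]; rw [abs_mul]; exact mul_le_one₀ (habs i) (abs_nonneg _) (hsign _)
  have hψ1 : ∀ i, |ψ i| ≤ 1 := fun i => by
    simp only [hψ]; rw [abs_mul]; exact mul_le_one₀ (habs i) (abs_nonneg _) (hsign _)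
  have hsplit : ∀ i, x i = φ i * u i + ψ i * v i := by
    intro i
    simp only [hφ, hψ]
    have h1 : ((SignType.sign (u i) : SignType) : ℝ) * u i = |u i| := sign_mul_self (u i)
    have h2 : ((SignType.sign (v i) : SignType) : ℝ) * v i = |v i| := sign_mul_self (v i)
    rw [mul_assoc, mul_assoc, h1, h2, ← mul_add]
    by_cases h0 : |u i| + |v i| = 0
    · have := hx i
      rw [h0] at this ⊢
      rw [abs_nonpos_iff.1 this]; simp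
    · rw [div_mul_cancel₀ _ h0]
  rw [synR_eq_sum x hxT, synR_eq_sum u huT, synR_eq_sum v hvT]
  have e1 : ∑ i ∈ T, x i • hr P i =
      ∑ i ∈ T, (φ i * u i) • hr P i + ∑ i ∈ T, (ψ i * v i) • hr P i := by
    rw [← sum_add_distrib]
    apply sum_congr rfl
    intro i _
    rw [← add_smul, ← hsplit]
  rw [e1]
  calc _ ≤ ‖∑ i ∈ T, (φ i * u i) • hr P i‖ + ‖∑ i ∈ T, (ψ i * v i) • hr P i‖ := norm_add_le _ _
    _ ≤ C * ‖∑ i ∈ T, u i • hr P i‖ + C * ‖∑ i ∈ T, v i • hr P i‖ :=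
        add_le_add (h T u φ hφ1) (h T v ψ hψ1)
    _ = _ := by ring

/-- Density, real scalars. -/
lemma dense_synR (hPt : P ≠ ⊤) (f : Lp ℝ P mu) {ε : ℝ} (hε : 0 < ε) :
    ∃ d : IR →₀ ℝ, ‖f - synR P d‖ < ε := by
  obtain ⟨n, F, hF, h⟩ := exists_cyl hPt f hε
  have h1 := cyl_SH P.toReal hF
  unfold SH at h1
  rw [Finsupp.mem_span_range_iff_exists_finsupp] at h1
  obtain ⟨d, hd⟩ := h1
  refine ⟨d, ?_⟩
  have h2 : synR P d = cl P F := by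
    rw [synR_eq_sum d (subset_refl _), sum_hr, ← hd]
    congr 1
    funext x
    rw [Finsupp.sum, Finset.sum_apply]
    rfl
  rw [h2]; exact h

/-! ### Real or complex scalars -/

variable {𝕜 : Type*} [RCLike 𝕜]

omit [Fact (1 ≤ P)] in
lemma norm_I_le_one (𝕜 : Type*) [RCLike 𝕜] : ‖(RCLike.I : 𝕜)‖ ≤ 1 := by
  by_cases h : (RCLike.I : 𝕜) = 0
  · rw [h, norm_zero]; exact zero_le_one
  · exact (RCLike.norm_I_of_ne_zero h).le

omit [Fact (1 ≤ P)] in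
lemma norm_le_re_im (z : 𝕜) : ‖z‖ ≤ |RCLike.re z| + |RCLike.im z| := by
  conv_lhs => rw [← RCLike.re_add_im z]
  refine (norm_add_le _ _).trans ?_
  rw [norm_mul, RCLike.norm_ofReal, RCLike.norm_ofReal]
  have := norm_I_le_one 𝕜
  have h2 := abs_nonneg (RCLike.im z)
  nlinarith

/-- Real functions as `𝕜`-valued functions. -/
noncomputable def U (𝕜 : Type*) [RCLike 𝕜] (P : ℝ≥0∞) [Fact (1 ≤ P)] :
    Lp ℝ P mu →L[ℝ] Lp 𝕜 P mu := ContinuousLinearMap.compLpL P mu (RCLike.ofRealCLM : ℝ →L[ℝ] 𝕜)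

/-- Real part. -/
noncomputable def Rp (𝕜 : Type*) [RCLike 𝕜] (P : ℝ≥0∞) [Fact (1 ≤ P)] :
    Lp 𝕜 P mu →L[ℝ] Lp ℝ P mu := ContinuousLinearMap.compLpL P mu (RCLike.reCLM : 𝕜 →L[ℝ] ℝ)

/-- Imaginary part. -/
noncomputable def Ip (𝕜 : Type*) [RCLike 𝕜] (P : ℝ≥0∞) [Fact (1 ≤ P)] :
    Lp 𝕜 P mu →L[ℝ] Lp ℝ P mu := ContinuousLinearMap.compLpL P mu (RCLike.imCLM : 𝕜 →L[ℝ] ℝ)

lemma coe_U (g : Lp ℝ P mu) : U 𝕜 P g =ᵐ[mu] fun x => ((g x : ℝ) : 𝕜) :=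
  ContinuousLinearMap.coeFn_compLpL _ g

lemma coe_Rp (f : Lp 𝕜 P mu) : Rp 𝕜 P f =ᵐ[mu] fun x => RCLike.re (f x) :=
  ContinuousLinearMap.coeFn_compLpL _ f

lemma coe_Ip (f : Lp 𝕜 P mu) : Ip 𝕜 P f =ᵐ[mu] fun x => RCLike.im (f x) :=
  ContinuousLinearMap.coeFn_compLpL _ f

lemma norm_U (g : Lp ℝ P mu) : ‖U 𝕜 P g‖ = ‖g‖ := by
  apply le_antisymm
  · apply Lp.norm_le_norm_of_ae_le
    filter_upwards [coe_U (𝕜 := 𝕜) g] with x hx
    rw [hx, RCLike.norm_ofReal, Real.norm_eq_abs]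
  · apply Lp.norm_le_norm_of_ae_le
    filter_upwards [coe_U (𝕜 := 𝕜) g] with x hx
    rw [hx, RCLike.norm_ofReal, Real.norm_eq_abs]

lemma norm_Rp (f : Lp 𝕜 P mu) : ‖Rp 𝕜 P f‖ ≤ ‖f‖ := by
  apply Lp.norm_le_norm_of_ae_le
  filter_upwards [coe_Rp (𝕜 := 𝕜) f] with x hx
  rw [hx]; exact RCLike.norm_re_le_norm _

lemma norm_Ip (f : Lp 𝕜 P mu) : ‖Ip 𝕜 P f‖ ≤ ‖f‖ := by
  apply Lp.norm_le_norm_of_ae_le
  filter_upwards [coe_Ip (𝕜 := 𝕜) f] with x hx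
  rw [hx]; exact RCLike.norm_im_le_norm _

lemma decomp (f : Lp 𝕜 P mu) :
    f = U 𝕜 P (Rp 𝕜 P f) + (RCLike.I : 𝕜) • U 𝕜 P (Ip 𝕜 P f) := by
  apply Lp.ext
  filter_upwards [coe_U (𝕜 := 𝕜) (Rp 𝕜 P f), coe_U (𝕜 := 𝕜) (Ip 𝕜 P f), coe_Rp f, coe_Ip f,
    Lp.coeFn_add (U 𝕜 P (Rp 𝕜 P f)) ((RCLike.I : 𝕜) • U 𝕜 P (Ip 𝕜 P f)),
    Lp.coeFn_smul (RCLike.I : 𝕜) (U 𝕜 P (Ip 𝕜 P f))] with x h1 h2 h3 h4 h5 h6
  rw [h5, Pi.add_apply, h6, Pi.smul_apply, h1, h2, h3, h4, smul_eq_mul, mul_comm (RCLike.I : 𝕜)]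
  exact (RCLike.re_add_im _).symm

/-- Haar functions in the real or complex space. -/
noncomputable def hk (𝕜 : Type*) [RCLike 𝕜] (P : ℝ≥0∞) [Fact (1 ≤ P)] (i : IR) : Lp 𝕜 P mu :=
  U 𝕜 P (hr P i)

lemma coe_hk (i : IR) : hk 𝕜 P i =ᵐ[mu] fun x => ((bR P.toReal i (dig x) : ℝ) : 𝕜) := by
  filter_upwards [coe_U (𝕜 := 𝕜) (hr P i), coe_hr (P := P) i] with x h1 h2
  unfold hk
  rw [h1, h2]

/-- Synthesis. -/
noncomputable def synK (𝕜 : Type*) [RCLike 𝕜] (P : ℝ≥0∞) [Fact (1 ≤ P)] :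
    (IR →₀ 𝕜) →ₗ[𝕜] Lp 𝕜 P mu := Finsupp.linearCombination 𝕜 (hk 𝕜 P)

lemma synK_eq_sum (c : IR →₀ 𝕜) {T : Finset IR} (hT : c.support ⊆ T) :
    synK 𝕜 P c = ∑ i ∈ T, c i • hk 𝕜 P i := by
  unfold synK
  rw [Finsupp.linearCombination_apply, Finsupp.sum_of_support_subset _ hT _ (by simp)]

lemma Rp_smul_U (z : 𝕜) (g : Lp ℝ P mu) : Rp 𝕜 P (z • U 𝕜 P g) = RCLike.re z • g := by
  apply Lp.ext
  filter_upwards [coe_Rp (z • U 𝕜 P g), Lp.coeFn_smul z (U 𝕜 P g), coe_U (𝕜 := 𝕜) g,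
    Lp.coeFn_smul (RCLike.re z) g] with x h1 h2 h3 h4
  rw [h1, h2, Pi.smul_apply, h3, h4, Pi.smul_apply, smul_eq_mul, smul_eq_mul]
  simp

lemma Ip_smul_U (z : 𝕜) (g : Lp ℝ P mu) : Ip 𝕜 P (z • U 𝕜 P g) = RCLike.im z • g := by
  apply Lp.ext
  filter_upwards [coe_Ip (z • U 𝕜 P g), Lp.coeFn_smul z (U 𝕜 P g), coe_U (𝕜 := 𝕜) g,
    Lp.coeFn_smul (RCLike.im z) g] with x h1 h2 h3 h4
  rw [h1, h2, Pi.smul_apply, h3, h4, Pi.smul_apply, smul_eq_mul, smul_eq_mul]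
  simp

/-- Real parts of the coefficients. -/
noncomputable def reF (c : IR →₀ 𝕜) : IR →₀ ℝ := c.mapRange RCLike.re (map_zero _)

/-- Imaginary parts of the coefficients. -/
noncomputable def imF (c : IR →₀ 𝕜) : IR →₀ ℝ := c.mapRange RCLike.im (map_zero _)

lemma reF_support (c : IR →₀ 𝕜) : (reF c).support ⊆ c.support := Finsupp.support_mapRange

lemma imF_support (c : IR →₀ 𝕜) : (imF c).support ⊆ c.support := Finsupp.support_mapRange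

lemma Rp_synK (c : IR →₀ 𝕜) : Rp 𝕜 P (synK 𝕜 P c) = synR P (reF c) := by
  rw [synK_eq_sum c (subset_refl _), map_sum, synR_eq_sum (reF c) (reF_support c)]
  apply sum_congr rfl
  intro i _
  exact Rp_smul_U _ _

lemma Ip_synK (c : IR →₀ 𝕜) : Ip 𝕜 P (synK 𝕜 P c) = synR P (imF c) := by
  rw [synK_eq_sum c (subset_refl _), map_sum, synR_eq_sum (imF c) (imF_support c)]
  apply sum_congr rfl
  intro i _
  exact Ip_smul_U _ _

lemma norm_synK_le (c : IR →₀ 𝕜) : ‖synK 𝕜 P c‖ ≤ ‖synR P (reF c)‖ + ‖synR P (imF c)‖ := by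
  conv_lhs => rw [decomp (synK 𝕜 P c)]
  rw [Rp_synK, Ip_synK]
  refine (norm_add_le _ _).trans ?_
  rw [norm_smul, norm_U, norm_U]
  have h : ‖(RCLike.I : 𝕜)‖ ≤ 1 := norm_I_le_one 𝕜
  have h2 := norm_nonneg (synR P (imF c))
  nlinarith

/-- Unconditionality. -/
lemma unc_synK (𝕜 : Type*) [RCLike 𝕜] (hP : 1 < P.toReal) : ∃ C : ℝ, 0 < C ∧ ∀ c d : IR →₀ 𝕜,
    (∀ i, ‖c i‖ ≤ ‖d i‖) → ‖synK 𝕜 P c‖ ≤ C * ‖synK 𝕜 P d‖ := by
  obtain ⟨C, hC, h⟩ := unc_synR (P := P) hP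
  refine ⟨4 * C, by positivity, fun c d hcd => ?_⟩
  have hle : ∀ i, ‖d i‖ ≤ |reF d i| + |imF d i| := by
    intro i
    have := norm_le_re_im (d i)
    exact this
  have h1 := h (reF c) (reF d) (imF d) (fun i => by
    have h2 : |reF c i| ≤ ‖c i‖ := RCLike.abs_re_le_norm (c i)
    exact h2.trans ((hcd i).trans (hle i)))
  have h2 := h (imF c) (reF d) (imF d) (fun i => by
    have h2 : |imF c i| ≤ ‖c i‖ := RCLike.abs_im_le_norm (c i)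
    exact h2.trans ((hcd i).trans (hle i)))
  have h3 : ‖synR P (reF d)‖ ≤ ‖synK 𝕜 P d‖ := by rw [← Rp_synK]; exact norm_Rp _
  have h4 : ‖synR P (imF d)‖ ≤ ‖synK 𝕜 P d‖ := by rw [← Ip_synK]; exact norm_Ip _
  have h5 := norm_synK_le (P := P) c
  have h6 : C * (‖synR P (reF d)‖ + ‖synR P (imF d)‖) ≤ C * (2 * ‖synK 𝕜 P d‖) :=
    mul_le_mul_of_nonneg_left (by linarith) hC.le
  nlinarith

/-- Density. -/
lemma dense_synK (hPt : P ≠ ⊤) (f : Lp 𝕜 P mu) {ε : ℝ} (hε : 0 < ε) :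
    ∃ d : IR →₀ 𝕜, ‖f - synK 𝕜 P d‖ < ε := by
  obtain ⟨d1, h1⟩ := dense_synR hPt (Rp 𝕜 P f) (half_pos hε)
  obtain ⟨d2, h2⟩ := dense_synR hPt (Ip 𝕜 P f) (half_pos hε)
  set e1 : IR →₀ 𝕜 := d1.mapRange (fun y : ℝ => (y : 𝕜)) (by simp) with he1
  set e2 : IR →₀ 𝕜 := d2.mapRange (fun y : ℝ => (y : 𝕜)) (by simp) with he2
  have key : ∀ d : IR →₀ ℝ, synK 𝕜 P (d.mapRange (fun y : ℝ => (y : 𝕜)) (by simp)) =
      U 𝕜 P (synR P d) := by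
    intro d
    rw [synK_eq_sum _ Finsupp.support_mapRange, synR_eq_sum d (subset_refl _), map_sum]
    apply sum_congr rfl
    intro i _
    rw [map_smul, Finsupp.mapRange_apply]
    apply Lp.ext
    filter_upwards [Lp.coeFn_smul ((d i : ℝ) : 𝕜) (hk 𝕜 P i), Lp.coeFn_smul (d i) (U 𝕜 P (hr P i))]
      with x h1 h2
    rw [h1, h2, Pi.smul_apply, Pi.smul_apply, smul_eq_mul, RCLike.real_smul_eq_coe_mul]
    rfl
  refine ⟨e1 + (RCLike.I : 𝕜) • e2, ?_⟩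
  have h3 : f - synK 𝕜 P (e1 + (RCLike.I : 𝕜) • e2) =
      U 𝕜 P (Rp 𝕜 P f - synR P d1) + (RCLike.I : 𝕜) • U 𝕜 P (Ip 𝕜 P f - synR P d2) := by
    conv_lhs => rw [decomp f]
    rw [map_add, map_smul, he1, he2, key, key, map_sub, map_sub, smul_sub]
    abel
  rw [h3]
  refine (norm_add_le _ _).trans_lt ?_
  rw [norm_smul, norm_U, norm_U]
  have h : ‖(RCLike.I : 𝕜)‖ ≤ 1 := norm_I_le_one 𝕜
  have h5 := norm_nonneg (Ip 𝕜 P f - synR P d2)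
  nlinarith

end Pool.Agent.TH339.HR
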