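import Mathlib
import Pool.Agent.TH339.HR3

/-!
Coefficients with respect to the Haar system, and the system for the `1/3`-norm.
-/

set_option autoImplicit false

open MeasureTheory Finset
open scoped ENNReal

namespace Pool.Agent.TH339.HR

open Pool.Agent.H66R3.PG Pool.Agent.TH339.GR

variable {P : ℝ≥0∞} [Fact (1 ≤ P)] {𝕜 : Type*} [RCLike 𝕜]

/-- Haar coefficients. -/
noncomputable def cfK (q : ℝ) (f : Lp 𝕜 P mu) (i : IR) : 𝕜 :=
  ∫ x, f x * ((bR q i (dig x) : ℝ) : 𝕜) ∂mu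

lemma memLp_one (f : Lp 𝕜 P mu) : Integrable f mu := (Lp.memLp f).integrable Fact.out

lemma integrable_mul_dep (f : Lp 𝕜 P mu) {n : ℕ} {F : (ℕ → Bool) → ℝ} (hF : Dep n F) :
    Integrable (fun x => f x * ((F (dig x) : ℝ) : 𝕜)) mu := by
  obtain ⟨C, _, hC⟩ := hF.bounded
  refine (memLp_one f).mul_bdd (c := C) ?_ ?_
  · exact (RCLike.continuous_ofReal.measurable.comp hF.measurable).aestronglyMeasurable
  · exact Filter.Eventually.of_forall fun x => by rw [RCLike.norm_ofReal]; exact hC _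

lemma cfK_add (q : ℝ) (f g : Lp 𝕜 P mu) (i : IR) : cfK q (f + g) i = cfK q f i + cfK q g i := by
  unfold cfK
  rw [← integral_add (integrable_mul_dep f (dep_bR q i)) (integrable_mul_dep g (dep_bR q i))]
  apply integral_congr_ae
  filter_upwards [Lp.coeFn_add f g] with x hx
  rw [hx, Pi.add_apply, add_mul]

omit [Fact (1 ≤ P)] in
lemma cfK_smul (q : ℝ) (z : 𝕜) (f : Lp 𝕜 P mu) (i : IR) : cfK q (z • f) i = z * cfK q f i := by
  unfold cfK
  rw [← integral_const_mul]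
  apply integral_congr_ae
  filter_upwards [Lp.coeFn_smul z f] with x hx
  rw [hx, Pi.smul_apply, smul_eq_mul, mul_assoc]

/-- Coefficients as a linear map. -/
noncomputable def cfL (𝕜 : Type*) [RCLike 𝕜] (P : ℝ≥0∞) [Fact (1 ≤ P)] (q : ℝ) :
    Lp 𝕜 P mu →ₗ[𝕜] (IR → 𝕜) where
  toFun f := cfK q f
  map_add' f g := by funext i; exact cfK_add q f g i
  map_smul' z f := by funext i; exact cfK_smul q z f i

lemma cfL_apply (q : ℝ) (f : Lp 𝕜 P mu) (i : IR) : cfL 𝕜 P q f i = cfK q f i := rfl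

/-- Hölder bound for sums of moduli of coefficients. -/
lemma sum_cfK_le {q : ℝ} (hpq : P.toReal.HolderConjugate q) (f : Lp 𝕜 P mu) (A : Finset IR) :
    ∑ i ∈ A, ‖cfK q f i‖ ≤ ‖f‖ * (cU q * (A.card : ℝ) ^ (1 / q)) := by
  have hP0 : 0 < P.toReal := hpq.pos
  have hPt : P ≠ ⊤ := by
    intro h; rw [h] at hP0; norm_num at hP0
  have hP0' : P ≠ 0 := by
    intro h; rw [h] at hP0; norm_num at hP0
  have hPo : ENNReal.ofReal P.toReal = P := ENNReal.ofReal_toReal hPt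
  obtain ⟨n, hn⟩ := exists_dep q A
  have hG : Dep n (fun x => ∑ i ∈ A, |bR q i x|) := Dep.sum A fun i hi => (hn i hi).map _
  have hnn : ∀ x : ℕ → Bool, 0 ≤ ∑ i ∈ A, |bR q i x| := fun x => sum_nonneg fun _ _ => abs_nonneg _
  have h1 : ∑ i ∈ A, ‖cfK q f i‖ ≤ ∫ x, ‖f x‖ * ‖(((∑ i ∈ A, |bR q i (dig x)| : ℝ)) : 𝕜)‖ ∂mu := by
    have h2 : ∀ i ∈ A, ‖cfK q f i‖ ≤ ∫ x, ‖f x‖ * |bR q i (dig x)| ∂mu := by
      intro i _
      unfold cfK
      refine (norm_integral_le_integral_norm _).trans (le_of_eq ?_)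
      apply integral_congr_ae
      exact Filter.Eventually.of_forall fun x => by
        simp only [norm_mul, RCLike.norm_ofReal]
    refine (sum_le_sum h2).trans (le_of_eq ?_)
    rw [← integral_finsetSum]
    · apply integral_congr_ae
      refine Filter.Eventually.of_forall fun x => ?_
      simp only
      rw [RCLike.norm_ofReal, abs_of_nonneg (hnn _), mul_sum]
    · intro i hi
      have := (integrable_mul_dep f (hn i hi)).norm
      simpa only [norm_mul, RCLike.norm_ofReal] using this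
  refine h1.trans ?_
  have hf : MemLp f (ENNReal.ofReal P.toReal) mu := by rw [hPo]; exact Lp.memLp f
  have hg : MemLp (fun x => (((∑ i ∈ A, |bR q i (dig x)| : ℝ)) : 𝕜)) (ENNReal.ofReal q) mu := by
    obtain ⟨C, _, hC⟩ := hG.bounded
    refine MemLp.of_bound (RCLike.continuous_ofReal.measurable.comp
      hG.measurable).aestronglyMeasurable C (Filter.Eventually.of_forall fun x => ?_)
    rw [RCLike.norm_ofReal]; exact hC _
  refine (integral_mul_norm_le_Lp_mul_Lq hpq hf hg).trans ?_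
  have e1 : (∫ a, ‖f a‖ ^ P.toReal ∂mu) ^ (1 / P.toReal) = ‖f‖ := by
    rw [Lp.norm_def, MemLp.eLpNorm_eq_integral_rpow_norm hP0' hPt (Lp.memLp f),
      ENNReal.toReal_ofReal (by positivity), one_div]
  have e2 : (∫ a, ‖(((∑ i ∈ A, |bR q i (dig a)| : ℝ)) : 𝕜)‖ ^ q ∂mu) ^ (1 / q) =
      nm q (fun x => ∑ i ∈ A, |bR q i x|) := by
    unfold nm E
    simp only [RCLike.norm_ofReal]
  rw [e1, e2]
  exact mul_le_mul_of_nonneg_left (nm_sum_abs hpq.symm.pos A) (norm_nonneg _)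

/-- Each coefficient functional is bounded. -/
lemma cfK_le {q : ℝ} (hpq : P.toReal.HolderConjugate q) (f : Lp 𝕜 P mu) (i : IR) :
    ‖cfK q f i‖ ≤ cU q * ‖f‖ := by
  have := sum_cfK_le hpq f {i}
  rw [sum_singleton, card_singleton, Nat.cast_one, Real.one_rpow, mul_one, mul_comm] at this
  exact this

/-- Biorthogonality. -/
lemma cfK_hk {q : ℝ} (hpq : P.toReal.HolderConjugate q) (j i : IR) :
    cfK q (hk 𝕜 P j) i = if j = i then 1 else 0 := by
  unfold cfK
  have h1 : ∫ x, hk 𝕜 P j x * ((bR q i (dig x) : ℝ) : 𝕜) ∂mu =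
      ∫ x, ((bR P.toReal j (dig x) * bR q i (dig x) : ℝ) : 𝕜) ∂mu := by
    apply integral_congr_ae
    filter_upwards [coe_hk (𝕜 := 𝕜) (P := P) j] with x hx
    rw [hx]; push_cast; rfl
  rw [h1, integral_ofReal]
  have h2 := E_bR_mul hpq j i
  unfold E at h2
  rw [h2]
  split_ifs <;> simp

lemma cfL_synK {q : ℝ} (hpq : P.toReal.HolderConjugate q) (d : IR →₀ 𝕜) (i : IR) :
    cfL 𝕜 P q (synK 𝕜 P d) i = d i := by
  classical
  rw [synK_eq_sum d (subset_refl _), map_sum, Finset.sum_apply]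
  have h1 : ∀ j ∈ d.support, cfL 𝕜 P q (d j • hk 𝕜 P j) i = if j = i then d j else 0 := by
    intro j _
    rw [map_smul, Pi.smul_apply, cfL_apply, cfK_hk hpq, smul_eq_mul]
    split_ifs <;> simp
  rw [sum_congr rfl h1, sum_ite_eq']
  split_ifs with h
  · rfl
  · exact (Finsupp.notMem_support_iff.1 h).symm

/-- Unconditional bound for all functions. -/
lemma unc_all (𝕜 : Type*) [RCLike 𝕜] {q : ℝ} (hpq : P.toReal.HolderConjugate q) :
    ∃ C : ℝ, 0 < C ∧ ∀ (f : Lp 𝕜 P mu) (c : IR →₀ 𝕜), (∀ i, ‖c i‖ ≤ ‖cfL 𝕜 P q f i‖) →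
      ‖synK 𝕜 P c‖ ≤ C * ‖f‖ := by
  classical
  have hP : 1 < P.toReal := hpq.lt
  have hPt : P ≠ ⊤ := by
    intro h; rw [h] at hP; norm_num at hP
  obtain ⟨C, hC, h⟩ := unc_synK (P := P) 𝕜 hP
  refine ⟨C, hC, fun f c hc => ?_⟩
  -- the multiplier
  set θ : IR → 𝕜 := fun i => c i / cfL 𝕜 P q f i with hθ
  have hθ1 : ∀ i, ‖θ i‖ ≤ 1 := by
    intro i
    simp only [hθ]
    rw [norm_div]
    exact div_le_one_of_le₀ (hc i) (norm_nonneg _)
  have hθ2 : ∀ i, θ i * cfL 𝕜 P q f i = c i := by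
    intro i
    simp only [hθ]
    by_cases h0 : cfL 𝕜 P q f i = 0
    · have := hc i
      rw [h0, norm_zero] at this
      rw [h0, mul_zero]
      exact (norm_le_zero_iff.1 this).symm
    · exact div_mul_cancel₀ _ h0
  -- the finitely supported family attached to `g`
  set T : Lp 𝕜 P mu → (IR →₀ 𝕜) := fun g =>
    Finsupp.onFinset c.support (fun i => if i ∈ c.support then θ i * cfL 𝕜 P q g i else 0)
      (fun i hi => by
        by_contra hcon
        rw [if_neg hcon] at hi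
        exact hi rfl) with hT
  have hTf : T f = c := by
    ext i
    simp only [hT, Finsupp.onFinset_apply]
    split_ifs with hi
    · exact hθ2 i
    · exact (Finsupp.notMem_support_iff.1 hi).symm
  have hTsyn : ∀ d : IR →₀ 𝕜, ‖synK 𝕜 P (T (synK 𝕜 P d))‖ ≤ C * ‖synK 𝕜 P d‖ := by
    intro d
    apply h
    intro i
    simp only [hT, Finsupp.onFinset_apply]
    split_ifs with hi
    · rw [cfL_synK hpq, norm_mul]
      exact mul_le_of_le_one_left (norm_nonneg _) (hθ1 i)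
    · rw [norm_zero]; exact norm_nonneg _
  have hTdiff : ∀ g g' : Lp 𝕜 P mu, ‖synK 𝕜 P (T g) - synK 𝕜 P (T g')‖ ≤
      (∑ i ∈ c.support, cU q * ‖hk 𝕜 P i‖) * ‖g - g'‖ := by
    intro g g'
    have e1 : ∀ g : Lp 𝕜 P mu, synK 𝕜 P (T g) =
        ∑ i ∈ c.support, (θ i * cfL 𝕜 P q g i) • hk 𝕜 P i := by
      intro g
      have hs : (T g).support ⊆ c.support := Finsupp.support_onFinset_subset
      rw [synK_eq_sum _ hs]
      apply sum_congr rfl
      intro i hi
      simp only [hT, Finsupp.onFinset_apply, if_pos hi]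
    rw [e1, e1, ← sum_sub_distrib, sum_mul]
    refine (norm_sum_le _ _).trans (sum_le_sum fun i _ => ?_)
    rw [← sub_smul, ← mul_sub, norm_smul, norm_mul]
    have e2 : cfL 𝕜 P q g i - cfL 𝕜 P q g' i = cfK q (g - g') i := by
      rw [← cfL_apply, map_sub]; rfl
    rw [e2]
    calc ‖θ i‖ * ‖cfK q (g - g') i‖ * ‖hk 𝕜 P i‖ ≤ 1 * (cU q * ‖g - g'‖) * ‖hk 𝕜 P i‖ := by
          apply mul_le_mul_of_nonneg_right _ (norm_nonneg _)
          exact mul_le_mul (hθ1 i) (cfK_le hpq _ i) (norm_nonneg _) zero_le_one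
      _ = _ := by ring
  rw [← hTf]
  apply le_of_forall_pos_le_add
  intro ε hε
  set D : ℝ := ∑ i ∈ c.support, cU q * ‖hk 𝕜 P i‖ with hD
  have hD0 : 0 ≤ D := sum_nonneg fun i _ => mul_nonneg (cU_pos hpq.symm.pos).le (norm_nonneg _)
  obtain ⟨d, hd⟩ := dense_synK hPt f (show 0 < ε / (D + C + 1) by positivity)
  rw [lt_div_iff₀ (by positivity)] at hd
  have h1 := hTsyn d
  have h2 := hTdiff f (synK 𝕜 P d)
  have h3 : ‖synK 𝕜 P (T f)‖ ≤ ‖synK 𝕜 P (T f) - synK 𝕜 P (T (synK 𝕜 P d))‖ +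
      ‖synK 𝕜 P (T (synK 𝕜 P d))‖ := norm_le_norm_sub_add _ _
  have h4 : ‖synK 𝕜 P d‖ ≤ ‖f‖ + ‖f - synK 𝕜 P d‖ := by
    have := norm_sub_norm_le (synK 𝕜 P d) f
    rw [norm_sub_rev (synK 𝕜 P d) f] at this
    linarith
  have h5 := norm_nonneg (f - synK 𝕜 P d)
  have h6 := mul_le_mul_of_nonneg_left h4 hC.le
  nlinarith

omit [Fact (1 ≤ P)] in
lemma coeFn_sum (B : Finset IR) (g : IR → Lp 𝕜 P mu) :
    ∀ᵐ x ∂mu, (∑ i ∈ B, g i : Lp 𝕜 P mu) x = ∑ i ∈ B, (g i) x := by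
  classical
  induction B using Finset.induction_on with
  | empty =>
    filter_upwards [Lp.coeFn_zero 𝕜 P mu] with x hx
    rw [sum_empty, sum_empty, hx]; rfl
  | insert j B hj ih =>
    rw [sum_insert hj]
    filter_upwards [ih, Lp.coeFn_add (g j) (∑ i ∈ B, g i)] with x h1 h2
    rw [sum_insert hj, h2, Pi.add_apply, h1]

/-- The part of an admissible family on the relocation set. -/
lemma norm_synK_flat {c : IR →₀ 𝕜} {B : Finset IR} (hP : 1 < P.toReal) {t : ℝ} (ht : 0 ≤ t)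
    (hcB : c.support ⊆ B) (hB : ∀ i ∈ B, ‖c i‖ ≤ t) :
    ‖synK 𝕜 P c‖ ≤ t * (cU P.toReal * (B.card : ℝ) ^ (1 / P.toReal)) := by
  have hP0 : 0 < P.toReal := by linarith
  obtain ⟨n, hn⟩ := exists_dep P.toReal B
  have hG : Dep n (fun x => ∑ i ∈ B, |bR P.toReal i x|) := Dep.sum B fun i hi => (hn i hi).map _
  have hD : Dep n (fun x => t * ∑ i ∈ B, |bR P.toReal i x|) := (dep_const n t).mul hG
  have h1 : ‖synK 𝕜 P c‖ ≤ ‖cl P (fun x => t * ∑ i ∈ B, |bR P.toReal i x|)‖ := by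
    apply Lp.norm_le_norm_of_ae_le
    have h2 : ∀ᵐ x ∂mu, ∀ i ∈ B, hk 𝕜 P i x = ((bR P.toReal i (dig x) : ℝ) : 𝕜) :=
      (Finset.eventually_all B).2 fun i _ => coe_hk i
    have h3 : ∀ᵐ x ∂mu, (∑ i ∈ B, c i • hk 𝕜 P i : Lp 𝕜 P mu) x =
        ∑ i ∈ B, (c i • hk 𝕜 P i : Lp 𝕜 P mu) x := coeFn_sum B _
    have h4 : ∀ᵐ x ∂mu, ∀ i ∈ B, (c i • hk 𝕜 P i : Lp 𝕜 P mu) x = c i * hk 𝕜 P i x :=
      (Finset.eventually_all B).2 fun i _ => (Lp.coeFn_smul (c i) (hk 𝕜 P i)).mono fun x hx => by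
        rw [hx]; rfl
    filter_upwards [coe_cl (P := P) hD, h2, h3, h4] with x g1 g2 g3 g4
    rw [g1, synK_eq_sum c hcB, g3, Real.norm_eq_abs]
    refine (norm_sum_le _ _).trans (le_trans ?_ (le_abs_self _))
    rw [mul_sum]
    apply sum_le_sum
    intro i hi
    rw [g4 i hi, g2 i hi, norm_mul, RCLike.norm_ofReal]
    exact mul_le_mul_of_nonneg_right (hB i hi) (abs_nonneg _)
  refine h1.trans ?_
  rw [norm_cl hP hD, nm_smul hP0, abs_of_nonneg ht]
  exact mul_le_mul_of_nonneg_left (nm_sum_abs hP0 B) ht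

/-- The system. -/
theorem exists_sys (𝕜 : Type*) [RCLike 𝕜] {q : ℝ} (hpq : P.toReal.HolderConjugate q) :
    ∃ S : Sys IR 𝕜 (Lp 𝕜 P mu), S.syn = synK 𝕜 P ∧ S.cf = cfL 𝕜 P q := by
  classical
  have hP : 1 < P.toReal := hpq.lt
  have hP0 : 0 < P.toReal := hpq.pos
  have hq0 : 0 < q := hpq.symm.pos
  have hPt : P ≠ ⊤ := by
    intro h; rw [h] at hP; norm_num at hP
  obtain ⟨C, hC, h⟩ := unc_all (P := P) 𝕜 hpq
  have hcU1 := cU_pos hP0
  have hcU2 := cU_pos hq0
  refine ⟨⟨synK 𝕜 P, cfL 𝕜 P q, cU P.toReal * cU q + C, ?_, ?_⟩, rfl, rfl⟩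
  · rintro f c ⟨t, A, B, ht, hA, hBA, hB, hc⟩
    have hsplit : c = c.filter (fun i => i ∈ B) + c.filter (fun i => ¬ i ∈ B) :=
      (Finsupp.filter_add_filter_not c (fun i => i ∈ B)).symm
    have h1 : ‖synK 𝕜 P (c.filter (fun i => i ∈ B))‖ ≤ cU P.toReal * cU q * ‖f‖ := by
      have e1 := norm_synK_flat (P := P) (c := c.filter (fun i => i ∈ B)) (B := B) hP ht.le
        (by
          intro i hi
          rw [Finsupp.support_filter, mem_filter] at hi
          exact hi.2)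
        (by
          intro i hi
          rw [Finsupp.filter_apply_pos _ _ hi]
          exact hB i hi)
      rcases A.eq_empty_or_nonempty with hAe | hAn
      · have hB0 : B.card = 0 := by
          rw [hAe, card_empty] at hBA; omega
        rw [hB0, Nat.cast_zero, Real.zero_rpow (one_div_ne_zero hP0.ne'), mul_zero, mul_zero] at e1
        exact e1.trans (by positivity)
      · have hAc : (0 : ℝ) < A.card := by exact_mod_cast card_pos.2 hAn
        have e2 : t * A.card ≤ ‖f‖ * (cU q * (A.card : ℝ) ^ (1 / q)) := by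
          calc t * A.card = ∑ _i ∈ A, t := by rw [sum_const, nsmul_eq_mul, mul_comm]
            _ ≤ ∑ i ∈ A, ‖cfK q f i‖ := sum_le_sum hA
            _ ≤ _ := sum_cfK_le hpq f A
        have e3 : (A.card : ℝ) = (A.card : ℝ) ^ (1 / P.toReal) * (A.card : ℝ) ^ (1 / q) := by
          rw [← Real.rpow_add hAc, one_div, one_div, hpq.inv_add_inv_eq_one, Real.rpow_one]
        have e4 : t * (A.card : ℝ) ^ (1 / P.toReal) ≤ cU q * ‖f‖ := by
          have hApos : 0 < (A.card : ℝ) ^ (1 / q) := Real.rpow_pos_of_pos hAc _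
          rw [← mul_le_mul_iff_left₀ hApos]
          calc t * (A.card : ℝ) ^ (1 / P.toReal) * (A.card : ℝ) ^ (1 / q) = t * A.card := by
                rw [mul_assoc, ← e3]
            _ ≤ _ := e2
            _ = _ := by ring
        have e5 : (B.card : ℝ) ^ (1 / P.toReal) ≤ (A.card : ℝ) ^ (1 / P.toReal) :=
          Real.rpow_le_rpow (Nat.cast_nonneg _) (by exact_mod_cast hBA) (one_div_pos.2 hP0).le
        calc _ ≤ t * (cU P.toReal * (B.card : ℝ) ^ (1 / P.toReal)) := e1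
          _ ≤ t * (cU P.toReal * (A.card : ℝ) ^ (1 / P.toReal)) := by
              apply mul_le_mul_of_nonneg_left _ ht.le
              exact mul_le_mul_of_nonneg_left e5 hcU1.le
          _ = cU P.toReal * (t * (A.card : ℝ) ^ (1 / P.toReal)) := by ring
          _ ≤ cU P.toReal * (cU q * ‖f‖) := mul_le_mul_of_nonneg_left e4 hcU1.le
          _ = _ := by ring
    have h2 : ‖synK 𝕜 P (c.filter (fun i => ¬ i ∈ B))‖ ≤ C * ‖f‖ := by
      apply h
      intro i
      by_cases hi : i ∈ B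
      · rw [Finsupp.filter_apply_neg (fun i => ¬ i ∈ B) _ (not_not.2 hi), norm_zero]
        exact norm_nonneg _
      · rw [Finsupp.filter_apply_pos (fun i => ¬ i ∈ B) _ hi]
        by_cases h0 : c i = 0
        · rw [h0, norm_zero]; exact norm_nonneg _
        · exact (hc i hi h0).2
    rw [hsplit, map_add]
    refine (norm_add_le _ _).trans ?_
    rw [add_mul]
    exact add_le_add h1 h2
  · intro f ε hε
    obtain ⟨d, hd⟩ := dense_synK hPt f (show 0 < ε / (C + 1) by positivity)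
    rw [lt_div_iff₀ (by positivity)] at hd
    set c : IR →₀ 𝕜 := Finsupp.onFinset d.support
      (fun i => if i ∈ d.support then cfL 𝕜 P q f i else 0) (fun i hi => by
        by_contra hcon
        rw [if_neg hcon] at hi
        exact hi rfl) with hc
    have hc1 : ∀ i, ‖c i‖ ≤ ‖cfL 𝕜 P q f i‖ := by
      intro i
      simp only [hc, Finsupp.onFinset_apply]
      split_ifs
      · exact le_rfl
      · rw [norm_zero]; exact norm_nonneg _
    refine ⟨c, Ad_of_le hc1, ?_⟩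
    have h1 : ‖synK 𝕜 P (d - c)‖ ≤ C * ‖synK 𝕜 P d - f‖ := by
      apply h
      intro i
      rw [map_sub, Pi.sub_apply, cfL_synK hpq, Finsupp.sub_apply]
      simp only [hc, Finsupp.onFinset_apply]
      split_ifs with hi
      · exact le_rfl
      · rw [Finsupp.notMem_support_iff.1 hi, sub_zero, norm_zero]; exact norm_nonneg _
    rw [map_sub, norm_sub_rev (synK 𝕜 P d) f] at h1
    have h2 : ‖f‖ ≤ ‖f - synK 𝕜 P d‖ + ‖synK 𝕜 P d - synK 𝕜 P c‖ + ‖synK 𝕜 P c‖ := by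
      have : f = (f - synK 𝕜 P d) + (synK 𝕜 P d - synK 𝕜 P c) + synK 𝕜 P c := by abel
      calc ‖f‖ = ‖(f - synK 𝕜 P d) + (synK 𝕜 P d - synK 𝕜 P c) + synK 𝕜 P c‖ := by rw [← this]
        _ ≤ _ := norm_add₃_le
    nlinarith

end Pool.Agent.TH339.HR
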