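import Mathlib
import Pool.Agent.TH339.HR4

/-!
Transfer to the explicit indexing of the Haar system, and the expansion of a function in the Haar
system.
-/

set_option autoImplicit false

open MeasureTheory Finset Filter Topology
open scoped ENNReal

namespace Pool.Agent.TH339.HR

open Pool.Agent.H66R3.PG Pool.Agent.TH339.GR

variable {P : ℝ≥0∞} {𝕜 : Type*} [RCLike 𝕜]

lemma memLp_haarFn (𝕜 : Type*) [RCLike 𝕜] (P : ℝ≥0∞) (q : ℝ) (j : HaarIdx) :
    MemLp (fun x => ((haarFn q j x : ℝ) : 𝕜)) P mu := by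
  have h1 := haarFn_ae q (idxEquiv.symm j)
  rw [Equiv.apply_symm_apply] at h1
  obtain ⟨C, _, hC⟩ := (dep_bR q (idxEquiv.symm j)).bounded
  have h2 : MemLp (fun x => ((bR q (idxEquiv.symm j) (dig x) : ℝ) : 𝕜)) P mu := by
    refine MemLp.of_bound (RCLike.continuous_ofReal.measurable.comp
      (dep_bR q (idxEquiv.symm j)).measurable).aestronglyMeasurable C
      (Filter.Eventually.of_forall fun x => ?_)
    rw [RCLike.norm_ofReal]; exact hC _
  refine h2.ae_eq ?_
  filter_upwards [h1] with x hx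
  rw [hx]

variable [Fact (1 ≤ P)]

/-- The unconditional expansion. -/
theorem hasSum_hk {q : ℝ} (hpq : P.toReal.HolderConjugate q) (f : Lp 𝕜 P mu) :
    HasSum (fun i => cfK q f i • hk 𝕜 P i) f := by
  classical
  have hP : 1 < P.toReal := hpq.lt
  have hPt : P ≠ ⊤ := by
    intro h; rw [h] at hP; norm_num at hP
  obtain ⟨C, hC, h⟩ := unc_all (P := P) 𝕜 hpq
  have key : Tendsto (fun S : Finset IR => ∑ i ∈ S, cfK q f i • hk 𝕜 P i) atTop (𝓝 f) := by
    rw [Metric.tendsto_atTop]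
    intro ε hε
    obtain ⟨d, hd⟩ := dense_synK hPt f (show 0 < ε / (C + 1) by positivity)
    rw [lt_div_iff₀ (by positivity)] at hd
    refine ⟨d.support, fun S hS => ?_⟩
    set c : IR →₀ 𝕜 := Finsupp.onFinset S
      (fun i => if i ∈ S then cfK q f i else 0) (fun i hi => by
        by_contra hcon
        rw [if_neg hcon] at hi
        exact hi rfl) with hc
    have hcs : synK 𝕜 P c = ∑ i ∈ S, cfK q f i • hk 𝕜 P i := by
      have hs : c.support ⊆ S := Finsupp.support_onFinset_subset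
      rw [synK_eq_sum _ hs]
      apply sum_congr rfl
      intro i hi
      simp only [hc, Finsupp.onFinset_apply, if_pos hi]
    have h1 : ‖synK 𝕜 P (d - c)‖ ≤ C * ‖synK 𝕜 P d - f‖ := by
      apply h
      intro i
      rw [map_sub, Pi.sub_apply, cfL_synK hpq, Finsupp.sub_apply]
      simp only [hc, Finsupp.onFinset_apply]
      split_ifs with hi
      · exact le_rfl
      · have : i ∉ d.support := fun h => hi (hS h)
        rw [Finsupp.notMem_support_iff.1 this, sub_zero, norm_zero]; exact norm_nonneg _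
    rw [map_sub, norm_sub_rev (synK 𝕜 P d) f, hcs] at h1
    rw [dist_eq_norm, norm_sub_rev]
    have h2 : ‖f - ∑ i ∈ S, cfK q f i • hk 𝕜 P i‖ ≤ ‖f - synK 𝕜 P d‖ +
        ‖synK 𝕜 P d - ∑ i ∈ S, cfK q f i • hk 𝕜 P i‖ := norm_sub_le_norm_sub_add_norm_sub _ _ _
    nlinarith
  simpa [HasSum] using key

omit [Fact (1 ≤ P)] in
lemma coef_eq (q : ℝ) (f : Lp 𝕜 P mu) (j : HaarIdx) :
    ∫ x, f x * ((haarFn q j x : ℝ) : 𝕜) ∂mu = cfK q f (idxEquiv.symm j) := by
  have h1 := haarFn_ae q (idxEquiv.symm j)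
  rw [Equiv.apply_symm_apply] at h1
  unfold cfK
  apply integral_congr_ae
  filter_upwards [h1] with x hx
  rw [hx]

lemma haar_eq (j : HaarIdx) :
    (memLp_haarFn 𝕜 P P.toReal j).toLp _ = hk 𝕜 P (idxEquiv.symm j) := by
  have h1 := haarFn_ae P.toReal (idxEquiv.symm j)
  rw [Equiv.apply_symm_apply] at h1
  apply Lp.ext
  filter_upwards [h1, MemLp.coeFn_toLp (memLp_haarFn 𝕜 P P.toReal j),
    coe_hk (𝕜 := 𝕜) (P := P) (idxEquiv.symm j)] with x h2 h3 h4
  rw [h3, h4, h2]

end Pool.Agent.TH339.HR
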