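import Mathlib
import Pool.Agent.TH339.HR5

/-!
The `1/3`-norm which makes the Haar system `1`-greedy.
-/

set_option autoImplicit false

open MeasureTheory Finset Filter Topology
open scoped ENNReal

namespace Pool.Agent.TH339.HR

open Pool.Agent.H66R3.PG Pool.Agent.TH339.GR

/-- Haar functions. -/
noncomputable def haarM (𝕜 : Type*) [RCLike 𝕜] (p : ℝ≥0∞) (j : HaarIdx) : Lp 𝕜 p mu :=
  (memLp_haarFn 𝕜 p p.toReal j).toLp _

/-- Coefficients. -/
noncomputable def coefM {𝕜 : Type*} [RCLike 𝕜] {p : ℝ≥0∞} (f : Lp 𝕜 p mu) (j : HaarIdx) : 𝕜 :=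
  ∫ x, f x * ((haarFn (p.toReal / (p.toReal - 1)) j x : ℝ) : 𝕜) ∂mu

lemma conj_exp {p : ℝ≥0∞} (hp1 : 1 < p) (hp2 : p ≠ ∞) :
    p.toReal.HolderConjugate (p.toReal / (p.toReal - 1)) := by
  apply Real.HolderConjugate.conjExponent
  have := (ENNReal.toReal_lt_toReal ENNReal.one_ne_top hp2).2 hp1
  simpa using this

variable {𝕜 : Type*} [RCLike 𝕜] {p : ℝ≥0∞} [Fact (1 ≤ p)]

lemma coef_eq' (f : Lp 𝕜 p mu) (j : HaarIdx) :
    coefM f j = cfL 𝕜 p (p.toReal / (p.toReal - 1)) f (idxEquiv.symm j) := by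
  unfold coefM
  exact coef_eq _ f j

lemma haar_eq' (j : HaarIdx) : haarM 𝕜 p j = hk 𝕜 p (idxEquiv.symm j) := haar_eq j

/-- The expansion. -/
theorem expansion (hp1 : 1 < p) (hp2 : p ≠ ∞) (f : Lp 𝕜 p mu) :
    HasSum (fun j => coefM f j • haarM 𝕜 p j) f := by
  have h := hasSum_hk (𝕜 := 𝕜) (conj_exp hp1 hp2) f
  rw [← idxEquiv.symm.hasSum_iff] at h
  have e : (fun j => coefM f j • haarM 𝕜 p j) =
      (fun i => cfK (p.toReal / (p.toReal - 1)) f i • hk 𝕜 p i) ∘ idxEquiv.symm := by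
    funext j
    rw [coef_eq', haar_eq']
    rfl
  rw [e]; exact h

/-- Main theorem. -/
theorem final (𝕜 : Type*) [RCLike 𝕜] (p : ℝ≥0∞) [Fact (1 ≤ p)] (hp1 : 1 < p) (hp2 : p ≠ ∞) :
    ∃ N : Lp 𝕜 p mu → ℝ, (∀ f, 0 ≤ N f) ∧ (∀ f, N f = 0 ↔ f = 0) ∧
      (∀ (z : 𝕜) (f : Lp 𝕜 p mu), N (z • f) = ‖z‖ * N f) ∧
      (∀ f g, N (f + g) ^ (1 / 3 : ℝ) ≤ N f ^ (1 / 3 : ℝ) + N g ^ (1 / 3 : ℝ)) ∧
      (∃ c C : ℝ, 0 < c ∧ c ≤ C ∧ ∀ f, c * ‖f‖ ≤ N f ∧ N f ≤ C * ‖f‖) ∧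
      (∀ (f : Lp 𝕜 p mu) (m : ℕ), 1 ≤ m → ∀ A : Finset HaarIdx, A.card = m →
        (∀ i ∈ A, ∀ j, j ∉ A → ‖coefM f j‖ ≤ ‖coefM f i‖) →
        ∀ (B : Finset HaarIdx) (b : HaarIdx → 𝕜), B.card ≤ m →
          N (f - ∑ j ∈ A, coefM f j • haarM 𝕜 p j) ≤ N (f - ∑ j ∈ B, b j • haarM 𝕜 p j)) := by
  classical
  set q : ℝ := p.toReal / (p.toReal - 1) with hq
  have hpq : p.toReal.HolderConjugate q := conj_exp hp1 hp2
  obtain ⟨S, hsyn, hcf⟩ := exists_sys (P := p) 𝕜 hpq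
  refine ⟨S.N, S.N_nonneg, S.N_eq_zero, S.N_smul, S.N_add, ?_, ?_⟩
  · refine ⟨1, max 1 S.K, one_pos, le_max_left _ _, fun f => ⟨?_, ?_⟩⟩
    · rw [one_mul]; exact S.norm_le_N f
    · exact (S.N_le_norm f).trans (mul_le_mul_of_nonneg_right (le_max_right _ _) (norm_nonneg f))
  · intro f m _ A hAm hA B b hBm
    have hcoef : ∀ (T : Finset HaarIdx) (z : HaarIdx → 𝕜) (i : IR),
        cfL 𝕜 p q (∑ j ∈ T, z j • haarM 𝕜 p j) i = if idxEquiv i ∈ T then z (idxEquiv i) else 0 := by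
      intro T z i
      rw [map_sum, Finset.sum_apply]
      have h1 : ∀ j ∈ T, cfL 𝕜 p q (z j • haarM 𝕜 p j) i =
          if j = idxEquiv i then z j else 0 := by
        intro j _
        rw [map_smul, Pi.smul_apply, cfL_apply, haar_eq', cfK_hk hpq, smul_eq_mul]
        by_cases h : j = idxEquiv i
        · rw [if_pos h, if_pos (by rw [h, Equiv.symm_apply_apply]), mul_one]
        · rw [if_neg h, if_neg (fun h' => h (by rw [← h', Equiv.apply_symm_apply])), mul_zero]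
      rw [Finset.sum_congr rfl h1, Finset.sum_ite_eq']
    set A' : Finset IR := A.map idxEquiv.symm.toEmbedding with hA'
    set B' : Finset IR := B.map idxEquiv.symm.toEmbedding with hB'
    have hmemA : ∀ i, i ∈ A' ↔ idxEquiv i ∈ A := by
      intro i
      rw [hA', Finset.mem_map_equiv, Equiv.symm_symm]
    have hmemB : ∀ i, i ∈ B' ↔ idxEquiv i ∈ B := by
      intro i
      rw [hB', Finset.mem_map_equiv, Equiv.symm_symm]
    have hci : ∀ i, S.cf f i = coefM f (idxEquiv i) := by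
      intro i
      rw [hcf, coef_eq', Equiv.symm_apply_apply]
    apply S.N_greedy (f := f) (A := A') (B := B')
    · intro i hi j hj
      rw [hci, hci]
      exact hA _ ((hmemA i).1 hi) _ (fun h => hj ((hmemA j).2 h))
    · rw [hA', hB', Finset.card_map, Finset.card_map, hAm]; exact hBm
    · intro j
      rw [map_sub, Pi.sub_apply, hci j, hcf, hcoef]
      by_cases h : idxEquiv j ∈ A
      · rw [if_pos h, if_pos ((hmemA j).2 h), sub_self]
      · rw [if_neg h, if_neg (fun h' => h ((hmemA j).1 h')), sub_zero]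
    · intro j hj
      rw [map_sub, Pi.sub_apply, hcf, hcoef, if_neg (fun h => hj ((hmemB j).2 h)), sub_zero]

end Pool.Agent.TH339.HR
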