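import Pool.Agent.TH339.NU2

/-!
A Banach space with a nearly unconditional basis which is not truncation quasi-greedy: the `ℓ₁`-sum
of the blocks.
-/

set_option autoImplicit false

open Finset Filter Topology

namespace Pool.Agent.TH339.NU

/-- All indices. -/
abbrev Idx : Type := Σ n, I n

instance : Infinite Idx :=
  Infinite.of_injective (fun n : ℕ => (⟨n, Sum.inl 0⟩ : Idx)) fun a b h => by
    simpa using congrArg Sigma.fst h

/-- An enumeration of the indices. -/
noncomputable def enum : ℕ ≃ Idx := (nonempty_equiv_of_countable (α := ℕ) (β := Idx)).some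

/-- A function as a vector of a block. -/
def toE (n : ℕ) (g : I n → ℝ) : E n := g

lemma norm_toE (n : ℕ) (g : I n → ℝ) : ‖toE n g‖ = nrm n g := rfl

/-- Unit vector of a block. -/
noncomputable def ue (n : ℕ) (i : I n) : E n := toE n (Pi.single i (1 : ℝ))

/-- The indices of a block, in the enumeration. -/
noncomputable def emb (n : ℕ) : I n ↪ ℕ where
  toFun i := enum.symm ⟨n, i⟩
  inj' a b h := by
    have h1 : (⟨n, a⟩ : Idx) = ⟨n, b⟩ := enum.symm.injective h
    simpa using h1

lemma emb_apply (n : ℕ) (i : I n) : emb n i = enum.symm ⟨n, i⟩ := rfl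

lemma mem_map_emb (n k : ℕ) : k ∈ (Finset.univ : Finset (I n)).map (emb n) ↔ (enum k).1 = n := by
  rw [Finset.mem_map]
  constructor
  · rintro ⟨i, _, rfl⟩
    rw [emb_apply, Equiv.apply_symm_apply]
  · intro hk
    subst hk
    refine ⟨(enum k).2, Finset.mem_univ _, ?_⟩
    rw [emb_apply]
    exact enum.symm_apply_apply k

/-- The basis. -/
noncomputable def bs (m : ℕ) : X := lp.single 1 (enum m).1 (ue (enum m).1 (enum m).2)

/-- Coordinate `i` of block `n`. -/
def crd (n : ℕ) (i : I n) : E n →ₗ[ℝ] ℝ := LinearMap.proj (R := ℝ) (φ := fun _ : I n => ℝ) i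

/-- The coordinate functionals. -/
noncomputable def cf (m : ℕ) : X →ₗ[ℝ] ℝ where
  toFun f := crd (enum m).1 (enum m).2 (f (enum m).1)
  map_add' f g := by rw [lp.coeFn_add, Pi.add_apply, map_add]
  map_smul' c f := by rw [lp.coeFn_smul, Pi.smul_apply, map_smul, RingHom.id_apply]

lemma cf_apply (m : ℕ) (f : X) : cf m f = crd (enum m).1 (enum m).2 (f (enum m).1) := rfl

lemma cf_symm (n : ℕ) (i : I n) (f : X) : cf (enum.symm ⟨n, i⟩) f = crd n i (f n) := by
  rw [cf_apply]
  rw [Equiv.apply_symm_apply]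

lemma crd_apply (n : ℕ) (i : I n) (g : I n → ℝ) : crd n i (toE n g) = g i := rfl

lemma abs_crd_le (n : ℕ) (i : I n) (g : E n) : |crd n i g| ≤ ‖g‖ := by
  calc |crd n i g| = ‖(show I n → ℝ from g) i‖ := (Real.norm_eq_abs _).symm
    _ ≤ ‖(show I n → ℝ from g)‖ := norm_le_pi_norm _ _
    _ ≤ nrm n g := norm_le_nrm n g

lemma abs_cf_le (m : ℕ) (f : X) : |cf m f| ≤ ‖f‖ :=
  (abs_crd_le _ _ _).trans (lp.norm_apply_le_norm one_ne_zero f _)

lemma norm_bs_le (m : ℕ) : ‖bs m‖ ≤ 3 := by
  unfold bs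
  rw [lp.norm_single (by norm_num)]
  exact nrm_single _ _

lemma cf_bs (k m : ℕ) : cf k (bs m) = if k = m then 1 else 0 := by
  rw [cf_apply]
  unfold bs
  split_ifs with h
  · subst h
    rw [lp.single_apply_self]
    unfold ue
    rw [crd_apply, Pi.single_eq_same]
  · have hne : enum k ≠ enum m := fun h' => h (enum.injective h')
    generalize enum k = a at hne
    generalize enum m = b at hne
    obtain ⟨n, i⟩ := a
    obtain ⟨n', i'⟩ := b
    by_cases hn : n = n'
    · subst hn
      rw [lp.single_apply_self]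
      unfold ue
      rw [crd_apply, Pi.single_eq_of_ne]
      intro hi
      have hi' : i = i' := hi
      exact hne (by rw [hi'])
    · rw [lp.single_apply_ne _ _ _ hn, map_zero]

/-- Two vectors with the same coordinates are equal. -/
lemma ext_cf {f g : X} (h : ∀ m, cf m f = cf m g) : f = g := by
  apply lp.ext
  funext n
  have : ∀ i : I n, crd n i (f n) = crd n i (g n) := fun i => by
    rw [← cf_symm, ← cf_symm, h]
  exact funext this

lemma cf_sum (A : Finset ℕ) (c : ℕ → ℝ) (k : ℕ) :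
    cf k (∑ m ∈ A, c m • bs m) = if k ∈ A then c k else 0 := by
  classical
  rw [map_sum]
  simp only [map_smul, cf_bs, smul_eq_mul, mul_ite, mul_one, mul_zero]
  rw [Finset.sum_ite_eq]

/-- A vector of a single block is the sum of its coordinates. -/
lemma single_eq_sum (n : ℕ) (g : I n → ℝ) :
    (lp.single 1 n (toE n g) : X) =
      ∑ m ∈ (Finset.univ : Finset (I n)).map (emb n), cf m (lp.single 1 n (toE n g)) • bs m := by
  apply ext_cf
  intro k
  rw [cf_sum]
  split_ifs with h
  · rfl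
  · rw [cf_apply]
    rw [mem_map_emb] at h
    rw [lp.single_apply_ne _ _ _ h, map_zero]

lemma single_mem_span (n : ℕ) (g : E n) :
    (lp.single 1 n g : X) ∈ Submodule.span ℝ (Set.range bs) := by
  have h := single_eq_sum n g
  change (lp.single 1 n g : X) = _ at h
  rw [h]
  exact Submodule.sum_mem _ fun m _ => Submodule.smul_mem _ _ (Submodule.subset_span ⟨m, rfl⟩)

lemma dense_span (f : X) (ε : ℝ) (hε : 0 < ε) :
    ∃ g ∈ Submodule.span ℝ (Set.range bs), ‖f - g‖ < ε := by
  have h := lp.hasSum_single (p := 1) (by norm_num) f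
  rw [HasSum, Metric.tendsto_nhds] at h
  obtain ⟨s, hs⟩ := (h ε hε).exists
  refine ⟨∑ n ∈ s, lp.single 1 n (f n), Submodule.sum_mem _ fun n _ => single_mem_span n _, ?_⟩
  rw [dist_eq_norm, ← norm_neg, neg_sub] at hs
  exact hs

/-- Near unconditionality. -/
lemma near (a : ℝ) (ha : 0 < a) (ha1 : a ≤ 1) (f : X) (hf : ∀ m, |cf m f| ≤ 1) (A : Finset ℕ)
    (hA : ∀ m ∈ A, a ≤ |cf m f|) : ‖∑ m ∈ A, cf m f • bs m‖ ≤ 9 / a ^ 3 * ‖f‖ := by
  classical
  have hC : 0 ≤ 9 / a ^ 3 := by positivity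
  have h1 : ‖∑ m ∈ A, cf m f • bs m‖ ≤ ‖(9 / a ^ 3 : ℝ) • f‖ := by
    apply lp.norm_mono one_ne_zero
    intro n
    rw [lp.coeFn_smul, Pi.smul_apply, norm_smul, Real.norm_eq_abs, abs_of_nonneg hC]
    have h2 : (∑ m ∈ A, cf m f • bs m : X) n =
        res (Finset.univ.filter fun i : I n => enum.symm ⟨n, i⟩ ∈ A) (show I n → ℝ from f n) := by
      funext i
      have h3 := cf_sum A (fun m => cf m f) (enum.symm ⟨n, i⟩)
      rw [cf_symm] at h3
      refine h3.trans ?_
      unfold res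
      simp only [Finset.mem_filter, Finset.mem_univ, true_and]
      split_ifs
      · exact cf_symm n i f
      · rfl
    rw [h2]
    apply nrm_res_le n a ha ha1
    · intro i
      have := hf (enum.symm ⟨n, i⟩)
      rw [cf_symm] at this
      exact this
    · intro i hi
      have := hA _ (Finset.mem_filter.1 hi).2
      rw [cf_symm] at this
      exact this
  rwa [norm_smul, Real.norm_eq_abs, abs_of_nonneg hC] at h1

/-- Failure of truncation quasi-greediness. -/
lemma not_tqg (C : ℝ) : ∃ (f : X) (A : Finset ℕ), A.Nonempty ∧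
    (∀ n ∈ A, ∀ k : ℕ, k ∉ A → |cf k f| ≤ |cf n f|) ∧
    ∃ t : ℝ, (∀ n ∈ A, t ≤ |cf n f|) ∧
      C * ‖f‖ < t * ‖∑ n ∈ A, (cf n f / |cf n f|) • bs n‖ := by
  obtain ⟨n, hn⟩ := ((H_tendsto.eventually_gt_atTop (4 * |C|)).exists)
  set f : X := lp.single 1 n (toE n (xx n)) with hf
  set A : Finset ℕ := (Finset.univ : Finset (I n)).map (emb n) with hA
  have hmem : ∀ k, k ∈ A ↔ (enum k).1 = n := mem_map_emb n
  have hin : ∀ i : I n, cf (enum.symm ⟨n, i⟩) f = xx n i := by
    intro i
    rw [cf_symm, hf, lp.single_apply_self]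
    rfl
  have hin' : ∀ k ∈ A, ∃ i : I n, k = enum.symm ⟨n, i⟩ := by
    intro k hk
    rw [hA, Finset.mem_map] at hk
    obtain ⟨i, _, rfl⟩ := hk
    exact ⟨i, rfl⟩
  have hout : ∀ k, k ∉ A → cf k f = 0 := by
    intro k hk
    rw [hmem] at hk
    rw [cf_apply, hf, lp.single_apply_ne _ _ _ hk, map_zero]
  refine ⟨f, A, ?_, ?_, H n / ((n : ℝ) + 2) ^ 2, ?_, ?_⟩
  · exact ⟨emb n (Sum.inl 0), Finset.mem_map_of_mem _ (Finset.mem_univ _)⟩
  · intro m _ k hk
    rw [hout k hk, abs_zero]
    exact abs_nonneg _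
  · intro m hm
    obtain ⟨i, rfl⟩ := hin' m hm
    rw [hin, abs_of_pos (xx_pos n i)]
    exact le_xx n i
  · have h1 : ∑ m ∈ A, (cf m f / |cf m f|) • bs m = lp.single 1 n (toE n fun _ => (1 : ℝ)) := by
      apply ext_cf
      intro k
      rw [cf_sum]
      split_ifs with hk
      · obtain ⟨i, rfl⟩ := hin' k hk
        rw [hin, abs_of_pos (xx_pos n i), div_self (xx_pos n i).ne', cf_symm, lp.single_apply_self]
        rfl
      · rw [hmem] at hk
        rw [cf_apply, lp.single_apply_ne _ _ _ hk, map_zero]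
    have h0 : ‖f‖ = nrm n (xx n) := by
      rw [hf, lp.norm_single (by norm_num)]; rfl
    have h0' : ‖(lp.single 1 n (toE n fun _ => (1 : ℝ)) : X)‖ = nrm n (fun _ => 1) := by
      rw [lp.norm_single (by norm_num)]; rfl
    rw [h1, h0, h0']
    have h2 := bad n
    have h3 := nrm_xx n
    have h4 := nrm_nonneg n (xx n)
    have h5 : C * nrm n (xx n) ≤ |C| * 2 := by
      calc C * nrm n (xx n) ≤ |C| * nrm n (xx n) := mul_le_mul_of_nonneg_right (le_abs_self C) h4
        _ ≤ |C| * 2 := mul_le_mul_of_nonneg_left h3 (abs_nonneg C)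
    calc C * nrm n (xx n) ≤ |C| * 2 := h5
      _ < H n / 2 := by linarith
      _ ≤ _ := h2

end Pool.Agent.TH339.NU
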