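import Mathlib

/-!
# Entropy and Lyapunov exponents of a diffeomorphism: definitions

* `ksEntropy T ρ`: the Kolmogorov-Sinai entropy of a map `T` for a probability measure `ρ`.
* `OseledetsSplitting f g x`: a splitting of the tangent space at `x` as in the multiplicative
  ergodic theorem, with its characteristic exponents (norms are taken for the metric `g`).
* `IsChiPlus f g x s`: `s` is the sum of the positive exponents at `x`, with multiplicity.
* `EntropyGap f c`: `h(ρ) + c ≤ ∫ χ₊ dρ` for all invariant probability measures `ρ`.
-/

set_option autoImplicit false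

open MeasureTheory Filter Topology Bundle
open scoped Manifold ContDiff

namespace Pool.Agent.TH339.EE

section Entropy

variable {X : Type*} [MeasurableSpace X]

/-- The word of length `n` which records the atoms of the partition `P` visited by `x`. -/
def word {k : ℕ} (T : X → X) (P : X → Fin k) (n : ℕ) (x : X) : Fin n → Fin k :=
  fun i => P (T^[i] x)

/-- The Shannon entropy of the join of the partitions `P, T⁻¹ P, ..., T^{-(n-1)} P`, where the
partition `P` is given by a map to `Fin k`. -/
noncomputable def joinEntropy {k : ℕ} (T : X → X) (ρ : Measure X) (P : X → Fin k) (n : ℕ) : ℝ :=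
  ∑ w : Fin n → Fin k, Real.negMulLog (ρ.real {x | word T P n x = w})

/-- The entropy of `T` for `ρ` and the partition `P`. -/
noncomputable def partitionEntropy {k : ℕ} (T : X → X) (ρ : Measure X) (P : X → Fin k) : EReal :=
  limsup (fun n : ℕ => ((joinEntropy T ρ P n / n : ℝ) : EReal)) atTop

/-- The Kolmogorov-Sinai entropy of `T` for `ρ`: the supremum of the entropies over all finite
measurable partitions. -/
noncomputable def ksEntropy (T : X → X) (ρ : Measure X) : EReal :=
  ⨆ (k : ℕ) (P : X → Fin k) (_ : Measurable P), partitionEntropy T ρ P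

end Entropy

section Exponents

variable {E : Type*} [NormedAddCommGroup E] [NormedSpace ℝ E]
  {H : Type*} [TopologicalSpace H] {I : ModelWithCorners ℝ E H}
  {M : Type*} [TopologicalSpace M] [ChartedSpace H M] [IsManifold I 1 M] {r : ℕ∞ω}

/-- The norm of a tangent vector for the Riemannian metric `g`. -/
noncomputable def tnorm (g : ContinuousRiemannianMetric E (TangentSpace I : M → Type _)) (x : M)
    (v : TangentSpace I x) : ℝ :=
  √(g.inner x v v)

/-- `lim_{n → ± ∞} (1/n) log ‖T_x f^n u‖ = χ`. -/
def HasExponent (f : Diffeomorph I I M M r)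
    (g : ContinuousRiemannianMetric E (TangentSpace I : M → Type _)) (x : M)
    (u : TangentSpace I x) (χ : ℝ) : Prop :=
  Tendsto (fun n : ℕ => 1 / (n : ℝ) * Real.log (tnorm g (f^[n] x) (mfderiv I I f^[n] x u)))
    atTop (𝓝 χ) ∧
  Tendsto (fun n : ℕ => 1 / (-(n : ℝ)) *
    Real.log (tnorm g (f.symm^[n] x) (mfderiv I I f.symm^[n] x u))) atTop (𝓝 χ)

/-- A splitting of the tangent space at `x` into non-zero subspaces `V i` with distinct
characteristic exponents `χ i`, as in the multiplicative ergodic theorem of Oseledets. -/
structure OseledetsSplitting (f : Diffeomorph I I M M r)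
    (g : ContinuousRiemannianMetric E (TangentSpace I : M → Type _)) (x : M) where
  /-- the number of subspaces -/
  k : ℕ
  /-- the subspaces -/
  V : Fin k → Submodule ℝ (TangentSpace I x)
  /-- the exponents -/
  χ : Fin k → ℝ
  /-- the tangent space is the direct sum of the subspaces -/
  isInternal : DirectSum.IsInternal V
  /-- the subspaces are not zero -/
  ne_bot : ∀ i, V i ≠ ⊥
  /-- the exponents are distinct -/
  injective : Function.Injective χ
  /-- the exponent of each non-zero vector of `V i` is `χ i` -/
  exponent : ∀ i, ∀ u ∈ V i, u ≠ 0 → HasExponent f g x u (χ i)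

/-- `s` is the sum of the positive exponents at `x`, each counted with the dimension of its
subspace. -/
def IsChiPlus (f : Diffeomorph I I M M r)
    (g : ContinuousRiemannianMetric E (TangentSpace I : M → Type _)) (x : M) (s : ℝ) : Prop :=
  ∃ S : OseledetsSplitting f g x,
    s = ∑ i ∈ Finset.univ.filter (fun i => 0 < S.χ i), S.χ i * Module.finrank ℝ (S.V i)

/-- For every continuous Riemannian metric `g` and every Borel probability measure `ρ` which is
invariant under `f`, the sum `χ₊` of the positive exponents is defined `ρ`-almost everywhere and is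
`ρ`-integrable, and `h(ρ) + c ≤ ∫ χ₊ dρ` (for every function `χ₊` which is almost everywhere equal
to that sum). -/
def EntropyGap (f : Diffeomorph I I M M r) (c : ℝ) : Prop :=
  ∀ (g : ContinuousRiemannianMetric E (TangentSpace I : M → Type _)) (_ : MeasurableSpace M)
    (_ : BorelSpace M) (ρ : Measure M), IsProbabilityMeasure ρ → MeasurePreserving f ρ ρ →
      (∃ χ : M → ℝ, ∀ᵐ x ∂ρ, IsChiPlus f g x (χ x)) ∧
      ∀ χ : M → ℝ, (∀ᵐ x ∂ρ, IsChiPlus f g x (χ x)) →
        Integrable χ ρ ∧ ksEntropy f ρ + (c : EReal) ≤ ((∫ x, χ x ∂ρ : ℝ) : EReal)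

open Classical in
/-- The sum of the positive exponents at `x` (zero if there is no splitting at `x`). -/
noncomputable def chiPlus (f : Diffeomorph I I M M r)
    (g : ContinuousRiemannianMetric E (TangentSpace I : M → Type _)) (x : M) : ℝ :=
  if h : ∃ s, IsChiPlus f g x s then h.choose else 0

theorem isChiPlus_chiPlus {f : Diffeomorph I I M M r}
    {g : ContinuousRiemannianMetric E (TangentSpace I : M → Type _)} {x : M}
    (h : ∃ s, IsChiPlus f g x s) : IsChiPlus f g x (chiPlus f g x) := by
  unfold chiPlus
  rw [dif_pos h]
  exact h.choose_spec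

end Exponents

end Pool.Agent.TH339.EE
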