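import Pool.Agent.TH339.EE9

/-!
# Exponents at the fixed points, II
-/

set_option autoImplicit false

open MeasureTheory Filter Topology Bundle
open scoped Manifold ContDiff

namespace Pool.Agent.TH339.EE

theorem cmp (g : RM) (x : TT) (Φ : E2 ≃L[ℝ] ℝ × ℝ) : ∃ c C : ℝ, 0 < c ∧ 0 < C ∧ ∀ v : E2,
    c * ‖Φ v‖ ≤ tnorm g x v ∧ tnorm g x v ≤ C * ‖Φ v‖ := by
  obtain ⟨c, C, hc, hC, h⟩ := tnorm_bounds g x
  have h1 : ∀ v, ‖Φ v‖ ≤ (‖(Φ : E2 →L[ℝ] ℝ × ℝ)‖ + 1) * ‖v‖ := fun v => by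
    have := (Φ : E2 →L[ℝ] ℝ × ℝ).le_opNorm v
    have h2 := norm_nonneg v
    have h3 : (Φ : E2 →L[ℝ] ℝ × ℝ) v = Φ v := rfl
    rw [h3] at this
    linarith
  have h2 : ∀ v, ‖v‖ ≤ (‖(Φ.symm : ℝ × ℝ →L[ℝ] E2)‖ + 1) * ‖Φ v‖ := fun v => by
    have := (Φ.symm : ℝ × ℝ →L[ℝ] E2).le_opNorm (Φ v)
    have h2 := norm_nonneg (Φ v)
    have h3 : (Φ.symm : ℝ × ℝ →L[ℝ] E2) (Φ v) = v := Φ.symm_apply_apply v
    rw [h3] at this
    linarith
  set a := ‖(Φ : E2 →L[ℝ] ℝ × ℝ)‖ + 1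
  set b := ‖(Φ.symm : ℝ × ℝ →L[ℝ] E2)‖ + 1
  have ha : 0 < a := by positivity
  have hb : 0 < b := by positivity
  refine ⟨c / a, C * b, by positivity, by positivity, fun v => ⟨?_, ?_⟩⟩
  · calc c / a * ‖Φ v‖ ≤ c / a * (a * ‖v‖) := mul_le_mul_of_nonneg_left (h1 v) (by positivity)
      _ = c * ‖v‖ := by field_simp
      _ ≤ _ := (h v).1
  · calc tnorm g x v ≤ C * ‖v‖ := (h v).2
      _ ≤ C * (b * ‖Φ v‖) := mul_le_mul_of_nonneg_left (h2 v) hC.le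
      _ = _ := by ring

/-! ### Saddles -/

section saddle

variable (g : RM) (x : TT) (Φ : E2 ≃L[ℝ] ℝ × ℝ) (hx : ff x = x)
  (hΦ : ∀ v, Φ (Df x v) = (4 / 3 * (Φ v).1, 1 / 3 * (Φ v).2))

include hΦ in
theorem iterA (n : ℕ) (v : E2) : Φ ((MF ff x)^[n] v) =
    ((4 / 3) ^ n * (Φ v).1, (1 / 3) ^ n * (Φ v).2) := by
  induction n with
  | zero => simp
  | succ n ih =>
    rw [Function.iterate_succ_apply']
    have h := hΦ ((MF ff x)^[n] v)
    rw [ih] at h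
    have h2 : Φ (MF ff x ((MF ff x)^[n] v)) = Φ (Df x ((MF ff x)^[n] v)) := rfl
    rw [h2, h]
    refine Prod.ext ?_ ?_
    · show 4 / 3 * ((4 / 3) ^ n * (Φ v).1) = (4 / 3) ^ (n + 1) * (Φ v).1
      ring
    · show 1 / 3 * ((1 / 3) ^ n * (Φ v).2) = (1 / 3) ^ (n + 1) * (Φ v).2
      ring

include hx hΦ in
theorem iterB (n : ℕ) (v : E2) : Φ ((MF ff.symm x)^[n] v) =
    ((4 / 3)⁻¹ ^ n * (Φ v).1, (1 / 3)⁻¹ ^ n * (Φ v).2) := by
  have h1 : ∀ v, Φ (MF ff.symm x v) = ((4 / 3)⁻¹ * (Φ v).1, (1 / 3)⁻¹ * (Φ v).2) := by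
    intro v
    have h := hΦ (MF ff.symm x v)
    have h2 : Df x (MF ff.symm x v) = v := MF_symm x hx v
    rw [h2] at h
    rw [h]
    refine Prod.ext ?_ ?_
    · show (Φ (MF ff.symm x v)).1 = (4 / 3)⁻¹ * (4 / 3 * (Φ (MF ff.symm x v)).1)
      ring
    · show (Φ (MF ff.symm x v)).2 = (1 / 3)⁻¹ * (1 / 3 * (Φ (MF ff.symm x v)).2)
      ring
  induction n with
  | zero => simp
  | succ n ih =>
    rw [Function.iterate_succ_apply', h1, ih]
    refine Prod.ext ?_ ?_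
    · show (4 / 3)⁻¹ * ((4 / 3)⁻¹ ^ n * (Φ v).1) = (4 / 3)⁻¹ ^ (n + 1) * (Φ v).1
      ring
    · show (1 / 3)⁻¹ * ((1 / 3)⁻¹ ^ n * (Φ v).2) = (1 / 3)⁻¹ ^ (n + 1) * (Φ v).2
      ring

include hΦ in
/-- The forward exponent of a vector with a non-zero unstable component. -/
theorem forwardA (u : E2) (hu : (Φ u).1 ≠ 0) :
    Tendsto (fun n : ℕ => 1 / (n : ℝ) * Real.log (tnorm g x ((MF ff x)^[n] u))) atTop
      (𝓝 (Real.log (4 / 3))) := by
  obtain ⟨c, C, hc, hC, h⟩ := cmp g x Φ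
  refine tends_one _ (c * |(Φ u).1|) (C * ‖Φ u‖) (4 / 3) (by positivity) (by norm_num)
    fun n => ?_
  have h1 := h ((MF ff x)^[n] u)
  rw [iterA x Φ hΦ, Prod.norm_def] at h1
  simp only [Real.norm_eq_abs] at h1
  rw [abs_mul, abs_mul, abs_of_pos (by positivity : (0 : ℝ) < (4 / 3) ^ n),
    abs_of_pos (by positivity : (0 : ℝ) < (1 / 3) ^ n)] at h1
  constructor
  · refine le_trans ?_ h1.1
    rw [mul_assoc, mul_comm |(Φ u).1|]
    exact mul_le_mul_of_nonneg_left (le_max_left _ _) hc.le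
  · refine h1.2.trans ?_
    rw [mul_assoc]
    refine mul_le_mul_of_nonneg_left (max_le ?_ ?_) hC.le
    · rw [mul_comm]
      exact mul_le_mul_of_nonneg_right (norm_fst_le (Φ u)) (by positivity)
    · rw [mul_comm]
      exact mul_le_mul (norm_snd_le (Φ u)) (pow_le_pow_left₀ (by norm_num) (by norm_num) n)
        (by positivity) (norm_nonneg _)

include hx hΦ in
theorem exponent1 (u : E2) (hu : u ≠ 0) (h2 : (Φ u).2 = 0) :
    HasExponent ff g x u (Real.log (4 / 3)) := by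
  have h1 : (Φ u).1 ≠ 0 := by
    intro h1
    apply hu
    have : Φ u = 0 := Prod.ext h1 h2
    simpa using this
  rw [hasExponent_iff g x hx]
  refine ⟨forwardA g x Φ hΦ u h1, ?_⟩
  obtain ⟨c, C, hc, hC, h⟩ := cmp g x Φ
  refine tends_two _ (c * |(Φ u).1|) (C * |(Φ u).1|) (4 / 3) (by positivity) (by norm_num)
    fun n => ?_
  have h3 := h ((MF ff.symm x)^[n] u)
  rw [iterB x Φ hx hΦ, Prod.norm_def, h2, mul_zero, norm_zero] at h3
  rw [Real.norm_eq_abs, abs_mul, abs_of_pos (by positivity : (0 : ℝ) < (4 / 3)⁻¹ ^ n),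
    max_eq_left (by positivity)] at h3
  rw [mul_assoc, mul_assoc, mul_comm |(Φ u).1|]
  exact h3

include hx hΦ in
theorem exponent2 (u : E2) (hu : u ≠ 0) (h1 : (Φ u).1 = 0) :
    HasExponent ff g x u (Real.log (1 / 3)) := by
  have h2 : (Φ u).2 ≠ 0 := by
    intro h2
    apply hu
    have : Φ u = 0 := Prod.ext h1 h2
    simpa using this
  rw [hasExponent_iff g x hx]
  obtain ⟨c, C, hc, hC, h⟩ := cmp g x Φ
  constructor
  · refine tends_one _ (c * |(Φ u).2|) (C * |(Φ u).2|) (1 / 3) (by positivity) (by norm_num)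
      fun n => ?_
    have h3 := h ((MF ff x)^[n] u)
    rw [iterA x Φ hΦ, Prod.norm_def, h1, mul_zero, norm_zero] at h3
    rw [Real.norm_eq_abs, abs_mul, abs_of_pos (by positivity : (0 : ℝ) < (1 / 3) ^ n),
      max_eq_right (by positivity)] at h3
    rw [mul_assoc, mul_assoc, mul_comm |(Φ u).2|]
    exact h3
  · refine tends_two _ (c * |(Φ u).2|) (C * |(Φ u).2|) (1 / 3) (by positivity) (by norm_num)
      fun n => ?_
    have h3 := h ((MF ff.symm x)^[n] u)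
    rw [iterB x Φ hx hΦ, Prod.norm_def, h1, mul_zero, norm_zero] at h3
    rw [Real.norm_eq_abs, abs_mul, abs_of_pos (by positivity : (0 : ℝ) < (1 / 3)⁻¹ ^ n),
      max_eq_right (by positivity)] at h3
    rw [mul_assoc, mul_assoc, mul_comm |(Φ u).2|]
    exact h3

end saddle

/-! ### Sources -/

/-- an invariant quadratic form -/
noncomputable def QQ (w : ℝ × ℝ) : ℝ := w.1 ^ 2 - 3 / 5 * (w.1 * w.2) + w.2 ^ 2

theorem QQ_bounds (w : ℝ × ℝ) : 1 / 2 * ‖w‖ ≤ √(QQ w) ∧ √(QQ w) ≤ 2 * ‖w‖ := by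
  have h1 : |w.1| ≤ ‖w‖ := norm_fst_le w
  have h2 : |w.2| ≤ ‖w‖ := norm_snd_le w
  have h3 : w.1 ^ 2 ≤ ‖w‖ ^ 2 := by rw [← sq_abs]; exact pow_le_pow_left₀ (abs_nonneg _) h1 2
  have h4 : w.2 ^ 2 ≤ ‖w‖ ^ 2 := by rw [← sq_abs]; exact pow_le_pow_left₀ (abs_nonneg _) h2 2
  have h5 : ‖w‖ ^ 2 ≤ w.1 ^ 2 + w.2 ^ 2 := by
    rcases max_choice ‖w.1‖ ‖w.2‖ with h | h
    · rw [Prod.norm_def, h, Real.norm_eq_abs, sq_abs]; nlinarith [sq_nonneg w.2]
    · rw [Prod.norm_def, h, Real.norm_eq_abs, sq_abs]; nlinarith [sq_nonneg w.1]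
  unfold QQ
  constructor
  · apply Real.le_sqrt_of_sq_le
    nlinarith [sq_nonneg (w.1 - w.2)]
  · rw [Real.sqrt_le_left (by positivity)]
    nlinarith [sq_nonneg (w.1 + w.2)]

section source

variable (g : RM) (x : TT) (Φ : E2 ≃L[ℝ] ℝ × ℝ) (hx : ff x = x)
  (hΦ : ∀ v, Φ (Df x v) = (3 / 2 * ((Φ v).1 - 3 / 5 * (Φ v).2),
      3 / 2 * (3 / 5 * (Φ v).1 + 16 / 25 * (Φ v).2)))

include hΦ in
theorem QQ_step (v : E2) : QQ (Φ (Df x v)) = (3 / 2) ^ 2 * QQ (Φ v) := by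
  rw [hΦ]
  unfold QQ
  ring

theorem QQ_nonneg (w : ℝ × ℝ) : 0 ≤ QQ w := by
  unfold QQ
  nlinarith [sq_nonneg (w.1 - w.2), sq_nonneg (w.1 + w.2)]

include hΦ in
theorem QQ_iterA (n : ℕ) (v : E2) : √(QQ (Φ ((MF ff x)^[n] v))) = (3 / 2) ^ n * √(QQ (Φ v)) := by
  have h : QQ (Φ ((MF ff x)^[n] v)) = ((3 / 2) ^ n) ^ 2 * QQ (Φ v) := by
    induction n with
    | zero => simp
    | succ n ih =>
      rw [Function.iterate_succ_apply']
      have h1 : QQ (Φ (MF ff x ((MF ff x)^[n] v))) = (3 / 2) ^ 2 * QQ (Φ ((MF ff x)^[n] v)) :=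
        QQ_step x Φ hΦ _
      rw [h1, ih]
      ring
  rw [h, Real.sqrt_mul (by positivity), Real.sqrt_sq (by positivity)]

include hx hΦ in
theorem QQ_iterB (n : ℕ) (v : E2) :
    √(QQ (Φ ((MF ff.symm x)^[n] v))) = (3 / 2)⁻¹ ^ n * √(QQ (Φ v)) := by
  have h0 : ∀ v, QQ (Φ (MF ff.symm x v)) = ((3 / 2)⁻¹) ^ 2 * QQ (Φ v) := by
    intro v
    have h1 := QQ_step x Φ hΦ (MF ff.symm x v)
    have h2 : Df x (MF ff.symm x v) = v := MF_symm x hx v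
    rw [h2] at h1
    rw [h1]
    ring
  have h : QQ (Φ ((MF ff.symm x)^[n] v)) = ((3 / 2)⁻¹ ^ n) ^ 2 * QQ (Φ v) := by
    induction n with
    | zero => simp
    | succ n ih =>
      rw [Function.iterate_succ_apply', h0, ih]
      ring
  rw [h, Real.sqrt_mul (by positivity), Real.sqrt_sq (by positivity)]

include hx hΦ in
theorem exponent3 (u : E2) (hu : u ≠ 0) : HasExponent ff g x u (Real.log (3 / 2)) := by
  rw [hasExponent_iff g x hx]
  obtain ⟨c, C, hc, hC, h⟩ := cmp g x Φ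
  have hΦu : 0 < ‖Φ u‖ := by
    rw [norm_pos_iff]
    intro h1
    exact hu (by simpa using h1)
  have hQ : 0 < √(QQ (Φ u)) := lt_of_lt_of_le (by positivity) (QQ_bounds (Φ u)).1
  constructor
  · refine tends_one _ (c / 2 * √(QQ (Φ u))) (2 * C * √(QQ (Φ u))) (3 / 2) (by positivity)
      (by norm_num) fun n => ?_
    have h1 := h ((MF ff x)^[n] u)
    have h2 := QQ_bounds (Φ ((MF ff x)^[n] u))
    rw [QQ_iterA x Φ hΦ] at h2
    constructor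
    · nlinarith [h1.1, h2.2]
    · nlinarith [h1.2, h2.1]
  · refine tends_two _ (c / 2 * √(QQ (Φ u))) (2 * C * √(QQ (Φ u))) (3 / 2) (by positivity)
      (by norm_num) fun n => ?_
    have h1 := h ((MF ff.symm x)^[n] u)
    have h2 := QQ_bounds (Φ ((MF ff.symm x)^[n] u))
    rw [QQ_iterB x Φ hx hΦ] at h2
    constructor
    · nlinarith [h1.1, h2.2]
    · nlinarith [h1.2, h2.1]

end source

end Pool.Agent.TH339.EE
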