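import Pool.Agent.TH339.EE10

/-!
# The sum of the positive exponents at the fixed points, and the entropy
-/

set_option autoImplicit false

open MeasureTheory Filter Topology Bundle
open scoped Manifold ContDiff

namespace Pool.Agent.TH339.EE

theorem log43_pos : 0 < Real.log (4 / 3) := Real.log_pos (by norm_num)

/-! ### Existence of a splitting -/

theorem exists_saddle (g : RM) (x : TT) (Φ : E2 ≃L[ℝ] ℝ × ℝ) (hx : ff x = x)
    (hΦ : ∀ v, Φ (Df x v) = (4 / 3 * (Φ v).1, 1 / 3 * (Φ v).2)) : ∃ s, IsChiPlus ff g x s := by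
  let L1 : E2 →ₗ[ℝ] ℝ := (LinearMap.fst ℝ ℝ ℝ).comp (Φ : E2 →ₗ[ℝ] ℝ × ℝ)
  let L2 : E2 →ₗ[ℝ] ℝ := (LinearMap.snd ℝ ℝ ℝ).comp (Φ : E2 →ₗ[ℝ] ℝ × ℝ)
  have hL1 : ∀ v, L1 v = (Φ v).1 := fun v => rfl
  have hL2 : ∀ v, L2 v = (Φ v).2 := fun v => rfl
  let V : Fin 2 → Submodule ℝ (TangentSpace II x) := ![LinearMap.ker L2, LinearMap.ker L1]
  have hV0 : ∀ u : E2, u ∈ V 0 ↔ (Φ u).2 = 0 := fun u => Iff.rfl
  have hV1 : ∀ u : E2, u ∈ V 1 ↔ (Φ u).1 = 0 := fun u => Iff.rfl
  have hcompl : IsCompl (V 0) (V 1) := by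
    constructor
    · rw [Submodule.disjoint_def]
      intro u h1 h2
      have : Φ u = 0 := Prod.ext ((hV1 u).1 h2) ((hV0 u).1 h1)
      have h3 : ∀ u : E2, Φ u = 0 → u = 0 := fun u h => by simpa using h
      exact h3 u this
    · rw [codisjoint_iff, Submodule.eq_top_iff']
      intro u
      have h0 : ∀ u : E2, u = Φ.symm ((Φ u).1, 0) + Φ.symm (0, (Φ u).2) := by
        intro u
        apply Φ.injective
        rw [map_add]
        simp
      obtain ⟨a, ha⟩ : ∃ a : TangentSpace II x, a = Φ.symm ((Φ u).1, 0) := ⟨_, rfl⟩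
      obtain ⟨b, hb⟩ : ∃ b : TangentSpace II x, b = Φ.symm (0, (Φ u).2) := ⟨_, rfl⟩
      have m0 : a ∈ V 0 := by rw [ha]; exact (hV0 _).2 (by simp)
      have m1 : b ∈ V 1 := by rw [hb]; exact (hV1 _).2 (by simp)
      have h1 : u = a + b := by rw [ha, hb]; exact h0 u
      rw [h1]
      exact Submodule.add_mem_sup m0 m1
  refine ⟨_, ⟨2, V, ![Real.log (4 / 3), Real.log (1 / 3)], ?_, ?_, ?_, ?_⟩, rfl⟩
  · rw [DirectSum.isInternal_submodule_iff_isCompl V (i := 0) (j := 1) (by decide)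
      (by ext i; fin_cases i <;> simp)]
    exact hcompl
  · intro i
    rw [Submodule.ne_bot_iff]
    fin_cases i
    · refine ⟨(Φ.symm (1, 0) : E2), (hV0 _).2 (by simp), ?_⟩
      intro h
      have h2 : (1, 0) = (0 : ℝ × ℝ) := by
        have h3 : Φ (Φ.symm (1, 0)) = Φ 0 := congrArg Φ h
        simp at h3
      simpa using congrArg Prod.fst h2
    · refine ⟨(Φ.symm (0, 1) : E2), (hV1 _).2 (by simp), ?_⟩
      intro h
      have h2 : (0, 1) = (0 : ℝ × ℝ) := by
        have h3 : Φ (Φ.symm (0, 1)) = Φ 0 := congrArg Φ h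
        simp at h3
      simpa using congrArg Prod.snd h2
  · have hne : Real.log (4 / 3) ≠ Real.log (1 / 3) := by
      intro h
      have := Real.log_injOn_pos (by norm_num : (0 : ℝ) < 4 / 3) (by norm_num : (0 : ℝ) < 1 / 3) h
      norm_num at this
    intro i j hij
    fin_cases i <;> fin_cases j
    · rfl
    · exact absurd hij hne
    · exact absurd hij hne.symm
    · rfl
  · intro i u hu hu0
    fin_cases i
    · exact exponent1 g x Φ hx hΦ u hu0 ((hV0 u).1 hu)
    · exact exponent2 g x Φ hx hΦ u hu0 ((hV1 u).1 hu)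

theorem exists_source (g : RM) (x : TT) (Φ : E2 ≃L[ℝ] ℝ × ℝ) (hx : ff x = x)
    (hΦ : ∀ v, Φ (Df x v) = (3 / 2 * ((Φ v).1 - 3 / 5 * (Φ v).2),
      3 / 2 * (3 / 5 * (Φ v).1 + 16 / 25 * (Φ v).2))) : ∃ s, IsChiPlus ff g x s := by
  let V : Fin 1 → Submodule ℝ (TangentSpace II x) := fun _ => ⊤
  refine ⟨_, ⟨1, V, fun _ => Real.log (3 / 2), ?_, ?_, ?_, ?_⟩, rfl⟩
  · apply DirectSum.isInternal_submodule_of_iSupIndep_of_iSup_eq_top
    · exact iSupIndep_subsingleton V
    · simp [V]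
  · intro i
    rw [Submodule.ne_bot_iff]
    refine ⟨(Φ.symm (1, 0) : E2), trivial, ?_⟩
    intro h
    have h2 : (1, 0) = (0 : ℝ × ℝ) := by
      have h3 : Φ (Φ.symm (1, 0)) = Φ 0 := congrArg Φ h
      simp at h3
    simpa using congrArg Prod.fst h2
  · intro i j _
    exact Subsingleton.elim i j
  · intro i u _ hu0
    exact exponent3 g x Φ hx hΦ u hu0

/-! ### The lower bound -/

theorem le_sum {x : TT} {g : RM} (S : OseledetsSplitting ff g x) (i : Fin S.k)
    (h : Real.log (4 / 3) ≤ S.χ i) :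
    Real.log (4 / 3) ≤
      ∑ i ∈ Finset.univ.filter (fun i => 0 < S.χ i), S.χ i * Module.finrank ℝ (S.V i) := by
  have h0 : 0 < S.χ i := log43_pos.trans_le h
  have hfin : FiniteDimensional ℝ (TangentSpace II x) :=
    inferInstanceAs (FiniteDimensional ℝ E2)
  have h1 : 1 ≤ Module.finrank ℝ (S.V i) := Submodule.one_le_finrank_iff.2 (S.ne_bot i)
  have h2 : S.χ i * Module.finrank ℝ (S.V i) ≤
      ∑ i ∈ Finset.univ.filter (fun i => 0 < S.χ i), S.χ i * Module.finrank ℝ (S.V i) := by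
    refine Finset.single_le_sum (f := fun i => S.χ i * (Module.finrank ℝ (S.V i) : ℝ))
      (fun j hj => ?_) (Finset.mem_filter.2 ⟨Finset.mem_univ _, h0⟩)
    have := (Finset.mem_filter.1 hj).2
    positivity
  have h3 : (1 : ℝ) ≤ Module.finrank ℝ (S.V i) := by exact_mod_cast h1
  nlinarith

theorem bound_saddle (g : RM) (x : TT) (Φ : E2 ≃L[ℝ] ℝ × ℝ) (hx : ff x = x)
    (hΦ : ∀ v, Φ (Df x v) = (4 / 3 * (Φ v).1, 1 / 3 * (Φ v).2)) (s : ℝ)
    (hs : IsChiPlus ff g x s) : Real.log (4 / 3) ≤ s := by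
  obtain ⟨S, rfl⟩ := hs
  let L1 : E2 →ₗ[ℝ] ℝ := (LinearMap.fst ℝ ℝ ℝ).comp (Φ : E2 →ₗ[ℝ] ℝ × ℝ)
  let W : Submodule ℝ (TangentSpace II x) := LinearMap.ker L1
  have hW : ∀ u : E2, u ∈ W ↔ (Φ u).1 = 0 := fun u => Iff.rfl
  have h1 : ∃ i, ¬ S.V i ≤ W := by
    by_contra hcon
    push Not at hcon
    have h2 : (⊤ : Submodule ℝ (TangentSpace II x)) ≤ W := by
      rw [← S.isInternal.submodule_iSup_eq_top]
      exact iSup_le hcon
    have h3 : (Φ.symm (1, 0) : E2) ∈ W := h2 trivial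
    rw [hW] at h3
    simp at h3
  obtain ⟨i, hi⟩ := h1
  obtain ⟨u, hu1, hu2⟩ := SetLike.not_le_iff_exists.1 hi
  have hu3 : (Φ u).1 ≠ 0 := fun h => hu2 ((hW u).2 h)
  have hu0 : u ≠ 0 := fun h => hu2 (h ▸ W.zero_mem)
  have h4 := S.exponent i u hu1 hu0
  have h4' := (hasExponent_iff g x hx u (S.χ i)).1 h4
  have h5 := tendsto_nhds_unique h4'.1 (forwardA g x Φ hΦ u hu3)
  exact le_sum S i h5.ge

theorem bound_source (g : RM) (x : TT) (Φ : E2 ≃L[ℝ] ℝ × ℝ) (hx : ff x = x)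
    (hΦ : ∀ v, Φ (Df x v) = (3 / 2 * ((Φ v).1 - 3 / 5 * (Φ v).2),
      3 / 2 * (3 / 5 * (Φ v).1 + 16 / 25 * (Φ v).2))) (s : ℝ)
    (hs : IsChiPlus ff g x s) : Real.log (4 / 3) ≤ s := by
  obtain ⟨S, rfl⟩ := hs
  have h1 : ∃ i : Fin S.k, True := by
    by_contra hcon
    push Not at hcon
    have h2 : (⊤ : Submodule ℝ (TangentSpace II x)) ≤ ⊥ := by
      rw [← S.isInternal.submodule_iSup_eq_top]
      exact iSup_le fun i => (hcon i).elim
    obtain ⟨a, ha⟩ : ∃ a : TangentSpace II x, a = Φ.symm (1, 0) := ⟨_, rfl⟩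
    have h3 : a ∈ (⊥ : Submodule ℝ (TangentSpace II x)) := h2 trivial
    rw [Submodule.mem_bot, ha] at h3
    have h4 : (1, 0) = (0 : ℝ × ℝ) := by
      have h3 : Φ (Φ.symm (1, 0)) = Φ 0 := congrArg Φ h3
      simp at h3
    simpa using congrArg Prod.fst h4
  obtain ⟨i, -⟩ := h1
  obtain ⟨u, hu1, hu0⟩ := (Submodule.ne_bot_iff _).1 (S.ne_bot i)
  have h4 := S.exponent i u hu1 hu0
  have h6 := exponent3 g x Φ hx hΦ u hu0
  have h5 := tendsto_nhds_unique h4.1 h6.1
  apply le_sum S i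
  rw [h5]
  exact Real.log_le_log (by norm_num) (by norm_num)

theorem fix_spec (g : RM) (x : TT) (hx : x ∈ Fix8) :
    IsChiPlus ff g x (chiPlus ff g x) ∧ Real.log (4 / 3) ≤ chiPlus ff g x := by
  have hf := ff_fix x hx
  rcases hx with hx | hx
  · obtain ⟨Φ, hΦ⟩ := corner_equiv x hx
    have h := isChiPlus_chiPlus (exists_saddle g x Φ hf hΦ)
    exact ⟨h, bound_saddle g x Φ hf hΦ _ h⟩
  · obtain ⟨Φ, hΦ⟩ := center_equiv x hx
    have h := isChiPlus_chiPlus (exists_source g x Φ hf hΦ)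
    exact ⟨h, bound_source g x Φ hf hΦ _ h⟩

/-! ### The entropy -/

theorem joinEntropy_le {X : Type*} [MeasurableSpace X] (T : X → X) (ρ : Measure X)
    [IsProbabilityMeasure ρ] {k : ℕ} (P : X → Fin k) (hT : ∀ᵐ x ∂ρ, T x = x) (n : ℕ) :
    joinEntropy T ρ P n ≤ k := by
  have h0 : ∀ᵐ x ∂ρ, word T P n x = fun _ => P x := by
    filter_upwards [hT] with x hx
    funext i
    show P (T^[i] x) = P x
    rw [Function.iterate_fixed hx]
  unfold joinEntropy
  have h1 : ∀ w : Fin n → Fin k, w ∉ Finset.univ.image (fun j : Fin k => fun _ : Fin n => j) →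
      Real.negMulLog (ρ.real {x | word T P n x = w}) = 0 := by
    intro w hw
    have : ρ.real {x | word T P n x = w} = 0 := by
      rw [Measure.real, ENNReal.toReal_eq_zero_iff]
      left
      rw [← nonpos_iff_eq_zero]
      have h2 : ρ {x | ¬ word T P n x = fun _ => P x} = 0 := ae_iff.1 h0
      rw [← h2]
      refine measure_mono fun x hx => ?_
      intro hx2
      apply hw
      rw [Finset.mem_image]
      refine ⟨P x, Finset.mem_univ _, ?_⟩
      have hx' : word T P n x = w := hx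
      rw [← hx', hx2]
    rw [this, Real.negMulLog_zero]
  have h2 : ∑ w : Fin n → Fin k, Real.negMulLog (ρ.real {x | word T P n x = w}) =
      ∑ w ∈ Finset.univ.image (fun j : Fin k => fun _ : Fin n => j),
        Real.negMulLog (ρ.real {x | word T P n x = w}) :=
    (Finset.sum_subset (Finset.subset_univ _) fun w _ hw => h1 w hw).symm
  rw [h2]
  calc ∑ w ∈ Finset.univ.image (fun j : Fin k => fun _ : Fin n => j),
        Real.negMulLog (ρ.real {x | word T P n x = w}) ≤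
      ∑ _w ∈ Finset.univ.image (fun j : Fin k => fun _ : Fin n => j), (1 : ℝ) := by
        refine Finset.sum_le_sum fun w _ => ?_
        have h3 : ρ.real {x | word T P n x = w} ≤ 1 := measureReal_le_one
        have h4 : 0 ≤ ρ.real {x | word T P n x = w} := measureReal_nonneg
        have := Real.negMulLog_le_one_sub_self h4
        linarith
    _ = ((Finset.univ.image (fun j : Fin k => fun _ : Fin n => j)).card : ℝ) := by simp
    _ ≤ (k : ℝ) := by
        have : (Finset.univ.image (fun j : Fin k => fun _ : Fin n => j)).card ≤ k :=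
          Finset.card_image_le.trans (by simp)
        exact_mod_cast this

theorem joinEntropy_nonneg {X : Type*} [MeasurableSpace X] (T : X → X) (ρ : Measure X)
    [IsProbabilityMeasure ρ] {k : ℕ} (P : X → Fin k) (n : ℕ) : 0 ≤ joinEntropy T ρ P n := by
  unfold joinEntropy
  exact Finset.sum_nonneg fun w _ => Real.negMulLog_nonneg measureReal_nonneg measureReal_le_one

theorem ksEntropy_le {X : Type*} [MeasurableSpace X] (T : X → X) (ρ : Measure X)
    [IsProbabilityMeasure ρ] (hT : ∀ᵐ x ∂ρ, T x = x) : ksEntropy T ρ ≤ 0 := by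
  unfold ksEntropy
  refine iSup_le fun k => iSup_le fun P => iSup_le fun _ => ?_
  unfold partitionEntropy
  have h : Tendsto (fun n : ℕ => ((joinEntropy T ρ P n / n : ℝ) : EReal)) atTop (𝓝 ((0 : ℝ) : EReal)) := by
    refine (continuous_coe_real_ereal.tendsto 0).comp ?_
    have h1 : Tendsto (fun n : ℕ => (k : ℝ) / n) atTop (𝓝 0) :=
      tendsto_const_nhds.div_atTop tendsto_natCast_atTop_atTop
    refine squeeze_zero (fun n => ?_) (fun n => ?_) h1
    · exact div_nonneg (joinEntropy_nonneg T ρ P n) (Nat.cast_nonneg n)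
    · exact div_le_div_of_nonneg_right (joinEntropy_le T ρ P hT n) (Nat.cast_nonneg n)
  rw [h.limsup_eq]
  exact le_rfl

end Pool.Agent.TH339.EE
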