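import Pool.Agent.TH339.EE11

/-!
# The main theorem
-/

set_option autoImplicit false

open MeasureTheory Filter Topology Bundle
open scoped Manifold ContDiff

namespace Pool.Agent.TH339.EE

theorem finite_fix8 : Fix8.Finite := by
  let s : Finset ℝ := {-1, 0, 1}
  let F : TT → ((ℝ × ℝ) × (ℝ × ℝ)) := fun x =>
    (((x.1 : ℂ).re, (x.1 : ℂ).im), ((x.2 : ℂ).re, (x.2 : ℂ).im))
  have hinj : Function.Injective F := by
    intro x y h
    have h1 := congrArg (fun q => q.1.1) h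
    have h2 := congrArg (fun q => q.1.2) h
    have h3 := congrArg (fun q => q.2.1) h
    have h4 := congrArg (fun q => q.2.2) h
    exact Prod.ext (circle_ext h1 h2) (circle_ext h3 h4)
  have hmem : ∀ a : ℝ, a = 0 ∨ a ^ 2 = 1 → a ∈ s := by
    intro a ha
    rcases ha with ha | ha
    · simp [s, ha]
    · rcases sq_eq_one_iff.1 ha with h | h <;> simp [s, h]
  refine Set.Finite.of_finite_image (f := F) ?_ hinj.injOn
  refine (((s ×ˢ s) ×ˢ (s ×ˢ s)).finite_toSet).subset ?_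
  rintro _ ⟨x, hx, rfl⟩
  simp only [F, Finset.coe_product, Set.mem_prod, Finset.mem_coe]
  have e1 := sq_add_sq x.1
  have e2 := sq_add_sq x.2
  rcases hx with ⟨h1, h2⟩ | ⟨h1, h2⟩
  · rw [h1] at e1 ⊢
    rw [h2] at e2 ⊢
    exact ⟨⟨hmem _ (Or.inr (by linarith)), hmem _ (Or.inl rfl)⟩,
      ⟨hmem _ (Or.inr (by linarith)), hmem _ (Or.inl rfl)⟩⟩
  · rw [h1] at e1 ⊢
    rw [h2] at e2 ⊢
    exact ⟨⟨hmem _ (Or.inl rfl), hmem _ (Or.inr (by linarith))⟩,
      ⟨hmem _ (Or.inl rfl), hmem _ (Or.inr (by linarith))⟩⟩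

/-- A function is integrable for a probability measure carried by a finite set. -/
theorem integrable_of_finite {X : Type*} [MeasurableSpace X] [MeasurableSingletonClass X]
    (ρ : Measure X) [IsProbabilityMeasure ρ] (s : Set X) (hs : s.Finite) (h : ∀ᵐ x ∂ρ, x ∈ s)
    (φ : X → ℝ) : Integrable φ ρ := by
  classical
  have h1 : Integrable (fun x => ∑ p ∈ hs.toFinset, ({p} : Set X).indicator (fun _ => φ p) x) ρ :=
    integrable_finsetSum _ fun p _ =>
      (integrable_const (φ p)).indicator (measurableSet_singleton p)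
  refine h1.congr ?_
  filter_upwards [h] with x hx
  rw [Finset.sum_eq_single x]
  · simp
  · intro p _ hp
    simp [hp.symm]
  · intro hx'
    exact absurd (hs.mem_toFinset.2 hx) hx'

theorem bound (g : RM) (x : TT) (hx : x ∈ Fix8) (s : ℝ) (hs : IsChiPlus ff g x s) :
    Real.log (4 / 3) ≤ s := by
  have hf := ff_fix x hx
  rcases hx with hx | hx
  · obtain ⟨Φ, hΦ⟩ := corner_equiv x hx
    exact bound_saddle g x Φ hf hΦ _ hs
  · obtain ⟨Φ, hΦ⟩ := center_equiv x hx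
    exact bound_source g x Φ hf hΦ _ hs

theorem main (g : RM) [MeasurableSpace TT] [BorelSpace TT] (ρ : Measure TT)
    [IsProbabilityMeasure ρ] (hρ : MeasurePreserving ff ρ ρ) :
    (∃ χ : TT → ℝ, ∀ᵐ x ∂ρ, IsChiPlus ff g x (χ x)) ∧
    ∀ χ : TT → ℝ, (∀ᵐ x ∂ρ, IsChiPlus ff g x (χ x)) →
      Integrable χ ρ ∧
      ksEntropy ff ρ + (Real.log (4 / 3) : ℝ) ≤ ((∫ x, χ x ∂ρ : ℝ) : EReal) := by
  have h1 := ae_fix ρ hρ
  refine ⟨⟨chiPlus ff g, ?_⟩, fun χ hχ => ?_⟩
  · filter_upwards [h1] with x hx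
    exact (fix_spec g x hx).1
  have h2 : Integrable χ ρ := integrable_of_finite ρ Fix8 finite_fix8 h1 _
  refine ⟨h2, ?_⟩
  have h3 : ksEntropy ff ρ ≤ 0 := ksEntropy_le ff ρ (by
    filter_upwards [h1] with x hx
    exact ff_fix x hx)
  have h4 : Real.log (4 / 3) ≤ ∫ x, χ x ∂ρ := by
    have h5 : ∫ _x : TT, Real.log (4 / 3) ∂ρ ≤ ∫ x, χ x ∂ρ := by
      refine integral_mono_ae (integrable_const _) h2 ?_
      filter_upwards [h1, hχ] with x hx hx2
      exact bound g x hx _ hx2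
    simpa using h5
  calc ksEntropy ff ρ + (Real.log (4 / 3) : ℝ) ≤ 0 + (Real.log (4 / 3) : ℝ) :=
        add_le_add_left h3 _
    _ = ((Real.log (4 / 3) : ℝ) : EReal) := zero_add _
    _ ≤ _ := by exact_mod_cast h4

end Pool.Agent.TH339.EE
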