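import Mathlib

/-!
# Two families of analytic maps of the circle, and a diffeomorphism of the torus

* `bz σ z = ((Re z + σ) + i √(1 - σ²) Im z) / (1 + σ Re z)`;
* `pz κ z = (κ Re z + i Im z) / |κ Re z + i Im z|`.
-/

set_option autoImplicit false

open MeasureTheory Filter Topology Bundle
open scoped Manifold ContDiff

namespace Pool.Agent.TH339.EE

/-- the circle times the circle -/
abbrev TT : Type := Circle × Circle

/-- the model with corners of the torus -/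
noncomputable abbrev II : ModelWithCorners ℝ (EuclideanSpace ℝ (Fin 1) × EuclideanSpace ℝ (Fin 1))
    (ModelProd (EuclideanSpace ℝ (Fin 1)) (EuclideanSpace ℝ (Fin 1))) := (𝓡 1).prod (𝓡 1)

/-- the point of the circle with given coordinates -/
def toC (a b : ℝ) (h : a ^ 2 + b ^ 2 = 1) : Circle :=
  ⟨⟨a, b⟩, by
    have h2 : ‖(⟨a, b⟩ : ℂ)‖ = 1 := by
      rw [Complex.norm_eq_sqrt_sq_add_sq]
      simp [h]
    exact mem_sphere_zero_iff_norm.2 h2⟩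

@[simp] theorem toC_re (a b : ℝ) (h : a ^ 2 + b ^ 2 = 1) : ((toC a b h : Circle) : ℂ).re = a := rfl
@[simp] theorem toC_im (a b : ℝ) (h : a ^ 2 + b ^ 2 = 1) : ((toC a b h : Circle) : ℂ).im = b := rfl

theorem sq_add_sq (z : Circle) : (z : ℂ).re ^ 2 + (z : ℂ).im ^ 2 = 1 := by
  have h := Circle.normSq_coe z
  rw [Complex.normSq_apply] at h
  linarith [h, sq (z : ℂ).re, sq (z : ℂ).im]

theorem circle_ext {z w : Circle} (h1 : (z : ℂ).re = (w : ℂ).re) (h2 : (z : ℂ).im = (w : ℂ).im) :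
    z = w := Circle.ext (Complex.ext h1 h2)

theorem re_le (z : Circle) : (z : ℂ).re ≤ 1 := by nlinarith [sq_add_sq z, sq_nonneg (z : ℂ).im]
theorem neg_le_re (z : Circle) : -1 ≤ (z : ℂ).re := by
  nlinarith [sq_add_sq z, sq_nonneg (z : ℂ).im]
theorem re_sq_le (z : Circle) : (z : ℂ).re ^ 2 ≤ 1 := by
  nlinarith [sq_add_sq z, sq_nonneg (z : ℂ).im]

theorem den_pos {σ r : ℝ} (hσ : σ ^ 2 < 1) (hr : r ^ 2 ≤ 1) : 0 < 1 + σ * r := by
  nlinarith [sq_nonneg (σ + r), sq_nonneg (σ - r)]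

/-- the boost -/
noncomputable def bz (σ : ℝ) (hσ : σ ^ 2 < 1) (z : Circle) : Circle :=
  toC (((z : ℂ).re + σ) / (1 + σ * (z : ℂ).re)) (√(1 - σ ^ 2) * (z : ℂ).im / (1 + σ * (z : ℂ).re))
    (by
      have h1 := den_pos hσ (re_sq_le z)
      have h2 := sq_add_sq z
      have h3 : √(1 - σ ^ 2) ^ 2 = 1 - σ ^ 2 := Real.sq_sqrt (by linarith)
      rw [div_pow, div_pow, ← add_div, div_eq_one_iff_eq (by positivity), mul_pow, h3]
      have h4 : (z : ℂ).im ^ 2 = 1 - (z : ℂ).re ^ 2 := by linarith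
      rw [h4]; ring)

theorem bz_re (σ : ℝ) (hσ : σ ^ 2 < 1) (z : Circle) :
    (bz σ hσ z : ℂ).re = ((z : ℂ).re + σ) / (1 + σ * (z : ℂ).re) := rfl
theorem bz_im (σ : ℝ) (hσ : σ ^ 2 < 1) (z : Circle) :
    (bz σ hσ z : ℂ).im = √(1 - σ ^ 2) * (z : ℂ).im / (1 + σ * (z : ℂ).re) := rfl

theorem bz_neg (σ : ℝ) (hσ : σ ^ 2 < 1) (hσ' : (-σ) ^ 2 < 1) (z : Circle) :
    bz (-σ) hσ' (bz σ hσ z) = z := by
  have h1 := den_pos hσ (re_sq_le z)
  have h2 := sq_add_sq z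
  have h3 : √(1 - σ ^ 2) ^ 2 = 1 - σ ^ 2 := Real.sq_sqrt (by linarith)
  have h5 : 1 + -σ * (((z : ℂ).re + σ) / (1 + σ * (z : ℂ).re)) =
      (1 - σ ^ 2) / (1 + σ * (z : ℂ).re) := by
    field_simp
    ring
  have h6 : 0 < 1 - σ ^ 2 := by linarith
  have h1' := h1.ne'
  have h6' := h6.ne'
  apply circle_ext
  · rw [bz_re, bz_re, h5, div_add' _ _ _ h1', div_div_div_cancel_right₀ h1', div_eq_iff h6']
    ring
  · rw [bz_im, bz_re, h5, bz_im, neg_sq, mul_div_assoc', div_div_div_cancel_right₀ h1',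
      div_eq_iff h6']
    linear_combination (z : ℂ).im * h3

/-- the projective map -/
noncomputable def pz (κ : ℝ) (hκ : 0 < κ) (z : Circle) : Circle :=
  toC (κ * (z : ℂ).re / √(κ ^ 2 * (z : ℂ).re ^ 2 + (z : ℂ).im ^ 2))
    ((z : ℂ).im / √(κ ^ 2 * (z : ℂ).re ^ 2 + (z : ℂ).im ^ 2))
    (by
      have h2 := sq_add_sq z
      have h1 : 0 < κ ^ 2 * (z : ℂ).re ^ 2 + (z : ℂ).im ^ 2 := by
        by_contra hcon
        have h3 : (z : ℂ).im ^ 2 = 0 := by nlinarith [sq_nonneg (κ * (z : ℂ).re), sq_nonneg (z : ℂ).im]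
        have h4 : κ ^ 2 * (z : ℂ).re ^ 2 ≤ 0 := by nlinarith [sq_nonneg (z : ℂ).im]
        have h5 : (z : ℂ).re ^ 2 = 1 := by linarith
        rw [h5] at h4
        nlinarith [sq_nonneg κ, hκ]
      have h3 := Real.sq_sqrt h1.le
      rw [div_pow, div_pow, ← add_div, h3, mul_pow]
      exact div_self h1.ne')

theorem pn_pos {κ : ℝ} (hκ : 0 < κ) (z : Circle) :
    0 < κ ^ 2 * (z : ℂ).re ^ 2 + (z : ℂ).im ^ 2 := by
  have h2 := sq_add_sq z
  by_contra hcon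
  have h3 : (z : ℂ).im ^ 2 = 0 := by nlinarith [sq_nonneg (κ * (z : ℂ).re), sq_nonneg (z : ℂ).im]
  have h4 : κ ^ 2 * (z : ℂ).re ^ 2 ≤ 0 := by nlinarith [sq_nonneg (z : ℂ).im]
  have h5 : (z : ℂ).re ^ 2 = 1 := by linarith
  rw [h5] at h4
  nlinarith [sq_nonneg κ, hκ]

theorem pz_re (κ : ℝ) (hκ : 0 < κ) (z : Circle) :
    (pz κ hκ z : ℂ).re = κ * (z : ℂ).re / √(κ ^ 2 * (z : ℂ).re ^ 2 + (z : ℂ).im ^ 2) := rfl
theorem pz_im (κ : ℝ) (hκ : 0 < κ) (z : Circle) :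
    (pz κ hκ z : ℂ).im = (z : ℂ).im / √(κ ^ 2 * (z : ℂ).re ^ 2 + (z : ℂ).im ^ 2) := rfl

theorem pz_inv {κ κ' : ℝ} (hκ : 0 < κ) (hκ' : 0 < κ') (h : κ' * κ = 1) (z : Circle) :
    pz κ' hκ' (pz κ hκ z) = z := by
  have h2 := sq_add_sq z
  have h1 := pn_pos hκ z
  set N := κ ^ 2 * (z : ℂ).re ^ 2 + (z : ℂ).im ^ 2 with hN
  have hs : 0 < √N := Real.sqrt_pos.2 h1
  have h3 := Real.sq_sqrt h1.le
  have h4 : κ' ^ 2 * (κ * (z : ℂ).re / √N) ^ 2 + ((z : ℂ).im / √N) ^ 2 = (1 / √N) ^ 2 := by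
    have : κ' ^ 2 * (κ * (z : ℂ).re / √N) ^ 2 = (κ' * κ) ^ 2 * ((z : ℂ).re / √N) ^ 2 := by ring
    rw [this, h, div_pow, div_pow, one_pow, one_mul, ← add_div, h2, one_div_pow]
  have h5 : √((1 / √N) ^ 2) = 1 / √N := Real.sqrt_sq (by positivity)
  apply circle_ext
  · rw [pz_re, pz_im, pz_re, ← hN, h4, h5]
    have : κ' * (κ * (z : ℂ).re / √N) = (κ' * κ) * ((z : ℂ).re / √N) := by ring
    rw [this, h]
    field_simp
  · rw [pz_im, pz_re, pz_im, ← hN, h4, h5]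
    field_simp

attribute [local instance] finrank_real_complex_fact'

theorem contMDiff_toC {M : Type*} [TopologicalSpace M] {E : Type*} [NormedAddCommGroup E]
    [NormedSpace ℝ E] {H : Type*} [TopologicalSpace H] {I : ModelWithCorners ℝ E H}
    [ChartedSpace H M] [IsManifold I ω M] (a b : M → ℝ) (h : ∀ x, a x ^ 2 + b x ^ 2 = 1)
    (ha : ContMDiff I 𝓘(ℝ, ℝ) ω a) (hb : ContMDiff I 𝓘(ℝ, ℝ) ω b) :
    ContMDiff I (𝓡 1) ω (fun x => toC (a x) (b x) (h x)) := by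
  have h1 : ContMDiff I 𝓘(ℝ, ℂ) ω (fun x => (⟨a x, b x⟩ : ℂ)) := by
    have h2 : ContMDiff I 𝓘(ℝ, ℂ) ω (fun x => (Complex.ofRealCLM (a x) +
        Complex.I • Complex.ofRealCLM (b x) : ℂ)) := by
      have h3 : ContMDiff I 𝓘(ℝ, ℂ) ω (fun x => Complex.ofRealCLM (a x)) :=
        Complex.ofRealCLM.contDiff.contMDiff.comp ha
      have h4 : ContMDiff I 𝓘(ℝ, ℂ) ω (fun x => Complex.I • Complex.ofRealCLM (b x)) :=
        ((Complex.I • Complex.ofRealCLM : ℝ →L[ℝ] ℂ).contDiff.contMDiff.comp hb)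
      exact h3.add h4
    convert h2 using 2 with x
    apply Complex.ext <;> simp
  exact ContMDiff.codRestrict_sphere h1 _

theorem contMDiff_re : ContMDiff (𝓡 1) 𝓘(ℝ, ℝ) ω (fun z : Circle => (z : ℂ).re) :=
  Complex.reCLM.contDiff.contMDiff.comp contMDiff_coe_sphere

theorem contMDiff_im : ContMDiff (𝓡 1) 𝓘(ℝ, ℝ) ω (fun z : Circle => (z : ℂ).im) :=
  Complex.imCLM.contDiff.contMDiff.comp contMDiff_coe_sphere

end Pool.Agent.TH339.EE
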