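import Pool.Agent.TH339.EE2

/-!
# The diffeomorphism of the torus
-/

set_option autoImplicit false

open MeasureTheory Filter Topology Bundle
open scoped Manifold ContDiff

namespace Pool.Agent.TH339.EE

section

variable {M : Type*} [TopologicalSpace M] {E : Type*} [NormedAddCommGroup E]
    [NormedSpace ℝ E] {H : Type*} [TopologicalSpace H] {I : ModelWithCorners ℝ E H}
    [ChartedSpace H M]

theorem contMDiff_sqrt (a : M → ℝ) (ha : ContMDiff I 𝓘(ℝ, ℝ) ω a) (h : ∀ x, 0 < a x) :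
    ContMDiff I 𝓘(ℝ, ℝ) ω (fun x => √(a x)) := fun x =>
  ((Real.contDiffAt_sqrt (h x).ne').contMDiffAt (x := a x)).comp x (ha x)

end

theorem contMDiff_re1 : ContMDiff II 𝓘(ℝ, ℝ) ω (fun x : TT => (x.1 : ℂ).re) :=
  contMDiff_re.comp contMDiff_fst
theorem contMDiff_re2 : ContMDiff II 𝓘(ℝ, ℝ) ω (fun x : TT => (x.2 : ℂ).re) :=
  contMDiff_re.comp contMDiff_snd
theorem contMDiff_im1 : ContMDiff II 𝓘(ℝ, ℝ) ω (fun x : TT => (x.1 : ℂ).im) :=
  contMDiff_im.comp contMDiff_fst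
theorem contMDiff_im2 : ContMDiff II 𝓘(ℝ, ℝ) ω (fun x : TT => (x.2 : ℂ).im) :=
  contMDiff_im.comp contMDiff_snd

theorem lt_one {c r : ℝ} (hc : c ^ 2 < 1) (hr : r ^ 2 ≤ 1) : (c * r) ^ 2 < 1 := by
  nlinarith [sq_nonneg c, sq_nonneg r]

theorem contMDiff_boost (a : TT → Circle) (b : TT → ℝ) (ha : ContMDiff II (𝓡 1) ω a)
    (hb : ContMDiff II 𝓘(ℝ, ℝ) ω b) (h : ∀ x, b x ^ 2 < 1) :
    ContMDiff II (𝓡 1) ω (fun x => bz (b x) (h x) (a x)) := by
  have har : ContMDiff II 𝓘(ℝ, ℝ) ω (fun x => (a x : ℂ).re) := contMDiff_re.comp ha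
  have hai : ContMDiff II 𝓘(ℝ, ℝ) ω (fun x => (a x : ℂ).im) := contMDiff_im.comp ha
  have hd : ContMDiff II 𝓘(ℝ, ℝ) ω (fun x => 1 + b x * (a x : ℂ).re) :=
    contMDiff_const.add (hb.mul har)
  have hd0 : ∀ x, 1 + b x * (a x : ℂ).re ≠ 0 := fun x => (den_pos (h x) (re_sq_le _)).ne'
  have hs : ContMDiff II 𝓘(ℝ, ℝ) ω (fun x => √(1 - b x ^ 2)) := by
    refine contMDiff_sqrt _ ?_ fun x => by linarith [h x]
    have := (contMDiff_const (c := (1 : ℝ))).sub (hb.mul hb)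
    convert this using 2 with x
    simp [sq]
  unfold bz
  refine contMDiff_toC _ _ _ ?_ ?_
  · exact (har.add hb).div₀ hd hd0
  · exact (hs.mul hai).div₀ hd hd0

theorem contMDiff_proj (κ : ℝ) (hκ : 0 < κ) (a : TT → Circle) (ha : ContMDiff II (𝓡 1) ω a) :
    ContMDiff II (𝓡 1) ω (fun x => pz κ hκ (a x)) := by
  have har : ContMDiff II 𝓘(ℝ, ℝ) ω (fun x => (a x : ℂ).re) := contMDiff_re.comp ha
  have hai : ContMDiff II 𝓘(ℝ, ℝ) ω (fun x => (a x : ℂ).im) := contMDiff_im.comp ha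
  have hs : ContMDiff II 𝓘(ℝ, ℝ) ω (fun x => √(κ ^ 2 * (a x : ℂ).re ^ 2 + (a x : ℂ).im ^ 2)) := by
    refine contMDiff_sqrt _ ?_ fun x => pn_pos hκ _
    have := ((contMDiff_const (c := κ ^ 2)).mul (har.mul har)).add (hai.mul hai)
    convert this using 2 with x
    simp [sq]
  have hs0 : ∀ x, √(κ ^ 2 * (a x : ℂ).re ^ 2 + (a x : ℂ).im ^ 2) ≠ 0 := fun x =>
    (Real.sqrt_pos.2 (pn_pos hκ _)).ne'
  unfold pz
  refine contMDiff_toC _ _ _ ?_ ?_
  · exact ((contMDiff_const (c := κ)).mul har).div₀ hs hs0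
  · exact hai.div₀ hs hs0

theorem hc : ∀ w : Circle, (3 / 5 * (w : ℂ).re) ^ 2 < 1 := fun w =>
  lt_one (by norm_num) (re_sq_le w)
theorem hc' : ∀ w : Circle, (-(3 / 5 * (w : ℂ).re)) ^ 2 < 1 := fun w => by
  rw [neg_sq]; exact hc w

/-- the first shear -/
noncomputable def S1 : Diffeomorph II II TT TT ω where
  toFun x := (bz (-(3 / 5 * (x.2 : ℂ).re)) (hc' x.2) x.1, x.2)
  invFun x := (bz (3 / 5 * (x.2 : ℂ).re) (hc x.2) x.1, x.2)
  left_inv x := by
    have h := bz_neg _ (hc' x.2) (by rw [neg_neg]; exact hc x.2) x.1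
    simp only [neg_neg] at h
    exact Prod.ext h rfl
  right_inv x := by
    have h := bz_neg _ (hc x.2) (hc' x.2) x.1
    exact Prod.ext h rfl
  contMDiff_toFun := by
    refine (contMDiff_boost _ _ contMDiff_fst ?_ _).prodMk contMDiff_snd
    exact ((contMDiff_const (c := (3 / 5 : ℝ))).mul contMDiff_re2).neg
  contMDiff_invFun := by
    refine (contMDiff_boost _ _ contMDiff_fst ?_ _).prodMk contMDiff_snd
    exact (contMDiff_const (c := (3 / 5 : ℝ))).mul contMDiff_re2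

/-- the second shear -/
noncomputable def S2 : Diffeomorph II II TT TT ω where
  toFun x := (x.1, bz (3 / 5 * (x.1 : ℂ).re) (hc x.1) x.2)
  invFun x := (x.1, bz (-(3 / 5 * (x.1 : ℂ).re)) (hc' x.1) x.2)
  left_inv x := by
    have h := bz_neg _ (hc x.1) (hc' x.1) x.2
    exact Prod.ext rfl h
  right_inv x := by
    have h := bz_neg _ (hc' x.1) (by rw [neg_neg]; exact hc x.1) x.2
    simp only [neg_neg] at h
    exact Prod.ext rfl h
  contMDiff_toFun := by
    refine contMDiff_fst.prodMk (contMDiff_boost _ _ contMDiff_snd ?_ _)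
    exact (contMDiff_const (c := (3 / 5 : ℝ))).mul contMDiff_re1
  contMDiff_invFun := by
    refine contMDiff_fst.prodMk (contMDiff_boost _ _ contMDiff_snd ?_ _)
    exact ((contMDiff_const (c := (3 / 5 : ℝ))).mul contMDiff_re1).neg

theorem h32 : (0 : ℝ) < 3 / 2 := by norm_num
theorem h23 : (0 : ℝ) < 2 / 3 := by norm_num

/-- the expansion -/
noncomputable def RR : Diffeomorph II II TT TT ω where
  toFun x := (pz (3 / 2) h32 x.1, pz (3 / 2) h32 x.2)
  invFun x := (pz (2 / 3) h23 x.1, pz (2 / 3) h23 x.2)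
  left_inv x := Prod.ext (pz_inv h32 h23 (by norm_num) _) (pz_inv h32 h23 (by norm_num) _)
  right_inv x := Prod.ext (pz_inv h23 h32 (by norm_num) _) (pz_inv h23 h32 (by norm_num) _)
  contMDiff_toFun := (contMDiff_proj _ h32 _ contMDiff_fst).prodMk
    (contMDiff_proj _ h32 _ contMDiff_snd)
  contMDiff_invFun := (contMDiff_proj _ h23 _ contMDiff_fst).prodMk
    (contMDiff_proj _ h23 _ contMDiff_snd)

/-- the diffeomorphism -/
noncomputable def ff : Diffeomorph II II TT TT ω := (S1.trans S2).trans RR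

theorem ff_apply (x : TT) : ff x = RR (S2 (S1 x)) := rfl

end Pool.Agent.TH339.EE
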