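import Pool.Agent.TH339.EE3

/-!
# Dynamics of the diffeomorphism
-/

set_option autoImplicit false

open MeasureTheory Filter Topology Bundle
open scoped Manifold ContDiff

namespace Pool.Agent.TH339.EE

/-! ### Two inequalities -/

theorem keyP (a b m : ℝ) (ha0 : 0 ≤ a) (ha1 : a ≤ 1) (hb0 : 0 ≤ b) (hb1 : b ≤ 1)
    (hm : m ^ 2 = a * b) (hab : 0 < a + b) :
    (1 - 9 / 25 * a) * (1 - 6 / 5 * m + 9 / 25 * (a * b)) <
      (1 - 96 / 125 * m + 9 / 25 * (a * b) - 9 / 25 * b - 81 / 625 * a) *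
        ((1 + 5 / 4 * a) * (1 + 5 / 4 * b)) := by
  obtain ⟨c, hc⟩ : ∃ c, c = (a + b) / 2 := ⟨_, rfl⟩
  have hc0 : 0 < c := by rw [hc]; positivity
  have hmc : m ^ 2 ≤ c ^ 2 := by rw [hm, hc]; nlinarith [sq_nonneg (a - b)]
  obtain ⟨h2, h1⟩ := abs_le_of_sq_le_sq' hmc hc0.le
  have hab0 : 0 ≤ a * b := mul_nonneg ha0 hb0
  have hab1 : a * b ≤ 1 := mul_le_one₀ ha1 hb0 hb1
  obtain ⟨G, hG⟩ : ∃ G : ℝ → ℝ, ∀ m, G m =
      (1 - 96 / 125 * m + 9 / 25 * (a * b) - 9 / 25 * b - 81 / 625 * a) *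
        ((1 + 5 / 4 * a) * (1 + 5 / 4 * b)) -
        (1 - 9 / 25 * a) * (1 - 6 / 5 * m + 9 / 25 * (a * b)) := ⟨_, fun m => rfl⟩
  have g1 : 0 < G c := by
    have hA : 0 < 4241 / 2500 - 429 / 500 * a - 451 / 2000 * b - 2229 / 10000 * (a * b)
        - 7 / 20 * b ^ 2 := by nlinarith
    have hB : 0 < 553 / 500 - 93 / 100 * b - 29 / 80 * (a * b) + 9 / 16 * (a ^ 2 * b) := by
      nlinarith [mul_nonneg hb0 (sq_nonneg (a - 29 / 90)), mul_nonneg hb0 ha0]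
    have : G c =
        a * (4241 / 2500 - 429 / 500 * a - 451 / 2000 * b - 2229 / 10000 * (a * b)
        - 7 / 20 * b ^ 2) + b * (553 / 500 - 93 / 100 * b - 29 / 80 * (a * b) +
          9 / 16 * (a ^ 2 * b)) := by
      rw [hG, hc]; ring
    rw [this]
    rcases ha0.lt_or_eq with h | h
    · exact add_pos_of_pos_of_nonneg (mul_pos h hA) (mul_nonneg hb0 hB.le)
    · have hb : 0 < b := by linarith
      exact add_pos_of_nonneg_of_pos (mul_nonneg ha0 hA.le) (mul_pos hb hB)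
  have g2 : 0 < G (-c) := by
    have : G (-c) = a * (3161 / 2500) + b * (337 / 500) + (a * b * (4253 / 2000) +
        a * b ^ 2 * (39 / 80) + a ^ 2 * (267 / 500) + a ^ 2 * b * (9771 / 10000) +
          a ^ 2 * b ^ 2 * (9 / 16) + b ^ 2 * (3 / 100)) := by
      rw [hG, hc]; ring
    rw [this]
    refine add_pos_of_pos_of_nonneg ?_ (by positivity)
    rcases ha0.lt_or_eq with h | h
    · positivity
    · have hb : 0 < b := by linarith
      positivity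
  have hlin : 2 * c * G m = (c + m) * G c + (c - m) * G (-c) := by
    rw [hG, hG, hG]; ring
  have h5 : 0 < 2 * c * G m := by
    rw [hlin]
    rcases (show 0 ≤ c + m by linarith).lt_or_eq with h | h
    · exact add_pos_of_pos_of_nonneg (mul_pos h g1) (mul_nonneg (by linarith) g2.le)
    · exact add_pos_of_nonneg_of_pos (mul_nonneg h.le g1.le) (mul_pos (by linarith) g2)
  have h6 : 0 < G m := pos_of_mul_pos_right h5 (by positivity)
  rw [hG] at h6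
  linarith

/-- the main inequality -/
theorem key (u v t : ℝ) (hu : u ^ 2 ≤ 1) (hv : v ^ 2 ≤ 1)
    (ht : (1 - 3 / 5 * (u * v)) * t = v - 3 / 5 * u) (h : 0 < u ^ 2 + v ^ 2) :
    1 - 9 / 25 * u ^ 2 <
      (1 - 9 / 25 * t ^ 2) * ((1 + 5 / 4 * u ^ 2) * (1 + 5 / 4 * v ^ 2)) := by
  have h1 := keyP (u ^ 2) (v ^ 2) (u * v) (sq_nonneg _) hu (sq_nonneg _) hv (by ring) h
  have h2 : 0 < 1 - 3 / 5 * (u * v) := by
    nlinarith [sq_nonneg (u - v)]
  have h3 : (1 - 3 / 5 * (u * v)) ^ 2 = 1 - 6 / 5 * (u * v) + 9 / 25 * (u ^ 2 * v ^ 2) := by ring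
  have h4 : (1 - 9 / 25 * t ^ 2) * (1 - 3 / 5 * (u * v)) ^ 2 =
      1 - 96 / 125 * (u * v) + 9 / 25 * (u ^ 2 * v ^ 2) - 9 / 25 * v ^ 2 - 81 / 625 * u ^ 2 := by
    have : (1 - 9 / 25 * t ^ 2) * (1 - 3 / 5 * (u * v)) ^ 2 = (1 - 3 / 5 * (u * v)) ^ 2 -
        9 / 25 * ((1 - 3 / 5 * (u * v)) * t) ^ 2 := by ring
    rw [this, ht]; ring
  rw [← h3, ← h4] at h1
  have h5 : 0 < (1 - 3 / 5 * (u * v)) ^ 2 := by positivity
  have h6 : (1 - 9 / 25 * u ^ 2) * (1 - 3 / 5 * (u * v)) ^ 2 <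
      (1 - 9 / 25 * t ^ 2) * ((1 + 5 / 4 * u ^ 2) * (1 + 5 / 4 * v ^ 2)) *
        (1 - 3 / 5 * (u * v)) ^ 2 := by
    calc _ < _ := h1
      _ = _ := by ring
  exact lt_of_mul_lt_mul_right h6 h5.le

/-- the inequality on the edges -/
theorem edge (τ V : ℝ) (h : τ ^ 2 < 1) (hV : (1 + 3 / 5 * τ) * V = τ + 3 / 5) :
    τ < 3 / 2 * V / √(1 + 5 / 4 * V ^ 2) := by
  have h1 : -1 < τ := by nlinarith
  have h2 : τ < 1 := by nlinarith
  have h3 : 0 < 1 + 3 / 5 * τ := by linarith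
  have hs0 : 0 < 1 + 5 / 4 * V ^ 2 := by positivity
  have hs : 0 < √(1 + 5 / 4 * V ^ 2) := Real.sqrt_pos.2 hs0
  have hs2 := Real.sq_sqrt hs0.le
  have hVτ : τ < V := by
    have : (1 + 3 / 5 * τ) * (V - τ) = 3 / 5 * (1 - τ ^ 2) := by linear_combination hV
    have h4 : 0 < (1 + 3 / 5 * τ) * (V - τ) := by rw [this]; nlinarith
    have := pos_of_mul_pos_right h4 h3.le
    linarith
  have hV1 : V ≤ 1 := by
    have : (1 + 3 / 5 * τ) * (1 - V) = 2 / 5 * (1 - τ) := by linear_combination -hV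
    have h4 : 0 ≤ (1 + 3 / 5 * τ) * (1 - V) := by rw [this]; nlinarith
    have := nonneg_of_mul_nonneg_right h4 h3
    linarith
  rw [lt_div_iff₀ hs]
  rcases le_or_gt 0 V with hV0 | hV0
  · have h5 : √(1 + 5 / 4 * V ^ 2) ≤ 3 / 2 := by
      rw [Real.sqrt_le_left (by norm_num)]
      nlinarith
    rcases le_or_gt τ 0 with h6 | h6
    · rcases h6.lt_or_eq with h7 | h7
      · have : τ * √(1 + 5 / 4 * V ^ 2) < 0 := mul_neg_of_neg_of_pos h7 hs
        linarith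
      · rw [h7] at hVτ ⊢
        linarith
    · calc τ * √(1 + 5 / 4 * V ^ 2) ≤ τ * (3 / 2) := mul_le_mul_of_nonneg_left h5 h6.le
        _ < 3 / 2 * V := by linarith
  · -- both are negative
    have hτ0 : τ < 0 := by linarith
    have hτ1 : τ < -(3 / 5) := by
      by_contra hcon
      have : 0 ≤ (1 + 3 / 5 * τ) * V := by rw [hV]; linarith
      have := nonneg_of_mul_nonneg_right this h3
      linarith
    have h7 : (3 / 2 * (-V)) ^ 2 < ((-τ) * √(1 + 5 / 4 * V ^ 2)) ^ 2 := by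
      rw [mul_pow (-τ), hs2]
      have h8 : (1 + 3 / 5 * τ) ^ 2 * (τ ^ 2 * (1 + 5 / 4 * V ^ 2) - (3 / 2 * V) ^ 2) =
          (1 - τ ^ 2) * ((4 / 5 * τ) ^ 2 - (3 / 2 * (τ + 3 / 5)) ^ 2) := by
        have : (1 + 3 / 5 * τ) ^ 2 * (τ ^ 2 * (1 + 5 / 4 * V ^ 2) - (3 / 2 * V) ^ 2) =
          τ ^ 2 * (1 + 3 / 5 * τ) ^ 2 + (5 / 4 * τ ^ 2 - 9 / 4) * ((1 + 3 / 5 * τ) * V) ^ 2 := by
          ring
        rw [this, hV]; ring
      have h9 : 0 < (1 - τ ^ 2) * ((4 / 5 * τ) ^ 2 - (3 / 2 * (τ + 3 / 5)) ^ 2) := by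
        apply mul_pos (by linarith)
        have : (4 / 5 * τ) ^ 2 - (3 / 2 * (τ + 3 / 5)) ^ 2 =
          (-(23 / 10) * τ - 9 / 10) * (7 / 10 * τ + 9 / 10) := by ring
        rw [this]
        apply mul_pos <;> linarith
      rw [← h8] at h9
      have := pos_of_mul_pos_right h9 (by positivity)
      nlinarith
    have h10 := lt_of_pow_lt_pow_left₀ 2 (by nlinarith) h7
    linarith

end Pool.Agent.TH339.EE
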