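import Pool.Agent.TH339.EE4

/-!
# Invariant measures of the diffeomorphism live on eight fixed points
-/

set_option autoImplicit false

open MeasureTheory Filter Topology Bundle
open scoped Manifold ContDiff

namespace Pool.Agent.TH339.EE

/-- real part of the first coordinate after the first shear -/
noncomputable def uu (x : TT) : ℝ :=
  ((x.1 : ℂ).re + -(3 / 5 * (x.2 : ℂ).re)) / (1 + -(3 / 5 * (x.2 : ℂ).re) * (x.1 : ℂ).re)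

/-- real part of the second coordinate after the two shears -/
noncomputable def vv (x : TT) : ℝ :=
  ((x.2 : ℂ).re + 3 / 5 * uu x) / (1 + 3 / 5 * uu x * (x.2 : ℂ).re)

theorem q_pos (x : TT) : 0 < 1 + -(3 / 5 * (x.2 : ℂ).re) * (x.1 : ℂ).re :=
  den_pos (hc' x.2) (re_sq_le x.1)

theorem uu_eq (x : TT) : ((S1 x).1 : ℂ).re = uu x := rfl

theorem uu_sq_le (x : TT) : uu x ^ 2 ≤ 1 := re_sq_le (S1 x).1

theorem uu_c (x : TT) : (3 / 5 * uu x) ^ 2 < 1 := hc (S1 x).1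

theorem p_pos (x : TT) : 0 < 1 + 3 / 5 * uu x * (x.2 : ℂ).re :=
  den_pos (hc (S1 x).1) (re_sq_le x.2)

theorem vv_eq (x : TT) : ((S2 (S1 x)).2 : ℂ).re = vv x := rfl

theorem vv_sq_le (x : TT) : vv x ^ 2 ≤ 1 := re_sq_le (S2 (S1 x)).2

theorem uu_mul (x : TT) : (1 + -(3 / 5 * (x.2 : ℂ).re) * (x.1 : ℂ).re) * uu x =
    (x.1 : ℂ).re - 3 / 5 * (x.2 : ℂ).re := by
  unfold uu
  rw [mul_div_cancel₀ _ (q_pos x).ne']
  ring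

theorem vv_mul (x : TT) : (1 + 3 / 5 * uu x * (x.2 : ℂ).re) * vv x =
    (x.2 : ℂ).re + 3 / 5 * uu x := by
  unfold vv
  rw [mul_div_cancel₀ _ (p_pos x).ne']

/-- squared imaginary part after the first shear -/
theorem im1_sq (x : TT) : ((S1 x).1 : ℂ).im ^ 2 = 1 - uu x ^ 2 := by
  have := sq_add_sq (S1 x).1
  rw [uu_eq] at this
  linarith

theorem im2_sq (x : TT) : ((S2 (S1 x)).2 : ℂ).im ^ 2 = 1 - vv x ^ 2 := by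
  have := sq_add_sq (S2 (S1 x)).2
  rw [vv_eq] at this
  linarith

theorem im1_eq (x : TT) : ((S1 x).1 : ℂ).im = √(1 - (-(3 / 5 * (x.2 : ℂ).re)) ^ 2) * (x.1 : ℂ).im /
    (1 + -(3 / 5 * (x.2 : ℂ).re) * (x.1 : ℂ).re) := rfl

theorem im2_eq (x : TT) : ((S2 (S1 x)).2 : ℂ).im = √(1 - (3 / 5 * uu x) ^ 2) * (x.2 : ℂ).im /
    (1 + 3 / 5 * uu x * (x.2 : ℂ).re) := rfl

theorem nn1 (x : TT) : (3 / 2 : ℝ) ^ 2 * uu x ^ 2 + ((S1 x).1 : ℂ).im ^ 2 =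
    1 + 5 / 4 * uu x ^ 2 := by rw [im1_sq]; ring

theorem nn2 (x : TT) : (3 / 2 : ℝ) ^ 2 * vv x ^ 2 + ((S2 (S1 x)).2 : ℂ).im ^ 2 =
    1 + 5 / 4 * vv x ^ 2 := by rw [im2_sq]; ring

theorem ff_re1 (x : TT) : ((ff x).1 : ℂ).re = 3 / 2 * uu x / √(1 + 5 / 4 * uu x ^ 2) := by
  rw [← nn1]; rfl

theorem ff_re2 (x : TT) : ((ff x).2 : ℂ).re = 3 / 2 * vv x / √(1 + 5 / 4 * vv x ^ 2) := by
  rw [← nn2]; rfl

theorem ff_im1 (x : TT) : ((ff x).1 : ℂ).im = ((S1 x).1 : ℂ).im / √(1 + 5 / 4 * uu x ^ 2) := by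
  rw [← nn1]; rfl

theorem ff_im2 (x : TT) : ((ff x).2 : ℂ).im =
    ((S2 (S1 x)).2 : ℂ).im / √(1 + 5 / 4 * vv x ^ 2) := by
  rw [← nn2]; rfl

theorem sqrt1_pos (s : ℝ) : 0 < √(1 + 5 / 4 * s ^ 2) := Real.sqrt_pos.2 (by positivity)

theorem sqrt1_sq (s : ℝ) : √(1 + 5 / 4 * s ^ 2) ^ 2 = 1 + 5 / 4 * s ^ 2 :=
  Real.sq_sqrt (by positivity)

theorem qp (x : TT) : (1 + -(3 / 5 * (x.2 : ℂ).re) * (x.1 : ℂ).re) *
    (1 + 3 / 5 * uu x * (x.2 : ℂ).re) = 1 - 9 / 25 * (x.2 : ℂ).re ^ 2 := by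
  have := uu_mul x
  linear_combination (3 / 5 * (x.2 : ℂ).re) * this

theorem im1_zero_iff (x : TT) : ((ff x).1 : ℂ).im = 0 ↔ (x.1 : ℂ).im = 0 := by
  rw [ff_im1, im1_eq]
  have h1 := (sqrt1_pos (uu x)).ne'
  have h2 := (q_pos x).ne'
  have h3 : √(1 - (-(3 / 5 * (x.2 : ℂ).re)) ^ 2) ≠ 0 :=
    (Real.sqrt_pos.2 (by linarith [hc' x.2])).ne'
  simp only [div_eq_zero_iff, mul_eq_zero, h1, h2, h3, or_false, false_or]

theorem im2_zero_iff (x : TT) : ((ff x).2 : ℂ).im = 0 ↔ (x.2 : ℂ).im = 0 := by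
  rw [ff_im2, im2_eq]
  have h1 := (sqrt1_pos (vv x)).ne'
  have h2 := (p_pos x).ne'
  have h3 : √(1 - (3 / 5 * uu x) ^ 2) ≠ 0 :=
    (Real.sqrt_pos.2 (by linarith [uu_c x])).ne'
  simp only [div_eq_zero_iff, mul_eq_zero, h1, h2, h3, or_false, false_or]

/-- the first function which is monotone along orbits -/
noncomputable def DD (x : TT) : ℝ := (x.1 : ℂ).im ^ 2 * (x.2 : ℂ).im ^ 2

theorem DD_ff (x : TT) : DD (ff x) * ((1 - 9 / 25 * (x.2 : ℂ).re ^ 2) *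
    ((1 + 5 / 4 * uu x ^ 2) * (1 + 5 / 4 * vv x ^ 2))) = DD x * (1 - 9 / 25 * uu x ^ 2) := by
  unfold DD
  have h1 := q_pos x
  have h2 := p_pos x
  have h3 : √(1 - (3 / 5 * uu x) ^ 2) ^ 2 = 1 - (3 / 5 * uu x) ^ 2 :=
    Real.sq_sqrt (by linarith [uu_c x])
  have h4 : √(1 - (-(3 / 5 * (x.2 : ℂ).re)) ^ 2) ^ 2 = 1 - (-(3 / 5 * (x.2 : ℂ).re)) ^ 2 :=
    Real.sq_sqrt (by linarith [hc' x.2])
  have h5 := qp x
  rw [ff_im1, ff_im2, im1_eq, im2_eq, div_pow, div_pow, div_pow, div_pow, mul_pow, mul_pow,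
    sqrt1_sq, sqrt1_sq, h3, h4]
  have e1 : (0 : ℝ) < 1 + 5 / 4 * uu x ^ 2 := by positivity
  have e2 : (0 : ℝ) < 1 + 5 / 4 * vv x ^ 2 := by positivity
  have h6 : 0 < 1 - 9 / 25 * (x.2 : ℂ).re ^ 2 := by rw [← h5]; positivity
  have h7 : (1 + -(3 / 5 * (x.2 : ℂ).re) * (x.1 : ℂ).re) ^ 2 *
    (1 + 3 / 5 * uu x * (x.2 : ℂ).re) ^ 2 = (1 - 9 / 25 * (x.2 : ℂ).re ^ 2) ^ 2 := by
    rw [← mul_pow, h5]
  have h8 : (1 + -(3 / 5 * (x.2 : ℂ).re) * (x.1 : ℂ).re) ^ 2 ≠ 0 := by positivity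
  have h9 : (1 + 3 / 5 * uu x * (x.2 : ℂ).re) ^ 2 ≠ 0 := by positivity
  generalize (1 + -(3 / 5 * (x.2 : ℂ).re) * (x.1 : ℂ).re) ^ 2 = A at *
  generalize (1 + 3 / 5 * uu x * (x.2 : ℂ).re) ^ 2 = B at *
  generalize 1 + 5 / 4 * uu x ^ 2 = e at *
  generalize 1 + 5 / 4 * vv x ^ 2 = e' at *
  have h10 : 1 - (-(3 / 5 * (x.2 : ℂ).re)) ^ 2 = 1 - 9 / 25 * (x.2 : ℂ).re ^ 2 := by ring
  have h11 : 1 - (3 / 5 * uu x) ^ 2 = 1 - 9 / 25 * uu x ^ 2 := by ring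
  rw [h10, h11]
  generalize 1 - 9 / 25 * (x.2 : ℂ).re ^ 2 = K at *
  generalize 1 - 9 / 25 * uu x ^ 2 = U at *
  have h12 : K * (x.1 : ℂ).im ^ 2 / A / e * (U * (x.2 : ℂ).im ^ 2 / B / e') * (K * (e * e')) =
      (K ^ 2 / (A * B)) * ((x.1 : ℂ).im ^ 2 * (x.2 : ℂ).im ^ 2 * U) := by
    field_simp
  rw [h12, h7, div_self (by positivity), one_mul]

end Pool.Agent.TH339.EE
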