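import Pool.Agent.TH339.EE5

/-!
# Invariant measures of the diffeomorphism live on eight fixed points
-/

set_option autoImplicit false

open MeasureTheory Filter Topology Bundle
open scoped Manifold ContDiff

namespace Pool.Agent.TH339.EE

theorem t_mul (x : TT) : (1 - 3 / 5 * (uu x * vv x)) * (x.2 : ℂ).re = vv x - 3 / 5 * uu x := by
  have := vv_mul x
  linear_combination -this

theorem zero_of_uv (x : TT) (hu : uu x = 0) (hv : vv x = 0) :
    (x.1 : ℂ).re = 0 ∧ (x.2 : ℂ).re = 0 := by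
  have h1 := t_mul x
  have h2 := uu_mul x
  rw [hu, hv] at h1
  rw [hu] at h2
  constructor <;> linarith

theorem DD_nonneg (x : TT) : 0 ≤ DD x := by unfold DD; positivity

theorem DD_le_one (x : TT) : DD x ≤ 1 := by
  unfold DD
  have h1 := sq_add_sq x.1
  have h2 := sq_add_sq x.2
  exact mul_le_one₀ (by nlinarith [sq_nonneg (x.1 : ℂ).re]) (sq_nonneg _)
    (by nlinarith [sq_nonneg (x.2 : ℂ).re])

theorem DD_lt (x : TT) (h0 : DD x ≠ 0) (h : ¬ ((x.1 : ℂ).re = 0 ∧ (x.2 : ℂ).re = 0)) :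
    DD (ff x) < DD x := by
  have h1 : 0 < uu x ^ 2 + vv x ^ 2 := by
    by_contra hcon
    apply h
    apply zero_of_uv
    · nlinarith [sq_nonneg (uu x), sq_nonneg (vv x)]
    · nlinarith [sq_nonneg (uu x), sq_nonneg (vv x)]
  have h2 := key (uu x) (vv x) (x.2 : ℂ).re (uu_sq_le x) (vv_sq_le x) (t_mul x) h1
  have h3 := DD_ff x
  have h4 : 0 < 1 - 9 / 25 * uu x ^ 2 := by nlinarith [uu_sq_le x]
  have h5 := (DD_nonneg x).lt_of_ne' h0
  have h6 : DD (ff x) * ((1 - 9 / 25 * (x.2 : ℂ).re ^ 2) *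
    ((1 + 5 / 4 * uu x ^ 2) * (1 + 5 / 4 * vv x ^ 2))) < DD x * ((1 - 9 / 25 * (x.2 : ℂ).re ^ 2) *
    ((1 + 5 / 4 * uu x ^ 2) * (1 + 5 / 4 * vv x ^ 2))) := by
    rw [h3]
    exact mul_lt_mul_of_pos_left h2 h5
  exact lt_of_mul_lt_mul_right h6 (h4.trans h2).le

theorem DD_zero (x : TT) (h0 : DD x = 0) : DD (ff x) = 0 := by
  have h3 := DD_ff x
  rw [h0, zero_mul] at h3
  have h4 : 0 < 1 - 9 / 25 * (x.2 : ℂ).re ^ 2 := by nlinarith [re_sq_le x.2]
  rcases mul_eq_zero.1 h3 with h | h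
  · exact h
  · exfalso
    have : 0 < (1 - 9 / 25 * (x.2 : ℂ).re ^ 2) *
      ((1 + 5 / 4 * uu x ^ 2) * (1 + 5 / 4 * vv x ^ 2)) := by positivity
    linarith

theorem DD_center (x : TT) (h : (x.1 : ℂ).re = 0 ∧ (x.2 : ℂ).re = 0) : DD (ff x) = DD x := by
  have h1 : uu x = 0 := by unfold uu; rw [h.1, h.2]; simp
  have h2 : vv x = 0 := by unfold vv; rw [h1, h.2]; simp
  have h3 := DD_ff x
  rw [h1, h2, h.2] at h3
  linarith

theorem DD_le (x : TT) : DD (ff x) ≤ DD x := by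
  by_cases h0 : DD x = 0
  · rw [DD_zero x h0, h0]
  by_cases h : (x.1 : ℂ).re = 0 ∧ (x.2 : ℂ).re = 0
  · exact (DD_center x h).le
  · exact (DD_lt x h0 h).le

/-! ### The edges -/

theorem sqrt_one : √(1 + 5 / 4 * (1 : ℝ)) = 3 / 2 := by
  rw [show (1 + 5 / 4 * (1 : ℝ)) = (3 / 2) ^ 2 by norm_num]
  exact Real.sqrt_sq (by norm_num)

theorem edgeA (x : TT) (h : (x.1 : ℂ).im = 0) : uu x = (x.1 : ℂ).re ∧
    ((ff x).1 : ℂ).re = (x.1 : ℂ).re ∧
    (1 + 3 / 5 * ((x.1 : ℂ).re * (x.2 : ℂ).re)) * (vv x * (x.1 : ℂ).re) =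
      (x.1 : ℂ).re * (x.2 : ℂ).re + 3 / 5 ∧
    ((ff x).1 : ℂ).re * ((ff x).2 : ℂ).re =
      3 / 2 * (vv x * (x.1 : ℂ).re) / √(1 + 5 / 4 * (vv x * (x.1 : ℂ).re) ^ 2) := by
  have hr : (x.1 : ℂ).re ^ 2 = 1 := by have := sq_add_sq x.1; rw [h] at this; linarith
  have hu : uu x = (x.1 : ℂ).re := by
    have h1 := uu_mul x
    have h2 : (1 + -(3 / 5 * (x.2 : ℂ).re) * (x.1 : ℂ).re) * uu x =
        (1 + -(3 / 5 * (x.2 : ℂ).re) * (x.1 : ℂ).re) * (x.1 : ℂ).re := by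
      rw [h1]; linear_combination (3 / 5 * (x.2 : ℂ).re) * hr
    exact mul_left_cancel₀ (q_pos x).ne' h2
  have h3 : ((ff x).1 : ℂ).re = (x.1 : ℂ).re := by
    rw [ff_re1, hu, hr, sqrt_one]; ring
  refine ⟨hu, h3, ?_, ?_⟩
  · have := vv_mul x
    rw [hu] at this
    linear_combination (x.1 : ℂ).re * this + 3 / 5 * hr
  · rw [h3, ff_re2, mul_pow, hr, mul_one]
    ring

theorem edgeB (x : TT) (h : (x.2 : ℂ).im = 0) : vv x = (x.2 : ℂ).re ∧
    ((ff x).2 : ℂ).re = (x.2 : ℂ).re ∧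
    (1 + 3 / 5 * (-((x.1 : ℂ).re * (x.2 : ℂ).re))) * (-(uu x * (x.2 : ℂ).re)) =
      -((x.1 : ℂ).re * (x.2 : ℂ).re) + 3 / 5 ∧
    -(((ff x).1 : ℂ).re * ((ff x).2 : ℂ).re) =
      3 / 2 * (-(uu x * (x.2 : ℂ).re)) / √(1 + 5 / 4 * (-(uu x * (x.2 : ℂ).re)) ^ 2) := by
  have hr : (x.2 : ℂ).re ^ 2 = 1 := by have := sq_add_sq x.2; rw [h] at this; linarith
  have hu : vv x = (x.2 : ℂ).re := by
    have h1 := vv_mul x
    have h2 : (1 + 3 / 5 * uu x * (x.2 : ℂ).re) * vv x =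
        (1 + 3 / 5 * uu x * (x.2 : ℂ).re) * (x.2 : ℂ).re := by
      rw [h1]; linear_combination (-(3 / 5 * uu x)) * hr
    exact mul_left_cancel₀ (p_pos x).ne' h2
  have h3 : ((ff x).2 : ℂ).re = (x.2 : ℂ).re := by
    rw [ff_re2, hu, hr, sqrt_one]; ring
  refine ⟨hu, h3, ?_, ?_⟩
  · have := uu_mul x
    linear_combination -(x.2 : ℂ).re * this + 3 / 5 * hr
  · rw [h3, ff_re1, neg_sq, mul_pow, hr, mul_one]
    ring

theorem edge_eq (τ V : ℝ) (h : τ ^ 2 = 1) (hV : (1 + 3 / 5 * τ) * V = τ + 3 / 5) :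
    3 / 2 * V / √(1 + 5 / 4 * V ^ 2) = τ := by
  have h1 : V = τ := by
    have h3 : 1 + 3 / 5 * τ ≠ 0 := by
      intro h4
      have : τ = -(5 / 3) := by linarith
      rw [this] at h
      norm_num at h
    apply mul_left_cancel₀ h3
    rw [hV]
    linear_combination -(3 / 5) * h
  rw [h1, h, sqrt_one]
  ring

open Classical in
/-- the second function which is monotone along orbits -/
noncomputable def EA (x : TT) : ℝ := if (x.1 : ℂ).im = 0 then (x.1 : ℂ).re * (x.2 : ℂ).re else 0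

open Classical in
/-- the third function which is monotone along orbits -/
noncomputable def EB (x : TT) : ℝ := if (x.2 : ℂ).im = 0 then -((x.1 : ℂ).re * (x.2 : ℂ).re) else 0

theorem prod_sq_le (x : TT) : ((x.1 : ℂ).re * (x.2 : ℂ).re) ^ 2 ≤ 1 := by
  rw [mul_pow]
  exact mul_le_one₀ (re_sq_le _) (sq_nonneg _) (re_sq_le _)

theorem prod_sq_one (x : TT) (h : ((x.1 : ℂ).re * (x.2 : ℂ).re) ^ 2 = 1) :
    (x.1 : ℂ).im = 0 ∧ (x.2 : ℂ).im = 0 := by
  have h1 := sq_add_sq x.1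
  have h2 := sq_add_sq x.2
  rw [mul_pow] at h
  have h3 := re_sq_le x.1
  have h4 := re_sq_le x.2
  have h5 : (x.1 : ℂ).re ^ 2 = 1 := by nlinarith [sq_nonneg (x.1 : ℂ).re, sq_nonneg (x.2 : ℂ).re]
  have h6 : (x.2 : ℂ).re ^ 2 = 1 := by rw [h5] at h; linarith
  constructor
  · have : (x.1 : ℂ).im ^ 2 = 0 := by linarith
    exact pow_eq_zero_iff (two_ne_zero) |>.1 this
  · have : (x.2 : ℂ).im ^ 2 = 0 := by linarith
    exact pow_eq_zero_iff (two_ne_zero) |>.1 this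

theorem EA_spec (x : TT) : EA x ≤ EA (ff x) ∧
    (EA (ff x) = EA x → (x.1 : ℂ).im = 0 → (x.2 : ℂ).im = 0) := by
  unfold EA
  by_cases h : (x.1 : ℂ).im = 0
  · rw [if_pos h, if_pos ((im1_zero_iff x).2 h)]
    obtain ⟨-, -, h3, h4⟩ := edgeA x h
    rw [h4]
    rcases (prod_sq_le x).lt_or_eq with h5 | h5
    · have h6 := edge _ _ h5 h3
      exact ⟨h6.le, fun h7 => absurd h7 h6.ne'⟩
    · exact ⟨(edge_eq _ _ h5 h3).ge, fun _ _ => (prod_sq_one x h5).2⟩
  · have h' : ¬ ((ff x).1 : ℂ).im = 0 := fun h7 => h ((im1_zero_iff x).1 h7)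
    rw [if_neg h, if_neg h']
    exact ⟨le_rfl, fun _ h8 => absurd h8 h⟩

theorem EB_spec (x : TT) : EB x ≤ EB (ff x) ∧
    (EB (ff x) = EB x → (x.2 : ℂ).im = 0 → (x.1 : ℂ).im = 0) := by
  unfold EB
  by_cases h : (x.2 : ℂ).im = 0
  · rw [if_pos h, if_pos ((im2_zero_iff x).2 h)]
    obtain ⟨-, -, h3, h4⟩ := edgeB x h
    rw [h4]
    have hsq := prod_sq_le x
    rw [← neg_sq] at hsq
    rcases hsq.lt_or_eq with h5 | h5
    · have h6 := edge _ _ h5 h3
      exact ⟨h6.le, fun h7 => absurd h7 h6.ne'⟩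
    · refine ⟨(edge_eq _ _ h5 h3).ge, fun _ _ => (prod_sq_one x ?_).1⟩
      rw [← h5, neg_sq]
  · have h' : ¬ ((ff x).2 : ℂ).im = 0 := fun h7 => h ((im2_zero_iff x).1 h7)
    rw [if_neg h, if_neg h']
    exact ⟨le_rfl, fun _ h8 => absurd h8 h⟩

/-! ### Invariant measures -/

theorem ae_eq_of_le {X : Type*} [MeasurableSpace X] (ρ : Measure X) [IsProbabilityMeasure ρ]
    (T : X → X) (hT : MeasurePreserving T ρ ρ) (φ : X → ℝ) (hφ : Measurable φ) (C : ℝ)
    (hC : ∀ x, |φ x| ≤ C) (h : ∀ x, φ x ≤ φ (T x)) : ∀ᵐ x ∂ρ, φ (T x) = φ x := by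
  have hi : Integrable φ ρ :=
    (integrable_const C).mono' hφ.aestronglyMeasurable (ae_of_all _ hC)
  have hi2 : Integrable (fun x => φ (T x)) ρ := hT.integrable_comp_of_integrable hi
  have h1 : ∫ x, φ (T x) ∂ρ = ∫ x, φ x ∂ρ := by
    have := integral_map (μ := ρ) (f := φ) hT.measurable.aemeasurable
      (by rw [hT.map_eq]; exact hφ.aestronglyMeasurable)
    rw [hT.map_eq] at this
    exact this.symm
  have h2 : ∫ x, (φ (T x) - φ x) ∂ρ = 0 := by
    rw [integral_sub hi2 hi, h1, sub_self]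
  have h3 := (integral_eq_zero_iff_of_nonneg (fun x => sub_nonneg.2 (h x)) (hi2.sub hi)).1 h2
  filter_upwards [h3] with x hx
  simp only [Pi.zero_apply] at hx
  linarith

/-- the eight fixed points -/
def Fix8 : Set TT := {x | ((x.1 : ℂ).im = 0 ∧ (x.2 : ℂ).im = 0) ∨
  ((x.1 : ℂ).re = 0 ∧ (x.2 : ℂ).re = 0)}

theorem continuous_re1 : Continuous fun x : TT => (x.1 : ℂ).re := contMDiff_re1.continuous
theorem continuous_re2 : Continuous fun x : TT => (x.2 : ℂ).re := contMDiff_re2.continuous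
theorem continuous_im1 : Continuous fun x : TT => (x.1 : ℂ).im := contMDiff_im1.continuous
theorem continuous_im2 : Continuous fun x : TT => (x.2 : ℂ).im := contMDiff_im2.continuous

theorem ae_fix [MeasurableSpace TT] [BorelSpace TT] (ρ : Measure TT) [IsProbabilityMeasure ρ]
    (hT : MeasurePreserving ff ρ ρ) : ∀ᵐ x ∂ρ, x ∈ Fix8 := by
  have m1 : Measurable fun x : TT => (x.1 : ℂ).re := continuous_re1.measurable
  have m2 : Measurable fun x : TT => (x.2 : ℂ).re := continuous_re2.measurable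
  have m3 : Measurable fun x : TT => (x.1 : ℂ).im := continuous_im1.measurable
  have m4 : Measurable fun x : TT => (x.2 : ℂ).im := continuous_im2.measurable
  have h1 := ae_eq_of_le ρ ff hT (fun x => - DD x) ((m3.pow_const 2).mul (m4.pow_const 2)).neg 1
    (fun x => by rw [abs_neg, abs_of_nonneg (DD_nonneg x)]; exact DD_le_one x)
    (fun x => neg_le_neg (DD_le x))
  have h2 := ae_eq_of_le ρ ff hT EA
    (Measurable.ite (measurableSet_eq_fun m3 measurable_const) (m1.mul m2) measurable_const) 1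
    (fun x => by
      unfold EA
      split_ifs
      · exact abs_le_of_sq_le_sq (by rw [one_pow]; exact prod_sq_le x) zero_le_one
      · simp)
    (fun x => (EA_spec x).1)
  have h3 := ae_eq_of_le ρ ff hT EB
    (Measurable.ite (measurableSet_eq_fun m4 measurable_const) (m1.mul m2).neg
      measurable_const) 1
    (fun x => by
      unfold EB
      split_ifs
      · rw [abs_neg]
        exact abs_le_of_sq_le_sq (by rw [one_pow]; exact prod_sq_le x) zero_le_one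
      · simp)
    (fun x => (EB_spec x).1)
  filter_upwards [h1, h2, h3] with x hx1 hx2 hx3
  by_cases h : (x.1 : ℂ).re = 0 ∧ (x.2 : ℂ).re = 0
  · exact Or.inr h
  left
  have h0 : DD x = 0 := by
    by_contra h0
    have := DD_lt x h0 h
    linarith
  unfold DD at h0
  rcases mul_eq_zero.1 h0 with h4 | h4
  · have h5 : (x.1 : ℂ).im = 0 := pow_eq_zero_iff (two_ne_zero) |>.1 h4
    exact ⟨h5, (EA_spec x).2 hx2 h5⟩
  · have h5 : (x.2 : ℂ).im = 0 := pow_eq_zero_iff (two_ne_zero) |>.1 h4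
    exact ⟨(EB_spec x).2 hx3 h5, h5⟩

theorem ff_fix (x : TT) (h : x ∈ Fix8) : ff x = x := by
  rcases h with ⟨h1, h2⟩ | ⟨h1, h2⟩
  · refine Prod.ext (circle_ext ?_ ?_) (circle_ext ?_ ?_)
    · exact (edgeA x h1).2.1
    · rw [(im1_zero_iff x).2 h1, h1]
    · exact (edgeB x h2).2.1
    · rw [(im2_zero_iff x).2 h2, h2]
  · have hu : uu x = 0 := by unfold uu; rw [h1, h2]; simp
    have hv : vv x = 0 := by unfold vv; rw [hu, h2]; simp
    refine Prod.ext (circle_ext ?_ ?_) (circle_ext ?_ ?_)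
    · rw [ff_re1, hu, h1]; simp
    · rw [ff_im1, im1_eq, hu, h1, h2]; simp
    · rw [ff_re2, hv, h2]; simp
    · rw [ff_im2, im2_eq, hu, hv, h2]; simp

end Pool.Agent.TH339.EE
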