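import Pool.Agent.TH339.EE6

/-!
# The differential of the diffeomorphism at the fixed points
-/

set_option autoImplicit false

open MeasureTheory Filter Topology Bundle
open scoped Manifold ContDiff

namespace Pool.Agent.TH339.EE

attribute [local instance] finrank_real_complex_fact'

/-- the model space of the torus -/
abbrev E2 : Type := EuclideanSpace ℝ (Fin 1) × EuclideanSpace ℝ (Fin 1)

theorem mdiff_of {f : TT → ℝ} (hf : ContMDiff II 𝓘(ℝ, ℝ) ω f) (x : TT) :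
    MDifferentiableAt II 𝓘(ℝ, ℝ) f x := (hf x).mdifferentiableAt (by simp)

theorem d_mul_zero {f h : TT → ℝ} {x : TT} (hf : ContMDiff II 𝓘(ℝ, ℝ) ω f)
    (hh : ContMDiff II 𝓘(ℝ, ℝ) ω h) (h0 : f x = 0) (v : TangentSpace II x) :
    mvfderiv II (fun y => f y * h y) x v = h x * mvfderiv II f x v := by
  rw [mvfderiv_fun_mul (mdiff_of hf x) (mdiff_of hh x)]
  simp [h0]

theorem circle_re (z : Circle) (v : TangentSpace (𝓡 1) z) :
    mvfderiv (𝓡 1) (fun z : Circle => (z : ℂ).re) z v =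
      Complex.reCLM (mfderiv (𝓡 1) 𝓘(ℝ, ℂ) (fun z : Circle => (z : ℂ)) z v) := by
  have h1 : MDifferentiableAt (𝓡 1) 𝓘(ℝ, ℂ) (fun z : Circle => (z : ℂ)) z :=
    (contMDiff_coe_sphere (m := 1) z).mdifferentiableAt (by simp)
  have h2 : MDifferentiableAt 𝓘(ℝ, ℂ) 𝓘(ℝ, ℝ) Complex.reCLM (z : ℂ) :=
    Complex.reCLM.mdifferentiableAt
  have h3 := mfderiv_comp_apply z h2 h1 v
  rw [ContinuousLinearMap.mfderiv_eq] at h3
  exact h3

theorem circle_im (z : Circle) (v : TangentSpace (𝓡 1) z) :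
    mvfderiv (𝓡 1) (fun z : Circle => (z : ℂ).im) z v =
      Complex.imCLM (mfderiv (𝓡 1) 𝓘(ℝ, ℂ) (fun z : Circle => (z : ℂ)) z v) := by
  have h1 : MDifferentiableAt (𝓡 1) 𝓘(ℝ, ℂ) (fun z : Circle => (z : ℂ)) z :=
    (contMDiff_coe_sphere (m := 1) z).mdifferentiableAt (by simp)
  have h2 : MDifferentiableAt 𝓘(ℝ, ℂ) 𝓘(ℝ, ℝ) Complex.imCLM (z : ℂ) :=
    Complex.imCLM.mdifferentiableAt
  have h3 := mfderiv_comp_apply z h2 h1 v
  rw [ContinuousLinearMap.mfderiv_eq] at h3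
  exact h3

theorem circle_inj (z : Circle) (v : TangentSpace (𝓡 1) z)
    (h1 : mvfderiv (𝓡 1) (fun z : Circle => (z : ℂ).re) z v = 0)
    (h2 : mvfderiv (𝓡 1) (fun z : Circle => (z : ℂ).im) z v = 0) : v = 0 := by
  rw [circle_re] at h1
  rw [circle_im] at h2
  have h3 : mfderiv (𝓡 1) 𝓘(ℝ, ℂ) (fun z : Circle => (z : ℂ)) z v = 0 := Complex.ext h1 h2
  have h5 : ∀ w : Metric.sphere (0 : ℂ) 1, ∀ v : TangentSpace (𝓡 1) w,
      mvfderiv (𝓡 1) (Subtype.val : Metric.sphere (0 : ℂ) 1 → ℂ) w v = 0 → v = 0 := by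
    intro w v hv
    apply injective_mvfderiv_subtypeVal_sphere (E := ℂ) (n := 1) w
    rw [hv, map_zero]
  exact h5 z v h3

/-! ### Coordinate functions on the torus -/

/-- a coordinate -/
noncomputable def re1 (x : TT) : ℝ := (x.1 : ℂ).re
/-- a coordinate -/
noncomputable def re2 (x : TT) : ℝ := (x.2 : ℂ).re
/-- a coordinate -/
noncomputable def im1 (x : TT) : ℝ := (x.1 : ℂ).im
/-- a coordinate -/
noncomputable def im2 (x : TT) : ℝ := (x.2 : ℂ).im

theorem cm_re1 : ContMDiff II 𝓘(ℝ, ℝ) ω re1 := contMDiff_re1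
theorem cm_re2 : ContMDiff II 𝓘(ℝ, ℝ) ω re2 := contMDiff_re2
theorem cm_im1 : ContMDiff II 𝓘(ℝ, ℝ) ω im1 := contMDiff_im1
theorem cm_im2 : ContMDiff II 𝓘(ℝ, ℝ) ω im2 := contMDiff_im2

theorem d_re1 (x : TT) (v : TangentSpace II x) : mvfderiv II re1 x v =
    mvfderiv (𝓡 1) (fun z : Circle => (z : ℂ).re) x.1 (v : E2).1 := by
  have h1 : MDifferentiableAt (𝓡 1) 𝓘(ℝ, ℝ) (fun z : Circle => (z : ℂ).re) x.1 :=
    (contMDiff_re x.1).mdifferentiableAt (by simp)
  have h2 : MDifferentiableAt II (𝓡 1) (Prod.fst : TT → Circle) x :=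
    (contMDiff_fst x).mdifferentiableAt (n := 1) (by simp)
  have h3 := mvfderiv_comp_apply x h1 h2 v
  rw [mfderiv_fst] at h3
  exact h3

theorem d_im1 (x : TT) (v : TangentSpace II x) : mvfderiv II im1 x v =
    mvfderiv (𝓡 1) (fun z : Circle => (z : ℂ).im) x.1 (v : E2).1 := by
  have h1 : MDifferentiableAt (𝓡 1) 𝓘(ℝ, ℝ) (fun z : Circle => (z : ℂ).im) x.1 :=
    (contMDiff_im x.1).mdifferentiableAt (by simp)
  have h2 : MDifferentiableAt II (𝓡 1) (Prod.fst : TT → Circle) x :=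
    (contMDiff_fst x).mdifferentiableAt (n := 1) (by simp)
  have h3 := mvfderiv_comp_apply x h1 h2 v
  rw [mfderiv_fst] at h3
  exact h3

theorem d_re2 (x : TT) (v : TangentSpace II x) : mvfderiv II re2 x v =
    mvfderiv (𝓡 1) (fun z : Circle => (z : ℂ).re) x.2 (v : E2).2 := by
  have h1 : MDifferentiableAt (𝓡 1) 𝓘(ℝ, ℝ) (fun z : Circle => (z : ℂ).re) x.2 :=
    (contMDiff_re x.2).mdifferentiableAt (by simp)
  have h2 : MDifferentiableAt II (𝓡 1) (Prod.snd : TT → Circle) x :=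
    (contMDiff_snd x).mdifferentiableAt (n := 1) (by simp)
  have h3 := mvfderiv_comp_apply x h1 h2 v
  rw [mfderiv_snd] at h3
  exact h3

theorem d_im2 (x : TT) (v : TangentSpace II x) : mvfderiv II im2 x v =
    mvfderiv (𝓡 1) (fun z : Circle => (z : ℂ).im) x.2 (v : E2).2 := by
  have h1 : MDifferentiableAt (𝓡 1) 𝓘(ℝ, ℝ) (fun z : Circle => (z : ℂ).im) x.2 :=
    (contMDiff_im x.2).mdifferentiableAt (by simp)
  have h2 : MDifferentiableAt II (𝓡 1) (Prod.snd : TT → Circle) x :=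
    (contMDiff_snd x).mdifferentiableAt (n := 1) (by simp)
  have h3 := mvfderiv_comp_apply x h1 h2 v
  rw [mfderiv_snd] at h3
  exact h3

theorem tangent1 (x : TT) (v : TangentSpace II x) :
    re1 x * mvfderiv II re1 x v + im1 x * mvfderiv II im1 x v = 0 := by
  have h1 : (fun y => re1 y * re1 y + im1 y * im1 y) = fun _ : TT => (1 : ℝ) := by
    funext y
    have := sq_add_sq y.1
    unfold re1 im1
    linarith [sq (y.1 : ℂ).re, sq (y.1 : ℂ).im]
  have h2 := mvfderiv_fun_add (x := x) ((mdiff_of cm_re1 x).mul (mdiff_of cm_re1 x))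
    ((mdiff_of cm_im1 x).mul (mdiff_of cm_im1 x))
  have h3 : mvfderiv II (fun y => re1 y * re1 y + im1 y * im1 y) x v = 0 := by
    rw [h1, mvfderiv_const]; rfl
  have h4 : mvfderiv II (fun y => re1 y * re1 y + im1 y * im1 y) x v =
      mvfderiv II (fun y => re1 y * re1 y) x v + mvfderiv II (fun y => im1 y * im1 y) x v :=
    congrArg (fun L => L v) h2
  rw [h3, mvfderiv_fun_mul (mdiff_of cm_re1 x) (mdiff_of cm_re1 x),
    mvfderiv_fun_mul (mdiff_of cm_im1 x) (mdiff_of cm_im1 x)] at h4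
  simp only [add_apply, smul_apply, smul_eq_mul] at h4
  linarith

theorem tangent2 (x : TT) (v : TangentSpace II x) :
    re2 x * mvfderiv II re2 x v + im2 x * mvfderiv II im2 x v = 0 := by
  have h1 : (fun y => re2 y * re2 y + im2 y * im2 y) = fun _ : TT => (1 : ℝ) := by
    funext y
    have := sq_add_sq y.2
    unfold re2 im2
    linarith [sq (y.2 : ℂ).re, sq (y.2 : ℂ).im]
  have h2 := mvfderiv_fun_add (x := x) ((mdiff_of cm_re2 x).mul (mdiff_of cm_re2 x))
    ((mdiff_of cm_im2 x).mul (mdiff_of cm_im2 x))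
  have h3 : mvfderiv II (fun y => re2 y * re2 y + im2 y * im2 y) x v = 0 := by
    rw [h1, mvfderiv_const]; rfl
  have h4 : mvfderiv II (fun y => re2 y * re2 y + im2 y * im2 y) x v =
      mvfderiv II (fun y => re2 y * re2 y) x v + mvfderiv II (fun y => im2 y * im2 y) x v :=
    congrArg (fun L => L v) h2
  rw [h3, mvfderiv_fun_mul (mdiff_of cm_re2 x) (mdiff_of cm_re2 x),
    mvfderiv_fun_mul (mdiff_of cm_im2 x) (mdiff_of cm_im2 x)] at h4
  simp only [add_apply, smul_apply, smul_eq_mul] at h4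
  linarith

theorem tt_inj (x : TT) (v : TangentSpace II x) (h1 : mvfderiv II re1 x v = 0)
    (h2 : mvfderiv II im1 x v = 0) (h3 : mvfderiv II re2 x v = 0)
    (h4 : mvfderiv II im2 x v = 0) : v = 0 := by
  rw [d_re1] at h1
  rw [d_im1] at h2
  rw [d_re2] at h3
  rw [d_im2] at h4
  exact Prod.ext (circle_inj _ _ h1 h2) (circle_inj _ _ h3 h4)

end Pool.Agent.TH339.EE
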