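import Pool.Agent.TH339.EE7

/-!
# The differential of the diffeomorphism at the fixed points
-/

set_option autoImplicit false

open MeasureTheory Filter Topology Bundle
open scoped Manifold ContDiff

namespace Pool.Agent.TH339.EE

theorem cm_uu : ContMDiff II 𝓘(ℝ, ℝ) ω uu := contMDiff_re1.comp S1.contMDiff
theorem cm_vv : ContMDiff II 𝓘(ℝ, ℝ) ω vv :=
  contMDiff_re2.comp (S2.contMDiff.comp S1.contMDiff)

theorem cm_q : ContMDiff II 𝓘(ℝ, ℝ) ω (fun x : TT => 1 + -(3 / 5 * (x.2 : ℂ).re) * (x.1 : ℂ).re) :=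
  contMDiff_const.add (((contMDiff_const (c := (3 / 5 : ℝ))).mul contMDiff_re2).neg.mul
    contMDiff_re1)

theorem cm_p : ContMDiff II 𝓘(ℝ, ℝ) ω (fun x : TT => 1 + 3 / 5 * uu x * (x.2 : ℂ).re) :=
  contMDiff_const.add (((contMDiff_const (c := (3 / 5 : ℝ))).mul cm_uu).mul contMDiff_re2)

theorem cm_su : ContMDiff II 𝓘(ℝ, ℝ) ω (fun x : TT => √(1 + 5 / 4 * uu x ^ 2)) := by
  refine contMDiff_sqrt _ ?_ fun x => by positivity
  have := (contMDiff_const (c := (1 : ℝ)) (I := II) (M := TT) (n := ω)).add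
    ((contMDiff_const (c := (5 / 4 : ℝ))).mul (cm_uu.mul cm_uu))
  convert this using 2 with x
  simp [sq]

theorem cm_sv : ContMDiff II 𝓘(ℝ, ℝ) ω (fun x : TT => √(1 + 5 / 4 * vv x ^ 2)) := by
  refine contMDiff_sqrt _ ?_ fun x => by positivity
  have := (contMDiff_const (c := (1 : ℝ)) (I := II) (M := TT) (n := ω)).add
    ((contMDiff_const (c := (5 / 4 : ℝ))).mul (cm_vv.mul cm_vv))
  convert this using 2 with x
  simp [sq]

/-- a multiplier -/
noncomputable def h1 (x : TT) : ℝ := √(1 - (-(3 / 5 * (x.2 : ℂ).re)) ^ 2) /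
  (1 + -(3 / 5 * (x.2 : ℂ).re) * (x.1 : ℂ).re) / √(1 + 5 / 4 * uu x ^ 2)

/-- a multiplier -/
noncomputable def h2 (x : TT) : ℝ := √(1 - (3 / 5 * uu x) ^ 2) /
  (1 + 3 / 5 * uu x * (x.2 : ℂ).re) / √(1 + 5 / 4 * vv x ^ 2)

/-- a multiplier -/
noncomputable def k1 (x : TT) : ℝ := 3 / 2 / (1 + -(3 / 5 * (x.2 : ℂ).re) * (x.1 : ℂ).re) /
  √(1 + 5 / 4 * uu x ^ 2)

/-- a multiplier -/
noncomputable def k2 (x : TT) : ℝ := 3 / 2 / (1 + 3 / 5 * uu x * (x.2 : ℂ).re) /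
  √(1 + 5 / 4 * vv x ^ 2)

/-- a multiplier -/
noncomputable def k3 (x : TT) : ℝ := 1 / (1 + -(3 / 5 * (x.2 : ℂ).re) * (x.1 : ℂ).re)

theorem cm_h1 : ContMDiff II 𝓘(ℝ, ℝ) ω h1 := by
  have hs : ContMDiff II 𝓘(ℝ, ℝ) ω (fun x : TT => √(1 - (-(3 / 5 * (x.2 : ℂ).re)) ^ 2)) := by
    refine contMDiff_sqrt _ ?_ fun x => by linarith [hc' x.2]
    have := (contMDiff_const (c := (1 : ℝ)) (I := II) (M := TT) (n := ω)).sub
      (((contMDiff_const (c := (3 / 5 : ℝ))).mul contMDiff_re2).neg.mul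
        ((contMDiff_const (c := (3 / 5 : ℝ))).mul contMDiff_re2).neg)
    convert this using 2 with x
    simp [sq]
  exact (hs.div₀ cm_q fun x => (q_pos x).ne').div₀ cm_su fun x => (sqrt1_pos _).ne'

theorem cm_h2 : ContMDiff II 𝓘(ℝ, ℝ) ω h2 := by
  have hs : ContMDiff II 𝓘(ℝ, ℝ) ω (fun x : TT => √(1 - (3 / 5 * uu x) ^ 2)) := by
    refine contMDiff_sqrt _ ?_ fun x => by linarith [uu_c x]
    have := (contMDiff_const (c := (1 : ℝ)) (I := II) (M := TT) (n := ω)).sub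
      (((contMDiff_const (c := (3 / 5 : ℝ))).mul cm_uu).mul
        ((contMDiff_const (c := (3 / 5 : ℝ))).mul cm_uu))
    convert this using 2 with x
    simp [sq]
  exact (hs.div₀ cm_p fun x => (p_pos x).ne').div₀ cm_sv fun x => (sqrt1_pos _).ne'

theorem cm_k1 : ContMDiff II 𝓘(ℝ, ℝ) ω k1 :=
  ((contMDiff_const (c := (3 / 2 : ℝ))).div₀ cm_q fun x => (q_pos x).ne').div₀ cm_su
    fun _ => (sqrt1_pos _).ne'

theorem cm_k2 : ContMDiff II 𝓘(ℝ, ℝ) ω k2 :=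
  ((contMDiff_const (c := (3 / 2 : ℝ))).div₀ cm_p fun x => (p_pos x).ne').div₀ cm_sv
    fun _ => (sqrt1_pos _).ne'

theorem cm_k3 : ContMDiff II 𝓘(ℝ, ℝ) ω k3 :=
  (contMDiff_const (c := (1 : ℝ))).div₀ cm_q fun x => (q_pos x).ne'

theorem comp_im1 : im1 ∘ ff = fun x => im1 x * h1 x := by
  funext x
  show ((ff x).1 : ℂ).im = _
  rw [ff_im1, im1_eq]
  unfold h1 im1
  ring

theorem comp_im2 : im2 ∘ ff = fun x => im2 x * h2 x := by
  funext x
  show ((ff x).2 : ℂ).im = _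
  rw [ff_im2, im2_eq]
  unfold h2 im2
  ring

/-- an auxiliary function -/
noncomputable def l1 (x : TT) : ℝ := re1 x - 3 / 5 * re2 x

/-- an auxiliary function -/
noncomputable def l2 (x : TT) : ℝ := re2 x + 3 / 5 * uu x

theorem cm_l1 : ContMDiff II 𝓘(ℝ, ℝ) ω l1 :=
  cm_re1.sub ((contMDiff_const (c := (3 / 5 : ℝ))).mul cm_re2)

theorem cm_l2 : ContMDiff II 𝓘(ℝ, ℝ) ω l2 :=
  cm_re2.add ((contMDiff_const (c := (3 / 5 : ℝ))).mul cm_uu)

theorem uu_l1 : uu = fun x => l1 x * k3 x := by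
  funext x
  unfold uu l1 k3 re1 re2
  ring

theorem comp_re1 : re1 ∘ ff = fun x => l1 x * k1 x := by
  funext x
  show ((ff x).1 : ℂ).re = _
  rw [ff_re1]
  unfold k1 l1 uu re1 re2
  ring

theorem comp_re2 : re2 ∘ ff = fun x => l2 x * k2 x := by
  funext x
  show ((ff x).2 : ℂ).re = _
  rw [ff_re2]
  unfold k2 l2 vv re2
  ring

/-- the differential of a function at `x` -/
noncomputable def dd (g : TT → ℝ) (x : TT) : E2 →L[ℝ] ℝ := mvfderiv II g x

/-- the differential of the diffeomorphism at `x` -/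
noncomputable def Df (x : TT) : E2 →L[ℝ] E2 := mfderiv II II ff x

theorem d_comp {g : TT → ℝ} (hg : ContMDiff II 𝓘(ℝ, ℝ) ω g) (x : TT) (hx : ff x = x) (v : E2) :
    dd g x (Df x v) = dd (g ∘ ff) x v :=
  (mvfderiv_comp_apply_of_eq x (mdiff_of hg x)
    ((ff.contMDiff x).mdifferentiableAt (by simp)) hx v).symm

theorem d_const_mul (c : ℝ) {g : TT → ℝ} (hg : ContMDiff II 𝓘(ℝ, ℝ) ω g) (x : TT) (v : E2) :
    dd (fun y => c * g y) x v = c * dd g x v := by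
  have h := mvfderiv_fun_mul (x := x) (f := fun _ : TT => c) (mdifferentiableAt_const)
    (mdiff_of hg x)
  have h2 : mvfderiv II (fun y => c * g y) x v = (c • mvfderiv II g x +
    g x • mvfderiv II (fun _ : TT => c) x) v := congrArg (fun L => L v) h
  rw [mvfderiv_const, smul_zero, add_zero] at h2
  exact h2

theorem d_l1 (x : TT) (v : E2) : dd l1 x v =
    dd re1 x v - 3 / 5 * dd re2 x v := by
  have h := mvfderiv_fun_sub (x := x) (mdiff_of cm_re1 x)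
    (mdiff_of ((contMDiff_const (c := (3 / 5 : ℝ))).mul cm_re2) x)
  have h2 : mvfderiv II l1 x v = mvfderiv II re1 x v - mvfderiv II (fun y => 3 / 5 * re2 y) x v :=
    congrArg (fun L => L v) h
  rw [← d_const_mul _ cm_re2]
  exact h2

theorem d_uu (x : TT) (hx : l1 x = 0) (v : E2) : dd uu x v =
    k3 x * (dd re1 x v - 3 / 5 * dd re2 x v) := by
  rw [← d_l1, uu_l1]
  exact d_mul_zero cm_l1 cm_k3 hx v

theorem d_l2 (x : TT) (v : E2) : dd l2 x v =
    dd re2 x v + 3 / 5 * dd uu x v := by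
  have h := mvfderiv_fun_add (x := x) (mdiff_of cm_re2 x)
    (mdiff_of ((contMDiff_const (c := (3 / 5 : ℝ))).mul cm_uu) x)
  have h2 : mvfderiv II l2 x v = mvfderiv II re2 x v + mvfderiv II (fun y => 3 / 5 * uu y) x v :=
    congrArg (fun L => L v) h
  rw [← d_const_mul _ cm_uu]
  exact h2

/-- At the corners the differential is diagonal. -/
theorem corner (x : TT) (hx : (x.1 : ℂ).im = 0 ∧ (x.2 : ℂ).im = 0) (v : E2) :
    dd im1 x (Df x v) = h1 x * dd im1 x v ∧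
    dd im2 x (Df x v) = h2 x * dd im2 x v := by
  have hf := ff_fix x (Or.inl hx)
  constructor
  · rw [d_comp cm_im1 x hf, comp_im1]
    exact d_mul_zero cm_im1 cm_h1 hx.1 v
  · rw [d_comp cm_im2 x hf, comp_im2]
    exact d_mul_zero cm_im2 cm_h2 hx.2 v

/-- The differential at the centres. -/
theorem center (x : TT) (hx : (x.1 : ℂ).re = 0 ∧ (x.2 : ℂ).re = 0) (v : E2) :
    dd re1 x (Df x v) = 3 / 2 * (dd re1 x v -
      3 / 5 * dd re2 x v) ∧
    dd re2 x (Df x v) = 3 / 2 *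
      (3 / 5 * dd re1 x v +
        16 / 25 * dd re2 x v) := by
  have hf := ff_fix x (Or.inr hx)
  have hu : uu x = 0 := by unfold uu; rw [hx.1, hx.2]; simp
  have hv : vv x = 0 := by unfold vv; rw [hu, hx.2]; simp
  have hl1 : l1 x = 0 := by unfold l1 re1 re2; rw [hx.1, hx.2]; simp
  have hl2 : l2 x = 0 := by unfold l2 re2; rw [hx.2, hu]; simp
  have hk1 : k1 x = 3 / 2 := by unfold k1; rw [hu, hx.1, hx.2]; simp
  have hk2 : k2 x = 3 / 2 := by unfold k2; rw [hu, hv, hx.2]; simp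
  have hk3 : k3 x = 1 := by unfold k3; rw [hx.1, hx.2]; simp
  constructor
  · rw [d_comp cm_re1 x hf, comp_re1, ← d_l1, ← hk1]
    exact d_mul_zero cm_l1 cm_k1 hl1 v
  · rw [d_comp cm_re2 x hf, comp_re2]
    have h3 : dd (fun x => l2 x * k2 x) x v =
      k2 x * dd l2 x v := d_mul_zero cm_l2 cm_k2 hl2 v
    rw [h3, d_l2, d_uu x hl1, hk2, hk3]
    ring

theorem sqrt_1625 : √(1 - (9 / 25 : ℝ)) = 4 / 5 := by
  rw [show (1 - (9 / 25 : ℝ)) = (4 / 5) ^ 2 by norm_num]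
  exact Real.sqrt_sq (by norm_num)

theorem h1_corner (x : TT) (hx : (x.1 : ℂ).im = 0 ∧ (x.2 : ℂ).im = 0) :
    h1 x = 8 / 15 / (1 - 3 / 5 * ((x.1 : ℂ).re * (x.2 : ℂ).re)) ∧
    h2 x = 8 / 15 / (1 + 3 / 5 * ((x.1 : ℂ).re * (x.2 : ℂ).re)) := by
  have e1 : (x.1 : ℂ).re ^ 2 = 1 := by have := sq_add_sq x.1; rw [hx.1] at this; linarith
  have e2 : (x.2 : ℂ).re ^ 2 = 1 := by have := sq_add_sq x.2; rw [hx.2] at this; linarith
  have e3 := (edgeA x hx.1).1
  have e4 := (edgeB x hx.2).1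
  constructor
  · unfold h1
    rw [e3, e1, sqrt_one, neg_sq, mul_pow, e2]
    rw [show (1 - (3 / 5 : ℝ) ^ 2 * 1) = 1 - 9 / 25 by norm_num, sqrt_1625]
    rw [div_div, div_eq_div_iff]
    · ring
    · have := q_pos x
      positivity
    · have := q_pos x
      have h : 1 - 3 / 5 * ((x.1 : ℂ).re * (x.2 : ℂ).re) =
        1 + -(3 / 5 * (x.2 : ℂ).re) * (x.1 : ℂ).re := by ring
      rw [h]
      positivity
  · unfold h2
    rw [e3, e4, e2, sqrt_one, mul_pow, e1]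
    rw [show (1 - (3 / 5 : ℝ) ^ 2 * 1) = 1 - 9 / 25 by norm_num, sqrt_1625]
    rw [div_div, div_eq_div_iff]
    · ring
    · have := p_pos x
      rw [e3] at this
      positivity
    · have := p_pos x
      rw [e3] at this
      have h : 1 + 3 / 5 * ((x.1 : ℂ).re * (x.2 : ℂ).re) =
        1 + 3 / 5 * (x.1 : ℂ).re * (x.2 : ℂ).re := by ring
      rw [h]
      positivity

/-- a linear coordinate system -/
theorem exists_equiv (a b : E2 →L[ℝ] ℝ) (h : ∀ v, a v = 0 → b v = 0 → v = 0) :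
    ∃ Φ : E2 ≃L[ℝ] ℝ × ℝ, ∀ v, Φ v = (a v, b v) := by
  have hinj : Function.Injective (a.prod b : E2 →ₗ[ℝ] ℝ × ℝ) := by
    rw [← LinearMap.ker_eq_bot, LinearMap.ker_eq_bot']
    intro v hv
    exact h v (congrArg Prod.fst hv) (congrArg Prod.snd hv)
  have hdim : Module.finrank ℝ E2 = Module.finrank ℝ (ℝ × ℝ) := by
    rw [Module.finrank_prod, Module.finrank_prod]
    simp
  refine ⟨(LinearMap.linearEquivOfInjective _ hinj hdim).toContinuousLinearEquiv, fun v => rfl⟩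

/-- At the corners: a saddle. -/
theorem corner_equiv (x : TT) (hx : (x.1 : ℂ).im = 0 ∧ (x.2 : ℂ).im = 0) :
    ∃ Φ : E2 ≃L[ℝ] ℝ × ℝ, ∀ v, Φ (Df x v) = (4 / 3 * (Φ v).1, 1 / 3 * (Φ v).2) := by
  have e1 : (x.1 : ℂ).re ^ 2 = 1 := by have := sq_add_sq x.1; rw [hx.1] at this; linarith
  have e2 : (x.2 : ℂ).re ^ 2 = 1 := by have := sq_add_sq x.2; rw [hx.2] at this; linarith
  have hinj : ∀ v : E2, dd im1 x v = 0 →
      dd im2 x v = 0 → v = 0 := by
    intro v h3 h4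
    have t1 : re1 x * dd re1 x v +
      im1 x * dd im1 x v = 0 := tangent1 x v
    have t2 : re2 x * dd re2 x v +
      im2 x * dd im2 x v = 0 := tangent2 x v
    rw [h3, mul_zero, add_zero] at t1
    rw [h4, mul_zero, add_zero] at t2
    have n1 : re1 x ≠ 0 := by unfold re1; intro h; rw [h] at e1; norm_num at e1
    have n2 : re2 x ≠ 0 := by unfold re2; intro h; rw [h] at e2; norm_num at e2
    exact tt_inj x v ((mul_eq_zero.1 t1).resolve_left n1) h3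
      ((mul_eq_zero.1 t2).resolve_left n2) h4
  have hp : ((x.1 : ℂ).re * (x.2 : ℂ).re) ^ 2 = 1 := by rw [mul_pow, e1, e2, one_mul]
  have hc := h1_corner x hx
  rcases sq_eq_one_iff.1 hp with h | h
  · obtain ⟨Φ, hΦ⟩ := exists_equiv _ _ hinj
    refine ⟨Φ, fun v => ?_⟩
    rw [hΦ, hΦ, (corner x hx v).1, (corner x hx v).2, hc.1, hc.2, h]
    norm_num
  · obtain ⟨Φ, hΦ⟩ := exists_equiv _ _ (fun v h3 h4 => hinj v h4 h3)
    refine ⟨Φ, fun v => ?_⟩
    rw [hΦ, hΦ, (corner x hx v).1, (corner x hx v).2, hc.1, hc.2, h]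
    norm_num

/-- At the centres: a source. -/
theorem center_equiv (x : TT) (hx : (x.1 : ℂ).re = 0 ∧ (x.2 : ℂ).re = 0) :
    ∃ Φ : E2 ≃L[ℝ] ℝ × ℝ, ∀ v, Φ (Df x v) = (3 / 2 * ((Φ v).1 - 3 / 5 * (Φ v).2),
      3 / 2 * (3 / 5 * (Φ v).1 + 16 / 25 * (Φ v).2)) := by
  have e1 : (x.1 : ℂ).im ^ 2 = 1 := by have := sq_add_sq x.1; rw [hx.1] at this; linarith
  have e2 : (x.2 : ℂ).im ^ 2 = 1 := by have := sq_add_sq x.2; rw [hx.2] at this; linarith
  have hinj : ∀ v : E2, dd re1 x v = 0 →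
      dd re2 x v = 0 → v = 0 := by
    intro v h3 h4
    have t1 : re1 x * dd re1 x v +
      im1 x * dd im1 x v = 0 := tangent1 x v
    have t2 : re2 x * dd re2 x v +
      im2 x * dd im2 x v = 0 := tangent2 x v
    rw [h3, mul_zero, zero_add] at t1
    rw [h4, mul_zero, zero_add] at t2
    have n1 : im1 x ≠ 0 := by unfold im1; intro h; rw [h] at e1; norm_num at e1
    have n2 : im2 x ≠ 0 := by unfold im2; intro h; rw [h] at e2; norm_num at e2
    exact tt_inj x v h3 ((mul_eq_zero.1 t1).resolve_left n1) h4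
      ((mul_eq_zero.1 t2).resolve_left n2)
  obtain ⟨Φ, hΦ⟩ := exists_equiv _ _ hinj
  refine ⟨Φ, fun v => ?_⟩
  rw [hΦ, hΦ, (center x hx v).1, (center x hx v).2]

end Pool.Agent.TH339.EE
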