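import Pool.Agent.TH339.EE8
import Pool.Agent.TH339.EE1

/-!
# Exponents at the fixed points
-/

set_option autoImplicit false

open MeasureTheory Filter Topology Bundle
open scoped Manifold ContDiff

namespace Pool.Agent.TH339.EE

/-- a Riemannian metric of the torus -/
abbrev RM : Type := ContinuousRiemannianMetric E2 (TangentSpace II : TT → Type _)

/-! ### Growth -/

theorem tends_one (N : ℕ → ℝ) (c C lam : ℝ) (hc : 0 < c) (hlam : 0 < lam)
    (h : ∀ n, c * lam ^ n ≤ N n ∧ N n ≤ C * lam ^ n) :
    Tendsto (fun n : ℕ => 1 / (n : ℝ) * Real.log (N n)) atTop (𝓝 (Real.log lam)) := by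
  have hC : 0 < C := by
    have h0 := h 0
    simp only [pow_zero, mul_one] at h0
    linarith
  have h1 : Tendsto (fun n : ℕ => 1 / (n : ℝ) * Real.log c + Real.log lam) atTop
      (𝓝 (Real.log lam)) := by
    have := (tendsto_one_div_atTop_nhds_zero_nat (𝕜 := ℝ)).mul_const (Real.log c)
    simpa using this.add_const (Real.log lam)
  have h2 : Tendsto (fun n : ℕ => 1 / (n : ℝ) * Real.log C + Real.log lam) atTop
      (𝓝 (Real.log lam)) := by
    have := (tendsto_one_div_atTop_nhds_zero_nat (𝕜 := ℝ)).mul_const (Real.log C)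
    simpa using this.add_const (Real.log lam)
  refine tendsto_of_tendsto_of_tendsto_of_le_of_le' h1 h2 ?_ ?_
  · filter_upwards [eventually_gt_atTop 0] with n hn
    have hn' : (0 : ℝ) < n := by exact_mod_cast hn
    have h3 : Real.log (c * lam ^ n) ≤ Real.log (N n) := Real.log_le_log (by positivity) (h n).1
    rw [Real.log_mul hc.ne' (by positivity), Real.log_pow] at h3
    have : 1 / (n : ℝ) * Real.log c + Real.log lam =
        1 / (n : ℝ) * (Real.log c + n * Real.log lam) := by field_simp
    rw [this]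
    exact mul_le_mul_of_nonneg_left h3 (by positivity)
  · filter_upwards [eventually_gt_atTop 0] with n hn
    have hn' : (0 : ℝ) < n := by exact_mod_cast hn
    have h4 : 0 < N n := lt_of_lt_of_le (by positivity) (h n).1
    have h3 : Real.log (N n) ≤ Real.log (C * lam ^ n) := Real.log_le_log h4 (h n).2
    rw [Real.log_mul hC.ne' (by positivity), Real.log_pow] at h3
    have : 1 / (n : ℝ) * Real.log C + Real.log lam =
        1 / (n : ℝ) * (Real.log C + n * Real.log lam) := by field_simp
    rw [this]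
    exact mul_le_mul_of_nonneg_left h3 (by positivity)

theorem tends_two (N : ℕ → ℝ) (c C lam : ℝ) (hc : 0 < c) (hlam : 0 < lam)
    (h : ∀ n, c * lam⁻¹ ^ n ≤ N n ∧ N n ≤ C * lam⁻¹ ^ n) :
    Tendsto (fun n : ℕ => 1 / (-(n : ℝ)) * Real.log (N n)) atTop (𝓝 (Real.log lam)) := by
  have := (tends_one N c C lam⁻¹ hc (inv_pos.2 hlam) h).neg
  rw [Real.log_inv, neg_neg] at this
  refine this.congr fun n => ?_
  rw [one_div, one_div, inv_neg, neg_mul]

/-! ### Comparison of norms -/

theorem tnorm_bounds (g : RM) (x : TT) : ∃ c C : ℝ, 0 < c ∧ 0 < C ∧ ∀ v : E2,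
    c * ‖v‖ ≤ tnorm g x v ∧ tnorm g x v ≤ C * ‖v‖ := by
  let B : E2 →L[ℝ] E2 →L[ℝ] ℝ := g.inner x
  have hB : ∀ v : E2, tnorm g x v = √(B v v) := fun v => rfl
  have hpos : ∀ v : E2, v ≠ 0 → 0 < B v v := fun v hv => g.pos x v hv
  have hbd : Bornology.IsVonNBounded ℝ {v : E2 | B v v < 1} := g.isVonNBounded x
  rw [NormedSpace.isVonNBounded_iff] at hbd
  obtain ⟨R, hR⟩ := hbd.exists_norm_le
  have hR' : ∀ v : E2, B v v < 1 → ‖v‖ ≤ max R 1 := fun v hv => (hR v hv).trans (le_max_left _ _)
  have hR0 : 0 < max R 1 := lt_of_lt_of_le one_pos (le_max_right _ _)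
  refine ⟨1 / (2 * max R 1), √(‖B‖ + 1), by positivity, by positivity, fun v => ?_⟩
  rw [hB]
  constructor
  · by_cases hv : v = 0
    · rw [hv, norm_zero, mul_zero]; positivity
    have h1 := hpos v hv
    have hs : 0 < √(B v v) := Real.sqrt_pos.2 h1
    have h2 : B ((1 / (2 * √(B v v))) • v) ((1 / (2 * √(B v v))) • v) = 1 / 4 := by
      rw [map_smul, map_smul]
      simp only [smul_apply, smul_eq_mul]
      have h3 := Real.sq_sqrt h1.le
      field_simp
      nlinarith
    have h3 := hR' _ (by rw [h2]; norm_num)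
    rw [norm_smul, Real.norm_of_nonneg (by positivity)] at h3
    rw [div_mul_eq_mul_div, one_mul, div_le_iff₀ (by positivity)] at h3 ⊢
    linarith
  · rw [Real.sqrt_le_left (by positivity), mul_pow, Real.sq_sqrt (by positivity)]
    have h1 := B.le_opNorm₂ v v
    rw [Real.norm_eq_abs] at h1
    have h2 := le_abs_self (B v v)
    nlinarith [norm_nonneg v, sq_nonneg ‖v‖]

/-! ### Iterates of the differential -/

/-- the differential as a linear map of the model space -/
noncomputable def MF (T : TT → TT) (x : TT) : E2 →L[ℝ] E2 := mfderiv II II T x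

theorem MF_iter (T : TT → TT) (hT : ContMDiff II II ω T) (x : TT) (hx : T x = x) (n : ℕ) (v : E2) :
    MF T^[n] x v = (MF T x)^[n] v := by
  have hTn : ∀ n : ℕ, ContMDiff II II ω T^[n] := by
    intro n
    induction n with
    | zero => exact contMDiff_id
    | succ n ih => rw [Function.iterate_succ']; exact hT.comp ih
  have hxn : ∀ n : ℕ, T^[n] x = x := fun n => Function.iterate_fixed hx n
  induction n with
  | zero =>
    rw [Function.iterate_zero, Function.iterate_zero]
    unfold MF
    rw [mfderiv_id]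
    rfl
  | succ n ih =>
    rw [Function.iterate_succ', Function.iterate_succ']
    have h1 : MDifferentiableAt II II T (T^[n] x) :=
      (hT _).mdifferentiableAt (by simp)
    have h2 : MDifferentiableAt II II T^[n] x := (hTn n x).mdifferentiableAt (by simp)
    have h3 := mfderiv_comp x h1 h2
    have h4 : MF (T ∘ T^[n]) x v = MF T (T^[n] x) (MF T^[n] x v) := by
      unfold MF
      rw [h3]; rfl
    have h5 : ∀ y, y = x → ∀ w : E2, MF T y w = MF T x w := by
      rintro y rfl w; rfl
    rw [h4, h5 _ (hxn n), ih]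
    rfl

/-- the differential of the inverse is the inverse of the differential -/
theorem MF_symm (x : TT) (hx : ff x = x) (v : E2) : MF ff x (MF ff.symm x v) = v := by
  have hx' : ff.symm x = x := by
    conv_lhs => rw [← hx]
    exact ff.symm_apply_apply x
  have h1 : MDifferentiableAt II II ff (ff.symm x) :=
    (ff.contMDiff _).mdifferentiableAt (by simp)
  have h2 : MDifferentiableAt II II ff.symm x := (ff.symm.contMDiff x).mdifferentiableAt (by simp)
  have h3 := mfderiv_comp x h1 h2
  have h4 : MF (ff ∘ ff.symm) x v = MF ff (ff.symm x) (MF ff.symm x v) := by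
    unfold MF
    rw [h3]; rfl
  have h5 : ∀ y, y = x → ∀ w : E2, MF ff y w = MF ff x w := by
    rintro y rfl w; rfl
  have h6 : (ff ∘ ff.symm : TT → TT) = id := funext fun y => ff.apply_symm_apply y
  rw [h5 _ hx', h6] at h4
  rw [← h4]
  unfold MF
  rw [mfderiv_id]
  rfl

theorem symm_fix (x : TT) (hx : ff x = x) : ff.symm x = x := by
  conv_lhs => rw [← hx]
  exact ff.symm_apply_apply x

theorem hasExponent_iff (g : RM) (x : TT) (hx : ff x = x) (u : E2) (χ : ℝ) :
    HasExponent ff g x u χ ↔
      Tendsto (fun n : ℕ => 1 / (n : ℝ) * Real.log (tnorm g x ((MF ff x)^[n] u))) atTop (𝓝 χ) ∧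
      Tendsto (fun n : ℕ => 1 / (-(n : ℝ)) * Real.log (tnorm g x ((MF ff.symm x)^[n] u)))
        atTop (𝓝 χ) := by
  have h1 : ∀ y, y = x → ∀ w : E2, tnorm g y w = tnorm g x w := by rintro y rfl w; rfl
  have h2 : ∀ n : ℕ, tnorm g (ff^[n] x) (mfderiv II II ff^[n] x u) =
      tnorm g x ((MF ff x)^[n] u) := by
    intro n
    rw [← MF_iter ff ff.contMDiff x hx n u]
    exact h1 _ (Function.iterate_fixed hx n) _
  have h3 : ∀ n : ℕ, tnorm g (ff.symm^[n] x) (mfderiv II II ff.symm^[n] x u) =
      tnorm g x ((MF ff.symm x)^[n] u) := by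
    intro n
    rw [← MF_iter ff.symm ff.symm.contMDiff x (symm_fix x hx) n u]
    exact h1 _ (Function.iterate_fixed (symm_fix x hx) n) _
  unfold HasExponent
  simp only [h2, h3]

end Pool.Agent.TH339.EE
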