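import Mathlib

/-!
A lattice quasi-norm with symmetry for largest coefficients which is an `s`-norm: abstract part.

For a family `a` of scalars, `Ad a c` says that the finitely supported family `c` is obtained from
`a` by a truncation at a level `t`, where the coordinates of `a` of modulus at least `t` are
replaced by at most as many coordinates of modulus at most `t` at arbitrary places, and where all
other coordinates are decreased in modulus.
-/

set_option autoImplicit false

open Finset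

namespace Pool.Agent.TH339.GR

variable {J 𝕜 : Type*} [RCLike 𝕜]

/-- Admissible truncations and relocations of `a`. -/
def Ad (a : J → 𝕜) (c : J →₀ 𝕜) : Prop :=
  ∃ (t : ℝ) (A B : Finset J), 0 < t ∧ (∀ j ∈ A, t ≤ ‖a j‖) ∧ B.card ≤ A.card ∧
    (∀ j ∈ B, ‖c j‖ ≤ t) ∧ (∀ j, j ∉ B → c j ≠ 0 → ‖a j‖ < t ∧ ‖c j‖ ≤ ‖a j‖)

/-- Families dominated by `a` are admissible. -/
lemma Ad_of_le {a : J → 𝕜} {c : J →₀ 𝕜} (h : ∀ j, ‖c j‖ ≤ ‖a j‖) : Ad a c := by
  classical
  refine ⟨1 + ∑ j ∈ c.support, ‖a j‖, ∅, ∅, by positivity, by simp, le_rfl, by simp, ?_⟩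
  intro j _ hj
  refine ⟨?_, h j⟩
  have : ‖a j‖ ≤ ∑ j ∈ c.support, ‖a j‖ :=
    Finset.single_le_sum (f := fun j => ‖a j‖) (fun _ _ => norm_nonneg _)
      (Finsupp.mem_support_iff.2 hj)
  linarith

lemma Ad_zero (a : J → 𝕜) : Ad a (0 : J →₀ 𝕜) := Ad_of_le (by simp)

/-- Monotonicity. -/
lemma Ad_mono {a a' : J → 𝕜} (h : ∀ j, ‖a j‖ ≤ ‖a' j‖) {c : J →₀ 𝕜} (hc : Ad a c) : Ad a' c := by
  classical
  obtain ⟨t, A, B, ht, hA, hBA, hB, hc⟩ := hc
  set D : Finset J := c.support.filter (fun j => j ∉ B ∧ t ≤ ‖a' j‖) with hD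
  have hDA : Disjoint A D := by
    rw [Finset.disjoint_left]
    intro j hj hj'
    rw [hD, Finset.mem_filter] at hj'
    have h1 := (hc j hj'.2.1 (Finsupp.mem_support_iff.1 hj'.1)).1
    exact absurd (hA j hj) (not_le.2 h1)
  refine ⟨t, A ∪ D, B ∪ D, ht, ?_, ?_, ?_, ?_⟩
  · intro j hj
    rcases Finset.mem_union.1 hj with hj | hj
    · exact (hA j hj).trans (h j)
    · exact (Finset.mem_filter.1 hj).2.2
  · rw [Finset.card_union_of_disjoint hDA]
    exact (Finset.card_union_le _ _).trans (Nat.add_le_add_right hBA _)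
  · intro j hj
    rcases Finset.mem_union.1 hj with hj | hj
    · exact hB j hj
    · have hj' := Finset.mem_filter.1 hj
      have h1 := hc j hj'.2.1 (Finsupp.mem_support_iff.1 hj'.1)
      exact h1.2.trans h1.1.le
  · intro j hj hj0
    rw [Finset.mem_union, not_or] at hj
    have h1 := hc j hj.1 hj0
    have h2 : ‖a' j‖ < t := by
      by_contra hcon
      exact hj.2 (Finset.mem_filter.2 ⟨Finsupp.mem_support_iff.2 hj0, hj.1, not_lt.1 hcon⟩)
    exact ⟨h2, h1.2.trans (h j)⟩

/-- Scaling. -/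
lemma Ad_smul {a : J → 𝕜} {c : J →₀ 𝕜} (hc : Ad a c) (z : 𝕜) : Ad (fun j => z * a j) (z • c) := by
  classical
  by_cases hz : z = 0
  · subst hz; rw [zero_smul]; exact Ad_zero _
  have hz' : 0 < ‖z‖ := norm_pos_iff.2 hz
  obtain ⟨t, A, B, ht, hA, hBA, hB, hc⟩ := hc
  refine ⟨‖z‖ * t, A, B, by positivity, ?_, hBA, ?_, ?_⟩
  · intro j hj
    rw [norm_mul]
    exact mul_le_mul_of_nonneg_left (hA j hj) hz'.le
  · intro j hj
    rw [Finsupp.smul_apply, smul_eq_mul, norm_mul]
    exact mul_le_mul_of_nonneg_left (hB j hj) hz'.le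
  · intro j hj hj0
    rw [Finsupp.smul_apply, smul_eq_mul] at hj0
    have h1 := hc j hj (right_ne_zero_of_mul hj0)
    rw [Finsupp.smul_apply, smul_eq_mul, norm_mul, norm_mul]
    exact ⟨mul_lt_mul_of_pos_left h1.1 hz', mul_le_mul_of_nonneg_left h1.2 hz'.le⟩

/-- The greedy property: if `A` is a greedy set of `a` and `B` has at most as many elements as `A`,
then everything admissible for `a` restricted to the complement of `A` is admissible for every
modification of `a` on `B`. -/
lemma Ad_greedy [DecidableEq J] {a w : J → 𝕜} {A B : Finset J}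
    (hA : ∀ i ∈ A, ∀ j, j ∉ A → ‖a j‖ ≤ ‖a i‖) (hBA : B.card ≤ A.card)
    (hw : ∀ j, j ∉ B → w j = a j) {c : J →₀ 𝕜} (hc : Ad (fun j => if j ∈ A then 0 else a j) c) :
    Ad w c := by
  classical
  rcases A.eq_empty_or_nonempty with hAe | hAn
  · subst hAe
    have hBe : B = ∅ := Finset.card_eq_zero.1 (by simpa using hBA)
    subst hBe
    have h1 : w = fun j => if j ∈ (∅ : Finset J) then 0 else a j := by
      funext j; simpa using hw j (by simp)
    rw [h1]; exact hc
  obtain ⟨i₀, hi₀, hmin⟩ := A.exists_min_image (fun j => ‖a j‖) hAn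
  set τ : ℝ := ‖a i₀‖ with hτ
  have hτA : ∀ i ∈ A, τ ≤ ‖a i‖ := hmin
  have hτc : ∀ j, j ∉ A → ‖a j‖ ≤ τ := fun j hj => hA i₀ hi₀ j hj
  have hcardAB : (B \ A).card ≤ (A \ B).card := by
    have h1 := Finset.card_sdiff_add_card_inter B A
    have h2 := Finset.card_sdiff_add_card_inter A B
    rw [Finset.inter_comm B A] at h1
    omega
  obtain ⟨t, A₀, B₀, ht, hA₀, hBA₀, hB₀, hc⟩ := hc
  -- elements of `A₀` are not in `A`
  have hA₀' : ∀ j ∈ A₀, j ∉ A ∧ t ≤ ‖a j‖ := by
    intro j hj
    have h1 := hA₀ j hj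
    by_cases hjA : j ∈ A
    · simp only [hjA, if_true, norm_zero] at h1
      exact absurd h1 (not_le.2 ht)
    · simp only [hjA, if_false] at h1
      exact ⟨hjA, h1⟩
  have hc' : ∀ j, j ∉ B₀ → c j ≠ 0 → j ∉ A ∧ ‖a j‖ < t ∧ ‖c j‖ ≤ ‖a j‖ := by
    intro j hj hj0
    have h1 := hc j hj hj0
    by_cases hjA : j ∈ A
    · simp only [hjA, if_true, norm_zero] at h1
      exact absurd (norm_le_zero_iff.1 h1.2) hj0
    · simp only [hjA, if_false] at h1
      exact ⟨hjA, h1⟩
  rcases lt_or_ge τ t with hτt | htτ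
  · -- `t > τ`: no large coordinates outside `A`
    have hA₀e : A₀ = ∅ := by
      rw [Finset.eq_empty_iff_forall_notMem]
      intro j hj
      have h1 := hA₀' j hj
      exact absurd (h1.2.trans (hτc j h1.1)) (not_le.2 hτt)
    have hB₀e : B₀ = ∅ := by
      rw [hA₀e] at hBA₀
      exact Finset.card_eq_zero.1 (by simpa using hBA₀)
    subst hB₀e
    rcases (norm_nonneg (a i₀)).eq_or_lt with h0 | h0
    · -- all coordinates outside `A` vanish
      have hc0 : c = 0 := by
        ext j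
        by_contra hj0
        rw [Finsupp.zero_apply] at hj0
        have h1 := hc' j (by simp) hj0
        have h2 := hτc j h1.1
        rw [hτ, ← h0] at h2
        exact hj0 (norm_le_zero_iff.1 (h1.2.2.trans h2))
      rw [hc0]; exact Ad_zero _
    · set E : Finset J := c.support.filter (fun j => j ∉ A ∪ B ∧ τ ≤ ‖a j‖) with hE
      set F : Finset J := c.support.filter (fun j => j ∈ B) with hF
      refine ⟨τ, (A \ B) ∪ E, (F \ A) ∪ E, h0, ?_, ?_, ?_, ?_⟩
      · intro j hj
        rcases Finset.mem_union.1 hj with hj | hj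
        · have h1 := Finset.mem_sdiff.1 hj
          rw [hw j h1.2]; exact hτA j h1.1
        · have h1 := (Finset.mem_filter.1 hj).2
          have h2 : j ∉ B := fun h => h1.1 (Finset.mem_union_right _ h)
          rw [hw j h2]; exact h1.2
      · have hdis : Disjoint (A \ B) E := by
          rw [Finset.disjoint_left]
          intro j hj hj'
          exact (Finset.mem_filter.1 hj').2.1 (Finset.mem_union_left _ (Finset.mem_sdiff.1 hj).1)
        rw [Finset.card_union_of_disjoint hdis]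
        refine (Finset.card_union_le _ _).trans (Nat.add_le_add_right ?_ _)
        refine le_trans (Finset.card_le_card ?_) hcardAB
        intro j hj
        have h1 := Finset.mem_sdiff.1 hj
        exact Finset.mem_sdiff.2 ⟨(Finset.mem_filter.1 h1.1).2, h1.2⟩
      · intro j hj
        by_cases hj0 : c j = 0
        · rw [hj0, norm_zero]; exact h0.le
        · have h1 := hc' j (by simp) hj0
          exact h1.2.2.trans (hτc j h1.1)
      · intro j hj hj0
        rw [Finset.mem_union, not_or] at hj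
        have h1 := hc' j (by simp) hj0
        have h2 : j ∉ B := by
          intro hB
          exact hj.1 (Finset.mem_sdiff.2 ⟨Finset.mem_filter.2 ⟨Finsupp.mem_support_iff.2 hj0, hB⟩, h1.1⟩)
        have h3 : ‖a j‖ < τ := by
          by_contra hcon
          apply hj.2
          refine Finset.mem_filter.2 ⟨Finsupp.mem_support_iff.2 hj0, ?_, not_lt.1 hcon⟩
          rw [Finset.mem_union, not_or]
          exact ⟨h1.1, h2⟩
        rw [hw j h2]
        exact ⟨h3, h1.2.2⟩
  · -- `t ≤ τ`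
    refine ⟨t, (A \ B) ∪ (A₀ \ B), B₀ ∪ ((B \ A) \ A₀), ht, ?_, ?_, ?_, ?_⟩
    · intro j hj
      rcases Finset.mem_union.1 hj with hj | hj
      · have h1 := Finset.mem_sdiff.1 hj
        rw [hw j h1.2]; exact htτ.trans (hτA j h1.1)
      · have h1 := Finset.mem_sdiff.1 hj
        rw [hw j h1.2]; exact (hA₀' j h1.1).2
    · have hdis : Disjoint (A \ B) (A₀ \ B) := by
        rw [Finset.disjoint_left]
        intro j hj hj'
        exact (hA₀' j (Finset.mem_sdiff.1 hj').1).1 (Finset.mem_sdiff.1 hj).1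
      rw [Finset.card_union_of_disjoint hdis]
      have h1 : A₀ ∩ B = A₀ ∩ (B \ A) := by
        ext j
        simp only [Finset.mem_inter, Finset.mem_sdiff]
        constructor
        · rintro ⟨h1, h2⟩; exact ⟨h1, h2, (hA₀' j h1).1⟩
        · rintro ⟨h1, h2, _⟩; exact ⟨h1, h2⟩
      have h2 := Finset.card_sdiff_add_card_inter A₀ B
      have h3 := Finset.card_sdiff_add_card_inter (B \ A) A₀
      rw [Finset.inter_comm (B \ A) A₀, ← h1] at h3
      have h4 := Finset.card_union_le B₀ ((B \ A) \ A₀)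
      omega
    · intro j hj
      by_cases hjB : j ∈ B₀
      · exact hB₀ j hjB
      · by_cases hj0 : c j = 0
        · rw [hj0, norm_zero]; exact ht.le
        · have h1 := hc' j hjB hj0
          exact h1.2.2.trans h1.2.1.le
    · intro j hj hj0
      rw [Finset.mem_union, not_or] at hj
      have h1 := hc' j hj.1 hj0
      have h2 : j ∉ B := by
        intro hB
        apply hj.2
        refine Finset.mem_sdiff.2 ⟨Finset.mem_sdiff.2 ⟨hB, h1.1⟩, fun hjA₀ => ?_⟩
        exact absurd (hA₀' j hjA₀).2 (not_le.2 h1.2.1)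
      rw [hw j h2]
      exact h1.2

/-- The quantitative triangle inequality, at the level of admissible families. -/
lemma Ad_add {a b : J → 𝕜} {θ : ℝ} (hθ0 : 0 < θ) (hθ1 : θ < 1) {c : J →₀ 𝕜}
    (hc : Ad (fun j => a j + b j) c) : ∃ c₁ c₂ c₃ : J →₀ 𝕜, c = c₁ + c₂ + c₃ ∧
      Ad a (((1 - θ : ℝ) : 𝕜) • c₁) ∧ Ad b c₂ ∧ Ad b ((θ : 𝕜) • c₃) := by
  classical
  obtain ⟨t, A, B, ht, hA, hBA, hB, hc⟩ := hc
  have hθ1' : 0 < 1 - θ := by linarith
  set A₂ : Finset J := A.filter (fun j => θ * t ≤ ‖b j‖) with hA₂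
  set A₁ : Finset J := A.filter (fun j => ¬ θ * t ≤ ‖b j‖) with hA₁
  have hcardA : A₂.card + A₁.card = A.card := Finset.card_filter_add_card_filter_not _
  have hA₁' : ∀ j ∈ A₁, (1 - θ) * t ≤ ‖a j‖ := by
    intro j hj
    have h1 := Finset.mem_filter.1 hj
    have h2 := hA j h1.1
    have h3 := norm_add_le (a j) (b j)
    have h4 := not_le.1 h1.2
    linarith
  -- split `B`
  obtain ⟨B₁, hB₁, hcard₁⟩ : ∃ B₁ ⊆ B, B₁.card = min B.card A₁.card :=
    Finset.exists_subset_card_eq (min_le_left _ _)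
  have hB₂card : (B \ B₁).card ≤ A₂.card := by
    have h1 := Finset.card_sdiff_add_card_eq_card hB₁
    rcases min_le_iff.1 (le_refl (min B.card A₁.card)) with h | h <;> omega
  set W : Finset J := c.support.filter (fun j => j ∉ B ∧ (1 - θ) * t ≤ ‖a j‖) with hW
  -- the good coordinates
  set G : Finset J := c.support.filter (fun j => j ∉ B ∧ ¬ (1 - θ) * t ≤ ‖a j‖) with hG
  -- moduli
  have hGle : ∀ j ∈ G, ‖c j‖ ≤ ‖a j‖ + ‖b j‖ := by
    intro j hj
    have h1 := Finset.mem_filter.1 hj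
    exact (hc j h1.2.1 (Finsupp.mem_support_iff.1 h1.1)).2.trans (norm_add_le _ _)
  set κ : J → ℝ := fun j => ‖a j‖ / (‖a j‖ + ‖b j‖) with hκ
  have hκ0 : ∀ j, 0 ≤ κ j := fun j => by simp only [hκ]; positivity
  have hκ1 : ∀ j, κ j ≤ 1 := fun j => by
    simp only [hκ]
    exact div_le_one_of_le₀ (by linarith [norm_nonneg (b j)]) (by positivity)
  have hκa : ∀ j ∈ G, κ j * ‖c j‖ ≤ ‖a j‖ := by
    intro j hj
    have h1 := hGle j hj
    have h2 : 0 < ‖c j‖ := norm_pos_iff.2 (Finsupp.mem_support_iff.1 (Finset.mem_filter.1 hj).1)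
    have h3 : 0 < ‖a j‖ + ‖b j‖ := by linarith
    simp only [hκ]
    rw [div_mul_eq_mul_div, div_le_iff₀ h3]
    exact mul_le_mul_of_nonneg_left h1 (norm_nonneg _)
  have hκb : ∀ j ∈ G, (1 - κ j) * ‖c j‖ ≤ ‖b j‖ := by
    intro j hj
    have h1 := hGle j hj
    have h2 : 0 < ‖c j‖ := norm_pos_iff.2 (Finsupp.mem_support_iff.1 (Finset.mem_filter.1 hj).1)
    have h3 : 0 < ‖a j‖ + ‖b j‖ := by linarith
    have h4 : 1 - κ j = ‖b j‖ / (‖a j‖ + ‖b j‖) := by
      simp only [hκ]; field_simp; ring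
    rw [h4, div_mul_eq_mul_div, div_le_iff₀ h3]
    exact mul_le_mul_of_nonneg_left h1 (norm_nonneg _)
  -- the three parts
  set f₁ : J → 𝕜 := fun j => if j ∈ B₁ ∪ W then c j else if j ∈ G then (κ j : 𝕜) * c j else 0 with hf₁
  set f₂ : J → 𝕜 := fun j => if j ∈ G then ((1 - κ j : ℝ) : 𝕜) * c j else 0 with hf₂
  set f₃ : J → 𝕜 := fun j => if j ∈ B \ B₁ then c j else 0 with hf₃
  have hs₁ : ∀ j, f₁ j ≠ 0 → j ∈ c.support := by
    intro j hj
    rw [Finsupp.mem_support_iff]
    intro h0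
    apply hj
    simp only [hf₁, h0, mul_zero, ite_self]
  have hs₂ : ∀ j, f₂ j ≠ 0 → j ∈ c.support := by
    intro j hj
    rw [Finsupp.mem_support_iff]
    intro h0
    apply hj
    simp only [hf₂, h0, mul_zero, ite_self]
  have hs₃ : ∀ j, f₃ j ≠ 0 → j ∈ c.support := by
    intro j hj
    rw [Finsupp.mem_support_iff]
    intro h0
    apply hj
    simp only [hf₃, h0, ite_self]
  refine ⟨Finsupp.onFinset c.support f₁ hs₁, Finsupp.onFinset c.support f₂ hs₂,
    Finsupp.onFinset c.support f₃ hs₃, ?_, ?_, ?_, ?_⟩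
  · ext j
    simp only [Finsupp.add_apply, Finsupp.onFinset_apply]
    by_cases hj0 : c j = 0
    · simp only [hf₁, hf₂, hf₃, hj0, mul_zero, ite_self, add_zero]
    · have hjs := Finsupp.mem_support_iff.2 hj0
      by_cases hjB : j ∈ B
      · have hjG : j ∉ G := fun h => (Finset.mem_filter.1 h).2.1 hjB
        have hjW : j ∉ W := fun h => (Finset.mem_filter.1 h).2.1 hjB
        by_cases hjB₁ : j ∈ B₁
        · have h1 : j ∉ B \ B₁ := fun h => (Finset.mem_sdiff.1 h).2 hjB₁
          simp only [hf₁, hf₂, hf₃, if_pos (Finset.mem_union_left W hjB₁), if_neg hjG, if_neg h1,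
            add_zero]
        · have h1 : j ∈ B \ B₁ := Finset.mem_sdiff.2 ⟨hjB, hjB₁⟩
          have h2 : j ∉ B₁ ∪ W := by
            rw [Finset.mem_union, not_or]; exact ⟨hjB₁, hjW⟩
          simp only [hf₁, hf₂, hf₃, if_neg h2, if_neg hjG, if_pos h1, zero_add]
      · have hjB₁ : j ∉ B₁ := fun h => hjB (hB₁ h)
        have h1 : j ∉ B \ B₁ := fun h => hjB (Finset.mem_sdiff.1 h).1
        by_cases hjW : (1 - θ) * t ≤ ‖a j‖
        · have h2 : j ∈ W := Finset.mem_filter.2 ⟨hjs, hjB, hjW⟩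
          have h3 : j ∉ G := fun h => (Finset.mem_filter.1 h).2.2 hjW
          simp only [hf₁, hf₂, hf₃, if_pos (Finset.mem_union_right B₁ h2), if_neg h3, if_neg h1,
            add_zero]
        · have h2 : j ∈ G := Finset.mem_filter.2 ⟨hjs, hjB, hjW⟩
          have h3 : j ∉ B₁ ∪ W := by
            rw [Finset.mem_union, not_or]
            exact ⟨hjB₁, fun h => hjW (Finset.mem_filter.1 h).2.2⟩
          simp only [hf₁, hf₂, hf₃, if_neg h3, if_pos h2, if_neg h1, add_zero]
          push_cast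
          ring
  · -- `(1 - θ) c₁` is admissible for `a`
    have hnorm : ∀ z : 𝕜, ‖((1 - θ : ℝ) : 𝕜) * z‖ = (1 - θ) * ‖z‖ := by
      intro z
      rw [norm_mul, RCLike.norm_ofReal, abs_of_pos hθ1']
    have hle : ∀ z : 𝕜, ‖((1 - θ : ℝ) : 𝕜) * z‖ ≤ ‖z‖ := by
      intro z
      rw [hnorm]
      nlinarith [norm_nonneg z]
    have hdis : Disjoint A₁ W := by
      rw [Finset.disjoint_left]
      intro j hj hj'
      have h1 := Finset.mem_filter.1 hj'
      have h2 := hc j h1.2.1 (Finsupp.mem_support_iff.1 h1.1)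
      exact absurd (hA j (Finset.mem_filter.1 hj).1) (not_le.2 h2.1)
    refine ⟨(1 - θ) * t, A₁ ∪ W, B₁ ∪ W, by positivity, ?_, ?_, ?_, ?_⟩
    · intro j hj
      rcases Finset.mem_union.1 hj with hj | hj
      · exact hA₁' j hj
      · exact (Finset.mem_filter.1 hj).2.2
    · rw [Finset.card_union_of_disjoint hdis]
      refine (Finset.card_union_le _ _).trans (Nat.add_le_add_right ?_ _)
      rw [hcard₁]; exact min_le_right _ _
    · intro j hj
      rw [Finsupp.smul_apply, Finsupp.onFinset_apply, smul_eq_mul, hnorm]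
      apply mul_le_mul_of_nonneg_left _ hθ1'.le
      simp only [hf₁, if_pos hj]
      rcases Finset.mem_union.1 hj with hj | hj
      · exact hB j (hB₁ hj)
      · have h1 := Finset.mem_filter.1 hj
        have h2 := hc j h1.2.1 (Finsupp.mem_support_iff.1 h1.1)
        exact h2.2.trans h2.1.le
    · intro j hj hj0
      rw [Finsupp.smul_apply, Finsupp.onFinset_apply, smul_eq_mul] at hj0 ⊢
      have hj1 := right_ne_zero_of_mul hj0
      simp only [hf₁, if_neg hj] at hj1
      have hjG : j ∈ G := by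
        by_contra h
        rw [if_neg h] at hj1
        exact hj1 rfl
      refine ⟨not_le.1 (Finset.mem_filter.1 hjG).2.2, (hle _).trans ?_⟩
      simp only [hf₁, if_neg hj, if_pos hjG]
      rw [norm_mul, RCLike.norm_ofReal, abs_of_nonneg (hκ0 j)]
      exact hκa j hjG
  · apply Ad_of_le
    intro j
    rw [Finsupp.onFinset_apply]
    simp only [hf₂]
    split_ifs with hjG
    · rw [norm_mul, RCLike.norm_ofReal, abs_of_nonneg (by linarith [hκ1 j])]
      exact hκb j hjG
    · rw [norm_zero]; exact norm_nonneg _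
  · refine ⟨θ * t, A₂, B \ B₁, by positivity, fun j hj => (Finset.mem_filter.1 hj).2, hB₂card,
      ?_, ?_⟩
    · intro j hj
      rw [Finsupp.smul_apply, Finsupp.onFinset_apply, smul_eq_mul, norm_mul, RCLike.norm_ofReal,
        abs_of_pos hθ0]
      apply mul_le_mul_of_nonneg_left _ hθ0.le
      simp only [hf₃, if_pos hj]
      exact hB j (Finset.mem_sdiff.1 hj).1
    · intro j hj hj0
      rw [Finsupp.smul_apply, Finsupp.onFinset_apply, smul_eq_mul] at hj0
      have hj1 := right_ne_zero_of_mul hj0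
      simp only [hf₃, if_neg hj] at hj1
      exact absurd rfl hj1

end Pool.Agent.TH339.GR
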