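import Mathlib

/-!
# Nonuniform nonautonomous Markus-Yamabe: definitions and linear theory

Helper file for `MP_1775bc_an`.
-/

open Set Filter Topology MeasureTheory

namespace Pool.Agent.TH339.MY

/-- `g : [0,∞) → X` is *piecewise continuous*: there is a set `D` of exceptional points, finite
in every bounded interval, off which `g` is continuous on `[0,∞)`, and all one-sided limits
exist. -/
def PiecewiseContinuous {X : Type*} [TopologicalSpace X] (g : ℝ → X) : Prop :=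
  ∃ D : Set ℝ, (∀ b : ℝ, (D ∩ Icc 0 b).Finite) ∧
    (∀ t, 0 ≤ t → t ∉ D → ContinuousWithinAt g (Ici 0) t) ∧
    (∀ t, 0 ≤ t → ∃ l, Tendsto g (𝓝[>] t) (𝓝 l)) ∧
    (∀ t, 0 < t → ∃ l, Tendsto g (𝓝[<] t) (𝓝 l))

variable {E : Type*} [NormedAddCommGroup E] [NormedSpace ℝ E]

/-- `T` is the evolution operator of `x' = A(t) x` on `[0,∞)`: for every `s ≥ 0` and `v`, the
function `t ↦ T(t,s) v` is continuous on `[0,∞)` and is the solution with value `v` at time `s`,
that is `T(t,s) v = v + ∫_s^t A(u) T(u,s) v du`. -/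
def IsEvolution (A : ℝ → E →L[ℝ] E) (T : ℝ → ℝ → E →L[ℝ] E) : Prop :=
  ∀ s, 0 ≤ s → ∀ v : E, ContinuousOn (fun t => T t s v) (Ici 0) ∧
    ∀ t, 0 ≤ t → T t s v = v + ∫ u in s..t, A u (T u s v)

/-! ### Gronwall in integral form -/

lemma gronwall_fwd {φ : ℝ → ℝ} {a b ρ β : ℝ} (hab : a ≤ b) (hβ : 0 ≤ β)
    (hφ : ContinuousOn φ (Icc a b))
    (h : ∀ t ∈ Icc a b, φ t ≤ ρ + β * ∫ u in a..t, φ u) :
    ∀ t ∈ Icc a b, φ t ≤ ρ * Real.exp (β * (t - a)) := by
  set ψ : ℝ → ℝ := fun t => φ (projIcc a b hab t) with hψdef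
  have hψ : Continuous ψ := by
    have := hφ.domRestrict
    exact this.comp continuous_projIcc
  have hψφ : ∀ t ∈ Icc a b, ψ t = φ t := by
    intro t ht
    simp only [hψdef, projIcc_of_mem hab ht]
  have hint : ∀ t ∈ Icc a b, ∫ u in a..t, φ u = ∫ u in a..t, ψ u := by
    intro t ht
    apply intervalIntegral.integral_congr
    intro u hu
    rw [uIcc_of_le ht.1] at hu
    exact (hψφ u ⟨hu.1, hu.2.trans ht.2⟩).symm
  set U : ℝ → ℝ := fun t => ρ + β * ∫ u in a..t, ψ u with hU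
  have hUd : ∀ t, HasDerivAt U (β * ψ t) t := by
    intro t
    have h1 : HasDerivAt (fun t => ∫ u in a..t, ψ u) (ψ t) t :=
      intervalIntegral.integral_hasDerivAt_right (hψ.intervalIntegrable _ _)
        (hψ.stronglyMeasurableAtFilter _ _) hψ.continuousAt
    exact (h1.const_mul β).const_add ρ
  have hUle : ∀ t ∈ Icc a b, ψ t ≤ U t := by
    intro t ht
    rw [hψφ t ht, hU]
    simp only
    rw [← hint t ht]
    exact h t ht
  have key : ∀ t ∈ Icc a b, U t ≤ gronwallBound ρ β 0 (t - a) := by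
    apply le_gronwallBound_of_liminf_deriv_right_le (f' := fun t => β * ψ t)
    · exact fun t _ => (hUd t).continuousAt.continuousWithinAt
    · intro x _ r hr
      exact (hUd x).hasDerivWithinAt.liminf_right_slope_le hr
    · simp [hU]
    · intro x hx
      have := hUle x ⟨hx.1, hx.2.le⟩
      simp only [add_zero]
      gcongr
  intro t ht
  rw [← hψφ t ht]
  refine (hUle t ht).trans ((key t ht).trans ?_)
  rw [gronwallBound_ε0]

lemma gronwall_bwd {φ : ℝ → ℝ} {a b ρ β : ℝ} (hab : a ≤ b) (hβ : 0 ≤ β)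
    (hφ : ContinuousOn φ (Icc a b))
    (h : ∀ t ∈ Icc a b, φ t ≤ ρ + β * ∫ u in t..b, φ u) :
    ∀ t ∈ Icc a b, φ t ≤ ρ * Real.exp (β * (b - t)) := by
  have key := gronwall_fwd (φ := fun t => φ (a + b - t)) (ρ := ρ) hab hβ ?_ ?_
  · intro t ht
    have := key (a + b - t) ⟨by linarith [ht.2], by linarith [ht.1]⟩
    rw [show a + b - (a + b - t) = t by ring, show a + b - t - a = b - t by ring] at this
    exact this
  · apply hφ.comp (by fun_prop)
    intro t ht
    exact ⟨by linarith [ht.2], by linarith [ht.1]⟩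
  · intro t ht
    have := h (a + b - t) ⟨by linarith [ht.2], by linarith [ht.1]⟩
    have h2 : ∫ u in a..t, φ (a + b - u) = ∫ u in (a + b - t)..b, φ u := by
      rw [intervalIntegral.integral_comp_sub_left]
      congr 1
      ring
    rw [h2]
    exact this

/-! ### Piecewise continuous functions -/

lemma PiecewiseContinuous.bounded {F : Type*} [NormedAddCommGroup F] {g : ℝ → F}
    (hg : PiecewiseContinuous g) (b : ℝ) : ∃ C, 0 ≤ C ∧ ∀ t ∈ Icc 0 b, ‖g t‖ ≤ C := by
  obtain ⟨D, -, -, hr, hl⟩ := hg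
  have key : ∃ C, ∀ t ∈ Icc 0 b ∩ Ici 0, ‖g t‖ ≤ C := by
    refine isCompact_Icc.induction_on (p := fun s => ∃ C, ∀ t ∈ s ∩ Ici 0, ‖g t‖ ≤ C)
      ⟨0, by simp⟩ ?_ ?_ ?_
    · rintro s t hst ⟨C, hC⟩
      exact ⟨C, fun u hu => hC u ⟨hst hu.1, hu.2⟩⟩
    · rintro s t ⟨C, hC⟩ ⟨C', hC'⟩
      refine ⟨max C C', ?_⟩
      rintro u ⟨hu | hu, hu0⟩
      · exact (hC u ⟨hu, hu0⟩).trans (le_max_left _ _)
      · exact (hC' u ⟨hu, hu0⟩).trans (le_max_right _ _)
    · intro t ht
      obtain ⟨l, hl1⟩ := hr t ht.1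
      have h1 : ∀ᶠ u in 𝓝[>] t, ‖g u‖ ≤ ‖l‖ + 1 := by
        have := hl1.norm.eventually (gt_mem_nhds (show ‖l‖ < ‖l‖ + 1 by linarith))
        exact this.mono fun u hu => hu.le
      have h2 : ∃ C, ∀ᶠ u in 𝓝[<] t, 0 ≤ u → ‖g u‖ ≤ C := by
        rcases ht.1.eq_or_lt with h0 | h0
        · refine ⟨0, ?_⟩
          filter_upwards [self_mem_nhdsWithin] with u hu hu0
          rw [mem_Iio] at hu
          linarith
        · obtain ⟨l', hl'⟩ := hl t h0
          refine ⟨‖l'‖ + 1, ?_⟩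
          have := hl'.norm.eventually (gt_mem_nhds (show ‖l'‖ < ‖l'‖ + 1 by linarith))
          exact this.mono fun u hu _ => hu.le
      obtain ⟨C, hC⟩ := h2
      have h3 : ∀ᶠ u in 𝓝 t, 0 ≤ u → ‖g u‖ ≤ max (max C (‖l‖ + 1)) ‖g t‖ := by
        rw [← nhdsLT_sup_nhdsGE, ← nhdsGT_sup_nhdsWithin_singleton]
        simp only [eventually_sup, nhdsWithin_singleton, eventually_pure]
        refine ⟨?_, ?_, ?_⟩
        · exact hC.mono fun u hu h0 => (hu h0).trans ((le_max_left _ _).trans (le_max_left _ _))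
        · exact h1.mono fun u hu h0 => hu.trans ((le_max_right _ _).trans (le_max_left _ _))
        · exact fun _ => le_max_right _ _
      refine ⟨{u | 0 ≤ u → ‖g u‖ ≤ max (max C (‖l‖ + 1)) ‖g t‖}, mem_nhdsWithin_of_mem_nhds h3,
        _, fun u hu => hu.1 hu.2⟩
  obtain ⟨C, hC⟩ := key
  exact ⟨max C 0, le_max_right _ _, fun t ht => (hC t ⟨ht, ht.1⟩).trans (le_max_left _ _)⟩

lemma PiecewiseContinuous.integrableOn {F : Type*} [NormedAddCommGroup F] {g : ℝ → F}
    (hg : PiecewiseContinuous g) (b : ℝ) : IntegrableOn g (Icc 0 b) := by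
  obtain ⟨C, hC0, hC⟩ := hg.bounded b
  obtain ⟨D, hD, hc, -, -⟩ := hg
  have hfin := hD b
  have hm : AEStronglyMeasurable g (volume.restrict (Icc 0 b \ (D ∩ Icc 0 b))) := by
    apply ContinuousOn.aestronglyMeasurable _ (measurableSet_Icc.diff hfin.measurableSet)
    intro t ht
    exact (hc t ht.1.1 (fun h => ht.2 ⟨h, ht.1⟩)).mono (fun u hu => hu.1.1)
  have hm2 : AEStronglyMeasurable g (volume.restrict (Icc 0 b)) := by
    have : (Icc 0 b \ (D ∩ Icc 0 b) : Set ℝ) =ᵐ[volume] Icc (0:ℝ) b := by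
      apply sdiff_null_ae_eq_self
      exact hfin.measure_zero volume
    rwa [Measure.restrict_congr_set this] at hm
  refine IntegrableOn.of_bound (by simp) hm2 C ?_
  rw [ae_restrict_iff' measurableSet_Icc]
  exact Eventually.of_forall fun t ht => hC t ht

lemma PiecewiseContinuous.intervalIntegrable {F : Type*} [NormedAddCommGroup F] {g : ℝ → F}
    (hg : PiecewiseContinuous g) {a b : ℝ} (ha : 0 ≤ a) (hb : 0 ≤ b) :
    IntervalIntegrable g volume a b := by
  have := hg.integrableOn (max a b)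
  rw [intervalIntegrable_iff]
  apply this.mono_set
  intro t ht
  rw [uIoc, mem_Ioc] at ht
  exact ⟨(le_min ha hb).trans ht.1.le, ht.2⟩

lemma PiecewiseContinuous.apply {A : ℝ → E →L[ℝ] E} (hA : PiecewiseContinuous A) {y : ℝ → E}
    (hy : ContinuousOn y (Ici 0)) : PiecewiseContinuous (fun t => A t (y t)) := by
  obtain ⟨D, hD, hc, hr, hl⟩ := hA
  refine ⟨D, hD, ?_, ?_, ?_⟩
  · intro t ht htD
    exact (hc t ht htD).clm_apply (hy t ht)
  · intro t ht
    obtain ⟨l, hl⟩ := hr t ht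
    have h1 : Tendsto y (𝓝[>] t) (𝓝 (y t)) := (hy t ht).mono (fun u hu => ht.trans (le_of_lt hu))
    exact ⟨l (y t), (isBoundedBilinearMap_apply.continuous.tendsto (l, y t)).comp
      (hl.prodMk_nhds h1)⟩
  · intro t ht
    obtain ⟨l, hl⟩ := hl t ht
    have h1 : ContinuousAt y t := (hy t ht.le).continuousAt (Ici_mem_nhds ht)
    exact ⟨l (y t), (isBoundedBilinearMap_apply.continuous.tendsto (l, y t)).comp
      (hl.prodMk_nhds (h1.tendsto.mono_left nhdsWithin_le_nhds))⟩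

/-! ### Linear theory -/

/-- `y` solves `y' = A y` on `[0,∞)` in integrated form. -/
def ISol (A : ℝ → E →L[ℝ] E) (y : ℝ → E) : Prop :=
  ContinuousOn y (Ici 0) ∧ ∀ s t, 0 ≤ s → 0 ≤ t → y t = y s + ∫ u in s..t, A u (y u)

lemma IsEvolution.iSol {A : ℝ → E →L[ℝ] E} {T : ℝ → ℝ → E →L[ℝ] E} (hA : PiecewiseContinuous A)
    (hT : IsEvolution A T) {s : ℝ} (hs : 0 ≤ s) (v : E) : ISol A (fun t => T t s v) := by
  obtain ⟨h1, h2⟩ := hT s hs v
  refine ⟨h1, fun r t hr ht => ?_⟩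
  have hi : ∀ a b, 0 ≤ a → 0 ≤ b → IntervalIntegrable (fun u => A u (T u s v)) volume a b :=
    fun a b ha hb => (hA.apply h1).intervalIntegrable ha hb
  simp only
  rw [h2 t ht, h2 r hr, add_assoc,
    intervalIntegral.integral_add_adjacent_intervals (hi _ _ hs hr) (hi _ _ hr ht)]

lemma IsEvolution.self {A : ℝ → E →L[ℝ] E} {T : ℝ → ℝ → E →L[ℝ] E}
    (hT : IsEvolution A T) {s : ℝ} (hs : 0 ≤ s) (v : E) : T s s v = v := by
  obtain ⟨h1, h2⟩ := hT s hs v
  rw [h2 s hs]
  simp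

section
variable {A : ℝ → E →L[ℝ] E}

/-- Backward growth bound. -/
lemma ISol.bwd_bound (hA : PiecewiseContinuous A) {y : ℝ → E} (hy : ISol A y) {a b β : ℝ}
    (ha : 0 ≤ a) (hab : a ≤ b) (hβ : ∀ t ∈ Ico a b, ‖A t‖ ≤ β) (hβ0 : 0 ≤ β) :
    ‖y a‖ ≤ Real.exp (β * (b - a)) * ‖y b‖ := by
  have hsub : Icc a b ⊆ Ici 0 := fun t ht => ha.trans ht.1
  have hcn : ContinuousOn (fun t => ‖y t‖) (Icc a b) := (hy.1.mono hsub).norm
  have key := gronwall_bwd (φ := fun t => ‖y t‖) (a := a) (b := b) (ρ := ‖y b‖) (β := β)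
    hab hβ0 hcn ?_ a ⟨le_rfl, hab⟩
  · linarith
  · intro t ht
    have h0 : 0 ≤ t := ha.trans ht.1
    have h1 := hy.2 t b h0 (ha.trans hab)
    have h2 : y t = y b - ∫ u in t..b, A u (y u) := by rw [h1]; simp
    calc ‖y t‖ ≤ ‖y b‖ + ‖∫ u in t..b, A u (y u)‖ := by rw [h2]; exact norm_sub_le _ _
      _ ≤ ‖y b‖ + ∫ u in t..b, β * ‖y u‖ := by
          gcongr
          apply intervalIntegral.norm_integral_le_of_norm_le ht.2
          · have : ∀ᵐ u : ℝ, u ≠ b := by simp [ae_iff]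
            filter_upwards [this] with u hub hu
            refine ((A u).le_opNorm _).trans ?_
            gcongr
            exact hβ u ⟨ht.1.trans hu.1.le, lt_of_le_of_ne hu.2 hub⟩
          · apply ContinuousOn.intervalIntegrable
            rw [uIcc_of_le ht.2]
            exact continuousOn_const.mul (hcn.mono (Icc_subset_Icc_left ht.1))
      _ = ‖y b‖ + β * ∫ u in t..b, ‖y u‖ := by rw [intervalIntegral.integral_const_mul]

/-- Comparison with an approximate solution. -/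
lemma ISol.compare (hA : PiecewiseContinuous A) {y : ℝ → E} (hy : ISol A y) {a b β ρ : ℝ}
    (ha : 0 ≤ a) (hab : a ≤ b) (hβ : ∀ t ∈ Ico a b, ‖A t‖ ≤ β) (hβ0 : 0 ≤ β)
    {x : ℝ → E} (hx : ContinuousOn x (Icc a b))
    (hR : ∀ t ∈ Icc a b, ‖x t - y a - ∫ u in a..t, A u (x u)‖ ≤ ρ)
    (hi : IntervalIntegrable (fun u => A u (x u)) volume a b) :
    ∀ t ∈ Icc a b, ‖x t - y t‖ ≤ ρ * Real.exp (β * (t - a)) := by
  have hsub : Icc a b ⊆ Ici 0 := fun t ht => ha.trans ht.1
  have hcn : ContinuousOn (fun t => ‖x t - y t‖) (Icc a b) := (hx.sub (hy.1.mono hsub)).norm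
  apply gronwall_fwd hab hβ0 hcn
  intro t ht
  have h0 : 0 ≤ t := ha.trans ht.1
  have h1 := hy.2 a t ha h0
  have hi1 : IntervalIntegrable (fun u => A u (y u)) volume a t :=
    (hA.apply hy.1).intervalIntegrable ha h0
  have hi2 : IntervalIntegrable (fun u => A u (x u)) volume a t := by
    apply hi.mono_set
    rw [uIcc_of_le ht.1, uIcc_of_le hab]
    exact Icc_subset_Icc_right ht.2
  have h2 : x t - y t = (x t - y a - ∫ u in a..t, A u (x u)) + ∫ u in a..t, A u (x u - y u) := by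
    have : ∫ u in a..t, A u (x u - y u) = (∫ u in a..t, A u (x u)) - ∫ u in a..t, A u (y u) := by
      rw [← intervalIntegral.integral_sub hi2 hi1]
      simp only [map_sub]
    rw [this, h1]
    abel
  calc ‖x t - y t‖ ≤ ‖x t - y a - ∫ u in a..t, A u (x u)‖ + ‖∫ u in a..t, A u (x u - y u)‖ := by
        conv_lhs => rw [h2]
        exact norm_add_le _ _
    _ ≤ ρ + ∫ u in a..t, β * ‖x u - y u‖ := by
        gcongr
        · exact hR t ht
        · apply intervalIntegral.norm_integral_le_of_norm_le ht.1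
          · have : ∀ᵐ u : ℝ, u ≠ b := by simp [ae_iff]
            filter_upwards [this] with u hub hu
            refine ((A u).le_opNorm _).trans ?_
            gcongr
            exact hβ u ⟨hu.1.le, lt_of_le_of_ne (hu.2.trans ht.2) hub⟩
          · apply ContinuousOn.intervalIntegrable
            rw [uIcc_of_le ht.1]
            exact continuousOn_const.mul (hcn.mono (Icc_subset_Icc_right ht.2))
    _ = ρ + β * ∫ u in a..t, ‖x u - y u‖ := by rw [intervalIntegral.integral_const_mul]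

/-- Forward growth bound. -/
lemma ISol.fwd_bound (hA : PiecewiseContinuous A) {y : ℝ → E} (hy : ISol A y) {a b β : ℝ}
    (ha : 0 ≤ a) (hab : a ≤ b) (hβ : ∀ t ∈ Ico a b, ‖A t‖ ≤ β) (hβ0 : 0 ≤ β) :
    ‖y b‖ ≤ Real.exp (β * (b - a)) * ‖y a‖ := by
  have := hy.compare hA ha hab hβ hβ0 (x := fun _ => 0) (ρ := ‖y a‖) continuousOn_const
    (by intro t _; simp) (by simp) b ⟨hab, le_rfl⟩
  simp only [zero_sub, norm_neg] at this
  linarith

lemma ISol.sub {y z : ℝ → E} (hA : PiecewiseContinuous A) (hy : ISol A y) (hz : ISol A z) :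
    ISol A (fun t => y t - z t) := by
  refine ⟨hy.1.sub hz.1, fun s t hs ht => ?_⟩
  have h1 := (hA.apply hy.1).intervalIntegrable hs ht
  have h2 := (hA.apply hz.1).intervalIntegrable hs ht
  simp only [map_sub]
  rw [intervalIntegral.integral_sub h1 h2, hy.2 s t hs ht, hz.2 s t hs ht]
  abel

/-- Uniqueness. -/
lemma ISol.unique (hA : PiecewiseContinuous A) {y z : ℝ → E} (hy : ISol A y) (hz : ISol A z)
    {r : ℝ} (hr : 0 ≤ r) (h : y r = z r) {t : ℝ} (ht : 0 ≤ t) : y t = z t := by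
  have hs := hy.sub hA hz
  obtain ⟨C, hC0, hC⟩ := hA.bounded (max r t)
  have h0 : y r - z r = 0 := sub_eq_zero.mpr h
  rcases le_total r t with hrt | hrt
  · have := hs.fwd_bound hA hr hrt (β := C)
      (fun u hu => hC u ⟨hr.trans hu.1, hu.2.le.trans (le_max_right _ _)⟩) hC0
    simp only [h0, norm_zero, mul_zero] at this
    exact sub_eq_zero.mp (norm_le_zero_iff.mp this)
  · have := hs.bwd_bound hA ht hrt (β := C)
      (fun u hu => hC u ⟨ht.trans hu.1, hu.2.le.trans (le_max_left _ _)⟩) hC0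
    simp only [h0, norm_zero, mul_zero] at this
    exact sub_eq_zero.mp (norm_le_zero_iff.mp this)

/-- Cocycle property. -/
lemma IsEvolution.cocycle (hA : PiecewiseContinuous A) {T : ℝ → ℝ → E →L[ℝ] E}
    (hT : IsEvolution A T) {r s t : ℝ} (hr : 0 ≤ r) (hs : 0 ≤ s) (ht : 0 ≤ t) (v : E) :
    T t r (T r s v) = T t s v := by
  have h1 := hT.iSol hA hr (T r s v)
  have h2 := hT.iSol hA hs v
  exact h1.unique hA h2 hr (by simpa using hT.self hr (T r s v)) ht

end

end Pool.Agent.TH339.MY
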