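import Pool.Agent.TH339.MY1

/-!
# Nonuniform nonautonomous Markus-Yamabe: sawtooth averaging and concatenation
-/

open Set Filter Topology MeasureTheory

namespace Pool.Agent.TH339.MY

variable {E : Type*} [NormedAddCommGroup E] [NormedSpace ℝ E]

/-! ### The sawtooth -/

lemma tendsto_affine_gt {N a t : ℝ} (hN : 0 < N) :
    Tendsto (fun u => N * (u - a)) (𝓝[>] t) (𝓝[>] (N * (t - a))) := by
  apply tendsto_nhdsWithin_of_tendsto_nhds_of_eventually_within
  · have : Continuous fun u : ℝ => N * (u - a) := by fun_prop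
    exact (this.tendsto t).mono_left nhdsWithin_le_nhds
  · filter_upwards [self_mem_nhdsWithin] with u hu
    simp only [mem_Ioi] at hu ⊢
    nlinarith

lemma tendsto_affine_lt {N a t : ℝ} (hN : 0 < N) :
    Tendsto (fun u => N * (u - a)) (𝓝[<] t) (𝓝[<] (N * (t - a))) := by
  apply tendsto_nhdsWithin_of_tendsto_nhds_of_eventually_within
  · have : Continuous fun u : ℝ => N * (u - a) := by fun_prop
    exact (this.tendsto t).mono_left nhdsWithin_le_nhds
  · filter_upwards [self_mem_nhdsWithin] with u hu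
    simp only [mem_Iio] at hu ⊢
    nlinarith

lemma floor_right (y : ℝ) : ∀ᶠ z in 𝓝[>] y, ⌊z⌋ = ⌊y⌋ := by
  have h1 : Ioo y (⌊y⌋ + 1) ∈ 𝓝[>] y := Ioo_mem_nhdsGT (Int.lt_floor_add_one y)
  filter_upwards [h1] with z hz
  rw [Int.floor_eq_iff]
  exact ⟨(Int.floor_le y).trans hz.1.le, hz.2⟩

lemma floor_left (y : ℝ) : ∀ᶠ z in 𝓝[<] y, ⌊z⌋ = ⌈y⌉ - 1 := by
  have h1 : Ioo (⌈y⌉ - 1 : ℝ) y ∈ 𝓝[<] y := Ioo_mem_nhdsLT (by linarith [Int.ceil_lt_add_one y])
  filter_upwards [h1] with z hz
  rw [Int.floor_eq_iff]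
  push_cast
  exact ⟨hz.1.le, by linarith [hz.2, Int.le_ceil y]⟩

/-- The sawtooth function `t ↦ fract (N (t - a))` times a continuous function is piecewise
continuous. -/
lemma pwc_sawtooth {N : ℝ} (hN : 0 < N) (a : ℝ) {x : ℝ → E} (hx : Continuous x) :
    PiecewiseContinuous (fun t => Int.fract (N * (t - a)) • x t) := by
  refine ⟨{t | ∃ j : ℤ, N * (t - a) = j}, ?_, ?_, ?_, ?_⟩
  · intro b
    apply Set.Finite.subset (((finite_Icc ⌊N * (0 - a)⌋ ⌈N * (b - a)⌉)).image
      (fun j : ℤ => a + j / N))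
    rintro t ⟨⟨j, hj⟩, ht⟩
    refine ⟨j, ⟨?_, ?_⟩, ?_⟩
    · rw [← @Int.cast_le ℝ, ← hj]
      refine (Int.floor_le _).trans ?_
      nlinarith [ht.1]
    · rw [← @Int.cast_le ℝ, ← hj]
      refine le_trans ?_ (Int.le_ceil _)
      nlinarith [ht.2]
    · simp only
      rw [← hj]
      field_simp
      ring
  · intro t _ htD
    apply ContinuousAt.continuousWithinAt
    have h1 : ContinuousAt (fun t => Int.fract (N * (t - a))) t := by
      have h2 : ContinuousAt Int.fract (N * (t - a)) := by
        apply continuousAt_fract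
        intro h
        exact htD ⟨_, h⟩
      have h3 : ContinuousAt (fun t => N * (t - a)) t := by fun_prop
      exact ContinuousAt.comp (f := fun t => N * (t - a)) (g := Int.fract) h2 h3
    exact h1.smul hx.continuousAt
  · intro t _
    refine ⟨(N * (t - a) - ⌊N * (t - a)⌋) • x t, ?_⟩
    apply Tendsto.smul _ ((hx.tendsto t).mono_left nhdsWithin_le_nhds)
    have h1 := (tendsto_affine_gt (a := a) (t := t) hN).eventually (floor_right _)
    have h2 : Tendsto (fun u => N * (u - a) - ⌊N * (t - a)⌋) (𝓝[>] t)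
        (𝓝 (N * (t - a) - ⌊N * (t - a)⌋)) := by
      have : Continuous fun u : ℝ => N * (u - a) - ⌊N * (t - a)⌋ := by fun_prop
      exact (this.tendsto t).mono_left nhdsWithin_le_nhds
    apply h2.congr'
    filter_upwards [h1] with u hu
    rw [Int.fract, hu]
  · intro t _
    refine ⟨(N * (t - a) - (⌈N * (t - a)⌉ - 1)) • x t, ?_⟩
    apply Tendsto.smul _ ((hx.tendsto t).mono_left nhdsWithin_le_nhds)
    have h1 := (tendsto_affine_lt (a := a) (t := t) hN).eventually (floor_left _)
    have h2 : Tendsto (fun u => N * (u - a) - (⌈N * (t - a)⌉ - 1)) (𝓝[<] t)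
        (𝓝 (N * (t - a) - (⌈N * (t - a)⌉ - 1))) := by
      have : Continuous fun u : ℝ => N * (u - a) - (⌈N * (t - a)⌉ - 1) := by fun_prop
      exact (this.tendsto t).mono_left nhdsWithin_le_nhds
    apply h2.congr'
    filter_upwards [h1] with u hu
    rw [Int.fract, hu]
    push_cast
    ring

/-! ### Concatenation -/

/-- Concatenation of piecewise continuous functions along a sequence of times tending to
infinity. -/
lemma pwc_concat {X : Type*} [TopologicalSpace X] {τ : ℕ → ℝ} (hτ : StrictMono τ)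
    (hτ' : Tendsto τ atTop atTop) {g : ℕ → ℝ → X} (hg : ∀ k, PiecewiseContinuous (g k))
    {ω : ℝ → X} (h0 : ∀ t, t < τ 0 → ω t = g 0 t)
    (h1 : ∀ k, ∀ t ∈ Ico (τ k) (τ (k + 1)), ω t = g k t) : PiecewiseContinuous ω := by
  choose D hD hc hr hl using hg
  have hloc : ∀ t, t < τ 0 ∨ ∃ k, t ∈ Ico (τ k) (τ (k + 1)) := by
    intro t
    by_cases ht : t < τ 0
    · exact Or.inl ht
    · right
      push Not at ht
      have hex : ∃ k, t < τ (k + 1) := by
        obtain ⟨k, hk⟩ := (hτ'.eventually (eventually_gt_atTop t)).exists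
        exact ⟨k, hk.trans (hτ (Nat.lt_succ_self k))⟩
      classical
      refine ⟨Nat.find hex, ?_, Nat.find_spec hex⟩
      by_cases hz : Nat.find hex = 0
      · rw [hz]; exact ht
      · obtain ⟨m, hm⟩ := Nat.exists_eq_succ_of_ne_zero hz
        have := Nat.find_min hex (m := m) (by omega)
        rw [hm]
        push Not at this
        exact this
  have hloc' : ∀ t, t ≤ τ 0 ∨ ∃ k, t ∈ Ioc (τ k) (τ (k + 1)) := by
    intro t
    rcases hloc t with h | ⟨k, hk⟩
    · exact Or.inl h.le
    · rcases hk.1.eq_or_lt with h | h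
      · cases k with
        | zero => exact Or.inl h.symm.le
        | succ m => exact Or.inr ⟨m, by rw [← h]; exact hτ (Nat.lt_succ_self m), h.symm.le⟩
      · exact Or.inr ⟨k, h, hk.2.le⟩
  refine ⟨(⋃ k, D k) ∩ {t | t < τ 0 → t ∈ D 0} ∩ {t | ∀ k, t ∈ Ico (τ k) (τ (k + 1)) → t ∈ D k}
    ∪ range τ, ?_, ?_, ?_, ?_⟩
  · intro b
    obtain ⟨K, hK⟩ := (hτ'.eventually (eventually_gt_atTop b)).exists
    apply Set.Finite.subset (((finite_Iic K).biUnion (fun k _ => hD k b)).union
      ((finite_Iic K).image τ))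
    rintro t ⟨(⟨⟨_, ht0⟩, ht1⟩ | ⟨k, rfl⟩), htb⟩
    · left
      simp only [mem_iUnion]
      rcases hloc t with h | ⟨k, hk⟩
      · exact ⟨0, Nat.zero_le _, ht0 h, htb⟩
      · refine ⟨k, ?_, ht1 k hk, htb⟩
        rw [mem_Iic]
        by_contra hkK
        push Not at hkK
        have := hτ hkK
        linarith [hk.1, htb.2]
    · right
      refine ⟨k, ?_, rfl⟩
      rw [mem_Iic]
      by_contra hkK
      push Not at hkK
      have := hτ hkK
      linarith [htb.2]
  · intro t ht htD
    simp only [mem_union, not_or] at htD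
    obtain ⟨htD1, htD2⟩ := htD
    rcases hloc t with h | ⟨k, hk⟩
    · have hD0 : t ∉ D 0 := by
        intro hmem
        apply htD1
        refine ⟨⟨mem_iUnion.mpr ⟨0, hmem⟩, fun _ => hmem⟩, fun k hk => ?_⟩
        exact absurd (hk.1.trans_lt h) (not_lt.mpr (hτ.monotone (Nat.zero_le k)))
      have hev : ω =ᶠ[𝓝[Ici 0] t] g 0 := by
        apply mem_nhdsWithin_of_mem_nhds
        filter_upwards [Iio_mem_nhds h] with u hu using h0 u hu
      exact (hc 0 t ht hD0).congr_of_eventuallyEq hev (h0 t h)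
    · have hne : τ k ≠ t := fun h => htD2 ⟨k, h⟩
      have hlt : τ k < t := lt_of_le_of_ne hk.1 hne
      have hDk : t ∉ D k := by
        intro hmem
        apply htD1
        refine ⟨⟨mem_iUnion.mpr ⟨k, hmem⟩, fun h => ?_⟩, fun j hj => ?_⟩
        · exact absurd (hlt.trans h) (not_lt.mpr (hτ.monotone (Nat.zero_le k)))
        · have : j = k := by
            by_contra hjk
            rcases lt_or_gt_of_ne hjk with hjk | hjk
            · have := hτ.monotone (show j + 1 ≤ k by omega)
              linarith [hj.2, hk.1]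
            · have := hτ.monotone (show k + 1 ≤ j by omega)
              linarith [hk.2, hj.1]
          rw [this]; exact hmem
      have hev : ω =ᶠ[𝓝[Ici 0] t] g k := by
        apply mem_nhdsWithin_of_mem_nhds
        filter_upwards [Ioo_mem_nhds hlt hk.2] with u hu using h1 k u ⟨hu.1.le, hu.2⟩
      exact (hc k t ht hDk).congr_of_eventuallyEq hev (h1 k t hk)
  · intro t ht
    rcases hloc t with h | ⟨k, hk⟩
    · obtain ⟨l, hl⟩ := hr 0 t ht
      refine ⟨l, hl.congr' ?_⟩
      filter_upwards [Ioo_mem_nhdsGT h] with u hu using (h0 u hu.2).symm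
    · obtain ⟨l, hl⟩ := hr k t ht
      refine ⟨l, hl.congr' ?_⟩
      filter_upwards [Ioo_mem_nhdsGT hk.2] with u hu using (h1 k u ⟨hk.1.trans hu.1.le, hu.2⟩).symm
  · intro t ht
    rcases hloc' t with h | ⟨k, hk⟩
    · obtain ⟨l, hl⟩ := hl 0 t ht
      refine ⟨l, hl.congr' ?_⟩
      filter_upwards [self_mem_nhdsWithin] with u hu using (h0 u (lt_of_lt_of_le hu h)).symm
    · obtain ⟨l, hl⟩ := hl k t ht
      refine ⟨l, hl.congr' ?_⟩
      filter_upwards [Ioo_mem_nhdsLT hk.1] with u hu using
        (h1 k u ⟨hu.1.le, hu.2.trans_le hk.2⟩).symm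

/-! ### Averaging -/

/-- Sawtooth averaging: for continuous `G(u,s)`, replacing `s` by a fast sawtooth in `u` averages
`G` in `s`, uniformly in the endpoint. -/
lemma sawtooth_average [CompleteSpace E] {G : ℝ → ℝ → E} (hG : Continuous (Function.uncurry G)) (a : ℝ) {ε : ℝ}
    (hε : 0 < ε) : ∃ N : ℕ, 0 < N ∧ ∀ t ∈ Icc a (a + 1),
      ‖∫ u in a..t, (G u (Int.fract (N * (u - a))) - ∫ s in (0:ℝ)..1, G u s)‖ ≤ ε := by
  set K : Set (ℝ × ℝ) := Icc a (a + 1) ×ˢ Icc 0 1 with hK
  have hKc : IsCompact K := isCompact_Icc.prod isCompact_Icc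
  obtain ⟨g, hg⟩ := (hKc.image_of_continuousOn hG.norm.continuousOn).bddAbove
  have hgb : ∀ u ∈ Icc a (a + 1), ∀ s ∈ Icc (0:ℝ) 1, ‖G u s‖ ≤ g := fun u hu s hs =>
    hg ⟨(u, s), ⟨hu, hs⟩, rfl⟩
  have hg0 : 0 ≤ g := (norm_nonneg _).trans (hgb a ⟨le_rfl, by linarith⟩ 0 ⟨le_rfl, zero_le_one⟩)
  have huc := hKc.uniformContinuousOn_of_continuous hG.continuousOn
  rw [Metric.uniformContinuousOn_iff] at huc
  obtain ⟨δ, hδ, hδ'⟩ := huc (ε / 8) (by positivity)
  have hunif : ∀ u ∈ Icc a (a + 1), ∀ u' ∈ Icc a (a + 1), ∀ s ∈ Icc (0:ℝ) 1, |u - u'| < δ →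
      ‖G u s - G u' s‖ ≤ ε / 8 := by
    intro u hu u' hu' s hs h
    have := hδ' (u, s) ⟨hu, hs⟩ (u', s) ⟨hu', hs⟩ (by
      rw [Prod.dist_eq]
      simp only [dist_self]
      rw [max_lt_iff]
      exact ⟨by rw [Real.dist_eq]; exact h, hδ⟩)
    rw [dist_eq_norm] at this
    exact this.le
  set H : ℝ → E := fun u => ∫ s in (0:ℝ)..1, G u s with hH
  have hHc : Continuous H := by
    apply intervalIntegral.continuous_parametric_intervalIntegral_of_continuous' hG
  have hHb : ∀ u ∈ Icc a (a + 1), ‖H u‖ ≤ g := by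
    intro u hu
    have := intervalIntegral.norm_integral_le_of_norm_le_const (a := (0:ℝ)) (b := 1)
      (f := fun s => G u s) (C := g) (by
        intro s hs
        rw [uIoc_of_le zero_le_one] at hs
        exact hgb u hu s ⟨hs.1.le, hs.2⟩)
    simpa using this
  have hHunif : ∀ u ∈ Icc a (a + 1), ∀ u' ∈ Icc a (a + 1), |u - u'| < δ →
      ‖H u - H u'‖ ≤ ε / 8 := by
    intro u hu u' hu' h
    have h1 : H u - H u' = ∫ s in (0:ℝ)..1, (G u s - G u' s) := by
      rw [intervalIntegral.integral_sub]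
      · exact (hG.comp (by fun_prop : Continuous fun s : ℝ => (u, s))).intervalIntegrable _ _
      · exact (hG.comp (by fun_prop : Continuous fun s : ℝ => (u', s))).intervalIntegrable _ _
    rw [h1]
    have := intervalIntegral.norm_integral_le_of_norm_le_const (a := (0:ℝ)) (b := 1)
      (f := fun s => G u s - G u' s) (C := ε / 8) (by
        intro s hs
        rw [uIoc_of_le zero_le_one] at hs
        exact hunif u hu u' hu' s ⟨hs.1.le, hs.2⟩ h)
    simpa using this
  obtain ⟨N, hN⟩ := exists_nat_gt (max (1 / δ) (4 * g / ε))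
  have hN1 : 1 / δ < N := (le_max_left _ _).trans_lt hN
  have hN2 : 4 * g / ε < N := (le_max_right _ _).trans_lt hN
  have hN0 : (0:ℝ) < N := lt_trans (by positivity) hN1
  have hNpos : 0 < N := by exact_mod_cast hN0
  have hNδ : 1 / (N:ℝ) < δ := by
    rw [div_lt_iff₀ hN0]
    rw [div_lt_iff₀ hδ] at hN1
    linarith
  have hNg : 2 * g * (1 / N) ≤ ε / 2 := by
    rw [div_lt_iff₀ hε] at hN2
    rw [mul_one_div, div_le_iff₀ hN0]
    linarith
  set F : ℝ → E := fun u => G u (Int.fract (N * (u - a))) - H u with hF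
  have hFm : StronglyMeasurable F := by
    apply StronglyMeasurable.sub _ hHc.stronglyMeasurable
    have hm : Measurable (fun u : ℝ => (u, Int.fract (N * (u - a)))) := by
      apply measurable_id.prodMk
      exact measurable_fract.comp (by fun_prop)
    exact hG.comp_stronglyMeasurable hm.stronglyMeasurable
  have hFb : ∀ u ∈ Icc a (a + 1), ‖F u‖ ≤ 2 * g := by
    intro u hu
    refine (norm_sub_le _ _).trans ?_
    have h1 := hgb u hu (Int.fract (N * (u - a))) ⟨Int.fract_nonneg _, (Int.fract_lt_one _).le⟩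
    have h2 := hHb u hu
    linarith
  have hFi : ∀ p ∈ Icc a (a + 1), ∀ q ∈ Icc a (a + 1), IntervalIntegrable F volume p q := by
    intro p hp q hq
    rw [intervalIntegrable_iff]
    refine IntegrableOn.of_bound (by simp) hFm.aestronglyMeasurable (2 * g) ?_
    rw [ae_restrict_iff' measurableSet_uIoc]
    refine Eventually.of_forall fun u hu => hFb u ?_
    rw [uIoc, mem_Ioc] at hu
    exact ⟨(le_min hp.1 hq.1).trans hu.1.le, hu.2.trans (max_le hp.2 hq.2)⟩
  set c : ℕ → ℝ := fun j => a + j / N with hc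
  have hcs : ∀ j, c (j + 1) = c j + 1 / N := by
    intro j; simp only [hc]; push_cast; ring
  have hcmem : ∀ j ≤ N, c j ∈ Icc a (a + 1) := by
    intro j hj
    simp only [hc]
    refine ⟨by simp; positivity, ?_⟩
    gcongr
    rw [div_le_one hN0]
    exact_mod_cast hj
  have hcell : ∀ j < N, ‖∫ u in c j..c (j + 1), F u‖ ≤ (ε / 4) * (1 / N) := by
    intro j hj
    have hle : c j ≤ c (j + 1) := by rw [hcs]; simp
    have hmem : ∀ u ∈ Ioc (c j) (c (j + 1)), u ∈ Icc a (a + 1) ∧ |u - c j| < δ ∧
        N * (u - c j) ∈ Icc (0:ℝ) 1 := by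
      intro u hu
      refine ⟨⟨(hcmem j hj.le).1.trans hu.1.le, hu.2.trans (hcmem (j + 1) hj).2⟩, ?_, ?_⟩
      · rw [abs_of_pos (by linarith [hu.1])]
        have := hu.2
        rw [hcs] at this
        linarith
      · have := hu.2
        rw [hcs] at this
        refine ⟨by have := hu.1; apply mul_nonneg hN0.le; linarith, ?_⟩
        have h3 : u - c j ≤ 1 / N := by linarith
        calc N * (u - c j) ≤ N * (1 / N) := by gcongr
          _ = 1 := by field_simp
    have h1 : ∫ u in c j..c (j + 1), F u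
        = ∫ u in c j..c (j + 1), (G u (N * (u - c j)) - H u) := by
      apply intervalIntegral.integral_congr_ae
      have : ∀ᵐ u : ℝ, u ≠ c (j + 1) := by simp [ae_iff]
      filter_upwards [this] with u hub hu
      rw [uIoc_of_le hle] at hu
      have hlt : u < c (j + 1) := lt_of_le_of_ne hu.2 hub
      have hfr : Int.fract (N * (u - a)) = N * (u - c j) := by
        have h5 : (N:ℝ) * (u - a) = N * (u - c j) + j := by
          simp only [hc]; field_simp; ring
        rw [h5, Int.fract_add_natCast, Int.fract_eq_self]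
        refine ⟨(hmem u hu).2.2.1, ?_⟩
        rw [hcs] at hlt
        have h3 : u - c j < 1 / N := by linarith
        calc N * (u - c j) < N * (1 / N) := by gcongr
          _ = 1 := by field_simp
      simp only [hF, hfr]
    have h2 : ∫ u in c j..c (j + 1), (G (c j) (N * (u - c j)) - H (c j)) = 0 := by
      rw [intervalIntegral.integral_sub]
      · have h3 : ∫ u in c j..c (j + 1), G (c j) (N * (u - c j)) = (N:ℝ)⁻¹ • H (c j) := by
          have := intervalIntegral.integral_comp_mul_sub (a := c j) (b := c (j + 1))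
            (fun s => G (c j) s) hN0.ne' (N * c j)
          simp only [← mul_sub] at this
          rw [this]
          congr 1
          simp only [sub_self, mul_zero, hH]
          congr 1
          rw [hcs]
          field_simp
          ring
        rw [h3, intervalIntegral.integral_const, hcs]
        simp
      · exact (hG.comp (by fun_prop : Continuous fun u : ℝ => (c j, N * (u - c j)))).intervalIntegrable
          _ _
      · simp
    have h3 : ∫ u in c j..c (j + 1), F u = ∫ u in c j..c (j + 1),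
        ((G u (N * (u - c j)) - H u) - (G (c j) (N * (u - c j)) - H (c j))) := by
      have e1 : IntervalIntegrable (fun u => G u (N * (u - c j)) - H u) volume (c j) (c (j + 1)) :=
        ((hG.comp (by fun_prop : Continuous fun u : ℝ => (u, N * (u - c j)))).sub
          hHc).intervalIntegrable _ _
      have e2 : IntervalIntegrable (fun u => G (c j) (N * (u - c j)) - H (c j)) volume (c j)
          (c (j + 1)) :=
        ((hG.comp (by fun_prop : Continuous fun u : ℝ => (c j, N * (u - c j)))).sub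
          continuous_const).intervalIntegrable _ _
      have e3 := intervalIntegral.integral_sub e1 e2
      rw [h1, e3, h2, sub_zero]
    rw [h3]
    have h4 := intervalIntegral.norm_integral_le_of_norm_le_const (a := c j) (b := c (j + 1))
      (f := fun u => (G u (N * (u - c j)) - H u) - (G (c j) (N * (u - c j)) - H (c j)))
      (C := ε / 4) (by
        intro u hu
        rw [uIoc_of_le hle] at hu
        obtain ⟨m1, m2, m3⟩ := hmem u hu
        have e1 := hunif u m1 (c j) (hcmem j hj.le) _ m3 m2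
        have e2 := hHunif u m1 (c j) (hcmem j hj.le) m2
        calc ‖(G u (N * (u - c j)) - H u) - (G (c j) (N * (u - c j)) - H (c j))‖
            = ‖(G u (N * (u - c j)) - G (c j) (N * (u - c j))) - (H u - H (c j))‖ := by
              congr 1; abel
          _ ≤ _ := norm_sub_le _ _
          _ ≤ ε / 8 + ε / 8 := add_le_add e1 e2
          _ = ε / 4 := by ring)
    refine h4.trans ?_
    rw [hcs, add_sub_cancel_left, abs_of_pos (by positivity)]
  have hsum : ∀ j ≤ N, ‖∫ u in a..c j, F u‖ ≤ (ε / 4) * (j / N) := by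
    intro j
    induction j with
    | zero => intro _; simp [hc]
    | succ j ih =>
      intro hj
      have h1 := ih (by omega)
      have h2 := hcell j (by omega)
      have hadd : ∫ u in a..c (j + 1), F u = (∫ u in a..c j, F u) + ∫ u in c j..c (j + 1), F u := by
        rw [intervalIntegral.integral_add_adjacent_intervals]
        · exact hFi a ⟨le_rfl, by linarith⟩ _ (hcmem j (by omega))
        · exact hFi _ (hcmem j (by omega)) _ (hcmem (j + 1) hj)
      rw [hadd]
      refine (norm_add_le _ _).trans ((add_le_add h1 h2).trans (le_of_eq ?_))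
      push_cast
      ring
  refine ⟨N, hNpos, fun t ht => ?_⟩
  set j := ⌊(N:ℝ) * (t - a)⌋₊ with hj
  have hnn : 0 ≤ (N:ℝ) * (t - a) := mul_nonneg hN0.le (by linarith [ht.1])
  have hjN : j ≤ N := by
    rw [hj]
    apply Nat.floor_le_of_le
    calc (N:ℝ) * (t - a) ≤ N * 1 := by gcongr; linarith [ht.2]
      _ = N := mul_one _
  have hjle : c j ≤ t := by
    have := Nat.floor_le hnn
    rw [← hj] at this
    simp only [hc]
    have h3 : (j:ℝ) / N ≤ t - a := by rw [div_le_iff₀ hN0]; linarith
    linarith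
  have hjlt : t - c j ≤ 1 / N := by
    have := Nat.lt_floor_add_one ((N:ℝ) * (t - a))
    rw [← hj] at this
    simp only [hc]
    have h3 : t - a ≤ ((j:ℝ) + 1) / N := by rw [le_div_iff₀ hN0]; linarith
    rw [add_div] at h3
    linarith
  have hadd : ∫ u in a..t, F u = (∫ u in a..c j, F u) + ∫ u in c j..t, F u := by
    rw [intervalIntegral.integral_add_adjacent_intervals]
    · exact hFi a ⟨le_rfl, by linarith⟩ _ (hcmem j hjN)
    · exact hFi _ (hcmem j hjN) _ ht
  have hlast : ‖∫ u in c j..t, F u‖ ≤ 2 * g * (1 / N) := by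
    have h4 := intervalIntegral.norm_integral_le_of_norm_le_const (a := c j) (b := t)
      (f := F) (C := 2 * g) (by
        intro u hu
        rw [uIoc_of_le hjle] at hu
        exact hFb u ⟨(hcmem j hjN).1.trans hu.1.le, hu.2.trans ht.2⟩)
    refine h4.trans ?_
    rw [abs_of_nonneg (by linarith)]
    gcongr
  change ‖∫ u in a..t, F u‖ ≤ ε
  rw [hadd]
  refine (norm_add_le _ _).trans ?_
  have h5 := hsum j hjN
  have h6 : (j:ℝ) / N ≤ 1 := by rw [div_le_one hN0]; exact_mod_cast hjN
  have h7 : ε / 4 * (j / N) ≤ ε / 4 * 1 := by gcongr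
  linarith

end Pool.Agent.TH339.MY
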