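import Pool.Agent.TH339.MY2

/-!
# Nonuniform nonautonomous Markus-Yamabe: relaxation along a solution
-/

open Set Filter Topology MeasureTheory

namespace Pool.Agent.TH339.MY

variable {E : Type*} [NormedAddCommGroup E] [NormedSpace ℝ E]

/-- `x` is a solution of `x' = f(t,x)` on `[t₀,∞)`. -/
def IsSolution (f : ℝ → E → E) (t₀ : ℝ) (x : ℝ → E) : Prop :=
  ∀ t, t₀ ≤ t → HasDerivWithinAt x (f t (x t)) (Ici t₀) t

/-- Working form of the regularity hypotheses. -/
structure Reg (f : ℝ → E → E) : Prop where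
  cont : ContinuousOn (Function.uncurry f) (Ici 0 ×ˢ univ)
  diff : ∀ t, 0 ≤ t → ContDiff ℝ 1 (f t)
  jcont : ContinuousOn (fun p : ℝ × E => fderiv ℝ (f p.1) p.2) (Ici 0 ×ˢ univ)
  zero : ∀ t, 0 ≤ t → f t 0 = 0

lemma IsSolution.continuousOn {f : ℝ → E → E} {t₀ : ℝ} {x : ℝ → E} (hx : IsSolution f t₀ x) :
    ContinuousOn x (Ici t₀) := fun t ht => (hx t ht).continuousWithinAt

lemma IsSolution.integral [CompleteSpace E] {f : ℝ → E → E} (hf : Reg f) {t₀ : ℝ} (h0 : 0 ≤ t₀)
    {x : ℝ → E} (hx : IsSolution f t₀ x) {s t : ℝ} (hs : t₀ ≤ s) (hst : s ≤ t) :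
    x t - x s = ∫ u in s..t, f u (x u) := by
  symm
  apply intervalIntegral.integral_eq_sub_of_hasDeriv_right_of_le hst
  · exact hx.continuousOn.mono fun u hu => hs.trans hu.1
  · intro u hu
    exact (hx u (hs.trans hu.1.le)).mono fun v hv => (hs.trans hu.1.le).trans (le_of_lt hv)
  · apply ContinuousOn.intervalIntegrable
    rw [uIcc_of_le hst]
    have : ContinuousOn (fun u => (u, x u)) (Icc s t) :=
      continuousOn_id.prodMk (hx.continuousOn.mono fun u hu => hs.trans hu.1)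
    exact hf.cont.comp this fun u hu => ⟨h0.trans (hs.trans hu.1), mem_univ _⟩

/-- Mean value formula along the ray. -/
lemma Reg.ray [CompleteSpace E] {f : ℝ → E → E} (hf : Reg f) {t : ℝ} (ht : 0 ≤ t) (x : E) :
    f t x = ∫ s in (0:ℝ)..1, (fderiv ℝ (f t) (s • x)) x := by
  have h1 : ∀ s ∈ uIcc (0:ℝ) 1, HasDerivAt (fun s : ℝ => f t (s • x))
      ((fderiv ℝ (f t) (s • x)) x) s := by
    intro s _
    have h2 : HasFDerivAt (f t) (fderiv ℝ (f t) (s • x)) (s • x) :=
      ((hf.diff t ht).differentiable one_ne_zero _).hasFDerivAt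
    have h3 : HasDerivAt (fun s : ℝ => s • x) x s := by
      simpa using (hasDerivAt_id s).smul_const x
    exact h2.comp_hasDerivAt s h3
  have h4 : ContinuousOn (fun s : ℝ => (fderiv ℝ (f t) (s • x)) x) (uIcc 0 1) := by
    apply Continuous.continuousOn
    have h5 : Continuous (fderiv ℝ (f t)) := (hf.diff t ht).continuous_fderiv one_ne_zero
    exact (h5.comp (by fun_prop : Continuous fun s : ℝ => s • x)).clm_apply continuous_const
  rw [intervalIntegral.integral_eq_sub_of_hasDerivAt h1 h4.intervalIntegrable]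
  simp [hf.zero t ht]

lemma exists_bound {f : ℝ → E → E} (hf : Reg f) {t₀ : ℝ} (h0 : 0 ≤ t₀) {x : ℝ → E}
    (hx : ContinuousOn x (Ici t₀)) (b : ℝ) :
    ∃ B, 0 ≤ B ∧ ∀ u ∈ Icc t₀ b, ∀ s ∈ Icc (0:ℝ) 1, ‖fderiv ℝ (f u) (s • x u)‖ ≤ B := by
  have hc : ContinuousOn (fun p : ℝ × ℝ => fderiv ℝ (f p.1) (p.2 • x p.1))
      (Icc t₀ b ×ˢ Icc (0:ℝ) 1) := by
    have h1 : ContinuousOn (fun p : ℝ × ℝ => (p.1, p.2 • x p.1)) (Icc t₀ b ×ˢ Icc (0:ℝ) 1) := by
      apply continuousOn_fst.prodMk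
      apply continuousOn_snd.smul
      exact hx.comp continuousOn_fst fun p hp => hp.1.1
    exact hf.jcont.comp h1 fun p hp => ⟨h0.trans hp.1.1, mem_univ _⟩
  obtain ⟨B, hB⟩ := ((isCompact_Icc.prod isCompact_Icc).image_of_continuousOn hc.norm).bddAbove
  exact ⟨max B 0, le_max_right _ _, fun u hu s hs =>
    (hB ⟨(u, s), ⟨hu, hs⟩, rfl⟩).trans (le_max_left _ _)⟩

/-- **Relaxation along a solution.** Along a solution `x`, one can choose a piecewise continuous
`ω(t) ∈ [0,1] x(t)` such that, for the evolution operator `T` of `y' = Jf(t,ω(t)) y`, the vector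
`T(t,t₀)⁻¹ x(t)` stays within `ε` of `x(t₀)` for all `t ≥ t₀`. -/
lemma relaxation [CompleteSpace E] {f : ℝ → E → E} (hf : Reg f)
    (hP : ∀ ω : ℝ → E, PiecewiseContinuous ω →
      PiecewiseContinuous (fun t => fderiv ℝ (f t) (ω t)))
    {t₀ : ℝ} (h0 : 0 ≤ t₀) {x : ℝ → E} (hx : IsSolution f t₀ x) {ε : ℝ} (hε : 0 < ε) :
    ∃ ω : ℝ → E, PiecewiseContinuous ω ∧ (∀ t, t₀ ≤ t → ∃ s ∈ Icc (0:ℝ) 1, ω t = s • x t) ∧
      ∀ T, IsEvolution (fun t => fderiv ℝ (f t) (ω t)) T → ∀ t, t₀ ≤ t →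
        ∃ w, ‖w - x t₀‖ ≤ ε ∧ T t t₀ w = x t := by
  have hxc := hx.continuousOn
  set xt : ℝ → E := fun t => x (max t₀ t) with hxt
  have hxtc : Continuous xt :=
    hxc.comp_continuous (by fun_prop) fun t => mem_Ici.mpr (le_max_left _ _)
  have hxte : ∀ t, t₀ ≤ t → xt t = x t := by
    intro t ht; simp only [hxt, max_eq_right ht]
  set G : ℝ → ℝ → E := fun u s => (fderiv ℝ (f (max 0 u)) (s • xt u)) (xt u) with hG
  have hGc : Continuous (Function.uncurry G) := by
    have h1 : Continuous fun p : ℝ × ℝ => fderiv ℝ (f (max 0 p.1)) (p.2 • xt p.1) := by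
      have h2 : Continuous fun p : ℝ × ℝ => (max 0 p.1, p.2 • xt p.1) := by
        apply Continuous.prodMk (by fun_prop)
        exact continuous_snd.smul (hxtc.comp continuous_fst)
      exact hf.jcont.comp_continuous h2 fun p => ⟨mem_Ici.mpr (le_max_left _ _), mem_univ _⟩
    exact h1.clm_apply (hxtc.comp continuous_fst)
  choose b hb0 hb using fun k : ℕ => exists_bound hf h0 hxc (t₀ + k + 1)
  set e : ℕ → ℝ := fun k => ε / 2 ^ (k + 1) / (Real.exp (b k) * Real.exp (b k * (k + 1))) with he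
  have he0 : ∀ k, 0 < e k := by intro k; simp only [he]; positivity
  choose N hN0 hN using fun k : ℕ => sawtooth_average hGc (t₀ + k) (he0 k)
  set g : ℕ → ℝ → E := fun k t => Int.fract (N k * (t - (t₀ + k))) • xt t with hg
  set ω : ℝ → E := fun t => g ⌊t - t₀⌋₊ t with hω
  have hidx : ∀ k : ℕ, ∀ t ∈ Ico (t₀ + k) (t₀ + k + 1), ω t = g k t := by
    intro k t ht
    have : ⌊t - t₀⌋₊ = k := by
      rw [Nat.floor_eq_iff (by
        have := ht.1
        have h2 : (0:ℝ) ≤ k := Nat.cast_nonneg k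
        linarith)]
      exact ⟨by linarith [ht.1], by linarith [ht.2]⟩
    simp only [hω, this]
  have hωp : PiecewiseContinuous ω := by
    apply pwc_concat (τ := fun k : ℕ => t₀ + k) (g := g)
    · intro i j hij
      simp only [add_lt_add_iff_left, Nat.cast_lt]
      exact hij
    · exact tendsto_atTop_add_const_left _ _ tendsto_natCast_atTop_atTop
    · intro k
      exact pwc_sawtooth (by exact_mod_cast hN0 k) _ hxtc
    · intro t ht
      have : ⌊t - t₀⌋₊ = 0 := by
        rw [Nat.floor_eq_zero]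
        simp only [Nat.cast_zero, add_zero] at ht
        linarith
      simp only [hω, this]
    · intro k t ht
      push_cast at ht
      exact hidx k t (by rwa [add_assoc])
  have hωs : ∀ t, t₀ ≤ t → ∃ s ∈ Icc (0:ℝ) 1, ω t = s • x t := by
    intro t ht
    refine ⟨Int.fract (N ⌊t - t₀⌋₊ * (t - (t₀ + ⌊t - t₀⌋₊))), ⟨Int.fract_nonneg _,
      (Int.fract_lt_one _).le⟩, ?_⟩
    simp only [hω, hg, hxte t ht]
  refine ⟨ω, hωp, hωs, ?_⟩
  intro T hT
  have hA := hP ω hωp
  have hAb : ∀ k : ℕ, ∀ u ∈ Ico t₀ (t₀ + k + 1), ‖fderiv ℝ (f u) (ω u)‖ ≤ b k := by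
    intro k u hu
    obtain ⟨s, hs, hs'⟩ := hωs u hu.1
    rw [hs']
    exact hb k u ⟨hu.1, hu.2.le⟩ s hs
  set w : ℝ → E := fun t => T t₀ t (x t) with hw
  have hw1 : ∀ t, t₀ ≤ t → T t t₀ (w t) = x t := by
    intro t ht
    have h0t := h0.trans ht
    simp only [hw]
    rw [hT.cocycle hA h0 h0t h0t, hT.self h0t]
  have hk0 : ∀ k : ℕ, t₀ ≤ t₀ + k := fun k => by simp
  have hstep : ∀ k : ℕ, ∀ t ∈ Icc (t₀ + k) (t₀ + k + 1), ‖w t - w (t₀ + k)‖ ≤ ε / 2 ^ (k + 1) := by
    intro k t ht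
    have h0k : 0 ≤ t₀ + k := h0.trans (hk0 k)
    have h0t : 0 ≤ t := h0k.trans ht.1
    have ht0 : t₀ ≤ t := (hk0 k).trans ht.1
    have hy := hT.iSol hA h0k (x (t₀ + k))
    have hcmp := hy.compare hA h0k (by linarith : t₀ + k ≤ t₀ + k + 1) (β := b k) (ρ := e k)
      (fun u hu => hAb k u ⟨(hk0 k).trans hu.1, hu.2⟩) (hb0 k) (x := x)
      (hxc.mono fun u hu => (hk0 k).trans hu.1) ?_ ?_ t ht
    · have h3 : w t - w (t₀ + k) = T t₀ t (x t - T t (t₀ + k) (x (t₀ + k))) := by
        rw [map_sub, hT.cocycle hA h0t h0k h0]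
      rw [h3]
      have hz := (hT.iSol hA h0t (x t - T t (t₀ + k) (x (t₀ + k)))).bwd_bound hA h0 ht0
        (β := b k) (fun u hu => hAb k u ⟨hu.1, hu.2.trans_le ht.2⟩) (hb0 k)
      rw [hT.self h0t] at hz
      refine hz.trans ?_
      calc Real.exp (b k * (t - t₀)) * ‖x t - T t (t₀ + k) (x (t₀ + k))‖
          ≤ Real.exp (b k * (k + 1)) * (e k * Real.exp (b k * 1)) := by
            gcongr
            · exact hb0 k
            · linarith [ht.2]
            · refine hcmp.trans ?_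
              have := he0 k
              gcongr
              · exact hb0 k
              · linarith [ht.2]
        _ = ε / 2 ^ (k + 1) := by
            simp only [he, mul_one]
            have h5 := Real.exp_pos (b k)
            have h6 := Real.exp_pos (b k * (k + 1))
            field_simp
    · intro v hv
      have h4 := hx.integral hf h0 (hk0 k) hv.1
      have h5 : ∫ u in (t₀ + k)..v, (fderiv ℝ (f u) (ω u)) (x u)
          = ∫ u in (t₀ + k)..v, G u (Int.fract (N k * (u - (t₀ + k)))) := by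
        apply intervalIntegral.integral_congr_ae
        have : ∀ᵐ u : ℝ, u ≠ t₀ + k + 1 := by simp [ae_iff]
        filter_upwards [this] with u hub hu
        rw [uIoc_of_le hv.1] at hu
        have hu1 : u ∈ Ico (t₀ + k) (t₀ + k + 1) :=
          ⟨hu.1.le, lt_of_le_of_ne (hu.2.trans hv.2) hub⟩
        have hu0 : t₀ ≤ u := (hk0 k).trans hu1.1
        rw [hidx k u hu1]
        simp only [hG, hg, hxte u hu0, max_eq_right (h0.trans hu0)]
      have h6 : ∫ u in (t₀ + k)..v, f u (x u)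
          = ∫ u in (t₀ + k)..v, ∫ s in (0:ℝ)..1, G u s := by
        apply intervalIntegral.integral_congr
        intro u hu
        rw [uIcc_of_le hv.1] at hu
        have hu0 : t₀ ≤ u := (hk0 k).trans hu.1
        simp only
        rw [hf.ray (h0.trans hu0) (x u)]
        simp only [hG, hxte u hu0, max_eq_right (h0.trans hu0)]
      have h7 : x v - T (t₀ + k) (t₀ + k) (x (t₀ + k)) - ∫ u in (t₀ + k)..v,
          (fderiv ℝ (f u) (ω u)) (x u) = - ∫ u in (t₀ + k)..v,
          (G u (Int.fract (N k * (u - (t₀ + k)))) - ∫ s in (0:ℝ)..1, G u s) := by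
        rw [hT.self h0k, h4, h5, h6, intervalIntegral.integral_sub]
        · abel
        · have hp : PiecewiseContinuous (fun u => (fderiv ℝ (f u) (ω u)) (xt u)) :=
            hA.apply hxtc.continuousOn
          have hi := hp.intervalIntegrable h0k (h0k.trans hv.1)
          refine hi.congr_ae ?_
          have : ∀ᵐ u : ℝ, u ≠ t₀ + k + 1 := by simp [ae_iff]
          rw [EventuallyEq, ae_restrict_iff' measurableSet_uIoc]
          filter_upwards [this] with u hub hu
          rw [uIoc_of_le hv.1] at hu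
          have hu1 : u ∈ Ico (t₀ + k) (t₀ + k + 1) :=
            ⟨hu.1.le, lt_of_le_of_ne (hu.2.trans hv.2) hub⟩
          have hu0 : t₀ ≤ u := (hk0 k).trans hu1.1
          rw [hidx k u hu1]
          simp only [hG, hg, max_eq_right (h0.trans hu0)]
        · exact (intervalIntegral.continuous_parametric_intervalIntegral_of_continuous'
            hGc _ _).intervalIntegrable _ _
      rw [h7, norm_neg]
      exact hN k v hv
    · have hp : PiecewiseContinuous (fun u => (fderiv ℝ (f u) (ω u)) (xt u)) :=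
        hA.apply hxtc.continuousOn
      have hi := hp.intervalIntegrable h0k (h0k.trans (by linarith : t₀ + k ≤ t₀ + k + 1))
      refine hi.congr ?_
      intro u hu
      rw [uIoc_of_le (by linarith : t₀ + k ≤ t₀ + k + 1)] at hu
      simp only
      rw [hxte u ((hk0 k).trans hu.1.le)]
  have hind : ∀ k : ℕ, ‖w (t₀ + k) - x t₀‖ ≤ ε * (1 - 1 / 2 ^ k) := by
    intro k
    induction k with
    | zero =>
      have : w (t₀ + (0:ℕ)) = x t₀ := by
        simp only [hw, Nat.cast_zero, add_zero]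
        exact hT.self h0 _
      rw [this]; simp
    | succ k ih =>
      have h1 := hstep k (t₀ + (k + 1 : ℕ)) (by push_cast; constructor <;> linarith)
      calc ‖w (t₀ + (k + 1 : ℕ)) - x t₀‖
          = ‖(w (t₀ + (k + 1 : ℕ)) - w (t₀ + k)) + (w (t₀ + k) - x t₀)‖ := by congr 1; abel
        _ ≤ ε / 2 ^ (k + 1) + ε * (1 - 1 / 2 ^ k) := (norm_add_le _ _).trans (add_le_add h1 ih)
        _ = ε * (1 - 1 / 2 ^ (k + 1)) := by
            rw [pow_succ]; field_simp; ring
  intro t ht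
  refine ⟨w t, ?_, hw1 t ht⟩
  set k := ⌊t - t₀⌋₊ with hk
  have hnn : 0 ≤ t - t₀ := by linarith
  have hmem : t ∈ Icc (t₀ + k) (t₀ + k + 1) := by
    have h1 := Nat.floor_le hnn
    have h2 := Nat.lt_floor_add_one (t - t₀)
    rw [← hk] at h1 h2
    constructor <;> linarith
  calc ‖w t - x t₀‖ = ‖(w t - w (t₀ + k)) + (w (t₀ + k) - x t₀)‖ := by congr 1; abel
    _ ≤ ε / 2 ^ (k + 1) + ε * (1 - 1 / 2 ^ k) :=
        (norm_add_le _ _).trans (add_le_add (hstep k t hmem) (hind k))
    _ = ε * (1 - 1 / 2 ^ (k + 1)) := by rw [pow_succ]; field_simp; ring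
    _ ≤ ε := by
        have : (0:ℝ) ≤ 1 / 2 ^ (k + 1) := by positivity
        nlinarith

end Pool.Agent.TH339.MY
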