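import Pool.Agent.TH339.MY3

/-!
# Nonuniform nonautonomous Markus-Yamabe: uniform boundedness by concatenation, main theorem
-/

open Set Filter Topology MeasureTheory

namespace Pool.Agent.TH339.MY

variable {E : Type*} [NormedAddCommGroup E] [NormedSpace ℝ E]

lemma exists_index {τ : ℕ → ℝ} (hτ : StrictMono τ) (hτ' : Tendsto τ atTop atTop) (t : ℝ) :
    t < τ 0 ∨ ∃ k, t ∈ Ico (τ k) (τ (k + 1)) := by
  by_cases ht : t < τ 0
  · exact Or.inl ht
  · right
    push Not at ht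
    have hex : ∃ k, t < τ (k + 1) := by
      obtain ⟨k, hk⟩ := (hτ'.eventually (eventually_gt_atTop t)).exists
      exact ⟨k, hk.trans (hτ (Nat.lt_succ_self k))⟩
    classical
    refine ⟨Nat.find hex, ?_, Nat.find_spec hex⟩
    by_cases hz : Nat.find hex = 0
    · rw [hz]; exact ht
    · obtain ⟨m, hm⟩ := Nat.exists_eq_succ_of_ne_zero hz
      have := Nat.find_min hex (m := m) (by omega)
      rw [hm]
      push Not at this
      exact this

lemma exists_concat {X : Type*} {τ : ℕ → ℝ} (hτ : StrictMono τ) (g : ℕ → ℝ → X) :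
    ∃ ω : ℝ → X, (∀ t, t < τ 0 → ω t = g 0 t) ∧
      ∀ k, ∀ t ∈ Ico (τ k) (τ (k + 1)), ω t = g k t := by
  classical
  refine ⟨fun t => if h : ∃ k, t ∈ Ico (τ k) (τ (k + 1)) then g (Classical.choose h) t else g 0 t,
    ?_, ?_⟩
  · intro t ht
    simp only
    rw [dif_neg]
    rintro ⟨k, hk⟩
    have := hτ.monotone (Nat.zero_le k)
    linarith [hk.1]
  · intro k t hk
    have hex : ∃ k, t ∈ Ico (τ k) (τ (k + 1)) := ⟨k, hk⟩
    simp only
    rw [dif_pos hex]
    have hj := Classical.choose_spec hex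
    have : Classical.choose hex = k := by
      set j := Classical.choose hex
      by_contra hjk
      rcases lt_or_gt_of_ne hjk with hjk | hjk
      · have := hτ.monotone (show j + 1 ≤ k by omega)
        linarith [hj.2, hk.1]
      · have := hτ.monotone (show k + 1 ≤ j by omega)
        linarith [hk.2, hj.1]
    rw [this]

/-- The evolution operator over `[a,b]` only depends on the coefficient on `[a,b)`. -/
lemma IsEvolution.loc {A₁ A₂ : ℝ → E →L[ℝ] E} (hA₁ : PiecewiseContinuous A₁)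
    (hA₂ : PiecewiseContinuous A₂) {T₁ T₂ : ℝ → ℝ → E →L[ℝ] E} (hT₁ : IsEvolution A₁ T₁)
    (hT₂ : IsEvolution A₂ T₂) {a b : ℝ} (ha : 0 ≤ a) (hab : a ≤ b)
    (h : ∀ u ∈ Ico a b, A₁ u = A₂ u) (v : E) : T₁ b a v = T₂ b a v := by
  obtain ⟨C, hC0, hC⟩ := hA₁.bounded b
  have hy := hT₁.iSol hA₁ ha v
  have hz := hT₂.iSol hA₂ ha v
  have hcongr : ∀ t ∈ Icc a b, ∫ u in a..t, A₁ u (T₂ u a v) = ∫ u in a..t, A₂ u (T₂ u a v) := by
    intro t ht
    apply intervalIntegral.integral_congr_ae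
    have : ∀ᵐ u : ℝ, u ≠ b := by simp [ae_iff]
    filter_upwards [this] with u hub hu
    rw [uIoc_of_le ht.1] at hu
    rw [h u ⟨hu.1.le, lt_of_le_of_ne (hu.2.trans ht.2) hub⟩]
  have key := hy.compare hA₁ ha hab (β := C) (ρ := 0) (x := fun t => T₂ t a v)
    (fun u hu => hC u ⟨ha.trans hu.1, hu.2.le⟩) hC0
    (hz.1.mono fun u hu => ha.trans hu.1) ?_ ?_ b ⟨hab, le_rfl⟩
  · simp only [zero_mul] at key
    exact (sub_eq_zero.mp (norm_le_zero_iff.mp key)).symm
  · intro t ht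
    have h1 := hz.2 a t ha (ha.trans ht.1)
    simp only at h1 ⊢
    rw [hcongr t ht, hT₁.self ha]
    rw [hT₂.self ha] at h1
    rw [h1]
    simp
  · exact (hA₁.apply hz.1).intervalIntegrable ha (ha.trans hab)

lemma exists_bound_ball [FiniteDimensional ℝ E] {f : ℝ → E → E} (hf : Reg f) (η : ℝ) (b : ℝ) :
    ∃ B, 0 ≤ B ∧ ∀ u ∈ Icc 0 b, ∀ ξ : E, ‖ξ‖ ≤ η → ‖fderiv ℝ (f u) ξ‖ ≤ B := by
  have : ProperSpace E := FiniteDimensional.proper ℝ E
  have hc : ContinuousOn (fun p : ℝ × E => fderiv ℝ (f p.1) p.2)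
      (Icc 0 b ×ˢ Metric.closedBall (0 : E) η) :=
    hf.jcont.mono fun p hp => ⟨hp.1.1, mem_univ _⟩
  obtain ⟨B, hB⟩ := ((isCompact_Icc.prod (isCompact_closedBall (0 : E) η)).image_of_continuousOn
    hc.norm).bddAbove
  refine ⟨max B 0, le_max_right _ _, fun u hu ξ hξ => ?_⟩
  have hmem : (u, ξ) ∈ Icc 0 b ×ˢ Metric.closedBall (0 : E) η := ⟨hu, by simpa using hξ⟩
  exact (hB ⟨(u, ξ), hmem, rfl⟩).trans (le_max_left _ _)

/-- **Uniform boundedness by concatenation.** If for every piecewise continuous `ω` the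
linearization along `ω` has bounded evolution, then the bound is uniform over all `ω` with
`‖ω‖ ≤ η`. -/
lemma uniform_bound [FiniteDimensional ℝ E] {f : ℝ → E → E} (hf : Reg f)
    (hG : ∀ ω : ℝ → E, PiecewiseContinuous ω →
      PiecewiseContinuous (fun t => fderiv ℝ (f t) (ω t)) ∧
      ∃ T, IsEvolution (fun t => fderiv ℝ (f t) (ω t)) T ∧
        ∀ s, 0 ≤ s → ∃ C, ∀ t, s ≤ t → ‖T t s‖ ≤ C)
    {t₀ : ℝ} (h0 : 0 ≤ t₀) (η : ℝ) :
    ∃ M, 0 ≤ M ∧ ∀ ω : ℝ → E, PiecewiseContinuous ω → ∀ T,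
      IsEvolution (fun t => fderiv ℝ (f t) (ω t)) T → ∀ t, t₀ ≤ t →
      (∀ u ∈ Ico t₀ t, ‖ω u‖ ≤ η) → ‖T t t₀‖ ≤ M := by
  choose B hB0 hB using exists_bound_ball hf η
  by_contra hcon
  push Not at hcon
  -- large growth is possible after any time
  have step1 : ∀ a M : ℝ, t₀ ≤ a → ∃ (ω : ℝ → E) (T : ℝ → ℝ → E →L[ℝ] E) (b : ℝ),
      PiecewiseContinuous ω ∧ IsEvolution (fun t => fderiv ℝ (f t) (ω t)) T ∧ a + 1 ≤ b ∧
      (∀ u ∈ Ico a b, ‖ω u‖ ≤ η) ∧ M < ‖T b a‖ := by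
    intro a M ha
    have h0a : 0 ≤ a := h0.trans ha
    obtain ⟨ω, hω, T, hT, t, ht, hb, hM⟩ := hcon
      (max M 0 * Real.exp (B (a + 1) * (a - t₀)) + Real.exp (B (a + 1) * (a + 1 - t₀)))
      (by positivity)
    have hA := (hG ω hω).1
    have hta : a + 1 ≤ t := by
      by_contra hlt
      push Not at hlt
      have : ‖T t t₀‖ ≤ Real.exp (B (a + 1) * (a + 1 - t₀)) := by
        apply ContinuousLinearMap.opNorm_le_bound _ (Real.exp_pos _).le
        intro v
        have h1 := (hT.iSol hA h0 v).fwd_bound hA h0 ht (β := B (a + 1))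
          (fun u hu => hB (a + 1) u ⟨h0.trans hu.1, (hu.2.trans hlt).le⟩ _ (hb u hu)) (hB0 _)
        rw [hT.self h0] at h1
        refine h1.trans ?_
        gcongr
        exact hB0 _
      have h2 : 0 ≤ max M 0 * Real.exp (B (a + 1) * (a - t₀)) := by positivity
      linarith
    refine ⟨ω, T, t, hω, hT, hta, fun u hu => hb u ⟨ha.trans hu.1, hu.2⟩, ?_⟩
    by_contra hle
    push Not at hle
    have h3 : ‖T t t₀‖ ≤ max M 0 * Real.exp (B (a + 1) * (a - t₀)) := by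
      apply ContinuousLinearMap.opNorm_le_bound _ (by positivity)
      intro v
      rw [← hT.cocycle hA h0a h0 (h0a.trans (by linarith)) v]
      have h1 := (hT.iSol hA h0 v).fwd_bound hA h0 ha (β := B (a + 1))
        (fun u hu => hB (a + 1) u ⟨h0.trans hu.1, by linarith [hu.2]⟩ _
          (hb u ⟨hu.1, by linarith [hu.2]⟩)) (hB0 _)
      rw [hT.self h0] at h1
      refine ((T t a).le_opNorm _).trans ?_
      rw [mul_assoc]
      gcongr
      exact hle.trans (le_max_left _ _)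
    have h4 := Real.exp_pos (B (a + 1) * (a + 1 - t₀))
    linarith
  choose! W TT bb hW hTT hbb hWη hgrow using step1
  -- the times
  let mk : ℝ → ℕ → ℝ := fun a k => (k + 1) * Real.exp (B a * (a - t₀))
  let τ : ℕ → ℝ := fun k => Nat.rec t₀ (fun k a => bb a (mk a k)) k
  have hτ0 : τ 0 = t₀ := rfl
  have hτs : ∀ k, τ (k + 1) = bb (τ k) (mk (τ k) k) := fun k => rfl
  have hτge : ∀ k, t₀ ≤ τ k := by
    intro k
    induction k with
    | zero => exact le_rfl
    | succ k ih =>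
      rw [hτs]
      have := hbb (τ k) (mk (τ k) k) ih
      linarith
  have hτ1 : ∀ k, τ k + 1 ≤ τ (k + 1) := fun k => by
    rw [hτs]; exact hbb _ _ (hτge k)
  have hmono : StrictMono τ := strictMono_nat_of_lt_succ fun k => by linarith [hτ1 k]
  have hlin : ∀ k : ℕ, t₀ + k ≤ τ k := by
    intro k
    induction k with
    | zero => simp [hτ0]
    | succ k ih => have := hτ1 k; push_cast; linarith
  have htop : Tendsto τ atTop atTop :=
    tendsto_atTop_mono hlin (tendsto_atTop_add_const_left _ _ tendsto_natCast_atTop_atTop)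
  obtain ⟨ω, hω0, hω1⟩ := exists_concat hmono (fun k => W (τ k) (mk (τ k) k))
  have hωp : PiecewiseContinuous ω :=
    pwc_concat hmono htop (fun k => hW (τ k) (mk (τ k) k) (hτge k)) hω0 hω1
  have hωη : ∀ u, t₀ ≤ u → ‖ω u‖ ≤ η := by
    intro u hu
    rcases exists_index hmono htop u with h | ⟨k, hk⟩
    · rw [hτ0] at h; linarith
    · rw [hω1 k u hk]
      exact hWη _ _ (hτge k) u (by rw [← hτs]; exact hk)
  obtain ⟨hA, T, hT, hTb⟩ := hG ω hωp
  obtain ⟨C, hC⟩ := hTb t₀ h0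
  have hfin : ∀ k : ℕ, (k + 1 : ℝ) < C := by
    intro k
    set a := τ k with ha
    have hak : t₀ ≤ a := hτge k
    have h0a : 0 ≤ a := h0.trans hak
    set b := τ (k + 1) with hb
    have hbk : b = bb a (mk a k) := rfl
    have hab : a ≤ b := by have := hτ1 k; rw [← ha, ← hb] at this; linarith
    have hWk := hW a (mk a k) hak
    have hTk := hTT a (mk a k) hak
    have hgk := hgrow a (mk a k) hak
    rw [← hbk] at hgk
    have hmk : 0 ≤ mk a k := by simp only [mk]; positivity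
    obtain ⟨v, hv⟩ : ∃ v, mk a k * ‖v‖ < ‖TT a (mk a k) b a v‖ := by
      by_contra hno
      push Not at hno
      exact absurd (ContinuousLinearMap.opNorm_le_bound _ hmk hno) (not_le.mpr hgk)
    have hv0 : 0 < ‖v‖ := by
      rw [norm_pos_iff]
      rintro rfl
      simp at hv
    have hloc : T b a v = TT a (mk a k) b a v := by
      apply hT.loc hA (hG _ hWk).1 hTk h0a hab
      intro u hu
      rw [hω1 k u hu]
    have hv' := (hT.iSol hA h0a v).bwd_bound hA h0 hak (β := B a)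
      (fun u hu => hB a u ⟨h0.trans hu.1, hu.2.le⟩ _ (hωη u hu.1)) (hB0 _)
    rw [hT.self h0a] at hv'
    have h5 : T b t₀ (T t₀ a v) = T b a v := hT.cocycle hA h0 h0a (h0a.trans hab) v
    have h6 : ‖T b a v‖ ≤ C * (Real.exp (B a * (a - t₀)) * ‖v‖) := by
      rw [← h5]
      have hC0 : 0 ≤ C := (norm_nonneg _).trans (hC t₀ le_rfl)
      calc ‖T b t₀ (T t₀ a v)‖ ≤ ‖T b t₀‖ * ‖T t₀ a v‖ := (T b t₀).le_opNorm _
        _ ≤ C * (Real.exp (B a * (a - t₀)) * ‖v‖) := by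
          gcongr
          exact hC b (hak.trans hab)
    rw [hloc] at h6
    have h7 : mk a k * ‖v‖ < C * (Real.exp (B a * (a - t₀)) * ‖v‖) := lt_of_lt_of_le hv h6
    have h8 : (0:ℝ) < Real.exp (B a * (a - t₀)) * ‖v‖ := by positivity
    have h9 : mk a k * ‖v‖ = (k + 1) * (Real.exp (B a * (a - t₀)) * ‖v‖) := by
      simp only [mk]; ring
    rw [h9] at h7
    exact lt_of_mul_lt_mul_right h7 h8.le
  obtain ⟨k, hk⟩ := exists_nat_gt C
  have := hfin k
  linarith

/-- **Main theorem, under joint continuity of the Jacobian.** -/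
theorem main_reg [FiniteDimensional ℝ E] {f : ℝ → E → E} (hf : Reg f)
    (hG : ∀ ω : ℝ → E, PiecewiseContinuous ω →
      PiecewiseContinuous (fun t => fderiv ℝ (f t) (ω t)) ∧
      ∃ T, IsEvolution (fun t => fderiv ℝ (f t) (ω t)) T ∧
        ∀ s, 0 ≤ s → (∃ C, ∀ t, s ≤ t → ‖T t s‖ ≤ C) ∧ Tendsto (fun t => ‖T t s‖) atTop (𝓝 0))
    {t₀ : ℝ} (h0 : 0 ≤ t₀) :
    (∀ η, 0 < η → ∃ δ, 0 < δ ∧ ∀ x, IsSolution f t₀ x → ‖x t₀‖ < δ → ∀ t, t₀ ≤ t → ‖x t‖ < η) ∧
    (∀ x, IsSolution f t₀ x → Tendsto x atTop (𝓝 0)) := by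
  have : CompleteSpace E := FiniteDimensional.complete ℝ E
  constructor
  · intro η hη
    obtain ⟨M, hM0, hM⟩ := uniform_bound hf
      (fun ω hω => by
        obtain ⟨h1, T, h2, h3⟩ := hG ω hω
        exact ⟨h1, T, h2, fun s hs => (h3 s hs).1⟩) h0 η
    refine ⟨η / (2 * (M + 1)), by positivity, fun x hx hx0 t ht => ?_⟩
    by_contra hcon
    push Not at hcon
    set S : Set ℝ := Ici t₀ ∩ (fun t => ‖x t‖) ⁻¹' (Ici η) with hS
    have hSc : IsClosed S :=
      ContinuousOn.preimage_isClosed_of_isClosed hx.continuousOn.norm isClosed_Ici isClosed_Ici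
    have hSne : S.Nonempty := ⟨t, ht, hcon⟩
    have hSb : BddBelow S := ⟨t₀, fun u hu => hu.1⟩
    have hmem := hSc.csInf_mem hSne hSb
    set t₁ := sInf S with ht₁
    have hlt : ∀ u ∈ Ico t₀ t₁, ‖x u‖ < η := by
      intro u hu
      by_contra h
      push Not at h
      have : t₁ ≤ u := csInf_le hSb ⟨hu.1, h⟩
      linarith [hu.2]
    obtain ⟨ω, hω, hωs, hωT⟩ := relaxation hf (fun ω hω => (hG ω hω).1) h0 hx
      (ε := η / (2 * (M + 1))) (by positivity)
    obtain ⟨-, T, hT, -⟩ := hG ω hω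
    obtain ⟨w, hw, hw'⟩ := hωT T hT t₁ hmem.1
    have hTn : ‖T t₁ t₀‖ ≤ M := by
      apply hM ω hω T hT t₁ hmem.1
      intro u hu
      obtain ⟨s, hs, hs'⟩ := hωs u hu.1
      rw [hs', norm_smul, Real.norm_eq_abs, abs_of_nonneg hs.1]
      calc s * ‖x u‖ ≤ 1 * ‖x u‖ := by gcongr; exact hs.2
        _ ≤ η := by rw [one_mul]; exact (hlt u hu).le
    have hwn : ‖w‖ ≤ 2 * (η / (2 * (M + 1))) := by
      calc ‖w‖ = ‖(w - x t₀) + x t₀‖ := by congr 1; abel
        _ ≤ ‖w - x t₀‖ + ‖x t₀‖ := norm_add_le _ _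
        _ ≤ _ := by linarith
    have h1 : ‖x t₁‖ ≤ M * (2 * (η / (2 * (M + 1)))) := by
      rw [← hw']
      exact ((T t₁ t₀).le_opNorm w).trans (by gcongr)
    have h2 : η ≤ ‖x t₁‖ := hmem.2
    have h3 : M * (2 * (η / (2 * (M + 1)))) < η := by
      have h4 : M * (2 * (η / (2 * (M + 1)))) = M * η / (M + 1) := by field_simp
      rw [h4, div_lt_iff₀ (by positivity)]
      nlinarith
    linarith
  · intro x hx
    obtain ⟨ω, hω, -, hωT⟩ := relaxation hf (fun ω hω => (hG ω hω).1) h0 hx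
      (ε := 1) one_pos
    obtain ⟨-, T, hT, hT2⟩ := hG ω hω
    have hlim := (hT2 t₀ h0).2
    rw [tendsto_zero_iff_norm_tendsto_zero]
    have hlim2 : Tendsto (fun t => ‖T t t₀‖ * (‖x t₀‖ + 1)) atTop (𝓝 0) := by
      simpa using hlim.mul_const (‖x t₀‖ + 1)
    refine squeeze_zero' (Eventually.of_forall fun t => norm_nonneg _) ?_ hlim2
    filter_upwards [eventually_ge_atTop t₀] with t ht
    obtain ⟨w, hw, hw'⟩ := hωT T hT t ht
    rw [← hw']
    refine ((T t t₀).le_opNorm w).trans ?_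
    gcongr
    calc ‖w‖ = ‖(w - x t₀) + x t₀‖ := by congr 1; abel
      _ ≤ ‖w - x t₀‖ + ‖x t₀‖ := norm_add_le _ _
      _ ≤ _ := by linarith

end Pool.Agent.TH339.MY
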