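import Pool.Agent.TH339.MY4

/-!
# Nonuniform nonautonomous Markus-Yamabe: joint continuity of the Jacobian is automatic
-/

open Set Filter Topology MeasureTheory

namespace Pool.Agent.TH339.MY

variable {E : Type*} [NormedAddCommGroup E] [NormedSpace ℝ E]

/-- If `t ↦ J t (ω t)` has a right limit at `a` for every continuous `ω`, then `J` has a joint
right limit at `(a, x₀)`. -/
lemma joint_limit [CompleteSpace E] {Y : Type*} [MetricSpace Y] {J : ℝ → E → Y} {a : ℝ} {x₀ : E}
    (h : ∀ ω : ℝ → E, Continuous ω → ∃ l, Tendsto (fun t => J t (ω t)) (𝓝[>] a) (𝓝 l)) :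
    ∃ l, Tendsto (fun p : ℝ × E => J p.1 p.2) (𝓝[>] a ×ˢ 𝓝 x₀) (𝓝 l) := by
  obtain ⟨l, hl⟩ := h (fun _ => x₀) continuous_const
  refine ⟨l, ?_⟩
  by_contra hcon
  rw [Metric.tendsto_nhds] at hcon
  push Not at hcon
  obtain ⟨ε, hε, hfr⟩ := hcon
  have hex : ∀ δ : ℝ, 0 < δ → ∃ (t : ℝ) (x : E), a < t ∧ t < a + δ ∧ ‖x - x₀‖ < δ ∧
      ε ≤ dist (J t x) l := by
    intro δ hδ
    have h1 : ∀ᶠ p : ℝ × E in 𝓝[>] a ×ˢ 𝓝 x₀, (a < p.1 ∧ p.1 < a + δ) ∧ ‖p.2 - x₀‖ < δ := by
      have g1 : ∀ᶠ t in 𝓝[>] a, a < t ∧ t < a + δ := Ioo_mem_nhdsGT (by linarith)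
      have g2 : ∀ᶠ x in 𝓝 x₀, ‖x - x₀‖ < δ := by
        filter_upwards [Metric.ball_mem_nhds x₀ hδ] with x hx
        rwa [mem_ball_iff_norm] at hx
      exact g1.prod_mk g2
    obtain ⟨p, hp, hp'⟩ := (hfr.and_eventually h1).exists
    exact ⟨p.1, p.2, hp'.1.1, hp'.1.2, hp'.2, hp⟩
  choose! t x h1 h2 h3 h4 using hex
  let δ : ℕ → ℝ := fun n => Nat.rec 1 (fun n d => min ((t d - a) / 4) (1 / 2 ^ (n + 1))) n
  have hδs : ∀ n, δ (n + 1) = min ((t (δ n) - a) / 4) (1 / 2 ^ (n + 1)) := fun n => rfl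
  have hδ0 : δ 0 = 1 := rfl
  have hδp : ∀ n, 0 < δ n := by
    intro n
    induction n with
    | zero => rw [hδ0]; exact one_pos
    | succ n ih =>
      rw [hδs]
      have := h1 (δ n) ih
      apply lt_min
      · linarith
      · positivity
  have hδle : ∀ n, δ n ≤ 1 / 2 ^ n := by
    intro n
    cases n with
    | zero => rw [hδ0]; simp
    | succ n => rw [hδs]; exact min_le_right _ _
  set T : ℕ → ℝ := fun n => t (δ n) with hT
  set X : ℕ → E := fun n => x (δ n) with hX
  have hTa : ∀ n, a < T n := fun n => h1 _ (hδp n)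
  have hTs : ∀ n, T (n + 1) - a < (T n - a) / 4 := by
    intro n
    have e1 := h2 _ (hδp (n + 1))
    have e2 : δ (n + 1) ≤ (T n - a) / 4 := by rw [hδs]; exact min_le_left _ _
    simp only [hT] at *
    linarith
  have hTlt : ∀ n k, T (n + k + 1) - a < (T n - a) / 4 := by
    intro n k
    induction k with
    | zero => exact hTs n
    | succ k ih =>
      have e1 := hTs (n + k + 1)
      have e2 := hTa (n + k + 1)
      have e3 : T (n + (k + 1) + 1) = T (n + k + 1 + 1) := by congr 1
      rw [e3]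
      linarith
  have hTmn : ∀ m n, n < m → T m - a < (T n - a) / 4 := by
    intro m n hmn
    obtain ⟨k, rfl⟩ := Nat.exists_eq_add_of_lt hmn
    exact hTlt n k
  let φ : ℕ → ℝ → ℝ := fun n u => max 0 (1 - 2 * |u - T n| / (T n - a))
  have hφc : ∀ n, Continuous (φ n) := by
    intro n
    simp only [φ]
    fun_prop
  have hφ0 : ∀ n u, 0 ≤ φ n u := fun n u => le_max_left _ _
  have hφ1 : ∀ n u, φ n u ≤ 1 := by
    intro n u
    apply max_le zero_le_one
    have := hTa n
    have e : 0 ≤ 2 * |u - T n| / (T n - a) := by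
      apply div_nonneg (by positivity)
      linarith
    linarith
  have hφz : ∀ n u, (T n - a) ≤ 2 * |u - T n| → φ n u = 0 := by
    intro n u hu
    apply max_eq_left
    have := hTa n
    rw [sub_nonpos, le_div_iff₀ (by linarith)]
    linarith
  have hXn : ∀ n, ‖X n - x₀‖ ≤ 1 / 2 ^ n := fun n => (h3 _ (hδp n)).le.trans (hδle n)
  let ω : ℝ → E := fun u => x₀ + ∑' n, φ n u • (X n - x₀)
  have hωc : Continuous ω := by
    apply Continuous.add continuous_const
    apply continuous_tsum (u := fun n : ℕ => (1:ℝ) / 2 ^ n)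
    · intro n
      exact (hφc n).smul continuous_const
    · have := summable_geometric_two
      simpa using this
    · intro n u
      rw [norm_smul, Real.norm_eq_abs, abs_of_nonneg (hφ0 n u)]
      calc φ n u * ‖X n - x₀‖ ≤ 1 * (1 / 2 ^ n) := by
            gcongr
            · exact hφ1 n u
            · exact hXn n
        _ = 1 / 2 ^ n := one_mul _
  have hωT : ∀ n, ω (T n) = X n := by
    intro n
    simp only [ω]
    rw [tsum_eq_single n]
    · have : φ n (T n) = 1 := by simp [φ]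
      rw [this, one_smul]
      abel
    · intro m hm
      rw [hφz, zero_smul]
      rcases lt_or_gt_of_ne hm with hm | hm
      · have e1 := hTmn n m hm
        have e2 := hTa n
        have e3 := hTa m
        rw [abs_of_neg (by linarith)]
        linarith
      · have e1 := hTmn m n hm
        have e2 := hTa n
        have e3 := hTa m
        rw [abs_of_pos (by linarith)]
        linarith
  set S : ℕ → ℝ := fun n => a + (T n - a) / 2 with hS
  have hωS : ∀ n, ω (S n) = x₀ := by
    intro n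
    simp only [ω]
    have : ∀ m, φ m (S n) • (X m - x₀) = 0 := by
      intro m
      rw [hφz, zero_smul]
      have e2 := hTa n
      have e3 := hTa m
      simp only [hS]
      rcases lt_trichotomy m n with hm | hm | hm
      · have e1 := hTmn n m hm
        rw [abs_of_neg (by linarith)]
        linarith
      · subst hm
        rw [abs_of_neg (by linarith)]
        linarith
      · have e1 := hTmn m n hm
        rw [abs_of_pos (by linarith)]
        linarith
    simp [this]
  have hTlim : Tendsto T atTop (𝓝[>] a) := by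
    apply tendsto_nhdsWithin_of_tendsto_nhds_of_eventually_within
    · have hup : Tendsto (fun n : ℕ => a + 1 / 2 ^ n) atTop (𝓝 a) := by
        have : Tendsto (fun n : ℕ => ((1:ℝ) / 2) ^ n) atTop (𝓝 0) :=
          tendsto_pow_atTop_nhds_zero_of_lt_one (by norm_num) (by norm_num)
        have := this.const_add a
        simp only [add_zero, one_div, inv_pow] at this ⊢
        exact this
      refine tendsto_of_tendsto_of_tendsto_of_le_of_le tendsto_const_nhds hup
        (fun n => (hTa n).le) (fun n => ?_)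
      have e1 := h2 _ (hδp n)
      have e2 := hδle n
      simp only [hT] at *
      linarith
    · exact Eventually.of_forall fun n => hTa n
  have hSlim : Tendsto S atTop (𝓝[>] a) := by
    apply tendsto_nhdsWithin_of_tendsto_nhds_of_eventually_within
    · have : Tendsto T atTop (𝓝 a) := hTlim.mono_right nhdsWithin_le_nhds
      have h5 : Tendsto (fun n => a + (T n - a) / 2) atTop (𝓝 (a + (a - a) / 2)) :=
        ((this.sub_const a).div_const 2).const_add a
      simpa using h5
    · refine Eventually.of_forall fun n => ?_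
      have := hTa n
      simp only [hS, mem_Ioi]
      linarith
  obtain ⟨l', hl'⟩ := h ω hωc
  have e1 : Tendsto (fun n => J (S n) x₀) atTop (𝓝 l') := by
    have := hl'.comp hSlim
    refine this.congr fun n => ?_
    simp only [Function.comp, hωS n]
  have e2 : Tendsto (fun n => J (S n) x₀) atTop (𝓝 l) := hl.comp hSlim
  have e3 : l' = l := tendsto_nhds_unique e1 e2
  have e4 : Tendsto (fun n => J (T n) (X n)) atTop (𝓝 l) := by
    have := hl'.comp hTlim
    rw [e3] at this
    refine this.congr fun n => ?_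
    simp only [Function.comp, hωT n]
  rw [Metric.tendsto_nhds] at e4
  obtain ⟨n, hn⟩ := (e4 ε hε).exists
  have := h4 _ (hδp n)
  simp only [hT, hX] at hn
  linarith

/-- A joint limit of the Jacobians is the Jacobian of the limit. -/
lemma limit_eq_fderiv {f : ℝ → E → E} {a : ℝ} {x₀ : E} {F : Filter ℝ} [F.NeBot]
    (hF : ∀ y, Tendsto (fun t => f t y) F (𝓝 (f a y)))
    (hd : ∀ᶠ t in F, Differentiable ℝ (f t)) {l : E →L[ℝ] E}
    (hl : Tendsto (fun p : ℝ × E => fderiv ℝ (f p.1) p.2) (F ×ˢ 𝓝 x₀) (𝓝 l)) :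
    HasFDerivAt (f a) l x₀ := by
  rw [hasFDerivAt_iff_isLittleO, Asymptotics.isLittleO_iff]
  intro c hc
  rw [Metric.tendsto_nhds] at hl
  have h1 := hl c hc
  rw [eventually_prod_iff] at h1
  obtain ⟨pa, hpa, pb, hpb, hab⟩ := h1
  obtain ⟨δ, hδ, hball⟩ := Metric.eventually_nhds_iff_ball.mp hpb
  have h2 : ∀ y ∈ Metric.ball x₀ δ, ‖f a y - f a x₀ - l (y - x₀)‖ ≤ c * ‖y - x₀‖ := by
    intro y hy
    have h3 : Tendsto (fun t => ‖f t y - f t x₀ - l (y - x₀)‖) F
        (𝓝 ‖f a y - f a x₀ - l (y - x₀)‖) := (((hF y).sub (hF x₀)).sub_const _).norm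
    apply le_of_tendsto h3
    filter_upwards [hpa, hd] with t ht hdt
    apply Convex.norm_image_sub_le_of_norm_hasFDerivWithin_le' (f' := fderiv ℝ (f t))
      (s := Metric.ball x₀ δ)
    · intro z _
      exact (hdt z).hasFDerivAt.hasFDerivWithinAt
    · intro z hz
      have := hab ht (hball z hz)
      rw [dist_eq_norm] at this
      exact this.le
    · exact convex_ball x₀ δ
    · exact Metric.mem_ball_self hδ
    · exact hy
  filter_upwards [Metric.ball_mem_nhds x₀ hδ] with y hy
  exact h2 y hy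

/-- If `f` is continuous on `[0,∞) × E`, `C¹` in the space variable, and the Jacobian along every
continuous curve has one-sided limits, then the Jacobian is jointly continuous. -/
lemma jacobian_continuous [CompleteSpace E] {f : ℝ → E → E}
    (hc : ContinuousOn (Function.uncurry f) (Ici 0 ×ˢ univ))
    (hd : ∀ t, 0 ≤ t → ContDiff ℝ 1 (f t))
    (hr : ∀ ω : ℝ → E, Continuous ω → ∀ t, 0 ≤ t →
      ∃ l, Tendsto (fun t => fderiv ℝ (f t) (ω t)) (𝓝[>] t) (𝓝 l))
    (hl : ∀ ω : ℝ → E, Continuous ω → ∀ t, 0 < t →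
      ∃ l, Tendsto (fun t => fderiv ℝ (f t) (ω t)) (𝓝[<] t) (𝓝 l)) :
    ContinuousOn (fun p : ℝ × E => fderiv ℝ (f p.1) p.2) (Ici 0 ×ˢ univ) := by
  rintro ⟨a, x₀⟩ ⟨ha, -⟩
  rw [mem_Ici] at ha
  simp only at ha
  have hfc : ∀ y, ContinuousWithinAt (fun t => f t y) (Ici 0) a := by
    intro y
    have h1 : ContinuousOn (fun t : ℝ => (t, y)) (Ici 0) := by fun_prop
    exact (hc.comp h1 fun t ht => ⟨ht, mem_univ _⟩) a ha
  have hright : Tendsto (fun p : ℝ × E => fderiv ℝ (f p.1) p.2) (𝓝[>] a ×ˢ 𝓝 x₀)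
      (𝓝 (fderiv ℝ (f a) x₀)) := by
    obtain ⟨l, hl'⟩ := joint_limit (J := fun t x => fderiv ℝ (f t) x) (a := a) (x₀ := x₀)
      (fun ω hω => hr ω hω a ha)
    have := limit_eq_fderiv (f := f) (a := a) (x₀ := x₀) (F := 𝓝[>] a)
      (fun y => (hfc y).mono_left (nhdsWithin_mono _ fun t ht => ha.trans (le_of_lt ht)))
      (by
        filter_upwards [self_mem_nhdsWithin] with t ht
        exact (hd t (ha.trans (le_of_lt ht))).differentiable one_ne_zero) hl'
    rw [this.fderiv]
    exact hl'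
  have hmid : Tendsto (fun p : ℝ × E => fderiv ℝ (f p.1) p.2) (pure a ×ˢ 𝓝 x₀)
      (𝓝 (fderiv ℝ (f a) x₀)) := by
    rw [pure_prod, tendsto_map'_iff]
    exact ((hd a ha).continuous_fderiv one_ne_zero).tendsto x₀
  have hleft : 0 < a → Tendsto (fun p : ℝ × E => fderiv ℝ (f p.1) p.2) (𝓝[<] a ×ˢ 𝓝 x₀)
      (𝓝 (fderiv ℝ (f a) x₀)) := by
    intro ha0
    have hneg : Tendsto (fun t : ℝ => -t) (𝓝[>] (-a)) (𝓝[<] a) := by
      have : Tendsto (fun t : ℝ => -t) (𝓝[>] (-a)) (𝓝[<] (- -a)) := tendsto_neg_nhdsGT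
      rwa [neg_neg] at this
    obtain ⟨l, hl'⟩ := joint_limit (J := fun t x => fderiv ℝ (f (-t)) x) (a := -a) (x₀ := x₀)
      (fun ω hω => by
        obtain ⟨l, hl1⟩ := hl (fun t => ω (-t)) (hω.comp continuous_neg) a ha0
        refine ⟨l, ?_⟩
        have := hl1.comp hneg
        refine this.congr fun t => ?_
        simp only [Function.comp, neg_neg])
    have hneg2 : Tendsto (fun t : ℝ => -t) (𝓝[<] a) (𝓝[>] (-a)) := tendsto_neg_nhdsLT
    have hl2 : Tendsto (fun p : ℝ × E => fderiv ℝ (f p.1) p.2) (𝓝[<] a ×ˢ 𝓝 x₀) (𝓝 l) := by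
      have := hl'.comp (hneg2.prodMap (tendsto_id (x := 𝓝 x₀)))
      refine this.congr fun p => ?_
      simp only [Function.comp, Prod.map_fst, Prod.map_snd, neg_neg, id]
    have hin : ∀ᶠ t in 𝓝[<] a, 0 < t :=
      mem_nhdsWithin_of_mem_nhds (lt_mem_nhds ha0)
    have := limit_eq_fderiv (f := f) (a := a) (x₀ := x₀) (F := 𝓝[<] a)
      (fun y => by
        have h1 : ContinuousAt (fun t => f t y) a := (hfc y).continuousAt (Ici_mem_nhds ha0)
        exact h1.tendsto.mono_left nhdsWithin_le_nhds)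
      (by
        filter_upwards [hin] with t ht
        exact (hd t ht.le).differentiable one_ne_zero) hl2
    rw [this.fderiv]
    exact hl2
  unfold ContinuousWithinAt
  rw [nhdsWithin_prod_eq, nhdsWithin_univ]
  rcases ha.eq_or_lt with h0 | h0
  · rw [← h0]
    rw [← h0] at hmid hright
    rw [← nhdsGT_sup_nhdsWithin_singleton, nhdsWithin_singleton, sup_prod]
    exact hright.sup hmid
  · have : 𝓝[Ici 0] a ≤ 𝓝[<] a ⊔ (𝓝[>] a ⊔ pure a) := by
      rw [← nhdsWithin_singleton, nhdsGT_sup_nhdsWithin_singleton, nhdsLT_sup_nhdsGE]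
      exact nhdsWithin_le_nhds
    refine Tendsto.mono_left ?_ (Filter.prod_mono this le_rfl)
    rw [sup_prod, sup_prod]
    exact (hleft h0).sup (hright.sup hmid)

end Pool.Agent.TH339.MY
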