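import Mathlib

/-!
Finite-dimensional blocks for a nearly unconditional basis that is not truncation quasi-greedy.

Block `n`, with `N = n + 2`: coordinates `g (inl i)`, `i < N`, and `g (inr j)`, `j < N ^ 2`. The norm
is the sum of the sup-norm, of `∑ j, |g (inr j) - σ(g) / N ^ 2|`, where `σ(g) = ∑ i, g (inl i)`, and of
the supremum of `∑ i ∈ B, |g (inl i)|` over the sets `B` with `∑ i ∈ B, 1 / (i + 1) ≤ 1`.
-/

set_option autoImplicit false

open Finset

namespace Pool.Agent.TH339.NU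

/-- Index set of block `n`. -/
abbrev I (n : ℕ) : Type := Fin (n + 2) ⊕ Fin ((n + 2) ^ 2)

/-- Admissible sets of low indices. -/
abbrev Adm (n : ℕ) : Type := {B : Finset (Fin (n + 2)) // ∑ i ∈ B, (1 : ℝ) / ((i : ℕ) + 1) ≤ 1}

instance (n : ℕ) : Nonempty (Adm n) := ⟨⟨∅, by simp⟩⟩

/-- Sum of the low coordinates. -/
def sig (n : ℕ) (g : I n → ℝ) : ℝ := ∑ i, g (Sum.inl i)

/-- The middle part of the norm. -/
noncomputable def mid (n : ℕ) (g : I n → ℝ) : ℝ :=
  ∑ j, |g (Sum.inr j) - sig n g / ((n : ℝ) + 2) ^ 2|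

/-- The lattice part of the norm. -/
noncomputable def lat (n : ℕ) (g : I n → ℝ) : ℝ :=
  ⨆ B : Adm n, ∑ i ∈ B.1, |g (Sum.inl i)|

/-- The norm of block `n`. -/
noncomputable def nrm (n : ℕ) (g : I n → ℝ) : ℝ := ‖g‖ + mid n g + lat n g

lemma sig_add (n : ℕ) (g h : I n → ℝ) : sig n (g + h) = sig n g + sig n h := by
  simp [sig, Finset.sum_add_distrib]

lemma sig_smul (n : ℕ) (c : ℝ) (g : I n → ℝ) : sig n (c • g) = c * sig n g := by
  simp [sig, Finset.mul_sum]

lemma mid_nonneg (n : ℕ) (g : I n → ℝ) : 0 ≤ mid n g :=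
  Finset.sum_nonneg fun _ _ => abs_nonneg _

lemma le_lat (n : ℕ) (g : I n → ℝ) (B : Finset (Fin (n + 2)))
    (hB : ∑ i ∈ B, (1 : ℝ) / ((i : ℕ) + 1) ≤ 1) : ∑ i ∈ B, |g (Sum.inl i)| ≤ lat n g :=
  le_ciSup (f := fun B : Adm n => ∑ i ∈ B.1, |g (Sum.inl i)|) (Set.finite_range _).bddAbove ⟨B, hB⟩

lemma lat_le (n : ℕ) (g : I n → ℝ) (c : ℝ) (h : ∀ B : Finset (Fin (n + 2)),
    ∑ i ∈ B, (1 : ℝ) / ((i : ℕ) + 1) ≤ 1 → ∑ i ∈ B, |g (Sum.inl i)| ≤ c) : lat n g ≤ c :=
  ciSup_le fun B => h B.1 B.2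

lemma lat_nonneg (n : ℕ) (g : I n → ℝ) : 0 ≤ lat n g := by
  have := le_lat n g ∅ (by simp)
  simpa using this

lemma lat_add (n : ℕ) (g h : I n → ℝ) : lat n (g + h) ≤ lat n g + lat n h := by
  apply lat_le
  intro B hB
  calc ∑ i ∈ B, |(g + h) (Sum.inl i)| ≤ ∑ i ∈ B, (|g (Sum.inl i)| + |h (Sum.inl i)|) :=
        Finset.sum_le_sum fun i _ => abs_add_le _ _
    _ = ∑ i ∈ B, |g (Sum.inl i)| + ∑ i ∈ B, |h (Sum.inl i)| := Finset.sum_add_distrib
    _ ≤ _ := add_le_add (le_lat n g B hB) (le_lat n h B hB)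

lemma lat_smul_le (n : ℕ) (c : ℝ) (g : I n → ℝ) : lat n (c • g) ≤ |c| * lat n g := by
  apply lat_le
  intro B hB
  calc ∑ i ∈ B, |(c • g) (Sum.inl i)| = |c| * ∑ i ∈ B, |g (Sum.inl i)| := by
        rw [Finset.mul_sum]
        exact Finset.sum_congr rfl fun i _ => by rw [Pi.smul_apply, smul_eq_mul, abs_mul]
    _ ≤ _ := mul_le_mul_of_nonneg_left (le_lat n g B hB) (abs_nonneg c)

lemma mid_add (n : ℕ) (g h : I n → ℝ) : mid n (g + h) ≤ mid n g + mid n h := by
  unfold mid
  rw [← Finset.sum_add_distrib]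
  apply Finset.sum_le_sum
  intro j _
  rw [sig_add, Pi.add_apply]
  have : g (Sum.inr j) + h (Sum.inr j) - (sig n g + sig n h) / ((n : ℝ) + 2) ^ 2 =
    (g (Sum.inr j) - sig n g / ((n : ℝ) + 2) ^ 2) + (h (Sum.inr j) - sig n h / ((n : ℝ) + 2) ^ 2) := by
    ring
  rw [this]
  exact abs_add_le _ _

lemma mid_smul (n : ℕ) (c : ℝ) (g : I n → ℝ) : mid n (c • g) = |c| * mid n g := by
  unfold mid
  rw [Finset.mul_sum]
  apply Finset.sum_congr rfl
  intro j _
  rw [sig_smul, Pi.smul_apply, smul_eq_mul, ← abs_mul]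
  congr 1
  ring

lemma nrm_nonneg (n : ℕ) (g : I n → ℝ) : 0 ≤ nrm n g :=
  add_nonneg (add_nonneg (norm_nonneg _) (mid_nonneg n g)) (lat_nonneg n g)

lemma norm_le_nrm (n : ℕ) (g : I n → ℝ) : ‖g‖ ≤ nrm n g := by
  unfold nrm
  linarith [mid_nonneg n g, lat_nonneg n g]

lemma mid_le_nrm (n : ℕ) (g : I n → ℝ) : mid n g ≤ nrm n g := by
  unfold nrm
  linarith [norm_nonneg g, lat_nonneg n g]

lemma lat_le_nrm (n : ℕ) (g : I n → ℝ) : lat n g ≤ nrm n g := by
  unfold nrm
  linarith [norm_nonneg g, mid_nonneg n g]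

lemma nrm_add (n : ℕ) (g h : I n → ℝ) : nrm n (g + h) ≤ nrm n g + nrm n h := by
  unfold nrm
  linarith [norm_add_le g h, mid_add n g h, lat_add n g h]

lemma nrm_smul_le (n : ℕ) (c : ℝ) (g : I n → ℝ) : nrm n (c • g) ≤ |c| * nrm n g := by
  unfold nrm
  rw [norm_smul, mid_smul, Real.norm_eq_abs]
  linarith [lat_smul_le n c g]

lemma nrm_smul (n : ℕ) (c : ℝ) (g : I n → ℝ) : nrm n (c • g) = |c| * nrm n g := by
  apply le_antisymm (nrm_smul_le n c g)
  by_cases hc : c = 0
  · subst hc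
    rw [abs_zero, zero_mul]
    exact nrm_nonneg _ _
  · have h1 := nrm_smul_le n c⁻¹ (c • g)
    rw [smul_smul, inv_mul_cancel₀ hc, one_smul] at h1
    have h2 : 0 < |c| := abs_pos.2 hc
    calc |c| * nrm n g ≤ |c| * (|c⁻¹| * nrm n (c • g)) := mul_le_mul_of_nonneg_left h1 h2.le
      _ = nrm n (c • g) := by rw [abs_inv, ← mul_assoc, mul_inv_cancel₀ h2.ne', one_mul]

/-! ### Near unconditionality of the blocks -/

/-- A set of `b` low indices has an admissible subset with at least `b / 2` elements. -/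
lemma exists_adm (n : ℕ) (B : Finset (Fin (n + 2))) :
    ∃ B' ⊆ B, ∑ i ∈ B', (1 : ℝ) / ((i : ℕ) + 1) ≤ 1 ∧ (B.card : ℝ) ≤ 2 * B'.card := by
  classical
  set k : ℕ := B.card / 2 with hk
  have hlow : (B.filter (fun i : Fin (n + 2) => (i : ℕ) < k)).card ≤ k := by
    have h1 : (B.filter (fun i : Fin (n + 2) => (i : ℕ) < k)).card =
        ((B.filter (fun i : Fin (n + 2) => (i : ℕ) < k)).image (fun i : Fin (n + 2) => (i : ℕ))).card :=
      (Finset.card_image_of_injective _ Fin.val_injective).symm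
    rw [h1]
    calc _ ≤ (Finset.range k).card := by
          apply Finset.card_le_card
          intro m hm
          simp only [Finset.mem_image, Finset.mem_filter] at hm
          obtain ⟨i, ⟨_, hi⟩, rfl⟩ := hm
          exact Finset.mem_range.2 hi
      _ = k := Finset.card_range k
  have hhigh : B.card - k ≤ (B.filter (fun i : Fin (n + 2) => ¬ (i : ℕ) < k)).card := by
    have := Finset.card_filter_add_card_filter_not (s := B) (fun i : Fin (n + 2) => (i : ℕ) < k)
    omega
  obtain ⟨B', hB', hcard⟩ := Finset.exists_subset_card_eq hhigh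
  refine ⟨B', hB'.trans (Finset.filter_subset _ _), ?_, ?_⟩
  · calc ∑ i ∈ B', (1 : ℝ) / ((i : ℕ) + 1) ≤ ∑ _i ∈ B', (1 : ℝ) / ((k : ℝ) + 1) := by
          apply Finset.sum_le_sum
          intro i hi
          have h2 := (Finset.mem_filter.1 (hB' hi)).2
          have h3 : (k : ℝ) ≤ ((i : ℕ) : ℝ) := by exact_mod_cast not_lt.1 h2
          apply one_div_le_one_div_of_le
          · positivity
          · linarith
      _ = (B'.card : ℝ) * (1 / ((k : ℝ) + 1)) := by rw [Finset.sum_const, nsmul_eq_mul]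
      _ ≤ 1 := by
          rw [mul_one_div, div_le_one (by positivity)]
          have : B'.card ≤ k + 1 := by omega
          exact_mod_cast this
  · have : B.card ≤ 2 * B'.card := by omega
    exact_mod_cast this

/-- Restriction of `g` to `B`. -/
noncomputable def res {n : ℕ} (B : Finset (I n)) (g : I n → ℝ) : I n → ℝ := by
  classical exact fun i => if i ∈ B then g i else 0

lemma abs_res_le {n : ℕ} (B : Finset (I n)) (g : I n → ℝ) (i : I n) : |res B g i| ≤ |g i| := by
  unfold res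
  split_ifs
  · exact le_rfl
  · rw [abs_zero]; exact abs_nonneg _

/-- Near unconditionality of the blocks, with a constant which does not depend on the block. -/
theorem nrm_res_le (n : ℕ) (a : ℝ) (ha : 0 < a) (ha1 : a ≤ 1) (g : I n → ℝ) (hg : ∀ i, |g i| ≤ 1)
    (B : Finset (I n)) (hB : ∀ i ∈ B, a ≤ |g i|) : nrm n (res B g) ≤ (9 / a ^ 3) * nrm n g := by
  classical
  set N : ℝ := (n : ℝ) + 2 with hN
  have hN2 : 2 ≤ N := by rw [hN]; linarith [Nat.cast_nonneg (α := ℝ) n]
  have hN0 : 0 < N := by linarith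
  -- the sup-norm part
  have h1 : ‖res B g‖ ≤ nrm n g := by
    refine le_trans ?_ (norm_le_nrm n g)
    rw [pi_norm_le_iff_of_nonneg (norm_nonneg _)]
    intro i
    rw [Real.norm_eq_abs]
    exact (abs_res_le B g i).trans (by rw [← Real.norm_eq_abs]; exact norm_le_pi_norm g i)
  -- the lattice part
  have h2 : lat n (res B g) ≤ nrm n g := by
    refine le_trans ?_ (lat_le_nrm n g)
    apply lat_le
    intro B' hB'
    exact (Finset.sum_le_sum fun i _ => abs_res_le B g _).trans (le_lat n g B' hB')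
  -- low coordinates in `B`
  set Bl : Finset (Fin (n + 2)) := Finset.univ.filter (fun i => (Sum.inl i : I n) ∈ B) with hBl
  set Bt : Finset (Fin ((n + 2) ^ 2)) := Finset.univ.filter (fun j => (Sum.inr j : I n) ∈ B) with hBt
  have h3 : (Bl.card : ℝ) ≤ 2 / a * nrm n g := by
    obtain ⟨B', hB'1, hB'2, hB'3⟩ := exists_adm n Bl
    have h4 : (B'.card : ℝ) * a ≤ nrm n g := by
      calc (B'.card : ℝ) * a = ∑ _i ∈ B', a := by rw [Finset.sum_const, nsmul_eq_mul]
        _ ≤ ∑ i ∈ B', |g (Sum.inl i)| := Finset.sum_le_sum fun i hi =>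
            hB _ (Finset.mem_filter.1 (hB'1 hi)).2
        _ ≤ lat n g := le_lat n g B' hB'2
        _ ≤ nrm n g := lat_le_nrm n g
    rw [div_mul_eq_mul_div, le_div_iff₀ ha]
    nlinarith
  have hsig : |sig n g| ≤ N := by
    calc |sig n g| ≤ ∑ i : Fin (n + 2), |g (Sum.inl i)| := Finset.abs_sum_le_sum_abs _ _
      _ ≤ ∑ _i : Fin (n + 2), (1 : ℝ) := Finset.sum_le_sum fun i _ => hg _
      _ = N := by simp [hN]
  have h5 : (Bt.card : ℝ) ≤ 4 / a ^ 3 * nrm n g := by
    have hnn := nrm_nonneg n g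
    by_cases hNa : 2 / a ≤ N
    · have h6 : ∀ j ∈ Bt, a / 2 ≤ |g (Sum.inr j) - sig n g / N ^ 2| := by
        intro j hj
        have h7 : a ≤ |g (Sum.inr j)| := hB _ (Finset.mem_filter.1 hj).2
        have h8 : |sig n g / N ^ 2| ≤ a / 2 := by
          rw [abs_div, abs_of_pos (by positivity : (0 : ℝ) < N ^ 2), div_le_iff₀ (by positivity)]
          rw [div_le_iff₀ ha] at hNa
          nlinarith
        have h9 : |g (Sum.inr j)| ≤ |g (Sum.inr j) - sig n g / N ^ 2| + |sig n g / N ^ 2| := by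
          have := abs_add_le (g (Sum.inr j) - sig n g / N ^ 2) (sig n g / N ^ 2)
          rwa [sub_add_cancel] at this
        linarith
      have h10 : (Bt.card : ℝ) * (a / 2) ≤ nrm n g := by
        calc (Bt.card : ℝ) * (a / 2) = ∑ _j ∈ Bt, (a / 2) := by rw [Finset.sum_const, nsmul_eq_mul]
          _ ≤ ∑ j ∈ Bt, |g (Sum.inr j) - sig n g / N ^ 2| := Finset.sum_le_sum h6
          _ ≤ mid n g := Finset.sum_le_univ_sum_of_nonneg fun _ => abs_nonneg _
          _ ≤ nrm n g := mid_le_nrm n g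
      have h11 : (Bt.card : ℝ) ≤ 2 / a * nrm n g := by
        rw [div_mul_eq_mul_div, le_div_iff₀ ha]; linarith
      refine h11.trans (mul_le_mul_of_nonneg_right ?_ hnn)
      rw [div_le_div_iff₀ ha (by positivity)]
      have : a ^ 3 ≤ a := by
        calc a ^ 3 = a * a ^ 2 := by ring
          _ ≤ a * 1 := mul_le_mul_of_nonneg_left (pow_le_one₀ ha.le ha1) ha.le
          _ = a := mul_one a
      linarith
    · push Not at hNa
      rcases Bt.eq_empty_or_nonempty with h | ⟨j, hj⟩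
      · rw [h]; simp only [Finset.card_empty, Nat.cast_zero]; positivity
      · have h7 : a ≤ nrm n g := by
          refine le_trans ?_ (norm_le_nrm n g)
          refine le_trans (hB _ (Finset.mem_filter.1 hj).2) ?_
          rw [← Real.norm_eq_abs]; exact norm_le_pi_norm g _
        have h8 : (Bt.card : ℝ) ≤ N ^ 2 := by
          have := Finset.card_le_univ Bt
          rw [Fintype.card_fin] at this
          calc (Bt.card : ℝ) ≤ (((n + 2) ^ 2 : ℕ) : ℝ) := by exact_mod_cast this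
            _ = N ^ 2 := by rw [hN]; push_cast; ring
        have h9 : N ^ 2 ≤ 4 / a ^ 2 := by
          calc N ^ 2 ≤ (2 / a) ^ 2 := pow_le_pow_left₀ hN0.le hNa.le 2
            _ = 4 / a ^ 2 := by rw [div_pow]; norm_num
        calc (Bt.card : ℝ) ≤ 4 / a ^ 2 := h8.trans h9
          _ = 4 / a ^ 3 * a := by field_simp
          _ ≤ 4 / a ^ 3 * nrm n g := mul_le_mul_of_nonneg_left h7 (by positivity)
  -- the middle part
  have h12 : |sig n (res B g)| ≤ Bl.card := by
    calc |sig n (res B g)| ≤ ∑ i : Fin (n + 2), |res B g (Sum.inl i)| :=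
          Finset.abs_sum_le_sum_abs _ _
      _ ≤ ∑ i : Fin (n + 2), (if i ∈ Bl then (1 : ℝ) else 0) := by
          apply Finset.sum_le_sum
          intro i _
          by_cases hi : (Sum.inl i : I n) ∈ B
          · rw [if_pos (by simp [hBl, hi])]
            exact (abs_res_le B g _).trans (hg _)
          · rw [if_neg (by simp [hBl, hi])]
            simp [res, hi]
      _ = Bl.card := by simp
  have h13 : mid n (res B g) ≤ Bt.card + Bl.card := by
    calc mid n (res B g) ≤ ∑ j : Fin ((n + 2) ^ 2), ((if j ∈ Bt then (1 : ℝ) else 0) +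
          Bl.card / N ^ 2) := by
          apply Finset.sum_le_sum
          intro j _
          have h14 : |res B g (Sum.inr j)| ≤ (if j ∈ Bt then (1 : ℝ) else 0) := by
            by_cases hj : (Sum.inr j : I n) ∈ B
            · rw [if_pos (by simp [hBt, hj])]
              exact (abs_res_le B g _).trans (hg _)
            · rw [if_neg (by simp [hBt, hj])]
              simp [res, hj]
          have h15 : |sig n (res B g) / N ^ 2| ≤ Bl.card / N ^ 2 := by
            rw [abs_div, abs_of_pos (by positivity : (0 : ℝ) < N ^ 2)]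
            exact div_le_div_of_nonneg_right h12 (by positivity)
          exact (abs_sub _ _).trans (add_le_add h14 h15)
      _ = Bt.card + Bl.card := by
          rw [Finset.sum_add_distrib, Finset.sum_const, Finset.card_univ, Fintype.card_fin,
            nsmul_eq_mul]
          have : (((n + 2) ^ 2 : ℕ) : ℝ) = N ^ 2 := by rw [hN]; push_cast; ring
          rw [this, mul_div_cancel₀ _ (by positivity)]
          simp
  have hnn := nrm_nonneg n g
  have ha3 : 1 ≤ 1 / a ^ 3 := by
    rw [le_div_iff₀ (by positivity), one_mul]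
    exact pow_le_one₀ ha.le ha1
  have ha4 : 2 / a ≤ 2 / a ^ 3 := by
    rw [div_le_div_iff₀ ha (by positivity)]
    have : a ^ 3 ≤ a := by
      calc a ^ 3 = a * a ^ 2 := by ring
        _ ≤ a * 1 := mul_le_mul_of_nonneg_left (pow_le_one₀ ha.le ha1) ha.le
        _ = a := mul_one a
    linarith
  calc nrm n (res B g) = ‖res B g‖ + mid n (res B g) + lat n (res B g) := rfl
    _ ≤ nrm n g + (4 / a ^ 3 * nrm n g + 2 / a * nrm n g) + nrm n g := by linarith
    _ ≤ 1 / a ^ 3 * nrm n g + (4 / a ^ 3 * nrm n g + 2 / a ^ 3 * nrm n g) + 1 / a ^ 3 * nrm n g := by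
        have e1 := mul_le_mul_of_nonneg_right ha3 hnn
        have e2 := mul_le_mul_of_nonneg_right ha4 hnn
        linarith
    _ = (8 / a ^ 3) * nrm n g := by ring
    _ ≤ (9 / a ^ 3) * nrm n g := by
        apply mul_le_mul_of_nonneg_right _ hnn
        apply div_le_div_of_nonneg_right _ (by positivity)
        norm_num

end Pool.Agent.TH339.NU
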