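import Pool.Agent.TH339.NU1

/-!
The vectors of the blocks which show that truncation quasi-greediness fails, and the sum of the
blocks.
-/

set_option autoImplicit false

open Finset Filter Topology

namespace Pool.Agent.TH339.NU

/-- Partial sum of the harmonic series. -/
noncomputable def H (n : ℕ) : ℝ := ∑ i : Fin (n + 2), (1 : ℝ) / ((i : ℕ) + 1)

lemma H_eq (n : ℕ) : H n = ∑ i ∈ Finset.range (n + 2), (1 : ℝ) / ((i : ℝ) + 1) := by
  unfold H
  rw [Finset.sum_range (fun i : ℕ => (1 : ℝ) / ((i : ℝ) + 1))]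

lemma H_tendsto : Tendsto H atTop atTop := by
  have h := Real.tendsto_sum_range_one_div_nat_succ_atTop
  have h2 := h.comp (tendsto_add_atTop_nat 2)
  refine h2.congr fun n => ?_
  simp only [Function.comp_apply]
  rw [H_eq]

lemma H_nonneg (n : ℕ) : 0 ≤ H n := Finset.sum_nonneg fun _ _ => by positivity

lemma H_pos (n : ℕ) : 0 < H n := by
  unfold H
  apply Finset.sum_pos (fun _ _ => by positivity) ⟨0, Finset.mem_univ _⟩

lemma H_le (n : ℕ) : H n ≤ (n : ℝ) + 2 := by
  unfold H
  calc _ ≤ ∑ _i : Fin (n + 2), (1 : ℝ) := Finset.sum_le_sum fun i _ => by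
        rw [div_le_one (by positivity)]
        linarith [Nat.cast_nonneg (α := ℝ) (i : ℕ)]
    _ = (n : ℝ) + 2 := by simp

/-- The bad vector of block `n`. -/
noncomputable def xx (n : ℕ) : I n → ℝ :=
  Sum.elim (fun i => 1 / ((i : ℕ) + 1)) (fun _ => H n / ((n : ℝ) + 2) ^ 2)

lemma xx_pos (n : ℕ) (i : I n) : 0 < xx n i := by
  have := H_pos n
  rcases i with i | j
  · simp only [xx, Sum.elim_inl]; positivity
  · simp only [xx, Sum.elim_inr]; positivity

lemma le_xx (n : ℕ) (i : I n) : H n / ((n : ℝ) + 2) ^ 2 ≤ xx n i := by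
  have hn : (0 : ℝ) ≤ n := Nat.cast_nonneg n
  rcases i with i | j
  · simp only [xx, Sum.elim_inl]
    rw [div_le_div_iff₀ (by positivity) (by positivity)]
    have h1 := H_le n
    have h2 : ((i : ℕ) : ℝ) + 1 ≤ (n : ℝ) + 2 := by
      have : (i : ℕ) + 1 ≤ n + 2 := i.2
      exact_mod_cast this
    have h3 := H_nonneg n
    have h4 : (0 : ℝ) ≤ ((i : ℕ) : ℝ) + 1 := by positivity
    calc H n * (((i : ℕ) : ℝ) + 1) ≤ ((n : ℝ) + 2) * ((n : ℝ) + 2) :=
          mul_le_mul h1 h2 h4 (by positivity)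
      _ = 1 * ((n : ℝ) + 2) ^ 2 := by ring
  · simp only [xx, Sum.elim_inr]; exact le_rfl

lemma xx_le (n : ℕ) (i : I n) : xx n i ≤ 1 := by
  have hn : (0 : ℝ) ≤ n := Nat.cast_nonneg n
  rcases i with i | j
  · simp only [xx, Sum.elim_inl]
    rw [div_le_one (by positivity)]
    linarith [Nat.cast_nonneg (α := ℝ) (i : ℕ)]
  · simp only [xx, Sum.elim_inr]
    rw [div_le_one (by positivity)]
    have := H_le n
    nlinarith

lemma nrm_xx (n : ℕ) : nrm n (xx n) ≤ 2 := by
  have hn : (0 : ℝ) ≤ n := Nat.cast_nonneg n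
  have h1 : ‖xx n‖ ≤ 1 := by
    rw [pi_norm_le_iff_of_nonneg zero_le_one]
    intro i
    rw [Real.norm_eq_abs, abs_of_pos (xx_pos n i)]
    exact xx_le n i
  have h2 : mid n (xx n) = 0 := by
    unfold mid
    apply Finset.sum_eq_zero
    intro j _
    have : sig n (xx n) = H n := by simp [sig, xx, H]
    rw [this]
    simp [xx]
  have h3 : lat n (xx n) ≤ 1 := by
    apply lat_le
    intro B hB
    refine le_trans (le_of_eq ?_) hB
    apply Finset.sum_congr rfl
    intro i _
    rw [abs_of_pos (xx_pos n _)]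
    simp [xx]
  unfold nrm
  linarith

lemma nrm_one (n : ℕ) : ((n : ℝ) + 2) ^ 2 / 2 ≤ nrm n (fun _ => 1) := by
  have hn : (0 : ℝ) ≤ n := Nat.cast_nonneg n
  refine le_trans ?_ (mid_le_nrm n _)
  unfold mid
  have h1 : sig n (fun _ => 1) = (n : ℝ) + 2 := by simp [sig]
  rw [h1]
  rw [Finset.sum_const, Finset.card_univ, Fintype.card_fin, nsmul_eq_mul]
  have h2 : (((n + 2) ^ 2 : ℕ) : ℝ) = ((n : ℝ) + 2) ^ 2 := by push_cast; ring
  rw [h2]
  have h3 : 1 / 2 ≤ |1 - ((n : ℝ) + 2) / ((n : ℝ) + 2) ^ 2| := by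
    refine le_trans ?_ (le_abs_self _)
    have : ((n : ℝ) + 2) / ((n : ℝ) + 2) ^ 2 ≤ 1 / 2 := by
      rw [div_le_div_iff₀ (by positivity) (by positivity)]
      nlinarith
    linarith
  have h4 : (0 : ℝ) ≤ ((n : ℝ) + 2) ^ 2 := by positivity
  nlinarith

/-- The bad ratio of block `n`. -/
lemma bad (n : ℕ) : H n / 2 ≤ H n / ((n : ℝ) + 2) ^ 2 * nrm n (fun _ => 1) := by
  have hn : (0 : ℝ) ≤ n := Nat.cast_nonneg n
  have h1 := nrm_one n
  have h2 := H_nonneg n
  calc H n / 2 = H n / ((n : ℝ) + 2) ^ 2 * (((n : ℝ) + 2) ^ 2 / 2) := by field_simp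
    _ ≤ _ := mul_le_mul_of_nonneg_left h1 (by positivity)

lemma nrm_single (n : ℕ) (i : I n) [DecidableEq (I n)] : nrm n (Pi.single i 1) ≤ 3 := by
  have hn : (0 : ℝ) ≤ n := Nat.cast_nonneg n
  have h0 : ∀ k, |(Pi.single i (1 : ℝ) : I n → ℝ) k| ≤ if k = i then 1 else 0 := by
    intro k
    by_cases h : k = i
    · subst h; simp
    · simp [h]
  have h1 : ‖(Pi.single i (1 : ℝ) : I n → ℝ)‖ ≤ 1 := by
    rw [pi_norm_le_iff_of_nonneg zero_le_one]
    intro k
    rw [Real.norm_eq_abs]
    refine (h0 k).trans ?_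
    split_ifs <;> norm_num
  have h2 : lat n (Pi.single i 1) ≤ 1 := by
    apply lat_le
    intro B _
    calc ∑ k ∈ B, |(Pi.single i (1 : ℝ) : I n → ℝ) (Sum.inl k)| ≤
        ∑ k ∈ B, (if (Sum.inl k : I n) = i then (1 : ℝ) else 0) := Finset.sum_le_sum fun k _ => h0 _
      _ ≤ ∑ k : Fin (n + 2), (if (Sum.inl k : I n) = i then (1 : ℝ) else 0) :=
          Finset.sum_le_univ_sum_of_nonneg fun k => by split_ifs <;> norm_num
      _ ≤ 1 := by
          rcases i with i | j
          · simp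
          · simp
  have h3 : mid n (Pi.single i 1) ≤ 1 := by
    rcases i with i | j
    · have hs : sig n (Pi.single (Sum.inl i) 1) = 1 := by
        unfold sig
        rw [Finset.sum_eq_single i]
        · simp
        · intro k _ hk
          rw [Pi.single_eq_of_ne]
          intro h; exact hk (Sum.inl.inj h)
        · simp
      unfold mid
      rw [hs]
      have : ∀ j : Fin ((n + 2) ^ 2), |(Pi.single (Sum.inl i) (1 : ℝ) : I n → ℝ) (Sum.inr j) -
          1 / ((n : ℝ) + 2) ^ 2| = 1 / ((n : ℝ) + 2) ^ 2 := by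
        intro j
        rw [Pi.single_eq_of_ne (by simp), zero_sub, abs_neg, abs_of_nonneg (by positivity)]
      rw [Finset.sum_congr rfl fun j _ => this j, Finset.sum_const, Finset.card_univ,
        Fintype.card_fin, nsmul_eq_mul]
      have h2 : (((n + 2) ^ 2 : ℕ) : ℝ) = ((n : ℝ) + 2) ^ 2 := by push_cast; ring
      rw [h2, mul_one_div_cancel (by positivity)]
    · have hs : sig n (Pi.single (Sum.inr j) 1) = 0 := by
        unfold sig
        apply Finset.sum_eq_zero
        intro k _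
        rw [Pi.single_eq_of_ne (by simp)]
      unfold mid
      rw [hs]
      simp only [zero_div, sub_zero]
      calc ∑ k : Fin ((n + 2) ^ 2), |(Pi.single (Sum.inr j) (1 : ℝ) : I n → ℝ) (Sum.inr k)| ≤
          ∑ k : Fin ((n + 2) ^ 2), (if (Sum.inr k : I n) = Sum.inr j then (1 : ℝ) else 0) :=
            Finset.sum_le_sum fun k _ => h0 _
        _ ≤ 1 := by simp
  unfold nrm
  linarith

/-! ### The blocks as Banach spaces -/

/-- Block `n` as a normed space. -/
def E (n : ℕ) : Type := I n → ℝ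

noncomputable instance (n : ℕ) : AddCommGroup (E n) := inferInstanceAs (AddCommGroup (I n → ℝ))

noncomputable instance (n : ℕ) : Module ℝ (E n) := inferInstanceAs (Module ℝ (I n → ℝ))

noncomputable instance (n : ℕ) : Norm (E n) := ⟨fun g => nrm n g⟩

lemma norm_def (n : ℕ) (g : E n) : ‖g‖ = nrm n g := rfl

lemma E_core (n : ℕ) : NormedSpace.Core ℝ (E n) where
  norm_nonneg := fun g => nrm_nonneg n g
  norm_smul := fun c g => nrm_smul n c g
  norm_triangle := fun g h => nrm_add n g h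
  norm_eq_zero_iff := fun g => by
    constructor
    · intro h
      have h1 : ‖(show I n → ℝ from g)‖ ≤ 0 := (norm_le_nrm n g).trans (le_of_eq h)
      exact norm_le_zero_iff.1 h1
    · intro h
      subst h
      have := nrm_smul n 0 (0 : I n → ℝ)
      rw [zero_smul, abs_zero, zero_mul] at this
      exact this

noncomputable instance (n : ℕ) : NormedAddCommGroup (E n) := NormedAddCommGroup.ofCore (E_core n)

noncomputable instance (n : ℕ) : NormedSpace ℝ (E n) := NormedSpace.ofCore (E_core n)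

instance (n : ℕ) : FiniteDimensional ℝ (E n) := inferInstanceAs (FiniteDimensional ℝ (I n → ℝ))

instance (n : ℕ) : CompleteSpace (E n) := FiniteDimensional.complete ℝ (E n)

/-- The space. -/
abbrev X : Type := lp E 1

example : CompleteSpace X := inferInstance

end Pool.Agent.TH339.NU
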