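import Mathlib

set_option autoImplicit false

/-!
# A norm with Property (A) which is not unconditional: combinatorial part
-/

namespace Pool.Agent.TH339.PA

open Finset

noncomputable section

/-- The differences of the square root. -/
def d (n : ℕ) : ℝ := √((n : ℝ) + 1) - √(n : ℝ)

lemma d_nonneg (n : ℕ) : 0 ≤ d n := by
  unfold d
  have := Real.sqrt_le_sqrt (show (n : ℝ) ≤ (n : ℝ) + 1 by linarith)
  linarith

lemma d_mul (n : ℕ) : d n * (√((n : ℝ) + 1) + √(n : ℝ)) = 1 := by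
  unfold d
  have h1 := Real.mul_self_sqrt (show (0 : ℝ) ≤ (n : ℝ) + 1 by positivity)
  have h2 := Real.mul_self_sqrt (show (0 : ℝ) ≤ (n : ℝ) by positivity)
  nlinarith

lemma d_anti {m n : ℕ} (h : m ≤ n) : d n ≤ d m := by
  have h1 := d_mul m
  have h2 := d_mul n
  have h3 : √((m : ℝ) + 1) ≤ √((n : ℝ) + 1) := Real.sqrt_le_sqrt (by
    have : (m : ℝ) ≤ n := by exact_mod_cast h
    linarith)
  have h4 : √(m : ℝ) ≤ √(n : ℝ) := Real.sqrt_le_sqrt (by exact_mod_cast h)
  have h5 : 0 < √((m : ℝ) + 1) := Real.sqrt_pos.2 (by positivity)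
  have h6 : 0 ≤ √(m : ℝ) := Real.sqrt_nonneg _
  have h7 := d_nonneg n
  by_contra hcon
  push Not at hcon
  nlinarith

lemma d_le_one (n : ℕ) : d n ≤ 1 := by
  have := d_anti (Nat.zero_le n)
  simpa [d] using this

variable {𝕜 : Type} [RCLike 𝕜]

/-- The symmetric part of the norm. -/
def head (J : Finset ℕ) (a : ℕ → 𝕜) : ℝ := (√(#J : ℝ))⁻¹ * ∑ j ∈ J, ‖a j‖

/-- The set on which the conditional part of the norm lives. -/
def tset (J : Finset ℕ) (M : ℕ) : Finset ℕ := Finset.Ico #J M \ J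

/-- The conditional part of the norm. -/
def tail (J : Finset ℕ) (M : ℕ) (a : ℕ → 𝕜) : 𝕜 := ∑ n ∈ tset J M, ((d n / 2 : ℝ) : 𝕜) * a n

/-- The value. -/
def val (J : Finset ℕ) (M : ℕ) (a : ℕ → 𝕜) : ℝ := head J a + ‖tail J M a‖

lemma head_insert_ge {J : Finset ℕ} {a : ℕ → 𝕜} {t : ℝ} {k : ℕ} (hk : k ∉ J)
    (ha : ∀ n, ‖a n‖ ≤ t) (hat : ‖a k‖ = t) :
    head J a + t * d #J ≤ head (insert k J) a := by
  unfold head
  rw [card_insert_of_notMem hk, sum_insert hk, hat]
  push_cast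
  have ht : 0 ≤ t := (norm_nonneg (a k)).trans_eq hat
  have hS : ∑ j ∈ J, ‖a j‖ ≤ #J * t := by
    calc ∑ j ∈ J, ‖a j‖ ≤ ∑ j ∈ J, t := sum_le_sum fun j _ => ha j
      _ = #J * t := by simp
  have hS0 : 0 ≤ ∑ j ∈ J, ‖a j‖ := sum_nonneg fun j _ => norm_nonneg _
  set S := ∑ j ∈ J, ‖a j‖ with hSdef
  set m : ℝ := (#J : ℝ) with hm
  have hm0 : 0 ≤ m := by positivity
  have hd : d #J = √(m + 1) - √m := rfl
  rw [hd]
  have h1 : 0 < √(m + 1) := Real.sqrt_pos.2 (by linarith)
  have h1' := Real.mul_self_sqrt (show (0 : ℝ) ≤ m + 1 by linarith)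
  have h2' := Real.mul_self_sqrt hm0
  rcases hm0.eq_or_lt with h0 | hpos
  · rw [← h0] at hS ⊢
    have hS1 : S = 0 := by nlinarith
    rw [hS1]
    simp
  · have h2 : 0 < √m := Real.sqrt_pos.2 hpos
    have h3 : √m ≤ √(m + 1) := Real.sqrt_le_sqrt (by linarith)
    have key : (√(m + 1))⁻¹ * (t + S) - (√m)⁻¹ * S - t * (√(m + 1) - √m) =
        (√m)⁻¹ * (√(m + 1))⁻¹ * ((m * t - S) * (√(m + 1) - √m)) := by
      field_simp
      linear_combination (-(t * √m)) * h1' + (t * √(m + 1)) * h2'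
    have h4 : 0 ≤ (√m)⁻¹ * (√(m + 1))⁻¹ * ((m * t - S) * (√(m + 1) - √m)) := by
      apply mul_nonneg (by positivity)
      exact mul_nonneg (by linarith) (by linarith)
    linarith

lemma norm_tail_insert {J : Finset ℕ} {M : ℕ} {a : ℕ → 𝕜} {t : ℝ} {k : ℕ} (hk : k ∉ J)
    (ha : ∀ n, ‖a n‖ ≤ t) :
    ‖tail J M a‖ ≤ ‖tail (insert k J) M a‖ + t * d #J := by
  have ht : 0 ≤ t := (norm_nonneg (a k)).trans (ha k)
  have hsub : tset (insert k J) M ⊆ tset J M := by
    intro n hn
    unfold tset at *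
    rw [card_insert_of_notMem hk] at hn
    simp only [mem_sdiff, mem_Ico, mem_insert, not_or] at *
    exact ⟨⟨by omega, hn.1.2⟩, hn.2.2⟩
  have hdiff : tset J M \ tset (insert k J) M ⊆ ({#J, k} : Finset ℕ).filter (fun n => #J ≤ n) := by
    intro n hn
    unfold tset at *
    rw [card_insert_of_notMem hk] at hn
    simp only [mem_sdiff, mem_Ico, mem_insert, not_or, mem_filter, mem_singleton, not_and,
      not_not] at *
    by_cases h1 : n = #J
    · exact ⟨Or.inl h1, h1.ge⟩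
    · refine ⟨Or.inr ?_, hn.1.1.1⟩
      by_contra h2
      exact hn.1.2 (hn.2 ⟨by omega, hn.1.1.2⟩ h2)
  have e : tail J M a = tail (insert k J) M a +
      ∑ n ∈ tset J M \ tset (insert k J) M, ((d n / 2 : ℝ) : 𝕜) * a n := by
    unfold tail
    rw [add_comm, sum_sdiff hsub]
  have h1 : ‖∑ n ∈ tset J M \ tset (insert k J) M, ((d n / 2 : ℝ) : 𝕜) * a n‖ ≤ t * d #J := by
    calc ‖∑ n ∈ tset J M \ tset (insert k J) M, ((d n / 2 : ℝ) : 𝕜) * a n‖
        ≤ ∑ n ∈ tset J M \ tset (insert k J) M, ‖((d n / 2 : ℝ) : 𝕜) * a n‖ := norm_sum_le _ _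
      _ ≤ ∑ n ∈ tset J M \ tset (insert k J) M, d #J / 2 * t := by
          refine sum_le_sum fun n hn => ?_
          have hn' := (mem_filter.1 (hdiff hn)).2
          rw [norm_mul, RCLike.norm_ofReal, abs_of_nonneg (by have := d_nonneg n; linarith)]
          have := d_anti hn'
          exact mul_le_mul (by linarith) (ha n) (norm_nonneg _) (by have := d_nonneg #J; linarith)
      _ = #(tset J M \ tset (insert k J) M) * (d #J / 2 * t) := by simp
      _ ≤ 2 * (d #J / 2 * t) := by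
          have h2 : #(tset J M \ tset (insert k J) M) ≤ 2 := by
            calc _ ≤ #(({#J, k} : Finset ℕ).filter (fun n => #J ≤ n)) := card_le_card hdiff
              _ ≤ #({#J, k} : Finset ℕ) := card_filter_le _ _
              _ ≤ 2 := card_le_two
          have h3 : (#(tset J M \ tset (insert k J) M) : ℝ) ≤ 2 := by exact_mod_cast h2
          have h4 := d_nonneg #J
          exact mul_le_mul_of_nonneg_right h3 (by positivity)
      _ = t * d #J := by ring
  rw [e]
  exact (norm_add_le _ _).trans (by linarith)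

/-- Adding a largest coefficient to the head does not decrease the value. -/
lemma val_le_insert {J : Finset ℕ} {M : ℕ} {a : ℕ → 𝕜} {t : ℝ} {k : ℕ} (hk : k ∉ J)
    (ha : ∀ n, ‖a n‖ ≤ t) (hat : ‖a k‖ = t) : val J M a ≤ val (insert k J) M a := by
  have h1 := head_insert_ge hk ha hat
  have h2 := norm_tail_insert (M := M) hk ha
  unfold val
  linarith

lemma val_le_union {J A : Finset ℕ} {M : ℕ} {a : ℕ → 𝕜} {t : ℝ}
    (ha : ∀ n, ‖a n‖ ≤ t) (hat : ∀ k ∈ A, ‖a k‖ = t) : val J M a ≤ val (J ∪ A) M a := by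
  induction A using Finset.induction_on with
  | empty => simp
  | insert k A hk ih =>
    have h1 := ih fun n hn => hat n (mem_insert_of_mem hn)
    rw [union_insert]
    by_cases h2 : k ∈ J ∪ A
    · rwa [insert_eq_of_mem h2]
    · exact h1.trans (val_le_insert h2 ha (hat k (mem_insert_self _ _)))

/-- The key symmetry: the value for `J` at `a = c + t 1_{ε A}` is dominated by a value of
`b = c + t 1_{η B}`. -/
lemma exists_val_ge {A B : Finset ℕ} (hAB : Disjoint A B) (hcard : #A = #B)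
    {a b : ℕ → 𝕜} {t : ℝ} (ha : ∀ n, ‖a n‖ ≤ t) (haA : ∀ n ∈ A, ‖a n‖ = t)
    (haB : ∀ n ∈ B, a n = 0) (hbA : ∀ n ∈ A, b n = 0) (hbB : ∀ n ∈ B, ‖b n‖ = t)
    (hab : ∀ n, n ∉ A → n ∉ B → a n = b n) (J : Finset ℕ) (M : ℕ) :
    ∃ J' : Finset ℕ, val J M a ≤ val J' M b := by
  obtain ⟨C, hCA, hCcard⟩ : ∃ C ⊆ A, #C = #(J ∩ B) := by
    apply exists_subset_card_eq
    rw [hcard]
    exact card_le_card inter_subset_right
  set J1 := J ∪ A with hJ1
  set J' := (J \ (A ∪ B)) ∪ (B ∪ C) with hJ'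
  refine ⟨J', (val_le_union ha haA).trans (le_of_eq ?_)⟩
  have e1 : J1 = (J \ (A ∪ B)) ∪ (A ∪ (J ∩ B)) := by
    ext n
    simp only [hJ1, mem_union, mem_sdiff, mem_inter]
    tauto
  have d1 : Disjoint (J \ (A ∪ B)) (A ∪ (J ∩ B)) := by
    rw [disjoint_left]
    intro n hn hn'
    simp only [mem_union, mem_sdiff, mem_inter] at hn hn'
    tauto
  have d2 : Disjoint A (J ∩ B) := hAB.mono_right inter_subset_right
  have d3 : Disjoint (J \ (A ∪ B)) (B ∪ C) := by
    rw [disjoint_left]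
    intro n hn hn'
    simp only [mem_union, mem_sdiff] at hn hn'
    rcases hn' with h | h
    · tauto
    · have := hCA h
      tauto
  have d4 : Disjoint B C := hAB.symm.mono_right hCA
  have hc : #J1 = #J' := by
    rw [e1, hJ', card_union_of_disjoint d1, card_union_of_disjoint d3,
      card_union_of_disjoint d2, card_union_of_disjoint d4, hCcard, hcard]
  have hhead : head J1 a = head J' b := by
    unfold head
    rw [hc]
    congr 1
    rw [e1, hJ', sum_union d1, sum_union d3, sum_union d2, sum_union d4]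
    have s1 : ∑ j ∈ J \ (A ∪ B), ‖a j‖ = ∑ j ∈ J \ (A ∪ B), ‖b j‖ := by
      refine sum_congr rfl fun n hn => ?_
      simp only [mem_sdiff, mem_union, not_or] at hn
      rw [hab n hn.2.1 hn.2.2]
    have s2 : ∑ j ∈ A, ‖a j‖ = ∑ j ∈ B, ‖b j‖ := by
      rw [sum_congr rfl haA, sum_congr rfl hbB]
      simp [hcard]
    have s3 : ∑ j ∈ J ∩ B, ‖a j‖ = 0 := by
      refine sum_eq_zero fun n hn => ?_
      rw [haB n (mem_inter.1 hn).2, norm_zero]
    have s4 : ∑ j ∈ C, ‖b j‖ = 0 := by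
      refine sum_eq_zero fun n hn => ?_
      rw [hbA n (hCA hn), norm_zero]
    rw [s1, s2, s3, s4]
  have htail : tail J1 M a = tail J' M b := by
    unfold tail tset
    rw [hc]
    -- both sums are equal to the sum over the common part
    have t1 : ∑ n ∈ Ico #J' M \ J1, ((d n / 2 : ℝ) : 𝕜) * a n =
        ∑ n ∈ (Ico #J' M \ J1) \ B, ((d n / 2 : ℝ) : 𝕜) * a n := by
      symm
      apply sum_subset sdiff_subset
      intro n hn hn'
      have : n ∈ B := by
        by_contra h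
        exact hn' (mem_sdiff.2 ⟨hn, h⟩)
      rw [haB n this, mul_zero]
    have t2 : ∑ n ∈ Ico #J' M \ J', ((d n / 2 : ℝ) : 𝕜) * b n =
        ∑ n ∈ (Ico #J' M \ J') \ A, ((d n / 2 : ℝ) : 𝕜) * b n := by
      symm
      apply sum_subset sdiff_subset
      intro n hn hn'
      have : n ∈ A := by
        by_contra h
        exact hn' (mem_sdiff.2 ⟨hn, h⟩)
      rw [hbA n this, mul_zero]
    rw [t1, t2]
    have t3 : (Ico #J' M \ J1) \ B = (Ico #J' M \ J') \ A := by
      ext n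
      have hC : n ∈ C → n ∈ A := fun h => hCA h
      simp only [hJ1, hJ', mem_sdiff, mem_union, mem_Ico, not_or, not_and, not_not]
      tauto
    rw [t3]
    refine sum_congr rfl fun n hn => ?_
    rw [← t3] at hn
    simp only [hJ1, mem_sdiff, mem_union, not_or] at hn
    rw [hab n hn.1.2.2 hn.2]
  unfold val
  rw [hhead, htail]

end

end Pool.Agent.TH339.PA
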