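import Pool.Agent.TH339.PA1

set_option autoImplicit false

/-!
# A norm with Property (A) which is not unconditional: the Banach space
-/

namespace Pool.Agent.TH339.PA

open Finset Filter Topology
open scoped ENNReal

noncomputable section

variable (𝕜 : Type) [RCLike 𝕜]

/-- Indices of the norming functionals: `(J, ε, M)` with `|ε n| ≤ 1`. -/
abbrev Idx : Type := {p : Finset ℕ × (ℕ → 𝕜) × ℕ // ∀ n, ‖p.2.1 n‖ ≤ 1}

variable {𝕜}

/-- The coefficients of the norming functional of index `i`. -/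
def cf (i : Idx 𝕜) (n : ℕ) : 𝕜 :=
  if n ∈ i.1.1 then (((√(#i.1.1 : ℝ))⁻¹ : ℝ) : 𝕜) * i.1.2.1 n
  else if n ∈ tset i.1.1 i.1.2.2 then ((d n / 2 : ℝ) : 𝕜) else 0

/-- The norming functional of index `i`. -/
def phi (i : Idx 𝕜) (a : ℕ → 𝕜) : 𝕜 := ∑ n ∈ i.1.1 ∪ tset i.1.1 i.1.2.2, cf i n * a n

lemma disj_tset (J : Finset ℕ) (M : ℕ) : Disjoint J (tset J M) := by
  unfold tset
  exact disjoint_sdiff

lemma phi_eq (i : Idx 𝕜) (a : ℕ → 𝕜) :
    phi i a = (((√(#i.1.1 : ℝ))⁻¹ : ℝ) : 𝕜) * ∑ n ∈ i.1.1, i.1.2.1 n * a n +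
      tail i.1.1 i.1.2.2 a := by
  unfold phi tail
  rw [sum_union (disj_tset _ _), mul_sum]
  congr 1
  · refine sum_congr rfl fun n hn => ?_
    unfold cf
    rw [if_pos hn, mul_assoc]
  · refine sum_congr rfl fun n hn => ?_
    unfold cf
    rw [if_neg (fun h => disjoint_left.1 (disj_tset _ _) h hn), if_pos hn]

lemma norm_phi_le (i : Idx 𝕜) (a : ℕ → 𝕜) : ‖phi i a‖ ≤ val i.1.1 i.1.2.2 a := by
  rw [phi_eq]
  unfold val head
  refine (norm_add_le _ _).trans (add_le_add ?_ le_rfl)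
  rw [norm_mul, RCLike.norm_ofReal, abs_of_nonneg (by positivity)]
  refine mul_le_mul_of_nonneg_left ?_ (by positivity)
  refine (norm_sum_le _ _).trans (sum_le_sum fun n _ => ?_)
  rw [norm_mul]
  exact mul_le_of_le_one_left (norm_nonneg _) (i.2 n)

/-- a unimodular number `u` with `z = |z| u`. -/
lemma exists_phase (z : 𝕜) : ∃ u : 𝕜, ‖u‖ = 1 ∧ z = (‖z‖ : 𝕜) * u := by
  by_cases h : z = 0
  · exact ⟨1, by simp, by simp [h]⟩
  · have h' : (‖z‖ : 𝕜) ≠ 0 := by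
      simpa using h
    refine ⟨z / (‖z‖ : 𝕜), ?_, ?_⟩
    · rw [norm_div, RCLike.norm_ofReal, abs_of_nonneg (norm_nonneg _), div_self]
      simpa using h
    · field_simp

lemma exists_phi (J : Finset ℕ) (M : ℕ) (a : ℕ → 𝕜) :
    ∃ i : Idx 𝕜, ‖phi i a‖ = val J M a := by
  obtain ⟨u, hu, hut⟩ := exists_phase (tail J M a)
  choose v hv hva using fun n => exists_phase (a n)
  have hvne : ∀ n, v n ≠ 0 := fun n h => by
    have := hv n
    rw [h, norm_zero] at this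
    exact zero_ne_one this
  refine ⟨⟨(J, fun n => u * (v n)⁻¹, M), ?_⟩, ?_⟩
  · intro n
    simp only
    rw [norm_mul, norm_inv, hu, hv n]
    simp
  · rw [phi_eq]
    simp only
    have e1 : ∑ n ∈ J, u * (v n)⁻¹ * a n = u * ((∑ n ∈ J, ‖a n‖ : ℝ) : 𝕜) := by
      rw [RCLike.ofReal_sum, mul_sum]
      refine sum_congr rfl fun n _ => ?_
      conv_lhs => rw [hva n]
      have := hvne n
      field_simp
    rw [e1, hut]
    have e2 : (((√(#J : ℝ))⁻¹ : ℝ) : 𝕜) * (u * ((∑ n ∈ J, ‖a n‖ : ℝ) : 𝕜)) +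
        (‖tail J M a‖ : 𝕜) * u = ((val J M a : ℝ) : 𝕜) * u := by
      unfold val head
      push_cast
      ring
    rw [e2, norm_mul, hu, mul_one, RCLike.norm_ofReal, abs_of_nonneg]
    exact add_nonneg (mul_nonneg (inv_nonneg.2 (Real.sqrt_nonneg _))
      (sum_nonneg fun _ _ => norm_nonneg _)) (norm_nonneg _)

lemma norm_cf_le (i : Idx 𝕜) (n : ℕ) : ‖cf i n‖ ≤ 1 := by
  unfold cf
  split_ifs with h1 h2
  · rw [norm_mul, RCLike.norm_ofReal, abs_of_nonneg (by positivity)]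
    have h3 : (1 : ℝ) ≤ √(#i.1.1 : ℝ) := by
      rw [Real.one_le_sqrt]
      have : 0 < #i.1.1 := card_pos.2 ⟨n, h1⟩
      exact_mod_cast this
    have h4 : (√(#i.1.1 : ℝ))⁻¹ ≤ 1 := inv_le_one_of_one_le₀ h3
    exact mul_le_one₀ h4 (norm_nonneg _) (i.2 n)
  · rw [RCLike.norm_ofReal, abs_of_nonneg (by have := d_nonneg n; linarith)]
    have := d_le_one n
    linarith
  · simp

/-- The big space. -/
abbrev E (𝕜 : Type) [RCLike 𝕜] : Type := lp (fun _ : Idx 𝕜 => 𝕜) ∞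

/-- The unit vectors in the big space. -/
def ev (𝕜 : Type) [RCLike 𝕜] (n : ℕ) : E 𝕜 :=
  ⟨fun i => cf i n, memℓp_infty ⟨1, by rintro _ ⟨i, rfl⟩; exact norm_cf_le i n⟩⟩

@[simp] lemma ev_apply (n : ℕ) (i : Idx 𝕜) : (ev 𝕜 n : Idx 𝕜 → 𝕜) i = cf i n := rfl

/-- The index of the `n`-th coordinate functional. -/
def ci (𝕜 : Type) [RCLike 𝕜] (n : ℕ) : Idx 𝕜 := ⟨({n}, fun _ => 1, 0), fun _ => by simp⟩

lemma cf_ci (n m : ℕ) : cf (ci 𝕜 n) m = if n = m then 1 else 0 := by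
  unfold cf ci
  simp only [mem_singleton, card_singleton, Nat.cast_one, Real.sqrt_one, inv_one,
    RCLike.ofReal_one, mul_one, tset]
  by_cases h : n = m
  · simp [h]
  · have h' : ¬ m = n := fun hh => h hh.symm
    simp [h, h']

/-- Evaluation at an index. -/
def evalE (i : Idx 𝕜) : E 𝕜 →L[𝕜] 𝕜 :=
  LinearMap.mkContinuous
    { toFun := fun f => (f : Idx 𝕜 → 𝕜) i
      map_add' := fun _ _ => rfl
      map_smul' := fun _ _ => rfl } 1 fun f => by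
      rw [one_mul]
      exact lp.norm_apply_le_norm ENNReal.top_ne_zero f i

@[simp] lemma evalE_apply (i : Idx 𝕜) (f : E 𝕜) : evalE i f = (f : Idx 𝕜 → 𝕜) i := rfl

/-- The space. -/
def XS (𝕜 : Type) [RCLike 𝕜] : Submodule 𝕜 (E 𝕜) :=
  (Submodule.span 𝕜 (Set.range (ev 𝕜))).topologicalClosure

lemma ev_mem (n : ℕ) : ev 𝕜 n ∈ XS 𝕜 :=
  Submodule.le_topologicalClosure _ (Submodule.subset_span ⟨n, rfl⟩)

/-- The coordinates determine the values. -/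
lemma apply_eq_phi {f : E 𝕜} (hf : f ∈ XS 𝕜) (i : Idx 𝕜) :
    (f : Idx 𝕜 → 𝕜) i = phi i (fun n => (f : Idx 𝕜 → 𝕜) (ci 𝕜 n)) := by
  -- the closed submodule of all such `f`
  let T : E 𝕜 →L[𝕜] 𝕜 := evalE i - ∑ n ∈ i.1.1 ∪ tset i.1.1 i.1.2.2, cf i n • evalE (ci 𝕜 n)
  have hT : ∀ g : E 𝕜, T g = (g : Idx 𝕜 → 𝕜) i - phi i (fun n => (g : Idx 𝕜 → 𝕜) (ci 𝕜 n)) := by
    intro g
    simp [T, phi]
  have hle : XS 𝕜 ≤ LinearMap.ker (T : E 𝕜 →ₗ[𝕜] 𝕜) := by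
    apply Submodule.topologicalClosure_minimal
    · rw [Submodule.span_le]
      rintro _ ⟨m, rfl⟩
      simp only [SetLike.mem_coe, LinearMap.mem_ker, ContinuousLinearMap.coe_coe]
      rw [hT, ev_apply, sub_eq_zero]
      unfold phi
      simp only [ev_apply, cf_ci, mul_ite, mul_one, mul_zero, sum_ite_eq']
      split_ifs with h
      · rfl
      · unfold cf
        rw [mem_union, not_or] at h
        rw [if_neg h.1, if_neg h.2]
    · exact ContinuousLinearMap.isClosed_ker T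
  have := hle hf
  simp only [LinearMap.mem_ker, ContinuousLinearMap.coe_coe] at this
  rw [hT, sub_eq_zero] at this
  exact this

/-- The Banach space. -/
def X (𝕜 : Type) [RCLike 𝕜] : Type := XS 𝕜

instance instNACG : NormedAddCommGroup (X 𝕜) := inferInstanceAs (NormedAddCommGroup (XS 𝕜))

instance instNS : NormedSpace 𝕜 (X 𝕜) := inferInstanceAs (NormedSpace 𝕜 (XS 𝕜))

instance instAG : AddCommGroup (X 𝕜) := inferInstance

instance instComplete : CompleteSpace (X 𝕜) :=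
  (Submodule.isClosed_topologicalClosure _).completeSpace_coe

/-- The inclusion. -/
def incl (𝕜 : Type) [RCLike 𝕜] : X 𝕜 →L[𝕜] E 𝕜 := (XS 𝕜).subtypeL

lemma norm_incl (x : X 𝕜) : ‖incl 𝕜 x‖ = ‖x‖ := rfl

/-- The basis. -/
def bx (𝕜 : Type) [RCLike 𝕜] (n : ℕ) : X 𝕜 := ⟨ev 𝕜 n, ev_mem n⟩

/-- The coordinate functionals. -/
def bs (𝕜 : Type) [RCLike 𝕜] (n : ℕ) : X 𝕜 →L[𝕜] 𝕜 := (evalE (ci 𝕜 n)).comp (incl 𝕜)

lemma bs_apply (n : ℕ) (x : X 𝕜) : bs 𝕜 n x = (x.1 : Idx 𝕜 → 𝕜) (ci 𝕜 n) := rfl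

lemma bs_bx (n m : ℕ) : bs 𝕜 n (bx 𝕜 m) = if n = m then 1 else 0 := by
  rw [bs_apply]
  exact cf_ci n m

/-- coordinates -/
def co (x : X 𝕜) (n : ℕ) : 𝕜 := bs 𝕜 n x

lemma apply_eq (x : X 𝕜) (i : Idx 𝕜) : (x.1 : Idx 𝕜 → 𝕜) i = phi i (co x) :=
  apply_eq_phi x.2 i

lemma val_le_norm (x : X 𝕜) (J : Finset ℕ) (M : ℕ) : val J M (co x) ≤ ‖x‖ := by
  obtain ⟨i, hi⟩ := exists_phi J M (co x)
  rw [← hi, ← apply_eq]
  exact lp.norm_apply_le_norm ENNReal.top_ne_zero x.1 i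

lemma norm_le_of_val {x : X 𝕜} {C : ℝ} (hC : 0 ≤ C) (h : ∀ J M, val J M (co x) ≤ C) : ‖x‖ ≤ C := by
  refine lp.norm_le_of_forall_le (f := x.1) hC fun i => ?_
  rw [apply_eq]
  exact (norm_phi_le _ _).trans (h _ _)

lemma norm_co_le (x : X 𝕜) (n : ℕ) : ‖co x n‖ ≤ ‖x‖ :=
  lp.norm_apply_le_norm ENNReal.top_ne_zero x.1 (ci 𝕜 n)

lemma norm_le_of_dom {x y : X 𝕜} (h : ∀ J M, ∃ J' M', val J M (co x) ≤ val J' M' (co y)) :
    ‖x‖ ≤ ‖y‖ := by
  refine norm_le_of_val (norm_nonneg _) fun J M => ?_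
  obtain ⟨J', M', h'⟩ := h J M
  exact h'.trans (val_le_norm y J' M')

lemma eq_zero_of_co {x : X 𝕜} (h : ∀ n, co x n = 0) : x = 0 := by
  have h1 : ‖x‖ ≤ 0 := by
    refine norm_le_of_val le_rfl fun J M => ?_
    simp [val, head, tail, h]
  exact norm_le_zero_iff.1 h1

lemma norm_bx_le (n : ℕ) : ‖bx 𝕜 n‖ ≤ 1 :=
  lp.norm_le_of_forall_le (f := ev 𝕜 n) zero_le_one fun i => norm_cf_le i n

lemma norm_bs_le (n : ℕ) : ‖bs 𝕜 n‖ ≤ 1 :=
  ContinuousLinearMap.opNorm_le_bound _ zero_le_one fun x => by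
    rw [one_mul]
    exact norm_co_le x n

lemma dense_span : (Submodule.span 𝕜 (Set.range (bx 𝕜))).topologicalClosure = ⊤ := by
  rw [eq_top_iff]
  intro x _
  have h1 : incl 𝕜 x ∈ closure ((Submodule.span 𝕜 (Set.range (ev 𝕜)) : Submodule 𝕜 (E 𝕜)) :
      Set (E 𝕜)) := x.2
  rw [← SetLike.mem_coe, Submodule.topologicalClosure_coe, Metric.mem_closure_iff]
  rw [Metric.mem_closure_iff] at h1
  intro ε hε
  obtain ⟨g, hg, hfg⟩ := h1 ε hε
  have hmap : (Submodule.span 𝕜 (Set.range (bx 𝕜))).map (incl 𝕜 : X 𝕜 →ₗ[𝕜] E 𝕜) =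
      Submodule.span 𝕜 (Set.range (ev 𝕜)) := by
    rw [Submodule.map_span, ← Set.range_comp]
    rfl
  have hg' : g ∈ (Submodule.span 𝕜 (Set.range (bx 𝕜))).map (incl 𝕜 : X 𝕜 →ₗ[𝕜] E 𝕜) := by
    rw [hmap]; exact hg
  obtain ⟨g', hg1, hg2⟩ := hg'
  refine ⟨g', hg1, ?_⟩
  rw [← hg2] at hfg
  rw [dist_eq_norm] at hfg ⊢
  have : ‖x - g'‖ = ‖incl 𝕜 x - incl 𝕜 g'‖ := by
    rw [← map_sub, norm_incl]
  rw [this]
  exact hfg

lemma co_add (x y : X 𝕜) (n : ℕ) : co (x + y) n = co x n + co y n := by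
  unfold co; rw [map_add]

lemma co_sub (x y : X 𝕜) (n : ℕ) : co (x - y) n = co x n - co y n := by
  unfold co; rw [map_sub]

lemma co_sum_smul (A : Finset ℕ) (c : ℕ → 𝕜) (n : ℕ) :
    co (∑ m ∈ A, c m • bx 𝕜 m) n = if n ∈ A then c n else 0 := by
  unfold co
  rw [map_sum]
  simp only [map_smul, bs_bx, smul_eq_mul, mul_ite, mul_one, mul_zero]
  rw [sum_ite_eq]

/-- Property (A), one inequality. -/
lemma propA_le (x : X 𝕜) (A B : Finset ℕ) (ε η : ℕ → 𝕜) {t : ℝ} (hx : ∀ n, ‖co x n‖ ≤ t)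
    (hAB : Disjoint A B) (hcard : #A = #B) (hxAB : ∀ n ∈ A ∪ B, co x n = 0)
    (hε : ∀ n ∈ A, ‖ε n‖ = t) (hη : ∀ n ∈ B, ‖η n‖ = t) :
    ‖x + ∑ n ∈ A, ε n • bx 𝕜 n‖ ≤ ‖x + ∑ n ∈ B, η n • bx 𝕜 n‖ := by
  refine norm_le_of_dom fun J M => ?_
  have ha : ∀ n, co (x + ∑ n ∈ A, ε n • bx 𝕜 n) n = co x n + if n ∈ A then ε n else 0 := fun n => by
    rw [co_add, co_sum_smul]
  have hb : ∀ n, co (x + ∑ n ∈ B, η n • bx 𝕜 n) n = co x n + if n ∈ B then η n else 0 := fun n => by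
    rw [co_add, co_sum_smul]
  have hBA : ∀ n ∈ B, n ∉ A := fun n hn hn' => disjoint_left.1 hAB hn' hn
  have hAB' : ∀ n ∈ A, n ∉ B := fun n hn hn' => disjoint_left.1 hAB hn hn'
  have hmain : ∃ J', val J M (co (x + ∑ n ∈ A, ε n • bx 𝕜 n)) ≤
      val J' M (co (x + ∑ n ∈ B, η n • bx 𝕜 n)) := by
    refine exists_val_ge (t := t) hAB hcard ?_ ?_ ?_ ?_ ?_ ?_ J M
    · intro n
      rw [ha]
      split_ifs with h
      · rw [hxAB n (mem_union_left _ h), zero_add, hε n h]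
      · rw [add_zero]; exact hx n
    · intro n h
      rw [ha, if_pos h, hxAB n (mem_union_left _ h), zero_add, hε n h]
    · intro n h
      rw [ha, if_neg (hBA n h), hxAB n (mem_union_right _ h), add_zero]
    · intro n h
      rw [hb, if_neg (hAB' n h), hxAB n (mem_union_left _ h), add_zero]
    · intro n h
      rw [hb, if_pos h, hxAB n (mem_union_right _ h), zero_add, hη n h]
    · intro n h1 h2
      rw [ha, hb, if_neg h1, if_neg h2]
  obtain ⟨J', hJ'⟩ := hmain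
  exact ⟨J', M, hJ'⟩

/-! ### The basis is a monotone Schauder basis -/

lemma val_trunc_le (J : Finset ℕ) (M k : ℕ) (a : ℕ → 𝕜) :
    val J M (fun n => if n < k then a n else 0) ≤ val J (min M k) a := by
  unfold val head
  refine add_le_add ?_ (le_of_eq ?_)
  · refine mul_le_mul_of_nonneg_left (sum_le_sum fun n _ => ?_) (by positivity)
    by_cases h : n < k
    · simp [h]
    · simp [h]
  · congr 1
    unfold tail
    have : tset J (min M k) = (tset J M).filter (fun n => n < k) := by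
      ext n
      simp only [tset, Finset.mem_sdiff, Finset.mem_Ico, Finset.mem_filter, lt_min_iff]
      tauto
    rw [this, sum_filter]
    refine sum_congr rfl fun n _ => ?_
    by_cases h : n < k
    · simp [h]
    · simp [h]

lemma norm_partial_le (x : X 𝕜) (k : ℕ) : ‖∑ n ∈ range k, bs 𝕜 n x • bx 𝕜 n‖ ≤ ‖x‖ := by
  refine norm_le_of_dom fun J M => ⟨J, min M k, ?_⟩
  have : co (∑ n ∈ range k, bs 𝕜 n x • bx 𝕜 n) = fun n => if n < k then co x n else 0 := by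
    funext n
    rw [co_sum_smul]
    simp [co]
  rw [this]
  exact val_trunc_le J M k _

lemma schauder (x : X 𝕜) :
    Tendsto (fun k => ∑ n ∈ range k, bs 𝕜 n x • bx 𝕜 n) atTop (𝓝 x) := by
  rw [Metric.tendsto_atTop]
  intro ε hε
  have hx : x ∈ (Submodule.span 𝕜 (Set.range (bx 𝕜))).topologicalClosure := by
    rw [dense_span]; trivial
  rw [← SetLike.mem_coe, Submodule.topologicalClosure_coe, Metric.mem_closure_iff] at hx
  obtain ⟨y, hy, hxy⟩ := hx (ε / 2) (by linarith)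
  -- eventually the partial sums of `y` are equal to `y`
  have hfin : ∃ K, ∀ k ≥ K, ∑ n ∈ range k, bs 𝕜 n y • bx 𝕜 n = y := by
    refine Submodule.span_induction (p := fun y _ => ∃ K, ∀ k ≥ K,
      ∑ n ∈ range k, bs 𝕜 n y • bx 𝕜 n = y) ?_ ?_ ?_ ?_ hy
    · rintro _ ⟨m, rfl⟩
      refine ⟨m + 1, fun k hk => ?_⟩
      simp only [bs_bx, ite_smul, one_smul, zero_smul]
      rw [sum_ite_eq' (range k) m (fun n => bx 𝕜 n), if_pos (mem_range.2 hk)]
    · exact ⟨0, fun k _ => by simp⟩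
    · rintro u v - - ⟨K, hK⟩ ⟨L, hL⟩
      refine ⟨max K L, fun k hk => ?_⟩
      simp only [map_add, add_smul, sum_add_distrib]
      rw [hK k (le_trans (le_max_left _ _) hk), hL k (le_trans (le_max_right _ _) hk)]
    · rintro c u - ⟨K, hK⟩
      refine ⟨K, fun k hk => ?_⟩
      simp only [map_smul, smul_eq_mul, mul_smul]
      rw [← smul_sum, hK k hk]
  obtain ⟨K, hK⟩ := hfin
  refine ⟨K, fun k hk => ?_⟩
  have h1 := hK k hk
  have h2 : ∑ n ∈ range k, bs 𝕜 n x • bx 𝕜 n - x =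
      ∑ n ∈ range k, bs 𝕜 n (x - y) • bx 𝕜 n - (x - y) := by
    simp only [map_sub, sub_smul, sum_sub_distrib]
    rw [h1]
    abel
  rw [dist_eq_norm, h2]
  have h3 := norm_partial_le (x - y) k
  have h4 : ‖x - y‖ < ε / 2 := by rwa [← dist_eq_norm]
  calc ‖∑ n ∈ range k, bs 𝕜 n (x - y) • bx 𝕜 n - (x - y)‖
      ≤ ‖∑ n ∈ range k, bs 𝕜 n (x - y) • bx 𝕜 n‖ + ‖x - y‖ := norm_sub_le _ _
    _ < ε := by linarith

end

end Pool.Agent.TH339.PA
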