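import Pool.Agent.TH339.PA2

set_option autoImplicit false

/-!
# A norm with Property (A) which is not unconditional: failure of unconditionality
-/

namespace Pool.Agent.TH339.PA

open Finset Filter Topology
open scoped ENNReal

noncomputable section

lemma sum_d_range (m : ℕ) : ∑ j ∈ range m, d j = √(m : ℝ) := by
  induction m with
  | zero => simp
  | succ m ih =>
    rw [sum_range_succ, ih]
    unfold d
    push_cast
    ring

lemma sum_d_le (m : ℕ) : ∀ J : Finset ℕ, #J = m → ∑ j ∈ J, d j ≤ √(m : ℝ) := by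
  induction m with
  | zero =>
    intro J hJ
    rw [card_eq_zero.1 hJ]
    simp
  | succ m ih =>
    intro J hJ
    have hne : J.Nonempty := card_pos.1 (by omega)
    set k := J.max' hne with hk
    have hkJ : k ∈ J := max'_mem _ _
    have h1 : m ≤ k := by
      have h2 : J ⊆ range (k + 1) := fun n hn => by
        have := le_max' J n hn
        rw [mem_range]
        omega
      have := card_le_card h2
      rw [card_range] at this
      omega
    have h3 : #(J.erase k) = m := by rw [card_erase_of_mem hkJ, hJ]; rfl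
    rw [← add_sum_erase J d hkJ]
    have h4 := ih _ h3
    have h5 := d_anti h1
    have h6 : d m = √(((m + 1 : ℕ) : ℝ)) - √(m : ℝ) := by unfold d; push_cast; rfl
    linarith

lemma alt_sum (b : ℕ → ℝ) (hb : ∀ n, 0 ≤ b n) (hanti : ∀ m n, m ≤ n → b n ≤ b m) (k : ℕ) :
    ∀ p, 0 ≤ ∑ i ∈ range k, (-1 : ℝ) ^ i * b (p + i) ∧
      ∑ i ∈ range k, (-1 : ℝ) ^ i * b (p + i) ≤ b p := by
  induction k with
  | zero => intro p; simp [hb]
  | succ k ih =>
    intro p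
    rw [sum_range_succ']
    have h1 : ∑ i ∈ range k, (-1 : ℝ) ^ (i + 1) * b (p + (i + 1)) =
        - ∑ i ∈ range k, (-1 : ℝ) ^ i * b (p + 1 + i) := by
      rw [← sum_neg_distrib]
      refine sum_congr rfl fun i _ => ?_
      rw [pow_succ, show p + (i + 1) = p + 1 + i by ring]
      ring
    rw [h1]
    have h2 := ih (p + 1)
    have h3 := hanti p (p + 1) (by omega)
    simp only [pow_zero, one_mul, add_zero]
    constructor <;> linarith [h2.1, h2.2]

lemma abs_alt_sum_Ico (b : ℕ → ℝ) (hb : ∀ n, 0 ≤ b n) (hanti : ∀ m n, m ≤ n → b n ≤ b m)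
    (p q : ℕ) : |∑ n ∈ Ico p q, (-1 : ℝ) ^ n * b n| ≤ b p := by
  rw [sum_Ico_eq_sum_range]
  have h1 : ∑ k ∈ range (q - p), (-1 : ℝ) ^ (p + k) * b (p + k) =
      (-1) ^ p * ∑ i ∈ range (q - p), (-1 : ℝ) ^ i * b (p + i) := by
    rw [mul_sum]
    refine sum_congr rfl fun i _ => ?_
    rw [pow_add]
    ring
  rw [h1, abs_mul, abs_pow, abs_neg, abs_one, one_pow, one_mul]
  have h2 := alt_sum b hb hanti (q - p) p
  rw [abs_of_nonneg h2.1]
  exact h2.2

lemma d_sq_mul_le (m : ℕ) : (m : ℝ) * d m ^ 2 ≤ 1 := by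
  have h1 := d_mul m
  have h2 := d_nonneg m
  have h3 : 0 ≤ √(m : ℝ) := Real.sqrt_nonneg _
  have h4 : 0 ≤ √((m : ℝ) + 1) := Real.sqrt_nonneg _
  have h5 : d m * √(m : ℝ) ≤ 1 := by nlinarith
  have h6 : 0 ≤ d m * √(m : ℝ) := mul_nonneg h2 h3
  have h7 := Real.mul_self_sqrt (show (0 : ℝ) ≤ (m : ℝ) by positivity)
  calc (m : ℝ) * d m ^ 2 = (d m * √(m : ℝ)) * (d m * √(m : ℝ)) := by
        linear_combination (- (d m ^ 2)) * h7
    _ ≤ 1 * 1 := mul_le_mul h5 h5 h6 zero_le_one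
    _ = 1 := one_mul 1

lemma d_sq_ge (n : ℕ) : 1 / (4 * ((n : ℝ) + 1)) ≤ d n ^ 2 := by
  have h1 := d_mul n
  have h2 := d_nonneg n
  have h3 : √(n : ℝ) ≤ √((n : ℝ) + 1) := Real.sqrt_le_sqrt (by linarith)
  have h4 : 0 ≤ √((n : ℝ) + 1) := Real.sqrt_nonneg _
  have h5 : 1 ≤ d n * (2 * √((n : ℝ) + 1)) := by nlinarith
  have h7 := Real.mul_self_sqrt (show (0 : ℝ) ≤ (n : ℝ) + 1 by positivity)
  rw [div_le_iff₀ (by positivity)]
  calc (1 : ℝ) = 1 * 1 := by ring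
    _ ≤ (d n * (2 * √((n : ℝ) + 1))) * (d n * (2 * √((n : ℝ) + 1))) :=
        mul_le_mul h5 h5 zero_le_one (by linarith)
    _ = d n ^ 2 * (4 * ((n : ℝ) + 1)) := by linear_combination (4 * d n ^ 2) * h7

variable (𝕜 : Type) [RCLike 𝕜]

/-- the real coefficients of the test vector -/
def tc (N n : ℕ) : ℝ := if n < 2 * N then (-1) ^ n * d n else 0

/-- The test vectors. -/
def tv (N : ℕ) : X 𝕜 := ∑ n ∈ range (2 * N), ((tc N n : ℝ) : 𝕜) • bx 𝕜 n

lemma abs_tc_le (N n : ℕ) : |tc N n| ≤ d n := by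
  unfold tc
  split_ifs
  · rw [abs_mul, abs_pow, abs_neg, abs_one, one_pow, one_mul, abs_of_nonneg (d_nonneg n)]
  · simpa using d_nonneg n

variable {𝕜}

lemma co_tv (N n : ℕ) : co (tv 𝕜 N) n = ((tc N n : ℝ) : 𝕜) := by
  unfold tv
  rw [co_sum_smul]
  split_ifs with h
  · rfl
  · unfold tc
    rw [mem_range] at h
    rw [if_neg h]
    simp

lemma tail_tv (J : Finset ℕ) (M N : ℕ) : ‖tail J M (co (tv 𝕜 N))‖ ≤ 1 := by
  have e1 : tail J M (co (tv 𝕜 N)) = ((∑ n ∈ tset J M, d n / 2 * tc N n : ℝ) : 𝕜) := by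
    unfold tail
    rw [RCLike.ofReal_sum]
    refine sum_congr rfl fun n _ => ?_
    rw [co_tv, RCLike.ofReal_mul]
  rw [e1, RCLike.norm_ofReal]
  set b : ℕ → ℝ := fun n => d n ^ 2 / 2 with hb
  have hb0 : ∀ n, 0 ≤ b n := fun n => by simp only [hb]; positivity
  have hba : ∀ m n, m ≤ n → b n ≤ b m := fun m n h => by
    have h1 := d_anti h
    have h2 := d_nonneg n
    simp only [hb]
    nlinarith
  have e2 : ∑ n ∈ tset J M, d n / 2 * tc N n =
      ∑ n ∈ Ico #J (min M (2 * N)) \ J, (-1 : ℝ) ^ n * b n := by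
    have : Ico #J (min M (2 * N)) \ J = (tset J M).filter (fun n => n < 2 * N) := by
      ext n
      simp only [tset, Finset.mem_sdiff, Finset.mem_Ico, Finset.mem_filter, lt_min_iff]
      tauto
    rw [this, sum_filter]
    refine sum_congr rfl fun n _ => ?_
    unfold tc
    by_cases h : n < 2 * N
    · rw [if_pos h, if_pos h]
      simp only [hb]
      ring
    · rw [if_neg h, if_neg h, mul_zero]
  rw [e2]
  set U := Ico #J (min M (2 * N)) with hU
  have e3 : ∑ n ∈ U \ J, (-1 : ℝ) ^ n * b n =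
      ∑ n ∈ U, (-1 : ℝ) ^ n * b n - ∑ n ∈ U ∩ J, (-1 : ℝ) ^ n * b n := by
    rw [← sum_sdiff (inter_subset_left (s₁ := U) (s₂ := J)), sdiff_inter_self_left]
    ring
  rw [e3]
  have h1 := abs_alt_sum_Ico b hb0 hba #J (min M (2 * N))
  have h2 : |∑ n ∈ U ∩ J, (-1 : ℝ) ^ n * b n| ≤ #J * b #J := by
    calc |∑ n ∈ U ∩ J, (-1 : ℝ) ^ n * b n| ≤ ∑ n ∈ U ∩ J, |(-1 : ℝ) ^ n * b n| :=
          abs_sum_le_sum_abs _ _
      _ ≤ ∑ n ∈ U ∩ J, b #J := by
          refine sum_le_sum fun n hn => ?_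
          rw [abs_mul, abs_pow, abs_neg, abs_one, one_pow, one_mul, abs_of_nonneg (hb0 n)]
          exact hba _ _ (Finset.mem_Ico.1 (mem_inter.1 hn).1).1
      _ = #(U ∩ J) * b #J := by simp
      _ ≤ #J * b #J := by
          have : (#(U ∩ J) : ℝ) ≤ #J := by exact_mod_cast card_le_card inter_subset_right
          exact mul_le_mul_of_nonneg_right this (hb0 _)
  have h3 : #J * b #J ≤ 1 / 2 := by
    have := d_sq_mul_le #J
    simp only [hb]
    linarith
  have h4 : b #J ≤ 1 / 2 := by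
    have h5 := d_le_one #J
    have h6 := d_nonneg #J
    simp only [hb]
    nlinarith
  have h7 := abs_sub (∑ n ∈ U, (-1 : ℝ) ^ n * b n) (∑ n ∈ U ∩ J, (-1 : ℝ) ^ n * b n)
  linarith

lemma norm_tv_le (N : ℕ) : ‖tv 𝕜 N‖ ≤ 2 := by
  refine norm_le_of_val (by norm_num) fun J M => ?_
  have h1 : head J (co (tv 𝕜 N)) ≤ 1 := by
    unfold head
    have h2 : ∑ j ∈ J, ‖co (tv 𝕜 N) j‖ ≤ √(#J : ℝ) := by
      refine le_trans (sum_le_sum fun j _ => ?_) (sum_d_le #J J rfl)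
      rw [co_tv, RCLike.norm_ofReal]
      exact abs_tc_le N j
    have h3 : 0 ≤ (√(#J : ℝ))⁻¹ := by positivity
    calc (√(#J : ℝ))⁻¹ * ∑ j ∈ J, ‖co (tv 𝕜 N) j‖ ≤ (√(#J : ℝ))⁻¹ * √(#J : ℝ) :=
          mul_le_mul_of_nonneg_left h2 h3
      _ ≤ 1 := inv_mul_le_one
  have h4 := tail_tv (𝕜 := 𝕜) J M N
  unfold val
  linarith

/-- The projection onto a finite set of coordinates. -/
def PF (F : Finset ℕ) : X 𝕜 →L[𝕜] X 𝕜 := ∑ n ∈ F, (bs 𝕜 n).smulRight (bx 𝕜 n)

lemma PF_apply (F : Finset ℕ) (x : X 𝕜) : PF F x = ∑ n ∈ F, bs 𝕜 n x • bx 𝕜 n := by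
  unfold PF
  rw [_root_.sum_apply]
  rfl

lemma norm_PF_tv_ge (N : ℕ) :
    (1 / 16) * ∑ k ∈ range N, 1 / ((k : ℝ) + 1) ≤
      ‖PF ((range N).image (fun k => 2 * k)) (tv 𝕜 N)‖ := by
  refine le_trans ?_ (val_le_norm _ ∅ (2 * N))
  set F := (range N).image (fun k => 2 * k) with hF
  have hco : ∀ n, co (PF F (tv 𝕜 N)) n = if n ∈ F then co (tv 𝕜 N) n else 0 := by
    intro n
    rw [PF_apply, co_sum_smul]
    rfl
  have hFlt : ∀ n ∈ F, n < 2 * N := by
    intro n hn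
    obtain ⟨k, hk, rfl⟩ := mem_image.1 hn
    have := mem_range.1 hk
    omega
  unfold val head
  simp only [card_empty, Nat.cast_zero, Real.sqrt_zero, inv_zero, sum_empty, mul_zero, zero_add]
  have e1 : tail ∅ (2 * N) (co (PF F (tv 𝕜 N))) =
      ((∑ n ∈ F, d n ^ 2 / 2 : ℝ) : 𝕜) := by
    unfold tail
    have e2 : tset ∅ (2 * N) = range (2 * N) := by
      unfold tset
      ext n
      simp
    rw [e2, RCLike.ofReal_sum]
    have e3 : ∀ n ∈ range (2 * N), ((d n / 2 : ℝ) : 𝕜) * co (PF F (tv 𝕜 N)) n =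
        if n ∈ F then ((d n ^ 2 / 2 : ℝ) : 𝕜) else 0 := by
      intro n _
      rw [hco]
      split_ifs with h
      · rw [co_tv, ← RCLike.ofReal_mul]
        unfold tc
        rw [if_pos (hFlt n h)]
        obtain ⟨k, _, rfl⟩ := mem_image.1 h
        rw [pow_mul, neg_one_sq, one_pow]
        congr 1
        ring
      · rw [mul_zero]
    rw [sum_congr rfl e3, ← sum_filter]
    refine sum_congr ?_ fun _ _ => rfl
    ext n
    simp only [Finset.mem_filter, Finset.mem_range]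
    exact ⟨fun h => h.2, fun h => ⟨hFlt n h, h⟩⟩
  rw [e1, RCLike.norm_ofReal, abs_of_nonneg (sum_nonneg fun n _ => by positivity)]
  rw [hF, sum_image (fun a _ b _ h => by simpa using h), mul_sum]
  refine sum_le_sum fun k _ => ?_
  have h1 := d_sq_ge (2 * k)
  push_cast at h1
  have h2 : (1 : ℝ) / 16 * (1 / ((k : ℝ) + 1)) ≤ 1 / (4 * (2 * (k : ℝ) + 1)) / 2 := by
    rw [div_mul_div_comm, div_div, one_mul]
    apply one_div_le_one_div_of_le (by positivity)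
    nlinarith [(Nat.cast_nonneg k : (0 : ℝ) ≤ k)]
  linarith

lemma bounded_of_summable {f : ℕ → X 𝕜} (hf : Summable f) :
    ∃ C, ∀ F : Finset ℕ, ‖∑ n ∈ F, f n‖ ≤ C := by
  obtain ⟨s, hs⟩ := summable_iff_vanishing_norm.1 hf 1 one_pos
  refine ⟨∑ n ∈ s, ‖f n‖ + 1, fun F => ?_⟩
  have h1 : ∑ n ∈ F, f n = ∑ n ∈ F ∩ s, f n + ∑ n ∈ F \ s, f n := by
    rw [add_comm, ← sum_sdiff (inter_subset_left (s₁ := F) (s₂ := s)), sdiff_inter_self_left]
  rw [h1]
  have h2 : ‖∑ n ∈ F ∩ s, f n‖ ≤ ∑ n ∈ s, ‖f n‖ :=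
    (norm_sum_le _ _).trans (sum_le_sum_of_subset_of_nonneg inter_subset_right
      fun _ _ _ => norm_nonneg _)
  have h3 := hs (F \ s) disjoint_sdiff_self_left
  exact (norm_add_le _ _).trans (by linarith)

theorem not_unconditional : ¬ ∀ x : X 𝕜, HasSum (fun n => bs 𝕜 n x • bx 𝕜 n) x := by
  intro h
  obtain ⟨C, hC⟩ := banach_steinhaus (g := fun F : Finset ℕ => (PF F : X 𝕜 →L[𝕜] X 𝕜)) (by
    intro x
    obtain ⟨C, hC⟩ := bounded_of_summable (h x).summable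
    exact ⟨C, fun F => by rw [PF_apply]; exact hC F⟩)
  have h1 : ∀ N : ℕ, ∑ k ∈ range N, 1 / ((k : ℝ) + 1) ≤ 16 * (C * 2) := by
    intro N
    have h2 := norm_PF_tv_ge (𝕜 := 𝕜) N
    have h3 : ‖PF ((range N).image (fun k => 2 * k)) (tv 𝕜 N)‖ ≤ C * 2 := by
      refine (ContinuousLinearMap.le_opNorm _ _).trans ?_
      have hC0 : 0 ≤ C := (norm_nonneg _).trans (hC ∅)
      exact mul_le_mul (hC _) (norm_tv_le N) (norm_nonneg _) hC0
    linarith
  have h4 := Real.tendsto_sum_range_one_div_nat_succ_atTop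
  obtain ⟨N, hN⟩ := (h4.eventually_gt_atTop (16 * (C * 2))).exists
  linarith [h1 N]

end

end Pool.Agent.TH339.PA
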